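import Pool.Agent.H93.EGM.Null

set_option autoImplicit false

/-!
# Row Weak: weak sequential compactness of bounded functions

Proof. `μ` := a finite measure on `ℂ` with `μ ≪ volume ≪ μ` (`(volume : Measure ℂ).toFinite`,
`absolutelyContinuous_toFinite`, `toFinite_absolutelyContinuous`). `F n ∈ L²(μ)` of norm `≤ √(μ univ)`. `L²(μ)` is separable
(`MeasureTheory.Lp.SecondCountableTopology` needs `μ.IsSeparable`; `ℂ` second countable Borel gives it) and a Hilbert space; the functionals
`inner (F n) ·` lie in a closed ball of the dual: `WeakDual.isSeqCompact_closedBall` gives a subsequence converging weak-* to a functional `ℓ`,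
`ℓ = inner g ·` with `g ∈ L²(μ)` (`InnerProductSpace.toDual`). So `∫ k F (φ n) dμ → ∫ k g dμ` for `k ∈ L²(μ)`.
`|g| ≤ 1` a.e.: `∫_A g dμ ≤ μ A`, `≥ - μ A` for measurable `A` (test with indicators), `ae_le_of_forall_setIntegral_le`. Let `G` be a measurable
representative truncated to `[-1,1]`.
For a finite measure `ν ≪ volume`, `ν ≪ μ` with density `k ∈ L¹(μ)`, `k ≥ 0`; truncate `k_M = min k M` (bounded, so in `L²`):
`|∫ F dν - ∫ F k_M dμ| ≤ ∫ (k - k_M) dμ → 0` uniformly for `|F| ≤ 1`. (`integral_rnDeriv_smul` or `withDensity` lemmas.)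
-/


namespace Pool.Agent.H93.EG

open MeasureTheory Filter Topology

/-- sequential weak compactness, bounded functions, tested against bounded functions -/
theorem weak_aux (μ : Measure ℂ) [IsFiniteMeasure μ] (F : ℕ → ℂ → ℝ)
    (hm : ∀ n, Measurable (F n)) (hb : ∀ n x, |F n x| ≤ 1) :
    ∃ φ : ℕ → ℕ, StrictMono φ ∧ ∃ g : ℂ → ℝ, Measurable g ∧ Integrable g μ ∧
      ∀ (k : ℂ → ℝ), Measurable k → (∃ M, ∀ x, |k x| ≤ M) →
        Tendsto (fun n => ∫ x, k x * F (φ n) x ∂μ) atTop (𝓝 (∫ x, k x * g x ∂μ)) := by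
  have : Fact ((2 : ENNReal) ≠ ⊤) := ⟨by norm_num⟩
  have hF : ∀ n, MemLp (F n) 2 μ := fun n =>
    MemLp.of_bound (hm n).aestronglyMeasurable 1 (ae_of_all _ (fun x => by
      rw [Real.norm_eq_abs]; exact hb n x))
  set f : ℕ → Lp ℝ 2 μ := fun n => (hF n).toLp (F n) with hf
  obtain ⟨C, hC⟩ : ∃ C, ∀ n, ‖f n‖ ≤ C := by
    refine ⟨(μ.real Set.univ) ^ ((2 : ENNReal).toReal)⁻¹ * 1, fun n => ?_⟩
    refine Lp.norm_le_of_ae_bound zero_le_one ?_
    filter_upwards [(hF n).coeFn_toLp] with x hx
    rw [hf, hx, Real.norm_eq_abs]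
    exact hb n x
  have hball := WeakDual.isSeqCompact_closedBall ℝ (Lp ℝ 2 μ) 0 C
  have hmem : ∀ n, (StrongDual.toWeakDual (InnerProductSpace.toDual ℝ (Lp ℝ 2 μ) (f n))) ∈
      WeakDual.toStrongDual ⁻¹' Metric.closedBall (0 : StrongDual ℝ (Lp ℝ 2 μ)) C := by
    intro n
    rw [Set.mem_preimage, mem_closedBall_zero_iff]
    change ‖InnerProductSpace.toDual ℝ (Lp ℝ 2 μ) (f n)‖ ≤ C
    rw [LinearIsometryEquiv.norm_map]
    exact hC n
  obtain ⟨ℓ, -, φ, hφ, hlim⟩ := hball hmem
  set g : Lp ℝ 2 μ := (InnerProductSpace.toDual ℝ (Lp ℝ 2 μ)).symm (WeakDual.toStrongDual ℓ) with hg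
  have hgm := Lp.memLp g
  refine ⟨φ, hφ, g, (Lp.stronglyMeasurable g).measurable, hgm.integrable (by norm_num), ?_⟩
  intro k hk ⟨M, hM⟩
  have hkL : MemLp k 2 μ := MemLp.of_bound hk.aestronglyMeasurable M (ae_of_all _ (fun x => by
      rw [Real.norm_eq_abs]; exact hM x))
  have h1 := ((WeakDual.eval_continuous (𝕜 := ℝ) (hkL.toLp k)).tendsto ℓ).comp hlim
  have e1 : ∀ n, (∫ x, k x * F (φ n) x ∂μ) =
      (StrongDual.toWeakDual (InnerProductSpace.toDual ℝ (Lp ℝ 2 μ) (f (φ n)))) (hkL.toLp k) := by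
    intro n
    change _ = InnerProductSpace.toDual ℝ (Lp ℝ 2 μ) (f (φ n)) (hkL.toLp k)
    rw [InnerProductSpace.toDual_apply_apply, L2.inner_def]
    apply integral_congr_ae
    filter_upwards [(hF (φ n)).coeFn_toLp, hkL.coeFn_toLp] with x hx hx'
    rw [hf, hx, hx']
    simp
  have e2 : (∫ x, k x * g x ∂μ) = ℓ (hkL.toLp k) := by
    have : ℓ (hkL.toLp k) = InnerProductSpace.toDual ℝ (Lp ℝ 2 μ) g (hkL.toLp k) := by
      rw [hg, LinearIsometryEquiv.apply_symm_apply]
      rfl
    rw [this, InnerProductSpace.toDual_apply_apply, L2.inner_def]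
    apply integral_congr_ae
    filter_upwards [hkL.coeFn_toLp] with x hx'
    rw [hx']
    simp
  rw [e2]
  simp_rw [e1]
  exact h1

theorem weak_seq (F : ℕ → ℂ → ℝ) (hm : ∀ n, Measurable (F n)) (hb : ∀ n x, |F n x| ≤ 1) :
    ∃ φ : ℕ → ℕ, StrictMono φ ∧ ∃ G : ℂ → ℝ, Measurable G ∧ (∀ x, |G x| ≤ 1) ∧
      ∀ (ν : Measure ℂ) [IsFiniteMeasure ν], ν ≪ volume →
        Tendsto (fun n => ∫ x, F (φ n) x ∂ν) atTop (𝓝 (∫ x, G x ∂ν)) := by
  set μ : Measure ℂ := (volume : Measure ℂ).toFinite with hμ
  obtain ⟨φ, hφ, g, hgm, hgi, hlim⟩ := weak_aux μ F hm hb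
  have hFi : ∀ n, Integrable (F n) μ := fun n =>
    Integrable.of_bound (hm n).aestronglyMeasurable 1 (ae_of_all _ (fun x => by
      rw [Real.norm_eq_abs]; exact hb n x))
  have hset : ∀ s, MeasurableSet s →
      Tendsto (fun n => ∫ x in s, F (φ n) x ∂μ) atTop (𝓝 (∫ x in s, g x ∂μ)) := by
    intro s hs
    have h := hlim (s.indicator 1) (measurable_one.indicator hs) ⟨1, fun x => by
      by_cases hx : x ∈ s <;> simp [hx]⟩
    have e : ∀ f : ℂ → ℝ, (∫ x, s.indicator (1 : ℂ → ℝ) x * f x ∂μ) = ∫ x in s, f x ∂μ := by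
      intro f
      rw [← integral_indicator hs]
      congr 1
      ext x
      by_cases hx : x ∈ s <;> simp [hx]
    simp_rw [e] at h
    exact h
  have hle : g ≤ᵐ[μ] fun _ => (1 : ℝ) := by
    apply ae_le_of_forall_setIntegral_le hgi (integrable_const _)
    intro s hs _
    refine le_of_tendsto (hset s hs) (Eventually.of_forall fun n => ?_)
    exact integral_mono (hFi _).integrableOn (integrable_const _)
      (fun x => (abs_le.mp (hb (φ n) x)).2)
  have hge : (fun _ => (-1 : ℝ)) ≤ᵐ[μ] g := by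
    apply ae_le_of_forall_setIntegral_le (integrable_const _) hgi
    intro s hs _
    refine ge_of_tendsto (hset s hs) (Eventually.of_forall fun n => ?_)
    exact integral_mono (integrable_const _) (hFi _).integrableOn
      (fun x => (abs_le.mp (hb (φ n) x)).1)
  set G : ℂ → ℝ := fun x => max (-1) (min 1 (g x)) with hG
  have hGm : Measurable G := measurable_const.max (measurable_const.min hgm)
  have hGb : ∀ x, |G x| ≤ 1 := by
    intro x
    rw [abs_le]
    constructor
    · exact le_max_left _ _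
    · exact max_le (by norm_num) (min_le_left _ _)
  have hGg : G =ᵐ[μ] g := by
    filter_upwards [hle, hge] with x h1 h2
    rw [hG]
    simp only
    rw [min_eq_right h1, max_eq_right h2]
  refine ⟨φ, hφ, G, hGm, hGb, ?_⟩
  intro ν _ hν
  have hνμ : ν ≪ μ := hν.trans (absolutelyContinuous_toFinite _)
  set κ : ℂ → ℝ := fun x => (ν.rnDeriv μ x).toReal with hκ
  have hκm : Measurable κ := (Measure.measurable_rnDeriv ν μ).ennreal_toReal
  have hκi : Integrable κ μ := Measure.integrable_toReal_rnDeriv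
  have hκ0 : ∀ x, 0 ≤ κ x := fun x => ENNReal.toReal_nonneg
  -- truncations
  have htr : Tendsto (fun M : ℕ => ∫ x, (κ x - min (κ x) M) ∂μ) atTop (𝓝 0) := by
    have h0 : (0 : ℝ) = ∫ x : ℂ, (0 : ℝ) ∂μ := by simp
    rw [h0]
    apply tendsto_integral_of_dominated_convergence κ
    · intro M
      exact (hκm.sub (hκm.min measurable_const)).aestronglyMeasurable
    · exact hκi
    · intro M
      refine ae_of_all _ fun x => ?_
      have h1 : 0 ≤ min (κ x) M := le_min (hκ0 x) (Nat.cast_nonneg _)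
      have h2 : min (κ x) M ≤ κ x := min_le_left _ _
      rw [Real.norm_eq_abs, abs_le]
      constructor <;> linarith [hκ0 x]
    · refine ae_of_all _ fun x => ?_
      obtain ⟨M0, hM0⟩ := exists_nat_ge (κ x)
      apply tendsto_const_nhds.congr'
      filter_upwards [eventually_ge_atTop M0] with M hM
      have : κ x ≤ M := hM0.trans (by exact_mod_cast hM)
      rw [min_eq_left this, sub_self]
  have hint : ∀ f : ℂ → ℝ, (∫ x, f x ∂ν) = ∫ x, κ x * f x ∂μ := by
    intro f
    rw [← integral_rnDeriv_smul hνμ]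
    rfl
  have hdiff : ∀ (M : ℕ) (f : ℂ → ℝ), Measurable f → (∀ x, |f x| ≤ 1) →
      |(∫ x, κ x * f x ∂μ) - ∫ x, min (κ x) M * f x ∂μ| ≤ ∫ x, (κ x - min (κ x) M) ∂μ := by
    intro M f hf hfb
    have hi1 : Integrable (fun x => κ x * f x) μ :=
      hκi.mul_bdd (c := 1) hf.aestronglyMeasurable (ae_of_all _ (fun x => by
        rw [Real.norm_eq_abs]; exact hfb x))
    have hmi : Integrable (fun x => min (κ x) (M : ℝ)) μ := hκi.inf (integrable_const _)
    have hi2 : Integrable (fun x => min (κ x) (M : ℝ) * f x) μ :=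
      hmi.mul_bdd (c := 1) hf.aestronglyMeasurable (ae_of_all _ (fun x => by
        rw [Real.norm_eq_abs]; exact hfb x))
    rw [← integral_sub hi1 hi2]
    refine (abs_integral_le_integral_abs).trans ?_
    apply integral_mono (hi1.sub hi2).abs (hκi.sub hmi)
    intro x
    have h2 : min (κ x) (M : ℝ) ≤ κ x := min_le_left _ _
    change |κ x * f x - min (κ x) (M : ℝ) * f x| ≤ κ x - min (κ x) (M : ℝ)
    rw [← sub_mul, abs_mul, abs_of_nonneg (sub_nonneg.mpr h2)]
    calc (κ x - min (κ x) M) * |f x| ≤ (κ x - min (κ x) M) * 1 :=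
          mul_le_mul_of_nonneg_left (hfb x) (sub_nonneg.mpr h2)
      _ = _ := mul_one _
  rw [Metric.tendsto_atTop]
  intro ε hε
  obtain ⟨M, hM⟩ := ((Metric.tendsto_atTop.mp htr) (ε / 4) (by positivity)).imp
    (fun M h => h M le_rfl)
  rw [Real.dist_eq, sub_zero] at hM
  have hM' := (abs_lt.mp hM).2
  have hlM := hlim (fun x => min (κ x) M) (hκm.min measurable_const) ⟨M, fun x => by
    have h1 : 0 ≤ min (κ x) (M : ℝ) := le_min (hκ0 x) (Nat.cast_nonneg _)
    rw [abs_of_nonneg h1]
    exact min_le_right _ _⟩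
  have hGg' : (∫ x, min (κ x) M * g x ∂μ) = ∫ x, min (κ x) M * G x ∂μ := by
    apply integral_congr_ae
    filter_upwards [hGg] with x hx
    rw [hx]
  rw [hGg'] at hlM
  obtain ⟨n0, hn0⟩ := (Metric.tendsto_atTop.mp hlM) (ε / 4) (by positivity)
  refine ⟨n0, fun n hn => ?_⟩
  have h1 := hn0 n hn
  rw [Real.dist_eq] at h1 ⊢
  rw [hint, hint]
  have h2 := hdiff M (F (φ n)) (hm _) (hb _)
  have h3 := hdiff M G hGm hGb
  rw [abs_le] at h2 h3
  rw [abs_lt] at h1 ⊢
  constructor <;> linarith [h1.1, h1.2, h2.1, h2.2, h3.1, h3.2]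

end Pool.Agent.H93.EG

/-!
# Row Smooth: the circle averages of a weak null sequence tend to zero in L2 (theorem smooth below)

`H n` measurable, `|H n| ≤ 2`, `∫ H n dν → 0` for all finite `ν ≪ volume`; `w ≠ 0`; `S ⊆ ball 0 R × T` measurable.
`A n y := ∫ t, 1_S(y,t) H n (y + c t * w)`.
`smooth`: `∫ y, (A n y)^2 → 0`. Proof: `(A n y)^2 = ∫_t ∫_t' 1_S(y,t) 1_S(y,t') H n (y + c t w) H n (y + c t' w)`. Fubini and the translation
`y = z - c t w` for fixed `t, t'`: `∫ (A n)^2 = ∫_z H n z * K n z`, `K n z := ∫_t ∫_t' 1_S(z - c t w, t) 1_S(z - c t w, t') H n (z + (c t' - c t) w)`.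
For fixed `z`: `K n z = ∫ H n dν_z`, `ν_z` := image of `volume.restrict {(t,t') | (z - c t w, t) ∈ S, (z - c t w, t') ∈ S}` under
`(t,t') ↦ z + c t' w + c t (-w)`: finite, absolutely continuous by `nullB w (-w)` (and translation by `z`). So `K n z → 0` for every `z`; `|K n z| ≤ 2`,
`K n z = 0` for `‖z‖ > R + ‖w‖`; dominated convergence (`|H n z K n z| ≤ 2 |K n z|`).
`bilin`: `F n → G` weakly (as in `weak_seq`), all `|.| ≤ 1`: `H n := F n - G`;
`∫_S F n y F n (y + c t w) - ∫_S G y G (y + c t w) = ∫_y F n y (A n y) + ∫_y H n y * AG y`, `A n` for `H n`, `AG y := ∫_t 1_S(y,t) G (y + c t w)`. First term: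
Cauchy-Schwarz on the ball of radius `R` (`|F n| ≤ 1`, `A n` vanishes outside) and `smooth`. Second: `AG` is bounded measurable, zero outside the
ball: `= ∫ H n d(ν⁺) - ∫ H n d(ν⁻)` with `ν^±` of density `AG^±` (finite, absolutely continuous).
-/


namespace Pool.Agent.H93.EG

open MeasureTheory Filter Topology

/-- Weak null sequences: integrals over almost everywhere defined images of finite measures. -/
theorem weak_map (H : ℕ → ℂ → ℝ) (hm : ∀ n, Measurable (H n))
    (hw : ∀ (ν : Measure ℂ) [IsFiniteMeasure ν], ν ≪ volume →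
        Tendsto (fun n => ∫ x, H n x ∂ν) atTop (𝓝 0))
    (w z : ℂ) (hw0 : w ≠ 0) (A : Set (UnitAddCircle × UnitAddCircle)) (_hA : MeasurableSet A) :
    Tendsto (fun n => ∫ st in A, H n (z + (c st.1 * w + c st.2 * (-w)))) atTop (𝓝 0) := by
  have hT : Measurable (fun st : UnitAddCircle × UnitAddCircle =>
      z + (c st.1 * w + c st.2 * (-w))) :=
    measurable_const.add (((measurable_c.comp measurable_fst).mul_const w).add
      ((measurable_c.comp measurable_snd).mul_const (-w)))
  have hq : Measure.QuasiMeasurePreserving (fun st : UnitAddCircle × UnitAddCircle =>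
      z + (c st.1 * w + c st.2 * (-w))) volume volume :=
    (measurePreserving_add_left (volume : Measure ℂ) z).quasiMeasurePreserving.comp
      (nullB w (-w) hw0 (neg_ne_zero.mpr hw0))
  set ν : Measure ℂ := Measure.map (fun st : UnitAddCircle × UnitAddCircle =>
      z + (c st.1 * w + c st.2 * (-w))) (volume.restrict A) with hν
  have hνf : IsFiniteMeasure ν := Measure.isFiniteMeasure_map _ _
  have hνa : ν ≪ volume :=
    ((Measure.absolutelyContinuous_of_le Measure.restrict_le_self).map hT).trans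
      hq.absolutelyContinuous
  refine (hw ν hνa).congr fun n => ?_
  rw [hν, integral_map hT.aemeasurable (hm n).aestronglyMeasurable]

/-- Shift along the circle by the last coordinate. -/
theorem mp_shift2 (w : ℂ) : MeasurePreserving
    (fun p : ℂ × (UnitAddCircle × UnitAddCircle) => (p.1 + c p.2.2 * w, p.2)) volume volume := by
  have h1 : MeasurePreserving (fun p : (UnitAddCircle × UnitAddCircle) × ℂ =>
      (p.1, p.2 + c p.1.2 * w)) (volume : Measure ((UnitAddCircle × UnitAddCircle) × ℂ)) volume := by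
    refine MeasurePreserving.skew_product (MeasurePreserving.id volume)
      (g := fun (t : UnitAddCircle × UnitAddCircle) x => x + c t.2 * w) ?_ ?_
    · exact measurable_snd.add ((measurable_c.comp (measurable_snd.comp measurable_fst)).mul_const w)
    · exact Eventually.of_forall fun t => (measurePreserving_add_right volume (c t.2 * w)).map_eq
  have h2 : MeasurePreserving (Prod.swap : ℂ × (UnitAddCircle × UnitAddCircle) → _)
      volume volume := Measure.measurePreserving_swap
  have h3 : MeasurePreserving (Prod.swap : (UnitAddCircle × UnitAddCircle) × ℂ → _)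
      volume volume := Measure.measurePreserving_swap
  exact (h3.comp (h1.comp h2))

theorem smooth (H : ℕ → ℂ → ℝ) (hm : ∀ n, Measurable (H n)) (hb : ∀ n x, |H n x| ≤ 2)
    (hw : ∀ (ν : Measure ℂ) [IsFiniteMeasure ν], ν ≪ volume →
        Tendsto (fun n => ∫ x, H n x ∂ν) atTop (𝓝 0))
    (w : ℂ) (hw0 : w ≠ 0) (R : ℝ) (S : Set (ℂ × UnitAddCircle)) (hS : MeasurableSet S)
    (hSR : ∀ xt ∈ S, ‖xt.1‖ ≤ R) :
    Tendsto (fun n => ∫ y : ℂ, (∫ t : UnitAddCircle,
      S.indicator (fun xt => H n (xt.1 + c xt.2 * w)) (y, t)) ^ 2) atTop (𝓝 0) := by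
  classical
  set f : ℕ → ℂ × UnitAddCircle → ℝ := fun n => S.indicator (fun xt => H n (xt.1 + c xt.2 * w))
    with hf
  have hfm : ∀ n, Measurable (f n) := fun n =>
    ((hm n).comp (measurable_fst.add ((measurable_c.comp measurable_snd).mul_const w))).indicator hS
  have hfb : ∀ n xt, |f n xt| ≤ 2 := by
    intro n xt
    rw [hf]
    by_cases h : xt ∈ S
    · simp only [Set.indicator_of_mem h]
      exact hb _ _
    · simp only [Set.indicator_of_notMem h]
      norm_num
  have hf0 : ∀ n xt, R < ‖xt.1‖ → f n xt = 0 := by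
    intro n xt h
    exact Set.indicator_of_notMem (fun h' => absurd (hSR _ h') (not_le.mpr h)) _
  have hff : ∀ n xt xt', |f n xt * f n xt'| ≤ 4 := by
    intro n xt xt'
    rw [abs_mul]
    have := hfb n xt
    have := hfb n xt'
    have := abs_nonneg (f n xt)
    have := abs_nonneg (f n xt')
    nlinarith
  set Φ : ℕ → ℂ × (UnitAddCircle × UnitAddCircle) → ℝ := fun n p =>
    f n (p.1, p.2.2) * f n (p.1, p.2.1) with hΦ
  set Ψ : ℕ → ℂ × (UnitAddCircle × UnitAddCircle) → ℝ := fun n p =>
    f n (p.1 - c p.2.2 * w, p.2.2) * f n (p.1 - c p.2.2 * w, p.2.1) with hΨ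
  have mshift : Measurable (fun p : ℂ × (UnitAddCircle × UnitAddCircle) => p.1 - c p.2.2 * w) :=
    measurable_fst.sub ((measurable_c.comp (measurable_snd.comp measurable_snd)).mul_const w)
  have hΦm : ∀ n, Measurable (Φ n) := fun n =>
    ((hfm n).comp (measurable_fst.prodMk (measurable_snd.comp measurable_snd))).mul
      ((hfm n).comp (measurable_fst.prodMk (measurable_fst.comp measurable_snd)))
  have hΨm : ∀ n, Measurable (Ψ n) := fun n =>
    ((hfm n).comp (mshift.prodMk (measurable_snd.comp measurable_snd))).mul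
      ((hfm n).comp (mshift.prodMk (measurable_fst.comp measurable_snd)))
  set B : Set (ℂ × (UnitAddCircle × UnitAddCircle)) := (Metric.closedBall (0 : ℂ) R) ×ˢ Set.univ
    with hB
  have hBfin : IsFiniteMeasure ((volume : Measure (ℂ × (UnitAddCircle × UnitAddCircle))).restrict
      B) := by
    refine ⟨?_⟩
    rw [Measure.restrict_apply_univ, hB, Measure.volume_eq_prod, Measure.prod_prod]
    exact ENNReal.mul_lt_top measure_closedBall_lt_top (measure_lt_top _ _)
  have hΦint : ∀ n, Integrable (Φ n) := by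
    intro n
    have h1 : IntegrableOn (Φ n) B := Integrable.of_bound (hΦm n).aestronglyMeasurable 4
      (Eventually.of_forall fun p => by rw [Real.norm_eq_abs]; exact hff n _ _)
    refine h1.integrable_of_forall_notMem_eq_zero fun p hp => ?_
    have : R < ‖p.1‖ := by
      by_contra hle
      apply hp
      rw [hB]
      refine ⟨?_, trivial⟩
      rw [Metric.mem_closedBall, dist_zero_right]
      exact not_lt.mp hle
    show f n (p.1, p.2.2) * f n (p.1, p.2.1) = 0
    rw [hf0 n (p.1, p.2.2) this, zero_mul]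
  have mp := mp_shift2 w
  have hcomp : ∀ n, (Ψ n) ∘ (fun p : ℂ × (UnitAddCircle × UnitAddCircle) =>
      (p.1 + c p.2.2 * w, p.2)) = Φ n := by
    intro n
    funext p
    show f n (p.1 + c p.2.2 * w - c p.2.2 * w, p.2.2) *
      f n (p.1 + c p.2.2 * w - c p.2.2 * w, p.2.1) = f n (p.1, p.2.2) * f n (p.1, p.2.1)
    rw [add_sub_cancel_right]
  have hΨint : ∀ n, Integrable (Ψ n) := by
    intro n
    rw [← mp.integrable_comp (hΨm n).aestronglyMeasurable, hcomp n]
    exact hΦint n
  have step1 : ∀ n, ∫ y : ℂ, (∫ t : UnitAddCircle, f n (y, t)) ^ 2 =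
      ∫ z : ℂ, ∫ st : UnitAddCircle × UnitAddCircle, Ψ n (z, st) := by
    intro n
    have a1 : ∀ y : ℂ, (∫ t : UnitAddCircle, f n (y, t)) ^ 2 =
        ∫ st : UnitAddCircle × UnitAddCircle, Φ n (y, st) := by
      intro y
      rw [sq, ← integral_prod_mul]
      refine integral_congr_ae (Eventually.of_forall fun st => ?_)
      exact mul_comm _ _
    rw [integral_congr_ae (Eventually.of_forall a1)]
    have a2 := integral_prod (μ := (volume : Measure ℂ))
      (ν := (volume : Measure (UnitAddCircle × UnitAddCircle))) (Φ n) (hΦint n)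
    have a3 := integral_prod (μ := (volume : Measure ℂ))
      (ν := (volume : Measure (UnitAddCircle × UnitAddCircle))) (Ψ n) (hΨint n)
    rw [← a2, ← a3]
    have a4 := integral_map (μ := (volume : Measure (ℂ × (UnitAddCircle × UnitAddCircle))))
      mp.measurable.aemeasurable (f := Ψ n) (hΨm n).aestronglyMeasurable
    rw [mp.map_eq] at a4
    have a5 : ∀ p : ℂ × (UnitAddCircle × UnitAddCircle), Ψ n (p.1 + c p.2.2 * w, p.2) = Φ n p :=
      fun p => congrFun (hcomp n) p
    simp only [a5] at a4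
    exact a4.symm
  refine Tendsto.congr (fun n => (step1 n).symm) ?_
  -- dominated convergence
  have hlim := tendsto_integral_of_dominated_convergence
    (F := fun n z => ∫ st : UnitAddCircle × UnitAddCircle, Ψ n (z, st)) (f := fun _ : ℂ => (0 : ℝ))
    (μ := (volume : Measure ℂ))
    ((Metric.closedBall (0 : ℂ) (R + ‖w‖)).indicator fun _ => (4 : ℝ)) ?_ ?_ ?_ ?_
  · simpa using hlim
  · intro n
    exact (hΨint n).integral_prod_left.aestronglyMeasurable
  · rw [integrable_indicator_iff measurableSet_closedBall]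
    exact integrableOn_const measure_closedBall_lt_top.ne
  · intro n
    refine Eventually.of_forall fun z => ?_
    by_cases hz : z ∈ Metric.closedBall (0 : ℂ) (R + ‖w‖)
    · rw [Set.indicator_of_mem hz]
      refine (norm_integral_le_of_norm_le_const (C := 4) (Eventually.of_forall fun st => ?_)).trans ?_
      · rw [Real.norm_eq_abs]
        exact hff n _ _
      · rw [Measure.real, Measure.volume_eq_prod, ← Set.univ_prod_univ, Measure.prod_prod,
          UnitAddCircle.measure_univ]
        simp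
    · rw [Set.indicator_of_notMem hz]
      have : ∀ st : UnitAddCircle × UnitAddCircle, Ψ n (z, st) = 0 := by
        intro st
        have h1 : R < ‖z - c st.2 * w‖ := by
          rw [Metric.mem_closedBall, dist_zero_right, not_le] at hz
          have := norm_sub_norm_le z (c st.2 * w)
          rw [norm_mul, norm_c, one_mul] at this
          linarith
        show f n (z - c st.2 * w, st.2) * f n (z - c st.2 * w, st.1) = 0
        rw [hf0 n (z - c st.2 * w, st.2) h1, zero_mul]
      simp [this]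
  · refine Eventually.of_forall fun z => ?_
    set A : Set (UnitAddCircle × UnitAddCircle) :=
      {st | (z - c st.2 * w, st.2) ∈ S ∧ (z - c st.2 * w, st.1) ∈ S} with hA
    have hAm : MeasurableSet A := by
      have g1 : Measurable (fun st : UnitAddCircle × UnitAddCircle => z - c st.2 * w) :=
        measurable_const.sub ((measurable_c.comp measurable_snd).mul_const w)
      exact ((g1.prodMk measurable_snd) hS).inter ((g1.prodMk measurable_fst) hS)
    have h1 := weak_map H hm hw w z hw0 A hAm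
    have h2 : ∀ n, ∫ st : UnitAddCircle × UnitAddCircle, Ψ n (z, st) =
        H n z * ∫ st in A, H n (z + (c st.1 * w + c st.2 * (-w))) := by
      intro n
      rw [← integral_const_mul, ← integral_indicator hAm]
      refine integral_congr_ae (Eventually.of_forall fun st => ?_)
      show f n (z - c st.2 * w, st.2) * f n (z - c st.2 * w, st.1) = _
      by_cases hst : st ∈ A
      · rw [Set.indicator_of_mem hst, hf]
        simp only
        rw [Set.indicator_of_mem hst.1, Set.indicator_of_mem hst.2]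
        simp only
        rw [sub_add_cancel, show z - c st.2 * w + c st.1 * w =
          z + (c st.1 * w + c st.2 * (-w)) by ring]
      · rw [Set.indicator_of_notMem hst]
        have hor : (z - c st.2 * w, st.2) ∉ S ∨ (z - c st.2 * w, st.1) ∉ S := by
          by_contra hcon
          push Not at hcon
          exact hst hcon
        rcases hor with h | h
        · rw [hf]; simp only; rw [Set.indicator_of_notMem h, zero_mul]
        · rw [hf]; simp only; rw [Set.indicator_of_notMem h, mul_zero]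
    refine Tendsto.congr (fun n => (h2 n).symm) ?_
    refine squeeze_zero_norm (a := fun n => 2 * ‖∫ st in A, H n (z + (c st.1 * w + c st.2 * (-w)))‖)
      (fun n => ?_) ?_
    · rw [norm_mul]
      refine mul_le_mul_of_nonneg_right ?_ (norm_nonneg _)
      rw [Real.norm_eq_abs]
      exact hb n z
    · have := (h1.norm.const_mul (2 : ℝ))
      simpa using this

end Pool.Agent.H93.EG

/-!
# Row Bilin: convergence of the bilinear circle forms under weak convergence

`H n` measurable, `|H n| ≤ 2`, `∫ H n dν → 0` for all finite `ν ≪ volume`; `w ≠ 0`; `S ⊆ ball 0 R × T` measurable.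
`A n y := ∫ t, 1_S(y,t) H n (y + c t * w)`.
`smooth`: `∫ y, (A n y)^2 → 0`. Proof: `(A n y)^2 = ∫_t ∫_t' 1_S(y,t) 1_S(y,t') H n (y + c t w) H n (y + c t' w)`. Fubini and the translation
`y = z - c t w` for fixed `t, t'`: `∫ (A n)^2 = ∫_z H n z * K n z`, `K n z := ∫_t ∫_t' 1_S(z - c t w, t) 1_S(z - c t w, t') H n (z + (c t' - c t) w)`.
For fixed `z`: `K n z = ∫ H n dν_z`, `ν_z` := image of `volume.restrict {(t,t') | (z - c t w, t) ∈ S, (z - c t w, t') ∈ S}` under
`(t,t') ↦ z + c t' w + c t (-w)`: finite, absolutely continuous by `nullB w (-w)` (and translation by `z`). So `K n z → 0` for every `z`; `|K n z| ≤ 2`,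
`K n z = 0` for `‖z‖ > R + ‖w‖`; dominated convergence (`|H n z K n z| ≤ 2 |K n z|`).
`bilin`: `F n → G` weakly (as in `weak_seq`), all `|.| ≤ 1`: `H n := F n - G`;
`∫_S F n y F n (y + c t w) - ∫_S G y G (y + c t w) = ∫_y F n y (A n y) + ∫_y H n y * AG y`, `A n` for `H n`, `AG y := ∫_t 1_S(y,t) G (y + c t w)`. First term:
Cauchy-Schwarz on the ball of radius `R` (`|F n| ≤ 1`, `A n` vanishes outside) and `smooth`. Second: `AG` is bounded measurable, zero outside the
ball: `= ∫ H n d(ν⁺) - ∫ H n d(ν⁻)` with `ν^±` of density `AG^±` (finite, absolutely continuous).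
-/


namespace Pool.Agent.H93.EG

open MeasureTheory Filter Topology

/-- Weak convergence against bounded functions supported in a ball. -/
theorem weak_test (H : ℕ → ℂ → ℝ) (hm : ∀ n, Measurable (H n)) (hb : ∀ n x, |H n x| ≤ 2)
    (hw : ∀ (ν : Measure ℂ) [IsFiniteMeasure ν], ν ≪ volume →
        Tendsto (fun n => ∫ x, H n x ∂ν) atTop (𝓝 0))
    (K : ℂ → ℝ) (hK : Measurable K) (hKb : ∀ x, |K x| ≤ 1) (R : ℝ)
    (hK0 : ∀ x, R < ‖x‖ → K x = 0) :
    Tendsto (fun n => ∫ x, H n x * K x) atTop (𝓝 0) := by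
  -- positive part
  have pos : ∀ L : ℂ → ℝ, Measurable L → (∀ x, 0 ≤ L x) → (∀ x, L x ≤ 1) →
      (∀ x, R < ‖x‖ → L x = 0) → Tendsto (fun n => ∫ x, H n x * L x) atTop (𝓝 0) := by
    intro L hL hL0 hL1 hLR
    set ν : Measure ℂ := volume.withDensity (fun x => ENNReal.ofReal (L x)) with hν
    have hνf : IsFiniteMeasure ν := by
      refine isFiniteMeasure_withDensity ?_
      have h1 : ∫⁻ x : ℂ, ENNReal.ofReal (L x) ≤
          ∫⁻ x : ℂ, (Metric.closedBall (0 : ℂ) R).indicator (fun _ => 1) x := by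
        refine lintegral_mono fun x => ?_
        by_cases hx : x ∈ Metric.closedBall (0 : ℂ) R
        · simp only [Set.indicator_of_mem hx]
          exact ENNReal.ofReal_le_one.mpr (hL1 x)
        · simp only [Set.indicator_of_notMem hx]
          rw [Metric.mem_closedBall, dist_zero_right, not_le] at hx
          rw [hLR x hx]
          simp
      refine ne_top_of_le_ne_top ?_ h1
      rw [lintegral_indicator measurableSet_closedBall, setLIntegral_one]
      exact measure_closedBall_lt_top.ne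
    have hνa : ν ≪ volume := withDensity_absolutelyContinuous _ _
    refine (hw ν hνa).congr fun n => ?_
    rw [hν, integral_withDensity_eq_integral_toReal_smul (hL.ennreal_ofReal)
      (Eventually.of_forall fun x => ENNReal.ofReal_lt_top)]
    refine integral_congr_ae (Eventually.of_forall fun x => ?_)
    show (ENNReal.ofReal (L x)).toReal • H n x = H n x * L x
    rw [ENNReal.toReal_ofReal (hL0 x), smul_eq_mul, mul_comm]
  have h1 := pos (fun x => max (K x) 0) (hK.max measurable_const) (fun x => le_max_right _ _)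
    (fun x => max_le ((le_abs_self _).trans (hKb x)) zero_le_one)
    (fun x hx => by rw [hK0 x hx, max_self])
  have h2 := pos (fun x => max (-K x) 0) (hK.neg.max measurable_const) (fun x => le_max_right _ _)
    (fun x => max_le ((neg_le_abs _).trans (hKb x)) zero_le_one)
    (fun x hx => by rw [hK0 x hx, neg_zero, max_self])
  have hint : ∀ L : ℂ → ℝ, Measurable L → (∀ x, |L x| ≤ 1) → (∀ x, R < ‖x‖ → L x = 0) →
      ∀ n, Integrable (fun x => H n x * L x) := by
    intro L hL hL1 hLR n
    have h1 : IntegrableOn (fun x => H n x * L x) (Metric.closedBall (0 : ℂ) R) := by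
      have : IsFiniteMeasure ((volume : Measure ℂ).restrict (Metric.closedBall 0 R)) :=
        ⟨by rw [Measure.restrict_apply_univ]; exact measure_closedBall_lt_top⟩
      refine Integrable.of_bound ((hm n).mul hL).aestronglyMeasurable 2
        (Eventually.of_forall fun x => ?_)
      rw [Real.norm_eq_abs, abs_mul]
      have := hb n x
      have := hL1 x
      have := abs_nonneg (H n x)
      have := abs_nonneg (L x)
      nlinarith
    refine h1.integrable_of_forall_notMem_eq_zero fun x hx => ?_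
    rw [Metric.mem_closedBall, dist_zero_right, not_le] at hx
    rw [hLR x hx, mul_zero]
  have h3 := h1.sub h2
  rw [sub_zero] at h3
  refine h3.congr fun n => ?_
  rw [← integral_sub]
  · refine integral_congr_ae (Eventually.of_forall fun x => ?_)
    show H n x * max (K x) 0 - H n x * max (-K x) 0 = H n x * K x
    rcases le_total 0 (K x) with h | h
    · rw [max_eq_left h, max_eq_right (by linarith)]; ring
    · rw [max_eq_right h, max_eq_left (by linarith)]; ring
  · refine hint (fun x => max (K x) 0) (hK.max measurable_const) (fun x => ?_)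
      (fun x hx => by rw [hK0 x hx, max_self]) n
    rw [abs_of_nonneg (le_max_right _ _)]
    exact max_le ((le_abs_self _).trans (hKb x)) zero_le_one
  · refine hint (fun x => max (-K x) 0) (hK.neg.max measurable_const) (fun x => ?_)
      (fun x hx => by rw [hK0 x hx, neg_zero, max_self]) n
    rw [abs_of_nonneg (le_max_right _ _)]
    exact max_le ((neg_le_abs _).trans (hKb x)) zero_le_one

theorem small_of_sq (a : ℕ → ℂ → ℝ) (ham : ∀ n, Measurable (a n)) (hab : ∀ n y, |a n y| ≤ 2)
    (R : ℝ) (ha0 : ∀ n y, R < ‖y‖ → a n y = 0)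
    (hsq : Tendsto (fun n => ∫ y : ℂ, (a n y) ^ 2) atTop (𝓝 0)) (F : ℕ → ℂ → ℝ)
    (hF : ∀ n, Measurable (F n)) (hFb : ∀ n y, |F n y| ≤ 1) :
    Tendsto (fun n => ∫ y : ℂ, F n y * a n y) atTop (𝓝 0) := by
  set B : Set ℂ := Metric.closedBall (0 : ℂ) R with hB
  have hBf : IsFiniteMeasure ((volume : Measure ℂ).restrict B) :=
    ⟨by rw [Measure.restrict_apply_univ]; exact measure_closedBall_lt_top⟩
  have hnB : ∀ x, x ∉ B → R < ‖x‖ := by
    intro x hx
    rwa [hB, Metric.mem_closedBall, dist_zero_right, not_le] at hx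
  set V : ℝ := (volume B).toReal with hV
  have hV0 : 0 ≤ V := ENNReal.toReal_nonneg
  have hint1 : ∀ n, Integrable (fun y => F n y * a n y) := by
    intro n
    have h1 : IntegrableOn (fun y => F n y * a n y) B := by
      refine Integrable.of_bound ((hF n).mul (ham n)).aestronglyMeasurable 2
        (Eventually.of_forall fun x => ?_)
      rw [Real.norm_eq_abs, abs_mul]
      have := hab n x
      have := hFb n x
      have := abs_nonneg (a n x)
      have := abs_nonneg (F n x)
      nlinarith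
    refine h1.integrable_of_forall_notMem_eq_zero fun x hx => ?_
    rw [ha0 n x (hnB x hx), mul_zero]
  have hint2 : ∀ n, Integrable (fun y => (a n y) ^ 2) := by
    intro n
    have h1 : IntegrableOn (fun y => (a n y) ^ 2) B := by
      refine Integrable.of_bound ((ham n).pow_const 2).aestronglyMeasurable 4
        (Eventually.of_forall fun x => ?_)
      rw [Real.norm_eq_abs, abs_pow]
      have := hab n x
      have := abs_nonneg (a n x)
      nlinarith
    refine h1.integrable_of_forall_notMem_eq_zero fun x hx => ?_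
    rw [ha0 n x (hnB x hx)]
    norm_num
  have bound : ∀ n, ∀ δ : ℝ, 0 < δ → ‖∫ y : ℂ, F n y * a n y‖ ≤
      δ * V + (1 / δ) * ∫ y : ℂ, (a n y) ^ 2 := by
    intro n δ hδ
    refine (norm_integral_le_integral_norm _).trans ?_
    have i1 : Integrable (B.indicator fun _ => δ) :=
      (integrable_indicator_iff measurableSet_closedBall).mpr
        (integrableOn_const measure_closedBall_lt_top.ne)
    have h1 : ∫ y : ℂ, ‖F n y * a n y‖ ≤
        ∫ y : ℂ, (B.indicator (fun _ => δ) y + (1 / δ) * (a n y) ^ 2) := by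
      refine integral_mono (hint1 n).norm (i1.add ((hint2 n).const_mul _)) fun y => ?_
      show ‖F n y * a n y‖ ≤ B.indicator (fun _ => δ) y + (1 / δ) * (a n y) ^ 2
      by_cases hy : y ∈ B
      · rw [Set.indicator_of_mem hy, Real.norm_eq_abs, abs_mul]
        have h2 := hFb n y
        have h3 := abs_nonneg (a n y)
        have h4 : |F n y| * |a n y| ≤ |a n y| := by nlinarith
        refine h4.trans ?_
        rw [← sq_abs (a n y)]
        rw [show δ + 1 / δ * |a n y| ^ 2 = (δ ^ 2 + |a n y| ^ 2) / δ by field_simp]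
        rw [le_div_iff₀ hδ]
        nlinarith [sq_nonneg (δ - |a n y|)]
      · rw [ha0 n y (hnB y hy), mul_zero, norm_zero, Set.indicator_of_notMem hy]
        norm_num
    refine h1.trans (le_of_eq ?_)
    rw [integral_add i1 ((hint2 n).const_mul _), integral_indicator measurableSet_closedBall,
      integral_const_mul, setIntegral_const, smul_eq_mul, mul_comm δ V]
    rfl
  rw [Metric.tendsto_atTop]
  intro ε hε
  set δ : ℝ := ε / (2 * (V + 1)) with hδ
  have hδ0 : 0 < δ := by positivity
  have h1 : δ * V < ε / 2 := by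
    have : δ * (2 * (V + 1)) = ε := by rw [hδ]; field_simp
    nlinarith
  have h2 : ∀ᶠ n in atTop, ∫ y : ℂ, (a n y) ^ 2 < δ * (ε / 2) :=
    hsq.eventually_lt_const (by positivity)
  obtain ⟨N, hN⟩ := eventually_atTop.mp h2
  refine ⟨N, fun n hn => ?_⟩
  rw [dist_zero_right]
  have h3 := hN n hn
  have h4 := bound n δ hδ0
  have h5 : (1 / δ) * ∫ y : ℂ, (a n y) ^ 2 < ε / 2 := by
    rw [one_div, inv_mul_lt_iff₀ hδ0]
    exact h3
  linarith

theorem bilin (F : ℕ → ℂ → ℝ) (hm : ∀ n, Measurable (F n)) (hb : ∀ n x, |F n x| ≤ 1)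
    (G : ℂ → ℝ) (hG : Measurable G) (hGb : ∀ x, |G x| ≤ 1)
    (hw : ∀ (ν : Measure ℂ) [IsFiniteMeasure ν], ν ≪ volume →
        Tendsto (fun n => ∫ x, F n x ∂ν) atTop (𝓝 (∫ x, G x ∂ν)))
    (w : ℂ) (hw0 : w ≠ 0) (R : ℝ) (S : Set (ℂ × UnitAddCircle)) (hS : MeasurableSet S)
    (hSR : ∀ xt ∈ S, ‖xt.1‖ ≤ R) :
    Tendsto (fun n => ∫ xt in S, F n xt.1 * F n (xt.1 + c xt.2 * w)) atTop
      (𝓝 (∫ xt in S, G xt.1 * G (xt.1 + c xt.2 * w))) := by
  set A : (ℂ → ℝ) → ℂ → ℝ := fun K y =>
    ∫ t : UnitAddCircle, S.indicator (fun xt => K (xt.1 + c xt.2 * w)) (y, t) with hA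
  have hmeas : ∀ K : ℂ → ℝ, Measurable K →
      Measurable (S.indicator (fun xt : ℂ × UnitAddCircle => K (xt.1 + c xt.2 * w))) := fun K hK =>
    (hK.comp (measurable_fst.add ((measurable_c.comp measurable_snd).mul_const w))).indicator hS
  have hAm : ∀ K : ℂ → ℝ, Measurable K → Measurable (A K) := fun K hK =>
    (StronglyMeasurable.integral_prod_right' (hmeas K hK).stronglyMeasurable).measurable
  have hindb : ∀ K : ℂ → ℝ, ∀ C : ℝ, (∀ x, |K x| ≤ C) → ∀ xt : ℂ × UnitAddCircle,
      |S.indicator (fun xt => K (xt.1 + c xt.2 * w)) xt| ≤ C := by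
    intro K C hK xt
    by_cases h : xt ∈ S
    · rw [Set.indicator_of_mem h]; exact hK _
    · rw [Set.indicator_of_notMem h, abs_zero]; exact (abs_nonneg _).trans (hK 0)
  have hAb : ∀ K : ℂ → ℝ, ∀ C : ℝ, (∀ x, |K x| ≤ C) → ∀ y, |A K y| ≤ C := by
    intro K C hK y
    rw [← Real.norm_eq_abs]
    refine (norm_integral_le_of_norm_le_const (C := C) (Eventually.of_forall fun t => ?_)).trans ?_
    · rw [Real.norm_eq_abs]; exact hindb K C hK _
    · simp [Measure.real]
  have hA0 : ∀ K : ℂ → ℝ, ∀ y, R < ‖y‖ → A K y = 0 := by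
    intro K y hy
    have : ∀ t : UnitAddCircle, S.indicator (fun xt => K (xt.1 + c xt.2 * w)) (y, t) = 0 := by
      intro t
      refine Set.indicator_of_notMem (fun h => ?_) _
      exact absurd (hSR _ h) (not_le.mpr hy)
    rw [hA]
    simp [this]
  have hSf : volume S ≠ ⊤ := by
    have h1 : S ⊆ (Metric.closedBall (0 : ℂ) R) ×ˢ Set.univ := by
      intro xt hxt
      refine ⟨?_, trivial⟩
      rw [Metric.mem_closedBall, dist_zero_right]
      exact hSR xt hxt
    refine ne_top_of_le_ne_top ?_ (measure_mono h1)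
    rw [Measure.volume_eq_prod, Measure.prod_prod]
    exact ENNReal.mul_ne_top measure_closedBall_lt_top.ne (measure_ne_top _ _)
  have hSfin : IsFiniteMeasure ((volume : Measure (ℂ × UnitAddCircle)).restrict S) :=
    ⟨by rw [Measure.restrict_apply_univ]; exact lt_top_iff_ne_top.mpr hSf⟩
  have hform : ∀ K : ℂ → ℝ, Measurable K → (∀ x, |K x| ≤ 1) →
      ∫ xt in S, K xt.1 * K (xt.1 + c xt.2 * w) = ∫ y : ℂ, K y * A K y := by
    intro K hK hKb
    have hin : Integrable (S.indicator (fun xt : ℂ × UnitAddCircle =>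
        K xt.1 * K (xt.1 + c xt.2 * w))) := by
      rw [integrable_indicator_iff hS]
      refine Integrable.of_bound ((hK.comp measurable_fst).mul (hK.comp (measurable_fst.add
        ((measurable_c.comp measurable_snd).mul_const w)))).aestronglyMeasurable 1
        (Eventually.of_forall fun xt => ?_)
      rw [Real.norm_eq_abs]
      show |K xt.1 * K (xt.1 + c xt.2 * w)| ≤ 1
      rw [abs_mul]
      have := hKb xt.1
      have := hKb (xt.1 + c xt.2 * w)
      have := abs_nonneg (K xt.1)
      have := abs_nonneg (K (xt.1 + c xt.2 * w))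
      nlinarith
    rw [← integral_indicator hS]
    have h1 := integral_prod (μ := (volume : Measure ℂ)) (ν := (volume : Measure UnitAddCircle))
      _ hin
    rw [Measure.volume_eq_prod, h1]
    refine integral_congr_ae (Eventually.of_forall fun y => ?_)
    show ∫ t : UnitAddCircle, S.indicator (fun xt : ℂ × UnitAddCircle =>
        K xt.1 * K (xt.1 + c xt.2 * w)) (y, t) = K y * A K y
    rw [hA]
    simp only
    rw [← integral_const_mul]
    refine integral_congr_ae (Eventually.of_forall fun t => ?_)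
    show S.indicator (fun xt : ℂ × UnitAddCircle => K xt.1 * K (xt.1 + c xt.2 * w)) (y, t) =
      K y * S.indicator (fun xt => K (xt.1 + c xt.2 * w)) (y, t)
    by_cases h : (y, t) ∈ S
    · rw [Set.indicator_of_mem h, Set.indicator_of_mem h]
    · rw [Set.indicator_of_notMem h, Set.indicator_of_notMem h, mul_zero]
  set H : ℕ → ℂ → ℝ := fun n x => F n x - G x with hH
  have hHm : ∀ n, Measurable (H n) := fun n => (hm n).sub hG
  have hHb : ∀ n x, |H n x| ≤ 2 := by
    intro n x
    have h1 := abs_le.mp (hb n x)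
    have h2 := abs_le.mp (hGb x)
    rw [abs_le]
    constructor <;> simp only [hH] <;> linarith [h1.1, h1.2, h2.1, h2.2]
  have hHw : ∀ (ν : Measure ℂ) [IsFiniteMeasure ν], ν ≪ volume →
      Tendsto (fun n => ∫ x, H n x ∂ν) atTop (𝓝 0) := by
    intro ν _ hν
    have h1 := (hw ν hν).sub_const (∫ x, G x ∂ν)
    rw [sub_self] at h1
    refine h1.congr fun n => ?_
    rw [← integral_sub]
    · exact Integrable.of_bound (hm n).aestronglyMeasurable 1
        (Eventually.of_forall fun x => by rw [Real.norm_eq_abs]; exact hb n x)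
    · exact Integrable.of_bound hG.aestronglyMeasurable 1
        (Eventually.of_forall fun x => by rw [Real.norm_eq_abs]; exact hGb x)
  have hsub : ∀ n y, A (F n) y = A (H n) y + A G y := by
    intro n y
    rw [hA]
    simp only
    have int1 : ∀ K : ℂ → ℝ, Measurable K → ∀ C : ℝ, (∀ x, |K x| ≤ C) →
        Integrable (fun t : UnitAddCircle => S.indicator (fun xt => K (xt.1 + c xt.2 * w)) (y, t)) :=
      fun K hK C hC => Integrable.of_bound
        ((hmeas K hK).comp measurable_prodMk_left).aestronglyMeasurable C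
        (Eventually.of_forall fun t => by rw [Real.norm_eq_abs]; exact hindb K C hC _)
    rw [← integral_add (int1 (H n) (hHm n) 2 (hHb n)) (int1 G hG 1 hGb)]
    refine integral_congr_ae (Eventually.of_forall fun t => ?_)
    show S.indicator (fun xt => F n (xt.1 + c xt.2 * w)) (y, t) =
      S.indicator (fun xt => H n (xt.1 + c xt.2 * w)) (y, t) +
        S.indicator (fun xt => G (xt.1 + c xt.2 * w)) (y, t)
    by_cases h : (y, t) ∈ S
    · rw [Set.indicator_of_mem h, Set.indicator_of_mem h, Set.indicator_of_mem h]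
      simp only [hH]
      ring
    · rw [Set.indicator_of_notMem h, Set.indicator_of_notMem h, Set.indicator_of_notMem h,
        add_zero]
  have T1 : Tendsto (fun n => ∫ y : ℂ, F n y * A (H n) y) atTop (𝓝 0) :=
    small_of_sq (fun n => A (H n)) (fun n => hAm _ (hHm n)) (fun n y => hAb _ 2 (hHb n) y) R
      (fun n y hy => hA0 _ y hy) (smooth H hHm hHb hHw w hw0 R S hS hSR) F hm hb
  have T2 : Tendsto (fun n => ∫ y : ℂ, H n y * A G y) atTop (𝓝 0) :=
    weak_test H hHm hHb hHw (A G) (hAm G hG) (hAb G 1 hGb) R (hA0 G)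
  have intg : ∀ K L : ℂ → ℝ, Measurable K → Measurable L → (∀ x, |K x| ≤ 2) → (∀ x, |L x| ≤ 2) →
      (∀ x, R < ‖x‖ → L x = 0) → Integrable (fun x => K x * L x) := by
    intro K L hK hL hK1 hL1 hLR
    have h1 : IntegrableOn (fun x => K x * L x) (Metric.closedBall (0 : ℂ) R) := by
      have : IsFiniteMeasure ((volume : Measure ℂ).restrict (Metric.closedBall 0 R)) :=
        ⟨by rw [Measure.restrict_apply_univ]; exact measure_closedBall_lt_top⟩
      refine Integrable.of_bound (hK.mul hL).aestronglyMeasurable 4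
        (Eventually.of_forall fun x => ?_)
      rw [Real.norm_eq_abs, abs_mul]
      have := hK1 x
      have := hL1 x
      have := abs_nonneg (K x)
      have := abs_nonneg (L x)
      nlinarith
    refine h1.integrable_of_forall_notMem_eq_zero fun x hx => ?_
    rw [Metric.mem_closedBall, dist_zero_right, not_le] at hx
    rw [hLR x hx, mul_zero]
  have T3 := (T1.add T2).add_const (∫ y : ℂ, G y * A G y)
  rw [add_zero, zero_add] at T3
  rw [hform G hG hGb]
  refine T3.congr fun n => ?_
  rw [hform (F n) (hm n) (hb n)]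
  have b1 : ∀ n x, |F n x| ≤ 2 := fun n x => (hb n x).trans (by norm_num)
  have b2 : ∀ x, |G x| ≤ 2 := fun x => (hGb x).trans (by norm_num)
  have j1 := intg (F n) (A (H n)) (hm n) (hAm _ (hHm n)) (b1 n) (hAb _ 2 (hHb n)) (hA0 _)
  have j2 := intg (H n) (A G) (hHm n) (hAm _ hG) (hHb n) (hAb _ 2 b2) (hA0 _)
  have j3 := intg G (A G) hG (hAm _ hG) b2 (hAb _ 2 b2) (hA0 _)
  have j12 : Integrable (fun y => F n y * A (H n) y + H n y * A G y) := j1.add j2
  rw [← integral_add j1 j2, ← integral_add j12 j3]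
  refine integral_congr_ae (Eventually.of_forall fun y => ?_)
  show F n y * A (H n) y + H n y * A G y + G y * A G y = F n y * A (F n) y
  rw [hsub n y]
  simp only [hH]
  ring

end Pool.Agent.H93.EG

/-!
# Row Lim: a measurable function with zero defect

Proof. `G n` from `h` with `L = n + 1`, `ε = 1/(n+1)`; `weak_seq`: subsequence and limit `G`. Fix `i` and `L`. `S := ball 0 L ×ˢ univ`.
`∫_S Dfn (G n)` converges to `∫_S Dfn G`: the constant; `∫_S G n x G n (x + c t p)`, `∫_S G n x G n (x + c t q)`: `bilin` with `w = p, q`;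
`∫_S G n (x + c t p) G n (x + c t q)`: measure preserving change of variables `(x,t) ↦ (x + c t p, t)`: equals
`∫_{S'} G n y G n (y + c t (q - p))`, `S' = {(y,t) | y - c t p ∈ ball 0 L}`, `bilin` with `w = q - p`, `R = L + ‖p‖`.
For `n ≥ L`: `0 ≤ ∫_S Dfn (G n) ≤ ∫_{ball n} Dfn (G n) < 1/(n+1)`. So `∫_S Dfn G = 0`, `Dfn G ≥ 0`, hence `Dfn G = 0` a.e. on `S`; union over `L`.
-/


namespace Pool.Agent.H93.EG

open MeasureTheory Filter Topology

/-- Translation along the circle as a measure preserving map of the product. -/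
theorem mp_shift (p : ℂ) : MeasurePreserving
    (fun xt : ℂ × UnitAddCircle => (xt.1 + c xt.2 * p, xt.2)) volume volume := by
  have h1 : MeasurePreserving (fun tx : UnitAddCircle × ℂ => (tx.1, tx.2 + c tx.1 * p))
      (volume : Measure (UnitAddCircle × ℂ)) volume := by
    refine MeasurePreserving.skew_product (MeasurePreserving.id volume)
      (g := fun t x => x + c t * p) ?_ ?_
    · exact measurable_snd.add ((measurable_c.comp measurable_fst).mul_const p)
    · exact Eventually.of_forall fun t => (measurePreserving_add_right volume (c t * p)).map_eq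
  have h2 : MeasurePreserving (Prod.swap : ℂ × UnitAddCircle → UnitAddCircle × ℂ)
      volume volume := Measure.measurePreserving_swap
  have h3 : MeasurePreserving (Prod.swap : UnitAddCircle × ℂ → ℂ × UnitAddCircle)
      volume volume := Measure.measurePreserving_swap
  exact (h3.comp (h1.comp h2))

theorem lim_one (F : ℕ → ℂ → ℝ) (hm : ∀ n, Measurable (F n)) (hb : ∀ n x, |F n x| ≤ 1)
    (G : ℂ → ℝ) (hG : Measurable G) (hGb : ∀ x, |G x| ≤ 1)
    (hw : ∀ (ν : Measure ℂ) [IsFiniteMeasure ν], ν ≪ volume →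
        Tendsto (fun n => ∫ x, F n x ∂ν) atTop (𝓝 (∫ x, G x ∂ν)))
    (p q : ℂ) (hp : p ≠ 0) (hq : q ≠ 0) (hpq : p ≠ q) (L : ℝ) :
    Tendsto (fun n => ∫ xt in (Metric.ball (0 : ℂ) L) ×ˢ (Set.univ : Set UnitAddCircle),
      Dfn (F n) p q xt.1 xt.2) atTop
      (𝓝 (∫ xt in (Metric.ball (0 : ℂ) L) ×ˢ (Set.univ : Set UnitAddCircle),
        Dfn G p q xt.1 xt.2)) := by
  set S : Set (ℂ × UnitAddCircle) := (Metric.ball (0 : ℂ) L) ×ˢ (Set.univ : Set UnitAddCircle)
    with hS
  have hSm : MeasurableSet S := measurableSet_ball.prod MeasurableSet.univ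
  have hSf : volume S ≠ ⊤ := by
    rw [hS, Measure.volume_eq_prod, Measure.prod_prod]
    exact ENNReal.mul_ne_top measure_ball_lt_top.ne (measure_ne_top _ _)
  have hfin : IsFiniteMeasure ((volume : Measure (ℂ × UnitAddCircle)).restrict S) :=
    ⟨by rw [Measure.restrict_apply_univ]; exact lt_top_iff_ne_top.mpr hSf⟩
  -- the shifted set
  set T : ℂ × UnitAddCircle → ℂ × UnitAddCircle := fun xt => (xt.1 + c xt.2 * p, xt.2) with hT
  set T' : ℂ × UnitAddCircle → ℂ × UnitAddCircle := fun xt => (xt.1 + c xt.2 * (-p), xt.2) with hT'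
  have hTm : Measurable T := (mp_shift p).measurable
  have hTm' : Measurable T' := (mp_shift (-p)).measurable
  set S' : Set (ℂ × UnitAddCircle) := T' ⁻¹' S with hS'
  have hSm' : MeasurableSet S' := hTm' hSm
  have hpre : T ⁻¹' S' = S := by
    ext ⟨x, t⟩
    simp only [hS', Set.mem_preimage, hT, hT']
    rw [show x + c t * p + c t * -p = x by ring]
  have hSR' : ∀ xt ∈ S', ‖xt.1‖ ≤ L + ‖p‖ := by
    rintro ⟨x, t⟩ ⟨hx, -⟩
    have hx' : ‖x + c t * (-p)‖ < L := by simpa [hT'] using hx
    have := norm_sub_le (x + c t * (-p)) (c t * (-p))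
    rw [show x + c t * (-p) - c t * (-p) = x by ring, norm_mul, norm_c, one_mul, norm_neg] at this
    show ‖x‖ ≤ L + ‖p‖
    linarith
  have hSR : ∀ xt ∈ S, ‖xt.1‖ ≤ L := by
    rintro ⟨x, t⟩ ⟨hx, -⟩
    have hx' : ‖x‖ < L := by simpa using hx
    exact hx'.le
  have change : ∀ K : ℂ → ℝ, Measurable K →
      ∫ xt in S, K (xt.1 + c xt.2 * p) * K (xt.1 + c xt.2 * q) =
        ∫ xt in S', K xt.1 * K (xt.1 + c xt.2 * (q - p)) := by
    intro K hK
    have h1 := (mp_shift p).setIntegral_preimage_emb (s := S')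
      (g := fun xt : ℂ × UnitAddCircle => K xt.1 * K (xt.1 + c xt.2 * (q - p))) ?_
    · rw [← h1]
      change _ = ∫ xt in T ⁻¹' S', _
      rw [hpre]
      refine setIntegral_congr_fun hSm fun xt _ => ?_
      show _ = K (xt.1 + c xt.2 * p) * K (xt.1 + c xt.2 * p + c xt.2 * (q - p))
      rw [show xt.1 + c xt.2 * p + c xt.2 * (q - p) = xt.1 + c xt.2 * q by ring]
    · refine MeasurableEmbedding.of_measurable_inverse (g := T') hTm ?_ hTm' ?_
      · have : Set.range T = Set.univ := by
          rw [Set.range_eq_univ]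
          rintro ⟨x, t⟩
          refine ⟨(x + c t * (-p), t), ?_⟩
          simp only [hT]
          rw [show x + c t * -p + c t * p = x by ring]
        show MeasurableSet (Set.range T)
        rw [this]
        exact MeasurableSet.univ
      · rintro ⟨x, t⟩
        show (x + c t * p + c t * (-p), t) = (x, t)
        rw [show x + c t * p + c t * -p = x by ring]
  have split : ∀ K : ℂ → ℝ, Measurable K → (∀ x, |K x| ≤ 1) →
      ∫ xt in S, Dfn K p q xt.1 xt.2 = (∫ _xt in S, (1 : ℝ)) +
        (∫ xt in S, K xt.1 * K (xt.1 + c xt.2 * p)) +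
        (∫ xt in S', K xt.1 * K (xt.1 + c xt.2 * (q - p))) +
        (∫ xt in S, K xt.1 * K (xt.1 + c xt.2 * q)) := by
    intro K hK hKb
    have m0 : Measurable (fun xt : ℂ × UnitAddCircle => K xt.1) := hK.comp measurable_fst
    have mr : ∀ r : ℂ, Measurable (fun xt : ℂ × UnitAddCircle => K (xt.1 + c xt.2 * r)) := fun r =>
      hK.comp (measurable_fst.add ((measurable_c.comp measurable_snd).mul_const r))
    have bd : ∀ a b : ℝ, |a| ≤ 1 → |b| ≤ 1 → ‖a * b‖ ≤ 1 := by
      intro a b ha hb
      rw [Real.norm_eq_abs, abs_mul]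
      have := abs_nonneg a
      have := abs_nonneg b
      nlinarith
    have i1 : Integrable (fun xt : ℂ × UnitAddCircle => K xt.1 * K (xt.1 + c xt.2 * p))
        (volume.restrict S) := Integrable.of_bound (m0.mul (mr p)).aestronglyMeasurable 1
      (Eventually.of_forall fun xt => bd _ _ (hKb _) (hKb _))
    have i2 : Integrable (fun xt : ℂ × UnitAddCircle => K (xt.1 + c xt.2 * p) *
        K (xt.1 + c xt.2 * q)) (volume.restrict S) :=
      Integrable.of_bound ((mr p).mul (mr q)).aestronglyMeasurable 1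
      (Eventually.of_forall fun xt => bd _ _ (hKb _) (hKb _))
    have i3 : Integrable (fun xt : ℂ × UnitAddCircle => K (xt.1 + c xt.2 * q) * K xt.1)
        (volume.restrict S) := Integrable.of_bound ((mr q).mul m0).aestronglyMeasurable 1
      (Eventually.of_forall fun xt => bd _ _ (hKb _) (hKb _))
    have i0 : Integrable (fun _ : ℂ × UnitAddCircle => (1 : ℝ)) (volume.restrict S) :=
      integrable_const _
    have i01 : Integrable (fun xt : ℂ × UnitAddCircle => 1 + K xt.1 * K (xt.1 + c xt.2 * p))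
        (volume.restrict S) := i0.add i1
    have i012 : Integrable (fun xt : ℂ × UnitAddCircle => 1 + K xt.1 * K (xt.1 + c xt.2 * p) +
        K (xt.1 + c xt.2 * p) * K (xt.1 + c xt.2 * q)) (volume.restrict S) := i01.add i2
    unfold Dfn
    rw [integral_add i012 i3, integral_add i01 i2, integral_add i0 i1, change K hK]
    congr 1
    refine integral_congr_ae (Eventually.of_forall fun xt => ?_)
    exact mul_comm _ _
  rw [split G hG hGb]
  simp_rw [fun n => split (F n) (hm n) (hb n)]
  refine ((tendsto_const_nhds.add ?_).add ?_).add ?_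
  · exact bilin F hm hb G hG hGb hw p hp L S hSm hSR
  · exact bilin F hm hb G hG hGb hw (q - p) (sub_ne_zero.mpr hpq.symm) (L + ‖p‖) S' hSm' hSR'
  · exact bilin F hm hb G hG hGb hw q hq L S hSm hSR

theorem lim_exists (m : ℕ) (P : Fin m → ℂ × ℂ)
    (hP : ∀ i, (P i).1 ≠ 0 ∧ (P i).2 ≠ 0 ∧ (P i).1 ≠ (P i).2)
    (h : ∀ L : ℝ, 0 < L → ∀ ε : ℝ, 0 < ε → ∃ G : ℂ → ℝ, Measurable G ∧ (∀ x, |G x| ≤ 1) ∧
      ∀ i, ∫ xt in (Metric.ball (0 : ℂ) L) ×ˢ (Set.univ : Set UnitAddCircle),
        Dfn G (P i).1 (P i).2 xt.1 xt.2 < ε) :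
    ∃ G : ℂ → ℝ, Measurable G ∧ (∀ x, |G x| ≤ 1) ∧
      ∀ i, ∀ᵐ xt : ℂ × UnitAddCircle, Dfn G (P i).1 (P i).2 xt.1 xt.2 = 0 := by
  have h' : ∀ n : ℕ, ∃ G : ℂ → ℝ, Measurable G ∧ (∀ x, |G x| ≤ 1) ∧
      ∀ i, ∫ xt in (Metric.ball (0 : ℂ) ((n : ℝ) + 1)) ×ˢ (Set.univ : Set UnitAddCircle),
        Dfn G (P i).1 (P i).2 xt.1 xt.2 < 1 / ((n : ℝ) + 1) := fun n =>
    h ((n : ℝ) + 1) (by positivity) (1 / ((n : ℝ) + 1)) (by positivity)
  choose F hm hb hF using h'
  obtain ⟨φ, hφ, G, hG, hGb, hw⟩ := weak_seq F hm hb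
  refine ⟨G, hG, hGb, fun i => ?_⟩
  obtain ⟨h1, h2, h3⟩ := hP i
  set p := (P i).1 with hp
  set q := (P i).2 with hq
  have hfin : ∀ L : ℝ, IsFiniteMeasure ((volume : Measure (ℂ × UnitAddCircle)).restrict
      ((Metric.ball (0 : ℂ) L) ×ˢ (Set.univ : Set UnitAddCircle))) := by
    intro L
    refine ⟨?_⟩
    rw [Measure.restrict_apply_univ, Measure.volume_eq_prod, Measure.prod_prod]
    exact ENNReal.mul_lt_top measure_ball_lt_top (measure_lt_top _ _)
  have hint : ∀ K : ℂ → ℝ, Measurable K → (∀ x, |K x| ≤ 1) → ∀ L : ℝ,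
      IntegrableOn (fun xt : ℂ × UnitAddCircle => Dfn K p q xt.1 xt.2)
        ((Metric.ball (0 : ℂ) L) ×ˢ (Set.univ : Set UnitAddCircle)) := by
    intro K hK hKb L
    have := hfin L
    refine Integrable.of_bound (Dfn_meas K hK p q).aestronglyMeasurable 4
      (Eventually.of_forall fun xt => ?_)
    rw [Real.norm_eq_abs, abs_of_nonneg (Dfn_nonneg K hKb p q _ _)]
    exact Dfn_le K hKb p q _ _
  have key : ∀ N : ℕ, ∀ᵐ xt : ℂ × UnitAddCircle,
      xt ∈ (Metric.ball (0 : ℂ) ((N : ℝ) + 1)) ×ˢ (Set.univ : Set UnitAddCircle) →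
        Dfn G p q xt.1 xt.2 = 0 := by
    intro N
    have hlim := lim_one (fun n => F (φ n)) (fun n => hm _) (fun n => hb _) G hG hGb hw p q h1 h2 h3
      ((N : ℝ) + 1)
    have hzero : Tendsto (fun n => ∫ xt in (Metric.ball (0 : ℂ) ((N : ℝ) + 1)) ×ˢ
        (Set.univ : Set UnitAddCircle), Dfn (F (φ n)) p q xt.1 xt.2) atTop (𝓝 0) := by
      refine squeeze_zero' (Eventually.of_forall fun n =>
        integral_nonneg fun xt => Dfn_nonneg _ (hb _) _ _ _ _) ?_
        tendsto_one_div_add_atTop_nhds_zero_nat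
      filter_upwards [eventually_ge_atTop N] with n hn
      have hn' : N ≤ φ n := hn.trans (hφ.id_le n)
      have hn2 : (N : ℝ) + 1 ≤ (φ n : ℝ) + 1 := by
        have : (N : ℝ) ≤ (φ n : ℝ) := by exact_mod_cast hn'
        linarith
      have a1 : ∫ xt in (Metric.ball (0 : ℂ) ((N : ℝ) + 1)) ×ˢ
          (Set.univ : Set UnitAddCircle), Dfn (F (φ n)) p q xt.1 xt.2 ≤
          ∫ xt in (Metric.ball (0 : ℂ) ((φ n : ℝ) + 1)) ×ˢ
          (Set.univ : Set UnitAddCircle), Dfn (F (φ n)) p q xt.1 xt.2 := by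
        refine setIntegral_mono_set (hint _ (hm _) (hb _) _)
          (Eventually.of_forall fun xt => Dfn_nonneg _ (hb _) _ _ _ _) ?_
        exact (Set.prod_mono (Metric.ball_subset_ball hn2) subset_rfl).eventuallyLE
      have a2 := hF (φ n) i
      have a3 : 1 / ((φ n : ℝ) + 1) ≤ 1 / ((n : ℝ) + 1) := by
        have : (n : ℝ) ≤ (φ n : ℝ) := by exact_mod_cast hφ.id_le n
        exact one_div_le_one_div_of_le (by positivity) (by linarith)
      exact a1.trans (a2.le.trans a3)
    have h0 := tendsto_nhds_unique hlim hzero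
    rw [setIntegral_eq_zero_iff_of_nonneg_ae
      (Eventually.of_forall fun xt => Dfn_nonneg _ hGb _ _ _ _) (hint G hG hGb _)] at h0
    rwa [Filter.EventuallyEq, ae_restrict_iff' (measurableSet_ball.prod MeasurableSet.univ)] at h0
  filter_upwards [ae_all_iff.mpr key] with xt hxt
  obtain ⟨N, hN⟩ := exists_nat_gt ‖xt.1‖
  refine hxt N ⟨?_, trivial⟩
  rw [Metric.mem_ball, dist_zero_right]
  linarith

end Pool.Agent.H93.EG
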