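import Pool.Agent.H93.EGM.Hilb

set_option autoImplicit false

/-!
# Row YOp: mean operators

For `a : A` let `M N a := (1/(N+1)) ∑_{j < N+1} T (u^[j] a)`, operators of norm `≤ 1`. They converge
on all `e b` by the mean ergodic theorem, hence on `H` by density; `Y a` is the limit.
-/


namespace Pool.Agent.H93.EG

open Filter Topology

section

variable {A : Type} [AddCommGroup A] {H : Type} [NormedAddCommGroup H] [InnerProductSpace ℝ H]

/-- The averages. -/
noncomputable def yopM (T : A → H ≃ₗᵢ[ℝ] H) (u : A ≃+ A) (N : ℕ) (a : A) (x : H) : H :=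
  (1 / ((N : ℝ) + 1)) • ∑ j ∈ Finset.range (N + 1), T ((⇑u)^[j] a) x

theorem yopM_add (T : A → H ≃ₗᵢ[ℝ] H) (u : A ≃+ A) (N : ℕ) (a : A) (x y : H) :
    yopM T u N a (x + y) = yopM T u N a x + yopM T u N a y := by
  unfold yopM
  rw [← smul_add, ← Finset.sum_add_distrib]
  simp only [map_add]

theorem yopM_smul (T : A → H ≃ₗᵢ[ℝ] H) (u : A ≃+ A) (N : ℕ) (a : A) (r : ℝ) (x : H) :
    yopM T u N a (r • x) = r • yopM T u N a x := by
  unfold yopM
  rw [smul_comm r, Finset.smul_sum (r := r)]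
  simp only [map_smul]

theorem yopM_norm (T : A → H ≃ₗᵢ[ℝ] H) (u : A ≃+ A) (N : ℕ) (a : A) (x : H) :
    ‖yopM T u N a x‖ ≤ ‖x‖ := by
  unfold yopM
  have hN : (0 : ℝ) < (N : ℝ) + 1 := by positivity
  rw [norm_smul, Real.norm_of_nonneg (by positivity)]
  have h1 : ‖∑ j ∈ Finset.range (N + 1), T ((⇑u)^[j] a) x‖ ≤ ((N : ℝ) + 1) * ‖x‖ := by
    refine (norm_sum_le _ _).trans ?_
    simp only [LinearIsometryEquiv.norm_map, Finset.sum_const, Finset.card_range, nsmul_eq_mul]
    push_cast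
    exact le_rfl
  calc 1 / ((N : ℝ) + 1) * ‖∑ j ∈ Finset.range (N + 1), T ((⇑u)^[j] a) x‖
      ≤ 1 / ((N : ℝ) + 1) * (((N : ℝ) + 1) * ‖x‖) :=
        mul_le_mul_of_nonneg_left h1 (by positivity)
    _ = ‖x‖ := by field_simp

theorem yopM_sub (T : A → H ≃ₗᵢ[ℝ] H) (u : A ≃+ A) (N : ℕ) (a : A) (x y : H) :
    yopM T u N a (x - y) = yopM T u N a x - yopM T u N a y := by
  rw [sub_eq_add_neg, yopM_add, ← neg_one_smul ℝ y, yopM_smul, neg_one_smul, ← sub_eq_add_neg]

/-- The limit exists on the vectors `e b`. -/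
theorem yop_conv_e [CompleteSpace H] {φ : A → ℝ} {e : A → H} {T : A → H ≃ₗᵢ[ℝ] H}
    (h : Sys φ e T) (u : A ≃+ A) (U : H ≃ₗᵢ[ℝ] H) (hU : ∀ a, U (e a) = e (u a)) (a b : A) :
    ∃ y, Tendsto (fun N => yopM T u N a (e b)) atTop (𝓝 y) := by
  set f : H →L[ℝ] H := U.toContinuousLinearEquiv.toContinuousLinearMap with hf
  have hfa : ∀ x, f x = U x := fun x => rfl
  have hn : ‖f‖ ≤ 1 := by
    refine ContinuousLinearMap.opNorm_le_bound _ zero_le_one fun x => ?_
    rw [hfa, LinearIsometryEquiv.norm_map, one_mul]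
  have hm := f.tendsto_birkhoffAverage_orthogonalProjection hn (e a)
  obtain ⟨p, hm2⟩ : ∃ p : H, Tendsto (fun N : ℕ => birkhoffAverage ℝ f _root_.id (N + 1) (e a))
      atTop (𝓝 p) := ⟨_, hm.comp (tendsto_add_atTop_nat 1)⟩
  refine ⟨T b p, ?_⟩
  have hit : ∀ j, f^[j] (e a) = e ((⇑u)^[j] a) := by
    intro j
    induction j with
    | zero => rfl
    | succ j ih => rw [Function.iterate_succ_apply', Function.iterate_succ_apply', ih, hfa, hU]
  have h1 : (fun N => yopM T u N a (e b)) =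
      fun N => T b (birkhoffAverage ℝ f _root_.id (N + 1) (e a)) := by
    funext N
    unfold yopM birkhoffAverage birkhoffSum
    rw [map_smul, map_sum]
    congr 1
    · push_cast
      rw [one_div]
    · refine Finset.sum_congr rfl fun j _ => ?_
      rw [_root_.id, hit, h.tr, h.tr, add_comm]
  rw [h1]
  exact ((T b).continuous.tendsto _).comp hm2

/-- The limit exists everywhere. -/
theorem yop_conv [CompleteSpace H] {φ : A → ℝ} {e : A → H} {T : A → H ≃ₗᵢ[ℝ] H}
    (h : Sys φ e T) (u : A ≃+ A) (U : H ≃ₗᵢ[ℝ] H) (hU : ∀ a, U (e a) = e (u a)) (a : A) (x : H) :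
    ∃ y, Tendsto (fun N => yopM T u N a x) atTop (𝓝 y) := by
  apply cauchySeq_tendsto_of_complete
  -- the vectors for which the sequence is Cauchy
  let S : Submodule ℝ H :=
    { carrier := {z | CauchySeq (fun N => yopM T u N a z)}
      add_mem' := by
        intro z w hz hw
        have h1 : CauchySeq (fun N => yopM T u N a z + yopM T u N a w) := CauchySeq.add hz hw
        simpa only [Set.mem_ofPred_eq, yopM_add] using h1
      zero_mem' := by
        have h1 : ∀ N, yopM T u N a (0 : H) = 0 := by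
          intro N
          have := yopM_norm T u N a 0
          rw [norm_zero] at this
          exact norm_le_zero_iff.1 this
        simp only [Set.mem_ofPred_eq, h1]
        exact cauchySeq_const 0
      smul_mem' := by
        intro r z hz
        have h1 : CauchySeq (fun N => r • yopM T u N a z) := (uniformContinuous_const_smul r).comp_cauchySeq hz
        simpa only [Set.mem_ofPred_eq, yopM_smul] using h1 }
  have hS : Submodule.span ℝ (Set.range e) ≤ S := by
    rw [Submodule.span_le]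
    rintro _ ⟨b, rfl⟩
    obtain ⟨y, hy⟩ := yop_conv_e h u U hU a b
    exact hy.cauchySeq
  rw [Metric.cauchySeq_iff']
  intro ε hε
  obtain ⟨z, hz, hzx⟩ := Metric.dense_iff.1 h.dense x (ε / 3) (by positivity)
  have hzS : CauchySeq (fun N => yopM T u N a z) := hS hzx
  obtain ⟨N0, hN0⟩ := Metric.cauchySeq_iff'.1 hzS (ε / 3) (by positivity)
  refine ⟨N0, fun n hn => ?_⟩
  have h1 : ∀ N, dist (yopM T u N a x) (yopM T u N a z) < ε / 3 := by
    intro N
    rw [dist_eq_norm, ← yopM_sub]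
    refine (yopM_norm T u N a _).trans_lt ?_
    rw [← dist_eq_norm, dist_comm]
    exact hz
  have h2 := h1 n
  have h3 := h1 N0
  rw [dist_comm] at h3
  have h4 := hN0 n hn
  calc dist (yopM T u n a x) (yopM T u N0 a x)
      ≤ dist (yopM T u n a x) (yopM T u n a z) + dist (yopM T u n a z) (yopM T u N0 a z) +
        dist (yopM T u N0 a z) (yopM T u N0 a x) := dist_triangle4 _ _ _ _
    _ < ε := by linarith

end

theorem yop {A : Type} [AddCommGroup A] {φ : A → ℝ} {H : Type} [NormedAddCommGroup H]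
    [InnerProductSpace ℝ H] [CompleteSpace H] {e : A → H} {T : A → H ≃ₗᵢ[ℝ] H} (h : Sys φ e T)
    (u : A ≃+ A) (U : H ≃ₗᵢ[ℝ] H) (hU : ∀ a, U (e a) = e (u a))
    (hUT : ∀ a x, U (T a x) = T (u a) (U x)) :
    ∃ Y : A → H →L[ℝ] H,
      (∀ a x, Tendsto (fun N : ℕ => (1 / ((N : ℝ) + 1)) •
        ∑ j ∈ Finset.range (N + 1), T ((⇑u)^[j] a) x) atTop (𝓝 (Y a x))) ∧
      (∀ a b x, Y a (T b x) = T b (Y a x)) ∧
      (∀ a b x, Y a (Y b x) = Y b (Y a x)) ∧
      (∀ a x y, inner ℝ (Y a x) y = inner ℝ x (Y (-a) y)) ∧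
      (∀ (w : A ≃+ A) (W : H ≃ₗᵢ[ℝ] H), (∀ a, w (u a) = u (w a)) →
        (∀ a x, W (T a x) = T (w a) (W x)) → ∀ a x, W (Y a x) = Y (w a) (W x)) ∧
      (∀ a, Y (u a) = Y a) ∧
      (∀ a, U (Y a (e 0)) = Y a (e 0)) := by
  choose L hL using fun a x => yop_conv h u U hU a x
  let Y : A → H →L[ℝ] H := fun a => LinearMap.mkContinuous
    { toFun := L a
      map_add' := by
        intro x y
        refine tendsto_nhds_unique (hL a (x + y)) ?_
        simp only [yopM_add]
        exact (hL a x).add (hL a y)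
      map_smul' := by
        intro r x
        refine tendsto_nhds_unique (hL a (r • x)) ?_
        simp only [yopM_smul]
        exact (hL a x).const_smul r } 1 (by
      intro x
      rw [one_mul]
      exact le_of_tendsto (hL a x).norm (Eventually.of_forall fun N => yopM_norm T u N a x))
  have hY : ∀ a x, Tendsto (fun N => yopM T u N a x) atTop (𝓝 (Y a x)) := fun a x => hL a x
  have h2 : ∀ a b x, Y a (T b x) = T b (Y a x) := by
    intro a b x
    refine tendsto_nhds_unique (hY a (T b x)) ?_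
    have e1 : (fun N => yopM T u N a (T b x)) = fun N => T b (yopM T u N a x) := by
      funext N
      unfold yopM
      rw [map_smul, map_sum]
      congr 1
      refine Finset.sum_congr rfl fun j _ => ?_
      rw [h.add, h.add, add_comm]
    rw [e1]
    exact ((T b).continuous.tendsto _).comp (hY a x)
  have h3 : ∀ a b x, Y a (Y b x) = Y b (Y a x) := by
    intro a b x
    refine tendsto_nhds_unique (hY a (Y b x)) ?_
    have e1 : (fun N => yopM T u N a (Y b x)) = fun N => Y b (yopM T u N a x) := by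
      funext N
      unfold yopM
      rw [map_smul, map_sum]
      congr 1
      exact Finset.sum_congr rfl fun j _ => (h2 b _ x).symm
    rw [e1]
    exact ((Y b).continuous.tendsto _).comp (hY a x)
  have h4 : ∀ a x y, inner ℝ (Y a x) y = inner ℝ x (Y (-a) y) := by
    intro a x y
    have t1 : Tendsto (fun N => inner ℝ (yopM T u N a x) y) atTop (𝓝 (inner ℝ (Y a x) y)) :=
      (hY a x).inner tendsto_const_nhds
    have t2 : Tendsto (fun N => inner ℝ x (yopM T u N (-a) y)) atTop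
        (𝓝 (inner ℝ x (Y (-a) y))) := tendsto_const_nhds.inner (hY (-a) y)
    refine tendsto_nhds_unique t1 ?_
    have hadj : ∀ c x y, inner ℝ (T c x) y = inner ℝ x (T (-c) y) := by
      intro c x y
      have e0 : T c (T (-c) y) = y := by rw [h.add, add_neg_cancel, h.zero]
      calc inner ℝ (T c x) y = inner ℝ (T c x) (T c (T (-c) y)) := by rw [e0]
        _ = _ := LinearIsometryEquiv.inner_map_map _ _ _
    have e1 : (fun N => inner ℝ (yopM T u N a x) y) = fun N => inner ℝ x (yopM T u N (-a) y) := by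
      funext N
      unfold yopM
      rw [real_inner_smul_left, real_inner_smul_right, sum_inner, inner_sum]
      congr 1
      have e2 : ∀ j, (⇑u)^[j] (-a) = -((⇑u)^[j] a) := by
        intro j
        induction j with
        | zero => rfl
        | succ j ih => rw [Function.iterate_succ_apply', Function.iterate_succ_apply', ih, map_neg]
      refine Finset.sum_congr rfl fun j _ => ?_
      rw [hadj, e2]
    rw [e1]
    exact t2
  have h5 : ∀ (w : A ≃+ A) (W : H ≃ₗᵢ[ℝ] H), (∀ a, w (u a) = u (w a)) →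
      (∀ a x, W (T a x) = T (w a) (W x)) → ∀ a x, W (Y a x) = Y (w a) (W x) := by
    intro w W hwu hWT a x
    have t1 : Tendsto (fun N => W (yopM T u N a x)) atTop (𝓝 (W (Y a x))) :=
      (W.continuous.tendsto _).comp (hY a x)
    refine tendsto_nhds_unique t1 ?_
    have e1 : (fun N => W (yopM T u N a x)) = fun N => yopM T u N (w a) (W x) := by
      funext N
      unfold yopM
      rw [map_smul, map_sum]
      congr 1
      have e2 : ∀ j, w ((⇑u)^[j] a) = (⇑u)^[j] (w a) := by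
        intro j
        induction j with
        | zero => rfl
        | succ j ih => rw [Function.iterate_succ_apply', Function.iterate_succ_apply', ← ih, hwu]
      refine Finset.sum_congr rfl fun j _ => ?_
      rw [hWT, e2]
    rw [e1]
    exact hY (w a) (W x)
  have h6 : ∀ a, Y (u a) = Y a := by
    intro a
    ext x
    have t1 : Tendsto (fun N => yopM T u N (u a) x - yopM T u N a x) atTop
        (𝓝 (Y (u a) x - Y a x)) := (hY (u a) x).sub (hY a x)
    have t2 : Tendsto (fun N => yopM T u N (u a) x - yopM T u N a x) atTop (𝓝 0) := by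
      have e1 : ∀ N : ℕ, yopM T u N (u a) x - yopM T u N a x =
          (1 / ((N : ℝ) + 1)) • (T ((⇑u)^[N + 1] a) x - T a x) := by
        intro N
        unfold yopM
        rw [← smul_sub]
        congr 1
        have e2 : ∑ j ∈ Finset.range (N + 1), T ((⇑u)^[j] (u a)) x =
            ∑ j ∈ Finset.range (N + 1), T ((⇑u)^[j + 1] a) x :=
          Finset.sum_congr rfl fun j _ => by rw [Function.iterate_succ_apply]
        rw [e2, ← Finset.sum_sub_distrib, Finset.sum_range_sub (fun j => T ((⇑u)^[j] a) x)]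
        rfl
      simp only [e1]
      apply squeeze_zero_norm (a := fun N : ℕ => 1 / ((N : ℝ) + 1) * (2 * ‖x‖))
      · intro N
        rw [norm_smul, Real.norm_of_nonneg (by positivity)]
        refine mul_le_mul_of_nonneg_left ?_ (by positivity)
        refine (norm_sub_le _ _).trans ?_
        rw [LinearIsometryEquiv.norm_map, LinearIsometryEquiv.norm_map]
        linarith
      · have := (tendsto_one_div_add_atTop_nhds_zero_nat (𝕜 := ℝ)).mul_const (2 * ‖x‖)
        rwa [zero_mul] at this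
    exact sub_eq_zero.1 (tendsto_nhds_unique t1 t2)
  refine ⟨Y, hY, h2, h3, h4, h5, h6, ?_⟩
  intro a
  rw [h5 u U (fun a => rfl) hUT, h6, hU, map_zero]

end Pool.Agent.H93.EG

/-!
# Row YSq: the square of the mean operator is anti-invariant

Setting: `w : A ≃+ A` implemented by `W`; `Y` the mean operators of `u = w ∘ w` (implemented by `W ∘ W`), with the properties of
`yop`. `z m := e (w^[m] b + w.symm^[m] b)`, `m ≥ 1`, pairwise orthogonal (`hz`).
Claim: `x := Y b (Y b (e 0))` satisfies `x + W x = 0`.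

Proof. `y := Y b (e 0)`, `W (W y) = y`, hence `W (W x) = x` (`W (W (Y b y)) = Y (w (w b)) (W (W y)) = Y b y`).
Let `s` be `W`-fixed. (1) `inner (Y b y) s = inner (T b y) s`: `Y b y` is the limit of the averages of `T (u^[j] b) y`, and
`inner (T (u^[j] b) y) s = inner (W^{2j} (T b y)) s` (as `W^{2j} y = y`) `= inner (T b y) (W^{-2j} s) = inner (T b y) s`.
(2) `y` is also the limit of the averages (`m = 1..M`) of `e (w.symm^[2m] b)` : `y` is the mean of `U^j (e b)`, i.e. the orthogonal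
projection of `e b` to `ker (W^2 - 1)`, and the means of `W^{-2m} (e b)` converge to the projection to `ker (W^{-2} - 1)`, the same
subspace (mean ergodic theorem twice; or: `inner y s = inner (e b) s` for all `W^2`-fixed `s` characterises `y` among the fixed vectors).
So `inner (T b y) s = lim (1/M) ∑ inner (T b (e (w^{-2m} b))) s`, and `T b (e (w^{-2m} b)) = e (b + w^{-2m} b)`, apply `W^m`:
`inner (e (b + w^{-2m} b)) s = inner (e (w^m b + w^{-m} b)) (W^m s) = inner (z m) s`.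
(3) Bessel: `z m` orthogonal of norm `^2 = φ 0`: `∑_{m ≤ M} (inner (z m) s) ^ 2 ≤ φ 0 ‖s‖ ^ 2` (or: `‖∑_{m≤M} z m‖ ^ 2 = M φ 0`, so
`|∑ inner (z m) s| ≤ √(M φ 0) ‖s‖`), hence the averages tend to 0: `inner (Y b y) s = 0`.
(4) `s := x + W x` is `W`-fixed; `inner x s = 0` by (1)-(3); `inner (W x) s = inner x (W⁻¹ s) = inner x s = 0`. So `‖s‖ ^ 2 = 0`.
-/


namespace Pool.Agent.H93.EG

open Filter Topology

theorem ysq {A : Type} [AddCommGroup A] {φ : A → ℝ} {H : Type} [NormedAddCommGroup H]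
    [InnerProductSpace ℝ H] [CompleteSpace H] {e : A → H} {T : A → H ≃ₗᵢ[ℝ] H} (h : Sys φ e T)
    (w : A ≃+ A) (W : H ≃ₗᵢ[ℝ] H) (hW : ∀ a, W (e a) = e (w a))
    (hWT : ∀ a x, W (T a x) = T (w a) (W x)) (b : A)
    (hz : ∀ n m : ℕ, 1 ≤ n → 1 ≤ m → n ≠ m →
      φ (((⇑w)^[n] b + (⇑w.symm)^[n] b) - ((⇑w)^[m] b + (⇑w.symm)^[m] b)) = 0)
    (Y : A → H →L[ℝ] H)
    (hY : ∀ a x, Tendsto (fun N : ℕ => (1 / ((N : ℝ) + 1)) •
        ∑ j ∈ Finset.range (N + 1), T ((fun a => w (w a))^[j] a) x) atTop (𝓝 (Y a x)))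
    (hW2 : ∀ a x, W (Y a x) = Y (w a) (W x))
    (hY2 : ∀ a, Y (w (w a)) = Y a) :
    Y b (Y b (e 0)) + W (Y b (Y b (e 0))) = 0 := by
  have hWe0 : W (e 0) = e 0 := by rw [hW, map_zero]
  obtain ⟨y, hy⟩ : ∃ y, y = Y b (e 0) := ⟨_, rfl⟩
  rw [← hy]
  obtain ⟨x, hx⟩ : ∃ x, x = Y b y := ⟨_, rfl⟩
  rw [← hx]
  have hWWy : W (W y) = y := by rw [hy, hW2, hW2, hY2, hWe0, hWe0]
  have hWWx : W (W x) = x := by rw [hx, hW2, hW2, hY2, hWWy]
  have key : ∀ s, W s = s → inner ℝ x s = 0 := by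
    intro s hs
    have hWin : ∀ v, inner ℝ (W v) s = inner ℝ v s := fun v => by
      calc inner ℝ (W v) s = inner ℝ (W v) (W s) := by rw [hs]
        _ = inner ℝ v s := W.inner_map_map v s
    have h1 : ∀ j, inner ℝ (T ((fun a => w (w a))^[j] b) y) s = inner ℝ (T b y) s := by
      intro j
      induction j with
      | zero => rfl
      | succ j ih =>
        rw [Function.iterate_succ_apply']
        have h3 : T (w (w ((fun a => w (w a))^[j] b))) y =
            W (W (T ((fun a => w (w a))^[j] b) y)) := by rw [hWT, hWT, hWWy]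
        rw [h3, hWin, hWin, ih]
    have h2 : inner ℝ x s = inner ℝ (T b y) s := by
      have t1 := (hY b y).inner (tendsto_const_nhds (x := s)) (𝕜 := ℝ)
      rw [← hx] at t1
      refine tendsto_nhds_unique t1 ?_
      refine Tendsto.congr (fun N => ?_) (tendsto_const_nhds (x := inner ℝ (T b y) s))
      have hN : (N : ℝ) + 1 ≠ 0 := by positivity
      rw [real_inner_smul_left, sum_inner, Finset.sum_congr rfl fun j _ => h1 j,
        Finset.sum_const, Finset.card_range, nsmul_eq_mul]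
      push_cast
      field_simp
    have hit : ∀ (j : ℕ) (v : A), inner ℝ (e ((⇑w)^[j] v)) s = inner ℝ (e v) s := by
      intro j v
      induction j with
      | zero => rfl
      | succ j ih => rw [Function.iterate_succ_apply', ← hW, hWin, ih]
    have hww : ∀ (j : ℕ), (⇑w)^[j] ((⇑w)^[j] b + (⇑w.symm)^[j] b) =
        b + (fun a => w (w a))^[j] b := by
      intro j
      rw [iterate_map_add, add_comm]
      congr 1
      · exact (Function.LeftInverse.iterate w.apply_symm_apply j) b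
      · rw [← Function.iterate_add_apply, ← two_mul, Function.iterate_mul]
        rfl
    have h3 : ∀ j, inner ℝ (T b (T ((fun a => w (w a))^[j] b) (e 0))) s =
        inner ℝ (e ((⇑w)^[j] b + (⇑w.symm)^[j] b)) s := by
      intro j
      rw [h.tr, h.tr, add_zero, ← hww j, hit]
    have t2 : Tendsto (fun N : ℕ => (1 / ((N : ℝ) + 1)) *
        ∑ j ∈ Finset.range (N + 1), inner ℝ (e ((⇑w)^[j] b + (⇑w.symm)^[j] b)) s) atTop
        (𝓝 (inner ℝ (T b y) s)) := by
      have t1 := (((T b).continuous.tendsto _).comp (hY b (e 0))).inner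
        (tendsto_const_nhds (x := s)) (𝕜 := ℝ)
      rw [← hy] at t1
      refine t1.congr fun N => ?_
      simp only [Function.comp_apply]
      rw [map_smul, map_sum, real_inner_smul_left, sum_inner,
        Finset.sum_congr rfl fun j _ => h3 j]
    -- orthogonality
    have hzz : ∀ n m : ℕ, 1 ≤ n → 1 ≤ m → n ≠ m →
        inner ℝ (e ((⇑w)^[n] b + (⇑w.symm)^[n] b)) (e ((⇑w)^[m] b + (⇑w.symm)^[m] b)) = 0 :=
      fun n m hn hm hnm => by rw [h.inn]; exact hz n m hn hm hnm
    have hsq : ∀ N : ℕ, ‖∑ j ∈ Finset.range N, e ((⇑w)^[j + 1] b + (⇑w.symm)^[j + 1] b)‖ ^ 2 =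
        N * φ 0 := by
      intro N
      induction N with
      | zero => simp
      | succ N ih =>
        rw [Finset.sum_range_succ, norm_add_sq_real, ih, sum_inner,
          Finset.sum_eq_zero fun j hj => hzz (j + 1) (N + 1) (by omega) (by omega)
            (by have := Finset.mem_range.1 hj; omega),
          ← real_inner_self_eq_norm_sq, h.inn, sub_self]
        push_cast
        ring
    have hφ0 : 0 ≤ φ 0 := by
      have := hsq 1
      rw [Nat.cast_one, one_mul] at this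
      rw [← this]
      positivity
    have t3 : Tendsto (fun N : ℕ => (1 / ((N : ℝ) + 1)) *
        ∑ j ∈ Finset.range (N + 1), inner ℝ (e ((⇑w)^[j] b + (⇑w.symm)^[j] b)) s) atTop
        (𝓝 0) := by
      have hb : ∀ N : ℕ, ‖(1 / ((N : ℝ) + 1)) *
          ∑ j ∈ Finset.range (N + 1), inner ℝ (e ((⇑w)^[j] b + (⇑w.symm)^[j] b)) s‖ ≤
          |inner ℝ (e (b + b)) s| * (1 / ((N : ℝ) + 1)) +
            (Real.sqrt (φ 0) * ‖s‖) * Real.sqrt (1 / ((N : ℝ) + 1)) := by
        intro N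
        have hN : (0 : ℝ) < (N : ℝ) + 1 := by positivity
        rw [Finset.sum_range_succ', norm_mul, Real.norm_of_nonneg (by positivity : (0 : ℝ) ≤ 1 / ((N : ℝ) + 1))]
        have e1 : ‖∑ j ∈ Finset.range N, inner ℝ (e ((⇑w)^[j + 1] b + (⇑w.symm)^[j + 1] b)) s‖ ≤
            Real.sqrt (N * φ 0) * ‖s‖ := by
          rw [← sum_inner]
          refine (norm_inner_le_norm _ _).trans ?_
          refine mul_le_mul_of_nonneg_right ?_ (norm_nonneg s)
          rw [← hsq N, Real.sqrt_sq (norm_nonneg _)]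
        have e2 : ‖inner ℝ (e ((⇑w)^[0] b + (⇑w.symm)^[0] b)) s‖ = |inner ℝ (e (b + b)) s| := rfl
        have e3 : Real.sqrt (N * φ 0) ≤ Real.sqrt ((N : ℝ) + 1) * Real.sqrt (φ 0) := by
          rw [← Real.sqrt_mul hN.le]
          refine Real.sqrt_le_sqrt ?_
          nlinarith
        have e4 : 1 / ((N : ℝ) + 1) * Real.sqrt ((N : ℝ) + 1) = Real.sqrt (1 / ((N : ℝ) + 1)) := by
          rw [Real.sqrt_div zero_le_one, Real.sqrt_one]
          have := Real.sq_sqrt hN.le
          have hs0 : Real.sqrt ((N : ℝ) + 1) ≠ 0 := (Real.sqrt_pos.2 hN).ne'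
          field_simp
          linarith
        calc 1 / ((N : ℝ) + 1) * ‖∑ j ∈ Finset.range N,
              inner ℝ (e ((⇑w)^[j + 1] b + (⇑w.symm)^[j + 1] b)) s +
              inner ℝ (e ((⇑w)^[0] b + (⇑w.symm)^[0] b)) s‖
            ≤ 1 / ((N : ℝ) + 1) * (Real.sqrt ((N : ℝ) + 1) * Real.sqrt (φ 0) * ‖s‖ +
              |inner ℝ (e (b + b)) s|) := by
              refine mul_le_mul_of_nonneg_left ?_ (by positivity)
              refine (norm_add_le _ _).trans ?_
              rw [e2]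
              have := mul_le_mul_of_nonneg_right e3 (norm_nonneg s)
              linarith
          _ = _ := by
              rw [← e4]
              ring
      have l1 : Tendsto (fun N : ℕ => 1 / ((N : ℝ) + 1)) atTop (𝓝 0) :=
        tendsto_one_div_add_atTop_nhds_zero_nat
      have l2 : Tendsto (fun N : ℕ => Real.sqrt (1 / ((N : ℝ) + 1))) atTop (𝓝 0) := by
        have := (Real.continuous_sqrt.tendsto 0).comp l1
        rwa [Real.sqrt_zero] at this
      have l3 := (l1.const_mul |inner ℝ (e (b + b)) s|).add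
        (l2.const_mul (Real.sqrt (φ 0) * ‖s‖))
      rw [mul_zero, mul_zero, add_zero] at l3
      exact squeeze_zero_norm hb l3
    rw [h2]
    exact tendsto_nhds_unique t2 t3
  obtain ⟨s, hs⟩ : ∃ s, s = x + W x := ⟨_, rfl⟩
  have hWs : W s = s := by rw [hs, map_add, hWWx, add_comm]
  have k1 := key s hWs
  have k2 : inner ℝ (W x) s = 0 := by
    calc inner ℝ (W x) s = inner ℝ (W x) (W s) := by rw [hWs]
      _ = inner ℝ x s := W.inner_map_map x s
      _ = 0 := k1
  rw [← hs]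
  have k3 : inner ℝ s s = 0 := by
    nth_rewrite 1 [hs]
    rw [inner_add_left, k1, k2, add_zero]
  exact inner_self_eq_zero.1 k3

end Pool.Agent.H93.EG

/-!
# Row YHalf: `y` and `W y` are orthogonal

Setting as in YSq. `y := Y b (e 0)`. Claim `inner y (W y) = 0`.
Proof. `b' := w b`, `Y b' (e 0) = W (Y b (e 0))` (`hW2`, `W (e 0) = e 0`). By `ysq`, `Y b' (Y b' (e 0)) = - Y b (Y b (e 0))` (`hW2` twice).
All `Y a` commute (`hc`), adjoint of `Y a` is `Y (-a)` (`ha`). Put `R x := Y (-b) (Y b' x) + Y (-b') (Y b x)`; it is self-adjoint.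
`R (R (e 0)) = Y(-b) Y(-b) Y b' Y b' e0 + Y(-b') Y(-b') Y b Y b e0 + 2 Y(-b) Y b Y(-b') Y b' e0
 = - Y(-b)Y(-b) Y b Y b e0 - Y(-b')Y(-b') Y b' Y b' e0 + 2 Y(-b) Y b Y(-b') Y b' e0 = - Q (Q (e 0))`, `Q x := Y(-b) (Y b x) - Y(-b') (Y b' x)`
self-adjoint. So `‖R e0‖ ^ 2 = inner (R (R e0)) e0 = - ‖Q e0‖ ^ 2 ≤ 0`, `R e0 = 0`, and
`0 = inner (R e0) e0 = inner (Y b' e0) (Y b e0) + inner (Y b e0) (Y b' e0) = 2 inner y (W y)`.
-/


namespace Pool.Agent.H93.EG

open Filter Topology

theorem yhalf {A : Type} [AddCommGroup A] {φ : A → ℝ} {H : Type} [NormedAddCommGroup H]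
    [InnerProductSpace ℝ H] [CompleteSpace H] {e : A → H} {T : A → H ≃ₗᵢ[ℝ] H} (h : Sys φ e T)
    (w : A ≃+ A) (W : H ≃ₗᵢ[ℝ] H) (hW : ∀ a, W (e a) = e (w a)) (b : A)
    (Y : A → H →L[ℝ] H)
    (hc : ∀ a b x, Y a (Y b x) = Y b (Y a x))
    (ha : ∀ a x y, inner ℝ (Y a x) y = inner ℝ x (Y (-a) y))
    (hW2 : ∀ a x, W (Y a x) = Y (w a) (W x))
    (hsq : Y b (Y b (e 0)) + W (Y b (Y b (e 0))) = 0) :
    inner ℝ (Y b (e 0)) (W (Y b (e 0))) = 0 := by
  have hW0 : W (e 0) = e 0 := by rw [hW, map_zero]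
  have hWy : W (Y b (e 0)) = Y (w b) (e 0) := by rw [hW2, hW0]
  have hWyy : W (Y b (Y b (e 0))) = Y (w b) (Y (w b) (e 0)) := by rw [hW2, hWy]
  rw [hWyy] at hsq
  rw [hWy]
  set z := e 0 with hz
  set P := Y b with hP
  set P' := Y (w b) with hP'
  set Q := Y (-b) with hQ
  set Q' := Y (-(w b)) with hQ'
  have hadj1 : ∀ x y, inner ℝ (P x) y = inner ℝ x (Q y) := ha b
  have hadj2 : ∀ x y, inner ℝ (P' x) y = inner ℝ x (Q' y) := ha (w b)
  have hadj3 : ∀ x y, inner ℝ (Q x) y = inner ℝ x (P y) := by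
    intro x y
    have := ha (-b) x y
    rwa [neg_neg] at this
  have hadj4 : ∀ x y, inner ℝ (Q' x) y = inner ℝ x (P' y) := by
    intro x y
    have := ha (-(w b)) x y
    rwa [neg_neg] at this
  have hPP : P (P z) = - P' (P' z) := eq_neg_of_add_eq_zero_left hsq
  have c1 : ∀ x, P' (Q x) = Q (P' x) := hc _ _
  have c2 : ∀ x, P' (Q' x) = Q' (P' x) := hc _ _
  have c3 : ∀ x, P (Q x) = Q (P x) := hc _ _
  have c4 : ∀ x, P (Q' x) = Q' (P x) := hc _ _
  have c5 : ∀ x, P' (P x) = P (P' x) := hc _ _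
  have c6 : ∀ x, Q' (Q x) = Q (Q' x) := hc _ _
  have hR : ∀ x y, inner ℝ (Q (P' x) + Q' (P x)) y = inner ℝ x (Q (P' y) + Q' (P y)) := by
    intro x y
    rw [inner_add_left, inner_add_right, hadj3, hadj2, hadj4, hadj1, add_comm]
  have hS : ∀ x y, inner ℝ (Q (P x) - Q' (P' x)) y = inner ℝ x (Q (P y) - Q' (P' y)) := by
    intro x y
    rw [inner_sub_left, inner_sub_right, hadj3, hadj1, hadj4, hadj2]
  set r := Q (P' z) + Q' (P z) with hr
  set t := Q (P z) - Q' (P' z) with ht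
  have hrr : Q (P' r) + Q' (P r) = - (Q (P t) - Q' (P' t)) := by
    rw [hr, ht]
    simp only [map_add, map_sub, c1, c2, c3, c4, c5, c6, hPP, map_neg]
    abel
  have h1 : ‖r‖ ^ 2 = - ‖t‖ ^ 2 := by
    have e1 : inner ℝ (Q (P' r) + Q' (P r)) z = inner ℝ r r := hR r z
    have e2 : inner ℝ (Q (P t) - Q' (P' t)) z = inner ℝ t t := hS t z
    rw [← real_inner_self_eq_norm_sq, ← real_inner_self_eq_norm_sq, ← e1, ← e2, hrr,
      inner_neg_left]
  have h2 : r = 0 := by
    have : ‖r‖ ^ 2 ≤ 0 := by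
      rw [h1]
      have := sq_nonneg ‖t‖
      linarith
    have h3 : ‖r‖ = 0 := by nlinarith [norm_nonneg r]
    exact norm_eq_zero.1 h3
  have h3 : inner ℝ r z = 0 := by rw [h2, inner_zero_left]
  rw [hr, inner_add_left, hadj3, hadj4, real_inner_comm (P z) (P' z)] at h3
  linarith

end Pool.Agent.H93.EG

/-!
# Row YLem: Lemma Y

Proof. `gns_group`, `Sys.aut` for `v`: system `e, T` and `V`. For `K = 2 ^ j` put `w := v^K`, `W := V^K` (iterates; as `AddEquiv` /
`LinearIsometryEquiv`, e.g. powers in the groups `AddAut A` and `H ≃ₗᵢ[ℝ] H`). `y K` := limit of the averages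
`(1/(N+1)) ∑_{j ≤ N} V^{K j} (e b)` (exists: mean ergodic theorem, or `yop` for `u = v^K` applied to `e 0`).
Claim `‖y K‖ ^ 2 = ‖y (2K)‖ ^ 2 / 2`: `yop` for `u = w ∘ w` (`U = W ∘ W`) gives `Y`, `Y b (e 0) = y (2K)` (`T (u^[j] b) (e 0) = e (u^[j] b)
= V^{2Kj} (e b)`); `ysq`, `yhalf` (the hypothesis of `ysq` for `w = v^K` is `hb` for `K n, K m`: `w^[n] = v^[K n]`,
`w.symm^[n] = v.symm^[K n]`) give `inner (y (2K)) (V^K (y (2K))) = 0`; and `y K = (y (2K) + V^K (y (2K))) / 2` (split the average over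
`2 N` terms in even and odd ones). So `‖y K‖ ^ 2 = (‖y (2K)‖ ^ 2 + ‖V^K y (2K)‖ ^ 2) / 4 = ‖y (2K)‖ ^ 2 / 2`.
`‖y K‖ ≤ ‖e b‖`. Hence `‖y 1‖ ^ 2 ≤ ‖e b‖ ^ 2 / 2 ^ J` for all `J`, `y 1 = 0`. And `φ b = inner (e b) (e 0) = inner (V^j (e b)) (e 0)` for all `j`
(`V (e 0) = e 0`), so `φ b = inner (y 1) (e 0) = 0`.
-/


namespace Pool.Agent.H93.EG

open Filter Topology

/-- the averages of the orbit of `b` converge to `y` -/
def IsMeanY {A : Type} [AddCommGroup A] {H : Type} [NormedAddCommGroup H]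
    [InnerProductSpace ℝ H] (e : A → H) (b : A) (w : A ≃+ A) (y : H) : Prop :=
  Tendsto (fun N : ℕ => (1 / ((N : ℝ) + 1)) • ∑ j ∈ Finset.range (N + 1), e ((⇑w)^[j] b))
    atTop (𝓝 y)

theorem sum_even_odd {H : Type} [AddCommMonoid H] (f : ℕ → H) (n : ℕ) :
    ∑ j ∈ Finset.range (2 * n), f j = ∑ i ∈ Finset.range n, (f (2 * i) + f (2 * i + 1)) := by
  induction n with
  | zero => simp
  | succ n ih =>
    rw [Finset.sum_range_succ, ← ih, show 2 * (n + 1) = 2 * n + 1 + 1 by ring,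
      Finset.sum_range_succ, Finset.sum_range_succ, add_assoc]

theorem norm_e {A : Type} [AddCommGroup A] {φ : A → ℝ} {H : Type} [NormedAddCommGroup H]
    [InnerProductSpace ℝ H] {e : A → H} {T : A → H ≃ₗᵢ[ℝ] H} (h : Sys φ e T) (a : A) :
    ‖e a‖ ^ 2 = φ 0 := by
  rw [← real_inner_self_eq_norm_sq, h.inn, sub_self]

/-- one halving step -/
theorem yStep {A : Type} [AddCommGroup A] {φ : A → ℝ} {H : Type} [NormedAddCommGroup H]
    [InnerProductSpace ℝ H] [CompleteSpace H] {e : A → H} {T : A → H ≃ₗᵢ[ℝ] H} (h : Sys φ e T)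
    (w : A ≃+ A) (W : H ≃ₗᵢ[ℝ] H) (hW : ∀ a, W (e a) = e (w a))
    (hWT : ∀ a x, W (T a x) = T (w a) (W x)) (b : A)
    (hz : ∀ n m : ℕ, 1 ≤ n → 1 ≤ m → n ≠ m →
      φ (((⇑w)^[n] b + (⇑w.symm)^[n] b) - ((⇑w)^[m] b + (⇑w.symm)^[m] b)) = 0) :
    ∃ y y2 : H, IsMeanY e b w y ∧ IsMeanY e b (w.trans w) y2 ∧ ‖y‖ ^ 2 = ‖y2‖ ^ 2 / 2 := by
  -- the mean for `w`
  obtain ⟨Y1, h1, -⟩ := yop h w W hW hWT
  have hT0 : ∀ a, T a (e 0) = e a := fun a => by rw [h.tr, add_zero]
  have hy : IsMeanY e b w (Y1 b (e 0)) := by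
    have := h1 b (e 0)
    simp only [hT0] at this
    exact this
  -- the mean for `w ∘ w`
  obtain ⟨Y, g1, -, g3, g4, g5, g6, -⟩ := yop h (w.trans w) (W.trans W)
    (fun a => by
      change W (W (e a)) = e (w (w a))
      rw [hW, hW])
    (fun a x => by
      change W (W (T a x)) = T (w (w a)) (W (W x))
      rw [hWT, hWT])
  have hy2 : IsMeanY e b (w.trans w) (Y b (e 0)) := by
    have := g1 b (e 0)
    simp only [hT0] at this
    exact this
  have hW2 : ∀ a x, W (Y a x) = Y (w a) (W x) := g5 w W (fun a => rfl) hWT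
  have hsq := ysq h w W hW hWT b hz Y (fun a x => g1 a x) hW2 (fun a => g6 a)
  have hhalf := yhalf h w W hW b Y g3 g4 hW2 hsq
  refine ⟨Y1 b (e 0), Y b (e 0), hy, hy2, ?_⟩
  have hlim : Tendsto (fun N : ℕ => (1 / (((2 * N + 1 : ℕ) : ℝ) + 1)) •
      ∑ j ∈ Finset.range ((2 * N + 1) + 1), e ((⇑w)^[j] b)) atTop
      (𝓝 ((1 / 2 : ℝ) • (Y b (e 0) + W (Y b (e 0))))) := by
    have e1 : ∀ N : ℕ, (1 / (((2 * N + 1 : ℕ) : ℝ) + 1)) •
        ∑ j ∈ Finset.range ((2 * N + 1) + 1), e ((⇑w)^[j] b) =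
        (1 / 2 : ℝ) • ((1 / ((N : ℝ) + 1)) • ∑ j ∈ Finset.range (N + 1), e ((⇑(w.trans w))^[j] b) +
          W ((1 / ((N : ℝ) + 1)) • ∑ j ∈ Finset.range (N + 1), e ((⇑(w.trans w))^[j] b))) := by
      intro N
      have hit : ∀ i, (⇑(w.trans w))^[i] b = (⇑w)^[2 * i] b := by
        intro i
        rw [Function.iterate_mul]
        rfl
      rw [show 2 * N + 1 + 1 = 2 * (N + 1) by ring, sum_even_odd, map_smul, map_sum, ← smul_add,
        smul_smul, ← Finset.sum_add_distrib]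
      congr 1
      · have : ((N : ℝ) + 1) ≠ 0 := by positivity
        push_cast
        field_simp
        ring
      · apply Finset.sum_congr rfl
        intro i _
        rw [hit, hW, Function.iterate_succ_apply']
    simp_rw [e1]
    apply Tendsto.const_smul
    exact hy2.add ((W.continuous.tendsto _).comp hy2)
  have hsub : Tendsto (fun N : ℕ => 2 * N + 1) atTop atTop :=
    tendsto_atTop_mono (fun N => by change N ≤ 2 * N + 1; omega) tendsto_id
  have hlim2 := hy.comp hsub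
  have heq : Y1 b (e 0) = (1 / 2 : ℝ) • (Y b (e 0) + W (Y b (e 0))) :=
    tendsto_nhds_unique hlim2 hlim
  have hn : ‖Y b (e 0) + W (Y b (e 0))‖ ^ 2 = ‖Y b (e 0)‖ ^ 2 + ‖Y b (e 0)‖ ^ 2 := by
    rw [norm_add_sq_real, hhalf, LinearIsometryEquiv.norm_map]
    ring
  rw [heq, norm_smul, mul_pow, hn]
  norm_num
  ring

theorem yMeans {A : Type} [AddCommGroup A] {φ : A → ℝ} {H : Type} [NormedAddCommGroup H]
    [InnerProductSpace ℝ H] [CompleteSpace H] {e : A → H} {T : A → H ≃ₗᵢ[ℝ] H} (h : Sys φ e T)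
    (b : A) (J : ℕ) : ∀ (w : A ≃+ A) (W : H ≃ₗᵢ[ℝ] H), (∀ a, W (e a) = e (w a)) →
    (∀ a x, W (T a x) = T (w a) (W x)) →
    (∀ n m : ℕ, 1 ≤ n → 1 ≤ m → n ≠ m →
      φ (((⇑w)^[n] b + (⇑w.symm)^[n] b) - ((⇑w)^[m] b + (⇑w.symm)^[m] b)) = 0) →
    ∃ y : H, IsMeanY e b w y ∧ ‖y‖ ^ 2 ≤ ‖e b‖ ^ 2 / 2 ^ J := by
  induction J with
  | zero =>
    intro w W hW hWT hz
    obtain ⟨y, y2, hy, -, -⟩ := yStep h w W hW hWT b hz
    refine ⟨y, hy, ?_⟩
    rw [pow_zero, div_one]
    have hle : ‖y‖ ≤ ‖e b‖ := by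
      refine le_of_tendsto hy.norm (Eventually.of_forall fun N => ?_)
      have hN : (0 : ℝ) < (N : ℝ) + 1 := by positivity
      rw [norm_smul, Real.norm_eq_abs, abs_of_nonneg (by positivity)]
      calc (1 / ((N : ℝ) + 1)) * ‖∑ j ∈ Finset.range (N + 1), e ((⇑w)^[j] b)‖
          ≤ (1 / ((N : ℝ) + 1)) * ∑ j ∈ Finset.range (N + 1), ‖e ((⇑w)^[j] b)‖ :=
            mul_le_mul_of_nonneg_left (norm_sum_le _ _) (by positivity)
        _ = (1 / ((N : ℝ) + 1)) * ∑ j ∈ Finset.range (N + 1), ‖e b‖ := by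
            congr 1
            apply Finset.sum_congr rfl
            intro j _
            have h1 := norm_e h ((⇑w)^[j] b)
            have h2 := norm_e h b
            have h3 : ‖e ((⇑w)^[j] b)‖ ^ 2 = ‖e b‖ ^ 2 := by rw [h1, h2]
            exact (pow_left_inj₀ (norm_nonneg _) (norm_nonneg _) two_ne_zero).mp h3
        _ = ‖e b‖ := by
            rw [Finset.sum_const, Finset.card_range, nsmul_eq_mul]
            push_cast
            field_simp
    exact pow_le_pow_left₀ (norm_nonneg _) hle 2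
  | succ J ih =>
    intro w W hW hWT hz
    obtain ⟨y, y2, hy, hy2, heq⟩ := yStep h w W hW hWT b hz
    obtain ⟨y2', hy2', hle⟩ := ih (w.trans w) (W.trans W)
      (fun a => by
        change W (W (e a)) = e (w (w a))
        rw [hW, hW])
      (fun a x => by
        change W (W (T a x)) = T (w (w a)) (W (W x))
        rw [hWT, hWT])
      (fun n m hn hm hnm => by
        have hit : ∀ i, (⇑(w.trans w))^[i] b = (⇑w)^[2 * i] b := by
          intro i
          rw [Function.iterate_mul]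
          rfl
        have hit' : ∀ i, (⇑(w.trans w).symm)^[i] b = (⇑w.symm)^[2 * i] b := by
          intro i
          rw [Function.iterate_mul]
          rfl
        rw [hit, hit, hit', hit']
        exact hz (2 * n) (2 * m) (by omega) (by omega) (by omega))
    have : y2' = y2 := tendsto_nhds_unique hy2' hy2
    rw [this] at hle
    refine ⟨y, hy, ?_⟩
    rw [heq, pow_succ]
    calc ‖y2‖ ^ 2 / 2 ≤ (‖e b‖ ^ 2 / 2 ^ J) / 2 := by linarith
      _ = ‖e b‖ ^ 2 / (2 ^ J * 2) := by rw [div_div]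

theorem lemY {A : Type} [AddCommGroup A] (φ : A → ℝ) (hφ : PD φ) (v : A ≃+ A)
    (hv : ∀ a, φ (v a) = φ a) (b : A)
    (hb : ∀ n m : ℕ, 1 ≤ n → 1 ≤ m → n ≠ m →
      φ (((⇑v)^[n] b + (⇑v.symm)^[n] b) - ((⇑v)^[m] b + (⇑v.symm)^[m] b)) = 0) :
    φ b = 0 := by
  obtain ⟨H, i1, i2, i3, e, T, h⟩ := gns_group φ hφ
  obtain ⟨V, hV1, hV2⟩ := Sys.aut h v hv
  obtain ⟨y, hy, -⟩ := yMeans h b 0 v V hV1 hV2 hb
  have hsmall : ∀ J : ℕ, ‖y‖ ^ 2 ≤ ‖e b‖ ^ 2 * (1 / 2) ^ J := by
    intro J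
    obtain ⟨y', hy', hle⟩ := yMeans h b J v V hV1 hV2 hb
    have : y' = y := tendsto_nhds_unique hy' hy
    rw [this] at hle
    rw [one_div, inv_pow, ← div_eq_mul_inv]
    exact hle
  have hy0 : ‖y‖ ^ 2 ≤ 0 := by
    have hl : Tendsto (fun J : ℕ => ‖e b‖ ^ 2 * (1 / 2 : ℝ) ^ J) atTop (𝓝 (‖e b‖ ^ 2 * 0)) :=
      (tendsto_pow_atTop_nhds_zero_of_lt_one (by norm_num) (by norm_num)).const_mul _
    rw [mul_zero] at hl
    exact ge_of_tendsto hl (Eventually.of_forall hsmall)
  have hy1 : y = 0 := by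
    have : ‖y‖ ^ 2 = 0 := le_antisymm hy0 (sq_nonneg _)
    exact norm_eq_zero.mp (pow_eq_zero_iff two_ne_zero |>.mp this)
  have hφj : ∀ j, φ ((⇑v)^[j] b) = φ b := by
    intro j
    induction j with
    | zero => rfl
    | succ j ih => rw [Function.iterate_succ_apply', hv, ih]
  have hin : Tendsto (fun N : ℕ => inner ℝ ((1 / ((N : ℝ) + 1)) •
      ∑ j ∈ Finset.range (N + 1), e ((⇑v)^[j] b)) (e 0)) atTop (𝓝 (inner ℝ y (e 0))) :=
    hy.inner tendsto_const_nhds
  have hc : ∀ N : ℕ, inner ℝ ((1 / ((N : ℝ) + 1)) •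
      ∑ j ∈ Finset.range (N + 1), e ((⇑v)^[j] b)) (e 0) = φ b := by
    intro N
    rw [real_inner_smul_left, sum_inner]
    simp_rw [h.inn, sub_zero, hφj]
    rw [Finset.sum_const, Finset.card_range, nsmul_eq_mul]
    push_cast
    have : ((N : ℝ) + 1) ≠ 0 := by positivity
    field_simp
  simp_rw [hc] at hin
  have := tendsto_nhds_unique hin tendsto_const_nhds
  rw [← this, hy1, inner_zero_left]

end Pool.Agent.H93.EG
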