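import Pool.Agent.H93.EGM.VdC
import Pool.Agent.H93.EGM.Yop
import Pool.Agent.H58.ER.Mean

set_option autoImplicit false

/-!
# Row ThmC: a singular radial positive definite function on the plane vanishes off 0

Hypotheses: `T`, `es`: vectors with `inner (T w es) es = k ‖w‖`, and arbitrarily small convex combinations of small real translates.
Claim: `k r = 0` for `r > 0`.

Proof. Let `D n` be the real polynomials with `D n` evaluated at `x + 1/x` equal to `x^n + x^{-n}` for all complex `x ≠ 0` (recursion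
`D 0 = 2`, `D 1 = X`, `D (n+2) = X * D (n+1) - D n`; or Mathlib `Polynomial.dickson 1 (1 : ℝ) n`,
`Polynomial.dickson_one_one_eval_add_inv`), `natDegree (D n) = n` for `n ≥ 1` (monic). For `1 ≤ i < j`, `C r * (D i - D j)` has degree `j`.
`vdc` for `T` restricted to the real line, `W n := {C r * (D i - D j) | 1 ≤ i, j ≤ n, i ≠ j}`, `δ = 1`, `ε = 1/(n+1)`: probabilities `(l_n, t_n)` on
`(-1,1)`. Let `A := ℝ → ℂ` (additive group), `ψ_n a := ∑_i l_n i * k ‖a (t_n i)‖`, `φ a := ulim` of `ψ_n a` along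
`Filter.hyperfilter ℕ` (`Pool.Agent.H58.ER.ulim` in `Pool/Agent/H58/ER/Mean.lean`, with `ulim_tendsto`; `|k| ≤ k 0` makes `ψ_n` bounded).
`PD φ`: each `ψ_n` is positive definite (`∑ x_a x_b k ‖a t - b t‖ = ‖∑ x_a T (a t) es‖ ^ 2 ≥ 0`), pass to the limit.
`v t := if |t| ≤ 2 then t/2 + i √(1 - t²/4) else 1`, `‖v t‖ = 1`; automorphism `a ↦ fun t => v t * a t` of `A`, `φ (v a) = φ a`.
`b := fun _ => (r : ℂ)`: `v^[n] b t = v t ^ n * r`, `v.symm^[n] b t = (v t)⁻¹ ^ n * r`, and for `|t| < 1`: `v t + (v t)⁻¹ = t`, so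
`v^[n] b t + v.symm^[n] b t = r * D n (t)` (real). Hence for `n ≠ m`, `n, m ≥ 1` the hypothesis of `lemY` is
`lim ∑_i l_N i * k |r (D n (t) - D m (t))| = 0` with `k |x| = inner (T x es) es`, which is `≤ 1/(N+1)` in absolute value for `N ≥ max n m`.
`lemY` gives `0 = φ b = k r` (`∑ l = 1`, `‖(r:ℂ)‖ = r`).
-/


namespace Pool.Agent.H93.EG

open Filter Topology Polynomial

/-- Dickson polynomials. -/
private noncomputable def dkP : ℕ → ℝ[X]
  | 0 => 2
  | 1 => X
  | (n + 2) => X * dkP (n + 1) - dkP n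

private theorem dkP_monic (n : ℕ) :
    ((dkP (n + 1)).Monic ∧ (dkP (n + 1)).natDegree = n + 1) ∧
      ((dkP (n + 2)).Monic ∧ (dkP (n + 2)).natDegree = n + 2) := by
  induction n with
  | zero =>
    refine ⟨⟨monic_X, natDegree_X⟩, ?_⟩
    have h2 : dkP 2 = X ^ 2 - C (2 : ℝ) := by
      change X * X - (2 : ℝ[X]) = _
      rw [pow_two]
      rfl
    have h2' : dkP (0 + 2) = X ^ 2 - C (2 : ℝ) := h2
    rw [h2']
    exact ⟨monic_X_pow_sub_C _ (by norm_num), natDegree_X_pow_sub_C⟩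
  | succ n ih =>
    obtain ⟨⟨h1, h1'⟩, h2, h2'⟩ := ih
    refine ⟨⟨h2, h2'⟩, ?_⟩
    have e : dkP (n + 1 + 2) = X * dkP (n + 2) - dkP (n + 1) := rfl
    have hm : (X * dkP (n + 2)).Monic := monic_X.mul h2
    have hd : (X * dkP (n + 2)).natDegree = n + 3 := by
      rw [monic_X.natDegree_mul h2, natDegree_X, h2']
      ring
    have hlt : (dkP (n + 1)).degree < (X * dkP (n + 2)).degree := by
      rw [degree_eq_natDegree h1.ne_zero, degree_eq_natDegree hm.ne_zero, h1', hd]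
      exact_mod_cast (by omega : n + 1 < n + 3)
    have hm2 : (X * dkP (n + 2) - dkP (n + 1)).Monic := hm.sub_of_left hlt
    rw [e]
    refine ⟨hm2, ?_⟩
    have := degree_sub_eq_left_of_degree_lt hlt
    rw [natDegree, this, ← natDegree, hd]

private theorem dkP_natDegree (n : ℕ) (hn : 1 ≤ n) : (dkP n).natDegree = n := by
  obtain ⟨m, rfl⟩ : ∃ m, n = m + 1 := ⟨n - 1, by omega⟩
  exact (dkP_monic m).1.2

private theorem dkP_eval (t : ℝ) (x y : ℂ) (hxy : x * y = 1) (hs : x + y = t) (n : ℕ) :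
    x ^ n + y ^ n = (((dkP n).eval t : ℝ) : ℂ) ∧
      x ^ (n + 1) + y ^ (n + 1) = (((dkP (n + 1)).eval t : ℝ) : ℂ) := by
  induction n with
  | zero =>
    refine ⟨?_, ?_⟩
    · change x ^ 0 + y ^ 0 = (((2 : ℝ[X]).eval t : ℝ) : ℂ)
      have : ((2 : ℝ[X]).eval t : ℝ) = 2 := by simp
      rw [this]
      norm_num
    · change x ^ (0 + 1) + y ^ (0 + 1) = (((X : ℝ[X]).eval t : ℝ) : ℂ)
      rw [eval_X, ← hs]
      ring
  | succ n ih =>
    refine ⟨ih.2, ?_⟩
    have e : dkP (n + 1 + 1) = X * dkP (n + 1) - dkP n := rfl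
    rw [e, eval_sub, eval_mul, eval_X, Complex.ofReal_sub, Complex.ofReal_mul, ← ih.1, ← ih.2,
      ← hs]
    have : x ^ n + y ^ n = x * y * (x ^ n + y ^ n) := by rw [hxy, one_mul]
    rw [this]
    ring

/-- The unimodular number with `v + v⁻¹ = t`. -/
private noncomputable def vv (t : ℝ) : ℂ :=
  if |t| ≤ 2 then ⟨t / 2, Real.sqrt (1 - t ^ 2 / 4)⟩ else 1

private theorem norm_vv (t : ℝ) : ‖vv t‖ = 1 := by
  unfold vv
  split_ifs with h
  · have h4 : t ^ 2 ≤ 4 := by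
      have := sq_le_sq' (abs_le.mp h).1 (abs_le.mp h).2
      linarith
    rw [Complex.norm_eq_sqrt_sq_add_sq]
    simp only
    rw [Real.sq_sqrt (by linarith)]
    have : (t / 2) ^ 2 + (1 - t ^ 2 / 4) = 1 := by ring
    rw [this, Real.sqrt_one]
  · exact norm_one

private theorem vv_ne (t : ℝ) : vv t ≠ 0 := by
  intro h
  have := norm_vv t
  rw [h, norm_zero] at this
  exact zero_ne_one this

private theorem vv_add (t : ℝ) (ht : |t| ≤ 2) : vv t + (vv t)⁻¹ = t := by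
  have hinv : (vv t)⁻¹ = (starRingEnd ℂ) (vv t) := by
    rw [Complex.inv_def, Complex.normSq_eq_norm_sq, norm_vv]
    simp
  rw [hinv, Complex.add_conj]
  unfold vv
  rw [if_pos ht]
  push_cast
  ring

/-- Multiplication by `vv` on functions. -/
private noncomputable def vE : (ℝ → ℂ) ≃+ (ℝ → ℂ) where
  toFun a := fun t => vv t * a t
  invFun a := fun t => (vv t)⁻¹ * a t
  left_inv a := by
    funext t
    simp only
    rw [← mul_assoc, inv_mul_cancel₀ (vv_ne t), one_mul]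
  right_inv a := by
    funext t
    simp only
    rw [← mul_assoc, mul_inv_cancel₀ (vv_ne t), one_mul]
  map_add' a b := by
    funext t
    simp only [Pi.add_apply]
    ring

private theorem vE_iter (n : ℕ) (b : ℝ → ℂ) (t : ℝ) : ((⇑vE)^[n] b) t = vv t ^ n * b t := by
  induction n with
  | zero => simp
  | succ n ih =>
    rw [Function.iterate_succ_apply']
    change vv t * ((⇑vE)^[n] b) t = _
    rw [ih]
    ring

private theorem vEs_iter (n : ℕ) (b : ℝ → ℂ) (t : ℝ) :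
    ((⇑vE.symm)^[n] b) t = (vv t)⁻¹ ^ n * b t := by
  induction n with
  | zero => simp
  | succ n ih =>
    rw [Function.iterate_succ_apply']
    change (vv t)⁻¹ * ((⇑vE.symm)^[n] b) t = _
    rw [ih]
    ring

/-- The family of polynomials. -/
private noncomputable def WW (r : ℝ) (n : ℕ) : Finset ℝ[X] := by
  classical
  exact ((Finset.Icc 1 n ×ˢ Finset.Icc 1 n).filter (fun p => p.1 ≠ p.2)).image
    (fun p => C r * (dkP p.1 - dkP p.2))

private theorem WW_mem (r : ℝ) (n i j : ℕ) (hi : 1 ≤ i) (hi' : i ≤ n) (hj : 1 ≤ j) (hj' : j ≤ n)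
    (hij : i ≠ j) : C r * (dkP i - dkP j) ∈ WW r n := by
  classical
  unfold WW
  rw [Finset.mem_image]
  refine ⟨(i, j), ?_, rfl⟩
  rw [Finset.mem_filter, Finset.mem_product, Finset.mem_Icc, Finset.mem_Icc]
  exact ⟨⟨⟨hi, hi'⟩, hj, hj'⟩, hij⟩

private theorem dk_sub_natDegree (i j : ℕ) (hj : 1 ≤ j) (hij : j < i) :
    (dkP i - dkP j).natDegree = i := by
  obtain ⟨m, rfl⟩ : ∃ m, i = m + 1 := ⟨i - 1, by omega⟩
  obtain ⟨l, rfl⟩ : ∃ l, j = l + 1 := ⟨j - 1, by omega⟩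
  have h1 := (dkP_monic m).1
  have h2 := (dkP_monic l).1
  have hlt : (dkP (l + 1)).degree < (dkP (m + 1)).degree := by
    rw [degree_eq_natDegree h1.1.ne_zero, degree_eq_natDegree h2.1.ne_zero, h1.2, h2.2]
    exact_mod_cast hij
  have := degree_sub_eq_left_of_degree_lt hlt
  rw [natDegree, this, ← natDegree, h1.2]

private theorem WW_deg (r : ℝ) (hr : 0 < r) (n : ℕ) :
    ∀ w ∈ WW r n, 1 ≤ w.natDegree ∧ w.natDegree ≤ n := by
  classical
  intro w hw
  unfold WW at hw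
  rw [Finset.mem_image] at hw
  obtain ⟨⟨i, j⟩, hp, rfl⟩ := hw
  rw [Finset.mem_filter, Finset.mem_product, Finset.mem_Icc, Finset.mem_Icc] at hp
  obtain ⟨⟨⟨hi, hi'⟩, hj, hj'⟩, hij⟩ := hp
  simp only at hi hi' hj hj' hij ⊢
  rw [natDegree_C_mul hr.ne']
  rcases lt_or_gt_of_ne hij with h | h
  · have : (dkP i - dkP j).natDegree = j := by
      rw [← neg_sub, natDegree_neg]
      exact dk_sub_natDegree j i hi h
    rw [this]
    exact ⟨hj, hj'⟩
  · rw [dk_sub_natDegree i j hj h]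
    exact ⟨hi, hi'⟩

theorem thmC {H : Type} [NormedAddCommGroup H] [InnerProductSpace ℝ H]
    (T : ℂ → H ≃ₗᵢ[ℝ] H) (hadd : ∀ a b x, T a (T b x) = T (a + b) x) (hzero : ∀ x, T 0 x = x)
    (es : H) (k : ℝ → ℝ) (hk : ∀ w, inner ℝ (T w es) es = k ‖w‖)
    (hS : ∀ δ : ℝ, 0 < δ → ∀ ε : ℝ, 0 < ε → ∃ (ι : Type) (_ : Fintype ι) (l t : ι → ℝ),
      (∀ i, 0 ≤ l i) ∧ ∑ i, l i = 1 ∧ (∀ i, |t i| < δ) ∧ ‖∑ i, l i • T (t i : ℂ) es‖ ≤ ε)
    (r : ℝ) (hr : 0 < r) : k r = 0 := by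
  have hvdc := fun n : ℕ => vdc (fun x : ℝ => T (x : ℂ))
    (fun a b x => by rw [hadd, Complex.ofReal_add])
    (fun x => by rw [Complex.ofReal_zero, hzero]) es hS n (WW r n) (WW_deg r hr n) 1 one_pos
    (1 / ((n : ℝ) + 1)) (by positivity)
  choose ι hι l t hl0 hl1 ht hw using hvdc
  -- bounds
  have hkb : ∀ z : ℂ, |k ‖z‖| ≤ ‖es‖ * ‖es‖ := by
    intro z
    rw [← hk z]
    have := abs_real_inner_le_norm (T z es) es
    rwa [LinearIsometryEquiv.norm_map] at this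
  have hin : ∀ z w : ℂ, inner ℝ (T z es) (T w es) = k ‖z - w‖ := by
    intro z w
    rw [← hk (z - w), ← (T w).inner_map_map (T (z - w) es) es, hadd]
    congr 3
    ring
  set ψ : ℕ → (ℝ → ℂ) → ℝ := fun n a => ∑ i, l n i * k ‖a (t n i)‖ with hψ
  have hψb : ∀ a, H58.ER.Bdd (fun n => ψ n a) := by
    intro a
    refine ⟨‖es‖ * ‖es‖, fun n => ?_⟩
    calc |ψ n a| ≤ ∑ i, |l n i * k ‖a (t n i)‖| := Finset.abs_sum_le_sum_abs _ _
      _ ≤ ∑ i, l n i * (‖es‖ * ‖es‖) := by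
          refine Finset.sum_le_sum fun i _ => ?_
          rw [abs_mul, abs_of_nonneg (hl0 n i)]
          exact mul_le_mul_of_nonneg_left (hkb _) (hl0 n i)
      _ = ‖es‖ * ‖es‖ := by rw [← Finset.sum_mul, hl1, one_mul]
  set φ : (ℝ → ℂ) → ℝ := fun a => H58.ER.ulim (Filter.hyperfilter ℕ) (fun n => ψ n a) with hφ
  have hφt : ∀ a, Tendsto (fun n => ψ n a) (Filter.hyperfilter ℕ : Filter ℕ) (𝓝 (φ a)) :=
    fun a => H58.ER.ulim_tendsto _ (hψb a)
  have hPD : PD φ := by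
    refine ⟨fun a => ?_, fun s x => ?_⟩
    · have : (fun n => ψ n (-a)) = fun n => ψ n a := by
        funext n
        simp only [hψ, Pi.neg_apply, norm_neg]
      simp only [hφ, this]
    · have hlim : Tendsto (fun n => ∑ a ∈ s, ∑ b ∈ s, x a * x b * ψ n (a - b))
          (Filter.hyperfilter ℕ : Filter ℕ) (𝓝 (∑ a ∈ s, ∑ b ∈ s, x a * x b * φ (a - b))) :=
        tendsto_finsetSum _ fun a _ => tendsto_finsetSum _ fun b _ => (hφt (a - b)).const_mul _
      refine ge_of_tendsto hlim (Eventually.of_forall fun n => ?_)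
      have key : ∑ a ∈ s, ∑ b ∈ s, x a * x b * ψ n (a - b)
          = ∑ i, l n i * inner ℝ (∑ a ∈ s, x a • T (a (t n i)) es)
              (∑ a ∈ s, x a • T (a (t n i)) es) := by
        have e1 : ∀ i, l n i * inner ℝ (∑ a ∈ s, x a • T (a (t n i)) es)
              (∑ a ∈ s, x a • T (a (t n i)) es)
            = ∑ a ∈ s, ∑ b ∈ s, x a * x b * (l n i * k ‖(a - b) (t n i)‖) := by
          intro i
          rw [sum_inner, Finset.mul_sum]
          refine Finset.sum_congr rfl fun a _ => ?_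
          rw [inner_sum, Finset.mul_sum]
          refine Finset.sum_congr rfl fun b _ => ?_
          rw [real_inner_smul_left, real_inner_smul_right, hin, Pi.sub_apply]
          ring
        simp only [e1]
        symm
        rw [Finset.sum_comm]
        refine Finset.sum_congr rfl fun a _ => ?_
        rw [Finset.sum_comm]
        refine Finset.sum_congr rfl fun b _ => ?_
        simp only [hψ, Finset.mul_sum]
      rw [key]
      refine Finset.sum_nonneg fun i _ => mul_nonneg (hl0 n i) real_inner_self_nonneg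
  have hv : ∀ a, φ (vE a) = φ a := by
    intro a
    have : (fun n => ψ n (vE a)) = fun n => ψ n a := by
      funext n
      simp only [hψ]
      refine Finset.sum_congr rfl fun i _ => ?_
      change l n i * k ‖vv (t n i) * a (t n i)‖ = _
      rw [norm_mul, norm_vv, one_mul]
    simp only [hφ, this]
  have hfin := lemY φ hPD vE hv (fun _ => (r : ℂ)) ?_
  · have : φ (fun _ => (r : ℂ)) = k r := by
      simp only [hφ]
      refine H58.ER.ulim_eq _ (tendsto_const_nhds.congr fun n => ?_)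
      simp only [hψ]
      rw [← Finset.sum_mul, hl1, one_mul, Complex.norm_real, Real.norm_of_nonneg hr.le]
    rw [← this, hfin]
  · intro n m hn hm hnm
    simp only [hφ]
    refine H58.ER.ulim_eq _ ?_
    refine Tendsto.mono_left ?_ Nat.hyperfilter_le_atTop
    refine squeeze_zero_norm' ?_ tendsto_one_div_add_atTop_nhds_zero_nat
    filter_upwards [eventually_ge_atTop (max n m)] with N hN
    have h1 := hw N (C r * (dkP n - dkP m)) (WW_mem r N n m hn (le_trans (le_max_left _ _) hN) hm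
      (le_trans (le_max_right _ _) hN) hnm)
    rw [Real.norm_eq_abs]
    refine le_trans (le_of_eq ?_) h1
    congr 1
    simp only [hψ]
    refine Finset.sum_congr rfl fun i _ => ?_
    congr 1
    rw [hk]
    congr 2
    simp only [Pi.sub_apply, Pi.add_apply]
    rw [vE_iter, vEs_iter, vE_iter, vEs_iter]
    have hti : |t N i| ≤ 2 := le_trans (ht N i).le (by norm_num)
    have e1 := (dkP_eval (t N i) (vv (t N i)) (vv (t N i))⁻¹ (mul_inv_cancel₀ (vv_ne _))
      (vv_add _ hti) n).1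
    have e2 := (dkP_eval (t N i) (vv (t N i)) (vv (t N i))⁻¹ (mul_inv_cancel₀ (vv_ne _))
      (vv_add _ hti) m).1
    rw [eval_mul, eval_C, eval_sub, Complex.ofReal_mul, Complex.ofReal_sub, ← e1, ← e2]
    ring

end Pool.Agent.H93.EG

/-!
# Row Dec: decomposition of a radial positive definite function on the discrete plane

Proof. `φ w := k ‖w‖`. `gns_group`: `e, T`; `Sys.aut` for the automorphism `w ↦ θ * w`, `‖θ‖ = 1`: `V θ`. `conv` (with `NC`, `NC_nb`) for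
`x = e 0`: `ec := y ∈ Cvec T NC`, `es := e 0 - ec` orthogonal to `Cvec T NC`.
`V θ` maps `Cvec T NC` to itself and fixes `e 0`, so `V θ ec = ec` (uniqueness: `V θ ec ∈ Cvec`, `e 0 - V θ ec = V θ es` is orthogonal to
`Cvec`) and `V θ es = es`. `kc r := inner (T (r:ℂ) ec) ec`; `inner (T w ec) ec = kc ‖w‖` for all `w` (write `w = θ ‖w‖`, apply `V θ⁻¹`).
Continuity of `kc`: `‖T a ec - T b ec‖ = ‖T (a-b) ec - ec‖` small for `|a - b|` small (`ec ∈ Cvec T NC`).
`ks w := inner (T w es) es = ks' ‖w‖` similarly, and `k ‖w‖ = inner (T w (ec + es)) (ec + es) = kc ‖w‖ + ks ‖w‖`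
(the cross terms vanish: `T w ec ∈ Cvec`). `line_sing` and `thmC` give `ks r = 0` for `r > 0`. So `kc r = k r` for `r > 0`.
Last claim: `conv` gives weights `l` and points `h i ∈ NC n`, `(1/2)^n ≤ δ`, with `‖∑ l i • T (h i) (e 0) - ec‖ ≤ ε'`. Then
`∑_i ∑_j l i l j k ‖z + h i - (w + h j)‖ = inner (T z a) (T w a)`, `a := ∑ l i • e (h i)` (`T (h i) (e 0) = e (h i)`), and
`kc ‖z - w‖ = inner (T z ec) (T w ec)`; difference `≤ ε' (‖a‖ + ‖ec‖)`, `‖a‖ ≤ ‖e 0‖`, `‖ec‖ ≤ ‖e 0‖`.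
-/


namespace Pool.Agent.H93.EG

private theorem dec_rot {H : Type} [NormedAddCommGroup H] [InnerProductSpace ℝ H]
    (T : ℂ → H ≃ₗᵢ[ℝ] H) (V : ∀ θ : ℂ, ‖θ‖ = 1 → H ≃ₗᵢ[ℝ] H)
    (hV : ∀ θ hθ a x, V θ hθ (T a x) = T (θ * a) (V θ hθ x)) (x : H)
    (hx : ∀ θ hθ, V θ hθ x = x) (w : ℂ) :
    inner ℝ (T w x) x = inner ℝ (T ((‖w‖ : ℝ) : ℂ) x) x := by
  have key : ∀ θ : ℂ, ‖θ‖ = 1 → ∀ r : ℂ, inner ℝ (T (θ * r) x) x = inner ℝ (T r x) x := by
    intro θ hθ r
    have h1 : T (θ * r) x = V θ hθ (T r x) := by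
      rw [hV, hx]
    rw [h1]
    conv_lhs => rw [← hx θ hθ]
    rw [hx θ hθ]
    conv_lhs => rw [← hx θ hθ]
    rw [LinearIsometryEquiv.inner_map_map, hx θ hθ]
  by_cases hw : w = 0
  · subst hw
    simp
  · have hn : ((‖w‖ : ℝ) : ℂ) ≠ 0 := by
      exact_mod_cast (norm_ne_zero_iff.mpr hw)
    have h2 : ‖w / ((‖w‖ : ℝ) : ℂ)‖ = 1 := by
      rw [norm_div, Complex.norm_real, norm_norm]
      exact div_self (norm_ne_zero_iff.mpr hw)
    have h3 := key (w / ((‖w‖ : ℝ) : ℂ)) h2 ((‖w‖ : ℝ) : ℂ)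
    rw [div_mul_cancel₀ _ hn] at h3
    exact h3

theorem dec (k : ℝ → ℝ) (hPD : PD (fun z : ℂ => k ‖z‖)) :
    ∃ kc : ℝ → ℝ, Continuous kc ∧ (∀ r, 0 < r → kc r = k r) ∧
      ∀ δ : ℝ, 0 < δ → ∀ ε : ℝ, 0 < ε → ∃ (ι : Type) (_ : Fintype ι) (l : ι → ℝ) (h : ι → ℂ),
        (∀ i, 0 ≤ l i) ∧ ∑ i, l i = 1 ∧ (∀ i, ‖h i‖ < δ) ∧
        ∀ z w : ℂ, |∑ i, ∑ j, l i * l j * k ‖z + h i - (w + h j)‖ - kc ‖z - w‖| ≤ ε := by
  obtain ⟨H, i1, i2, i3, e, T, hs⟩ := gns_group (fun z : ℂ => k ‖z‖) hPD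
  have hA : ∀ θ : ℂ, ‖θ‖ = 1 → ∃ V : H ≃ₗᵢ[ℝ] H, (∀ a, V (e a) = e (θ * a)) ∧
      ∀ a x, V (T a x) = T (θ * a) (V x) := by
    intro θ hθ
    have hmem : θ ∈ Submonoid.unitSphere ℂ := mem_sphere_zero_iff_norm.mpr hθ
    obtain ⟨V, h1, h2⟩ := hs.aut (rotation (⟨θ, hmem⟩ : Circle)).toLinearEquiv.toAddEquiv
      (by
        intro a
        have : ‖(rotation (⟨θ, hmem⟩ : Circle)) a‖ = ‖a‖ := LinearIsometryEquiv.norm_map _ _
        exact congrArg k this)
    exact ⟨V, h1, h2⟩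
  choose V hVe hVT using hA
  obtain ⟨y, hy, hort, hcv⟩ := conv T hs.add hs.zero NC NC_nb (e 0)
  have hVC : ∀ θ hθ x, x ∈ Cvec T NC → V θ hθ x ∈ Cvec T NC := by
    intro θ hθ x hx ε hε
    obtain ⟨n, hn⟩ := hx ε hε
    refine ⟨n, fun a ha => ?_⟩
    have hθ0 : θ ≠ 0 := by
      intro h0
      rw [h0, norm_zero] at hθ
      exact zero_ne_one hθ
    have h1 : T a (V θ hθ x) = V θ hθ (T (θ⁻¹ * a) x) := by
      rw [hVT]
      congr 2
      rw [mul_inv_cancel_left₀ hθ0]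
    rw [h1, ← map_sub, LinearIsometryEquiv.norm_map]
    apply hn
    show ‖θ⁻¹ * a‖ < _
    rw [norm_mul, norm_inv, hθ, inv_one, one_mul]
    exact ha
  have hV0 : ∀ θ hθ, V θ hθ (e 0) = e 0 := by
    intro θ hθ
    rw [hVe, mul_zero]
  have hVy : ∀ θ hθ, V θ hθ y = y := by
    intro θ hθ
    have hd : y - V θ hθ y ∈ Cvec T NC := by
      have h1 := Cvec_smul T NC (-1) (hVC θ hθ y hy)
      have h2 := Cvec_add T NC NC_nb hy h1
      rwa [neg_one_smul, ← sub_eq_add_neg] at h2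
    have h1 : ‖e 0 - V θ hθ y‖ = ‖e 0 - y‖ := by
      conv_lhs => rw [← hV0 θ hθ]
      rw [← map_sub, LinearIsometryEquiv.norm_map]
    have h2 : ‖(e 0 - y) + (y - V θ hθ y)‖ * ‖(e 0 - y) + (y - V θ hθ y)‖ =
        ‖e 0 - y‖ * ‖e 0 - y‖ + ‖y - V θ hθ y‖ * ‖y - V θ hθ y‖ :=
      norm_add_sq_eq_norm_sq_add_norm_sq_of_inner_eq_zero _ _ (hort _ hd)
    rw [sub_add_sub_cancel, h1] at h2
    have h3 : ‖y - V θ hθ y‖ * ‖y - V θ hθ y‖ = 0 := by linarith
    have h4 : ‖y - V θ hθ y‖ = 0 := mul_self_eq_zero.mp h3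
    exact (sub_eq_zero.mp (norm_eq_zero.mp h4)).symm
  have hVs : ∀ θ hθ, V θ hθ (e 0 - y) = e 0 - y := by
    intro θ hθ
    rw [map_sub, hV0, hVy]
  -- the functions
  have hkc : ∀ w : ℂ, inner ℝ (T w y) y = inner ℝ (T ((‖w‖ : ℝ) : ℂ) y) y :=
    dec_rot T V hVT y hVy
  have hks : ∀ w : ℂ, inner ℝ (T w (e 0 - y)) (e 0 - y) =
      inner ℝ (T ((‖w‖ : ℝ) : ℂ) (e 0 - y)) (e 0 - y) :=
    dec_rot T V hVT (e 0 - y) hVs
  have hTe : ∀ w, T w (e 0) = e w := by
    intro w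
    rw [hs.tr, add_zero]
  have hneg : ∀ w x z, inner ℝ (T w x) z = inner ℝ x (T (-w) z) := by
    intro w x z
    have h1 : z = T w (T (-w) z) := by
      rw [hs.add, add_neg_cancel, hs.zero]
    conv_lhs => rw [h1]
    rw [LinearIsometryEquiv.inner_map_map]
  have hsum : ∀ w : ℂ, k ‖w‖ = inner ℝ (T w y) y +
      inner ℝ (T w (e 0 - y)) (e 0 - y) := by
    intro w
    have h1 : inner ℝ (T w (e 0)) (e 0) = k ‖w‖ := by
      rw [hTe, hs.inn, sub_zero]
    have h2 : inner ℝ (e 0 - y) (T w y) = 0 := hort _ (Cvec_tr T hs.add NC w hy)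
    have h3 : inner ℝ (T w (e 0 - y)) y = 0 := by
      rw [hneg]
      exact hort _ (Cvec_tr T hs.add NC (-w) hy)
    have h4 : inner ℝ (T w y) (e 0 - y) = 0 := by
      rw [real_inner_comm]
      exact h2
    have h5 : T w (e 0) = T w y + T w (e 0 - y) := by
      rw [← map_add, add_sub_cancel]
    have h6 : e 0 = y + (e 0 - y) := by rw [add_sub_cancel]
    rw [← h1, h5]
    conv_lhs =>
      rw [h6]
    rw [inner_add_left, inner_add_right, inner_add_right]
    have e1 : y + (e 0 - y) - y = e 0 - y := by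
      rw [add_sub_cancel_left]
    rw [e1, h3, h4]
    ring
  have hsing : ∀ r : ℝ, 0 < r → inner ℝ (T ((r : ℝ) : ℂ) (e 0 - y)) (e 0 - y) = 0 := by
    intro r hr
    exact thmC T hs.add hs.zero (e 0 - y)
      (fun r => inner ℝ (T ((r : ℝ) : ℂ) (e 0 - y)) (e 0 - y)) hks
      (line_sing T hs.add hs.zero (e 0 - y) V hVT hVs hort) r hr
  have hdist : ∀ a b x, ‖T a x - T b x‖ = ‖T (a - b) x - x‖ := by
    intro a b x
    have h1 : T a x = T b (T (a - b) x) := by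
      rw [hs.add]
      congr 2
      ring
    rw [h1, ← map_sub, LinearIsometryEquiv.norm_map]
  refine ⟨fun r => inner ℝ (T ((r : ℝ) : ℂ) y) y, ?_, ?_, ?_⟩
  · -- continuity
    rw [Metric.continuous_iff]
    intro b ε hε
    have hpos : 0 < ε / (‖y‖ + 1) / 2 := by positivity
    obtain ⟨n, hn⟩ := hy _ hpos
    refine ⟨(1 / 2 : ℝ) ^ n, by positivity, fun a ha => ?_⟩
    rw [Real.dist_eq] at ha ⊢
    have h1 : ‖T ((a : ℝ) : ℂ) y - T ((b : ℝ) : ℂ) y‖ ≤ ε / (‖y‖ + 1) / 2 := by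
      rw [hdist]
      apply hn
      show ‖((a : ℝ) : ℂ) - ((b : ℝ) : ℂ)‖ < _
      rw [← Complex.ofReal_sub, Complex.norm_real]
      exact ha
    rw [← inner_sub_left]
    calc |inner ℝ (T ((a : ℝ) : ℂ) y - T ((b : ℝ) : ℂ) y) y|
        ≤ ‖T ((a : ℝ) : ℂ) y - T ((b : ℝ) : ℂ) y‖ * ‖y‖ := abs_real_inner_le_norm _ _
      _ ≤ (ε / (‖y‖ + 1) / 2) * ‖y‖ := mul_le_mul_of_nonneg_right h1 (norm_nonneg _)
      _ < ε := by
        have hy0 : 0 ≤ ‖y‖ := norm_nonneg y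
        have h2 : ε / (‖y‖ + 1) / 2 * ‖y‖ = ε * (‖y‖ / (2 * (‖y‖ + 1))) := by
          field_simp
        rw [h2]
        have h3 : ‖y‖ / (2 * (‖y‖ + 1)) < 1 := by
          rw [div_lt_one (by positivity)]
          linarith
        calc ε * (‖y‖ / (2 * (‖y‖ + 1))) < ε * 1 := by
              exact mul_lt_mul_of_pos_left h3 hε
          _ = ε := mul_one ε
  · intro r hr
    have h1 := hsum ((r : ℝ) : ℂ)
    rw [hsing r hr, add_zero, Complex.norm_real, Real.norm_of_nonneg hr.le] at h1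
    exact h1.symm
  · intro δ hδ ε hε
    obtain ⟨n, hn⟩ := exists_pow_lt_of_lt_one hδ (by norm_num : (1 / 2 : ℝ) < 1)
    have hpos : 0 < ε / (‖e 0‖ + ‖y‖ + 1) := by positivity
    obtain ⟨ι, iF, l, h, hl, hl1, hh, hb⟩ := hcv n _ hpos
    refine ⟨ι, iF, l, h, hl, hl1, fun i => lt_trans (hh i) hn, fun z w => ?_⟩
    set a : H := ∑ i, l i • T (h i) (e 0) with ha
    have hTa : ∀ z, T z a = ∑ i, l i • e (z + h i) := by
      intro z
      rw [ha, map_sum]
      apply Finset.sum_congr rfl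
      intro i _
      rw [map_smul, hTe, hs.tr]
    have hS : ∑ i, ∑ j, l i * l j * k ‖z + h i - (w + h j)‖ = inner ℝ (T z a) (T w a) := by
      rw [hTa, hTa, sum_inner]
      apply Finset.sum_congr rfl
      intro i _
      rw [inner_sum]
      apply Finset.sum_congr rfl
      intro j _
      rw [real_inner_smul_left, real_inner_smul_right, hs.inn]
      ring
    have hK : inner ℝ (T ((‖z - w‖ : ℝ) : ℂ) y) y = inner ℝ (T z y) (T w y) := by
      rw [← hkc]
      have h1 : T z y = T w (T (z - w) y) := by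
        rw [hs.add]
        congr 2
        ring
      rw [h1, LinearIsometryEquiv.inner_map_map]
    have hna : ‖a‖ ≤ ‖e 0‖ := by
      rw [ha]
      calc ‖∑ i, l i • T (h i) (e 0)‖ ≤ ∑ i, ‖l i • T (h i) (e 0)‖ := norm_sum_le _ _
        _ = ∑ i, l i * ‖e 0‖ := by
          apply Finset.sum_congr rfl
          intro i _
          rw [norm_smul, LinearIsometryEquiv.norm_map, Real.norm_of_nonneg (hl i)]
        _ = ‖e 0‖ := by
          rw [← Finset.sum_mul, hl1, one_mul]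
    have hdiff : inner ℝ (T z a) (T w a) - inner ℝ (T z y) (T w y) =
        inner ℝ (T z (a - y)) (T w a) + inner ℝ (T z y) (T w (a - y)) := by
      rw [map_sub, map_sub, inner_sub_left, inner_sub_right]
      ring
    show |_ - inner ℝ (T ((‖z - w‖ : ℝ) : ℂ) y) y| ≤ ε
    rw [hS, hK, hdiff]
    have b1 : |inner ℝ (T z (a - y)) (T w a)| ≤ ‖a - y‖ * ‖a‖ := by
      have := abs_real_inner_le_norm (T z (a - y)) (T w a)
      rwa [LinearIsometryEquiv.norm_map, LinearIsometryEquiv.norm_map] at this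
    have b2 : |inner ℝ (T z y) (T w (a - y))| ≤ ‖y‖ * ‖a - y‖ := by
      have := abs_real_inner_le_norm (T z y) (T w (a - y))
      rwa [LinearIsometryEquiv.norm_map, LinearIsometryEquiv.norm_map] at this
    have hy0 : 0 ≤ ‖y‖ := norm_nonneg y
    have he0 : 0 ≤ ‖e 0‖ := norm_nonneg (e 0)
    have ha0 : 0 ≤ ‖a - y‖ := norm_nonneg _
    calc |inner ℝ (T z (a - y)) (T w a) + inner ℝ (T z y) (T w (a - y))|
        ≤ |inner ℝ (T z (a - y)) (T w a)| + |inner ℝ (T z y) (T w (a - y))| := abs_add_le _ _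
      _ ≤ ‖a - y‖ * ‖a‖ + ‖y‖ * ‖a - y‖ := add_le_add b1 b2
      _ ≤ ‖a - y‖ * ‖e 0‖ + ‖y‖ * ‖a - y‖ := by
          have := mul_le_mul_of_nonneg_left hna ha0
          linarith
      _ = ‖a - y‖ * (‖e 0‖ + ‖y‖) := by ring
      _ ≤ ε / (‖e 0‖ + ‖y‖ + 1) * (‖e 0‖ + ‖y‖) :=
          mul_le_mul_of_nonneg_right hb (by positivity)
      _ ≤ ε := by
          rw [div_mul_eq_mul_div, div_le_iff₀ (by positivity)]
          have : ε * (‖e 0‖ + ‖y‖) ≤ ε * (‖e 0‖ + ‖y‖ + 1) := by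
            apply mul_le_mul_of_nonneg_left _ hε.le
            linarith
          exact this

end Pool.Agent.H93.EG
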