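import Pool.Agent.H93.EGM.Null

set_option autoImplicit false

/-!
# Row CircErg: a sign function on the circle, anti-invariant under 1/6, has only periods of odd order

Proof. Write `a = (x : UnitAddCircle)`. If `a` has infinite order then `t ↦ a + t` is ergodic
(`AddCircle.ergodic_add_right`/`ergodic_add_left`, `addOrderOf a = 0`), so the set `{t | g t = 1}` (almost invariant) is a.e. empty or everything
(`Ergodic...`, `QuasiErgodic.ae_empty_or_univ₀`, or make the set invariant), so `g` is a.e. constant, `= v`, `v * v = 1`; but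
`g (t + 1/6) = - g t` gives `v = -v`, contradiction. Otherwise let `n = addOrderOf a > 0`. If `n` is odd we are done. If `n = 2 m`: `m • a` has order 2, so
`m • a = (1/2 : ℝ)` (elements with `2 • b = 0` in `ℝ/ℤ` are `0` and `1/2`), hence `g (t + 1/2) = g t` a.e. (iterate `ha`, translations are measure
preserving); but `1/2 = 3 • (1/6)` gives `g (t + 1/2) = - g t` a.e., contradiction with `g t * g t = 1`.
-/


namespace Pool.Agent.H93.EG

open MeasureTheory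

theorem circ_erg_shift {P : UnitAddCircle → Prop} (h : ∀ᵐ t, P t) (a : UnitAddCircle) :
    ∀ᵐ t, P (t + a) :=
  (measurePreserving_add_right (volume : Measure UnitAddCircle) a).quasiMeasurePreserving.ae h

theorem circ_erg (g : UnitAddCircle → ℝ) (hg : Measurable g) (hv : ∀ᵐ t, g t * g t = 1)
    (h6 : ∀ᵐ t, g (t + ((1 / 6 : ℝ) : UnitAddCircle)) = - g t)
    (a : UnitAddCircle) (ha : ∀ᵐ t, g (t + a) = g t) :
    ∃ n : ℕ, Odd n ∧ n • a = 0 := by
  by_cases h0 : addOrderOf a = 0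
  · exfalso
    obtain ⟨v, hv2⟩ := (AddCircle.ergodic_add_right.2 h0).ae_eq_const_of_ae_eq_comp_ae
      (g := g) hg.aestronglyMeasurable ha
    have hv3 : ∀ᵐ t, g t = v := hv2
    obtain ⟨t, h1, h2, h3, h4⟩ :=
      (hv3.and ((circ_erg_shift hv3 ((1 / 6 : ℝ) : UnitAddCircle)).and (h6.and hv))).exists
    rw [h2, h1] at h3
    rw [h1] at h4
    have : v = 0 := by linarith
    rw [this] at h4
    norm_num at h4
  · rcases Nat.even_or_odd (addOrderOf a) with he | ho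
    · exfalso
      obtain ⟨m, hm⟩ := he
      have hm0 : 0 < m := by omega
      have hb1 : m • a ≠ 0 := by
        intro h
        have := addOrderOf_dvd_of_nsmul_eq_zero h
        have := Nat.le_of_dvd hm0 this
        omega
      have hb2 : 2 • (m • a) = 0 := by
        rw [two_nsmul, ← add_nsmul, ← hm]
        exact addOrderOf_nsmul_eq_zero a
      have hb3 : addOrderOf (m • a) = 2 := addOrderOf_eq_prime hb2 hb1
      obtain ⟨k, hk, hk2, hk3⟩ := (AddCircle.addOrderOf_eq_pos_iff two_pos).1 hb3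
      have hk1 : k = 1 := by
        interval_cases k
        · simp at hk2
        · rfl
      subst hk1
      have hit : ∀ j : ℕ, ∀ᵐ t, g (t + j • a) = g t := by
        intro j
        induction j with
        | zero => exact Filter.Eventually.of_forall fun t => by simp
        | succ j ih =>
          filter_upwards [ih, circ_erg_shift ha (j • a)] with t e1 e2
          rw [succ_nsmul, ← add_assoc, e2, e1]
      set s : UnitAddCircle := ((1 / 6 : ℝ) : UnitAddCircle) with hs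
      have hsum : s + s + s = m • a := by
        rw [← hk3, hs, ← AddCircle.coe_add, ← AddCircle.coe_add]
        congr 1
        norm_num
      obtain ⟨t, e0, e1, e2, e3, e4⟩ := ((hit m).and (h6.and ((circ_erg_shift h6 s).and
        ((circ_erg_shift h6 (s + s)).and hv)))).exists
      have e5 : t + m • a = t + (s + s) + s := by rw [← hsum]; abel
      have e6 : t + (s + s) = t + s + s := by abel
      rw [e5, e3, e6, e2, e1] at e0
      have : g t = 0 := by linarith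
      rw [this] at e4
      norm_num at e4
    · exact ⟨_, ho, addOrderOf_nsmul_eq_zero a⟩

end Pool.Agent.H93.EG

/-!
# Row CircGal: the two angles are not of odd order

Proof. `ζ := c (τ1 + τ2)`, `η := c (τ1 - τ2)`, `ζ ^ n = 1`, `η ^ m = 1`. With `θi = 2 π τi`: `(ζ + ζ⁻¹) + (η + η⁻¹) = 2 cos (θ1 + θ2) + 2 cos (θ1 - θ2)
= 4 cos θ1 cos θ2 = 4 (d2 / (2 d1)) (d1 / (2 d2)) = 1`. Let `N = n * m` (odd), `ω` a primitive `N`-th root of unity (`Complex.isPrimitiveRoot_exp`),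
`ζ = ω ^ i`, `η = ω ^ j` (`IsPrimitiveRoot.eq_pow_of_pow_eq_one`). The integer polynomial
`P = X ^ (i) + X ^ (i * (N - 1)) + X ^ j + X ^ (j * (N - 1)) - 1` vanishes at `ω`, so `minpoly ℤ ω ∣ P` (`minpoly.isIntegrallyClosed_dvd`), and
`minpoly ℤ ω = minpoly ℤ (ω ^ 2)` (`IsPrimitiveRoot.minpoly_eq_pow_coprime`, 2 coprime to N), so `P (ω ^ 2) = 0`:
`ζ ^ 2 + ζ⁻¹ ^ 2 + η ^ 2 + η⁻¹ ^ 2 = 1`. With `x = 2 cos (θ1 + θ2)`, `y = 2 cos (θ1 - θ2)`: `x + y = 1`, `(x ^ 2 - 2) + (y ^ 2 - 2) = 1`, so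
`(x - 2) (x + 1) = 0` (and `y = 1 - x`). `x = 2`: `cos (θ1 + θ2) = 1` with `0 < θ1 + θ2 < π`: impossible. `x = -1`: `y = 2`, `cos (θ1 - θ2) = 1` with
`|θ1 - θ2| < π / 2`, so `θ1 = θ2`, so `cos1`, `cos2` give `d2 / (2 d1) = d1 / (2 d2)`, `d1 ^ 2 = d2 ^ 2`, contradiction to `0 < d1 < d2`.
-/


namespace Pool.Agent.H93.EG

theorem circGal_step (N : ℕ) (hN : Odd N) (ζ η : ℂ) (hζ : ζ ^ N = 1) (hη : η ^ N = 1)
    (h : ζ + ζ⁻¹ + (η + η⁻¹) = 1) : ζ ^ 2 + (ζ⁻¹) ^ 2 + (η ^ 2 + (η⁻¹) ^ 2) = 1 := by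
  have hN0 : 0 < N := hN.pos
  have hω : IsPrimitiveRoot (Complex.exp (2 * Real.pi * Complex.I / N)) N :=
    Complex.isPrimitiveRoot_exp N hN0.ne'
  set ω := Complex.exp (2 * Real.pi * Complex.I / N) with hωdef
  haveI : NeZero N := ⟨hN0.ne'⟩
  obtain ⟨i, hi, hζi⟩ := hω.eq_pow_of_pow_eq_one hζ
  obtain ⟨j, hj, hηj⟩ := hω.eq_pow_of_pow_eq_one hη
  have inv : ∀ x : ℂ, x ^ N = 1 → x ^ (N - 1) = x⁻¹ := by
    intro x hx
    have hx0 : x ≠ 0 := by
      intro h0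
      rw [h0, zero_pow hN0.ne'] at hx
      exact zero_ne_one hx
    rw [eq_comm, inv_eq_iff_eq_inv, eq_comm, inv_eq_of_mul_eq_one_left]
    rw [← pow_succ', Nat.sub_add_cancel hN0, hx]
  let P : Polynomial ℤ := Polynomial.X ^ i + Polynomial.X ^ (i * (N - 1)) +
    (Polynomial.X ^ j + Polynomial.X ^ (j * (N - 1))) - 1
  have hP : Polynomial.aeval ω P = 0 := by
    simp only [P, map_sub, map_add, map_pow, Polynomial.aeval_X, map_one]
    rw [pow_mul, pow_mul, hζi, hηj, inv ζ hζ, inv η hη, h, sub_self]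
  have hint : IsIntegral ℤ ω := hω.isIntegral hN0
  have hdvd : minpoly ℤ ω ∣ P := minpoly.isIntegrallyClosed_dvd hint hP
  have hcop : Nat.Coprime 2 N := (Nat.coprime_two_left).2 hN
  have hmin : minpoly ℤ ω = minpoly ℤ (ω ^ 2) := hω.minpoly_eq_pow_coprime hcop
  have hP2 : Polynomial.aeval (ω ^ 2) P = 0 := by
    obtain ⟨Q, hQ⟩ := hdvd
    rw [hQ, hmin, map_mul, minpoly.aeval, zero_mul]
  simp only [P, map_sub, map_add, map_pow, Polynomial.aeval_X, map_one] at hP2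
  have e1 : ∀ k : ℕ, (ω ^ 2) ^ k = (ω ^ k) ^ 2 := fun k => by rw [← pow_mul, ← pow_mul, mul_comm]
  rw [e1, e1, e1, e1, pow_mul, pow_mul, hζi, hηj, inv ζ hζ, inv η hη] at hP2
  exact sub_eq_zero.1 hP2

theorem circGal_pow (t : UnitAddCircle) (n : ℕ) : c (n • t) = c t ^ n := by
  induction n with
  | zero => rw [zero_smul, pow_zero, c_zero]
  | succ k ih => rw [succ_nsmul, c_add, ih, pow_succ]

theorem circGal_sum (x : ℝ) : c (x : UnitAddCircle) + (c (x : UnitAddCircle))⁻¹ =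
    ((2 * Real.cos (2 * Real.pi * x) : ℝ) : ℂ) := by
  rw [c_coe, ← Complex.exp_neg]
  push_cast
  rw [Complex.two_cos]
  congr 2
  ring

theorem circ_gal (d1 d2 τ1 τ2 : ℝ) (h : Par d1 d2 τ1 τ2) (n m : ℕ) (hn : Odd n) (hm : Odd m)
    (hA : n • ((τ1 + τ2 : ℝ) : UnitAddCircle) = 0)
    (hB : m • ((τ1 - τ2 : ℝ) : UnitAddCircle) = 0) : False := by
  have hd1 := h.d1_pos
  have hlt := h.lt
  have hd2 : 0 < d2 := hd1.trans hlt
  have hpi := Real.pi_pos
  have hζ : c ((τ1 + τ2 : ℝ) : UnitAddCircle) ^ (n * m) = 1 := by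
    rw [pow_mul, ← circGal_pow, hA, c_zero, one_pow]
  have hη : c ((τ1 - τ2 : ℝ) : UnitAddCircle) ^ (n * m) = 1 := by
    rw [mul_comm, pow_mul, ← circGal_pow, hB, c_zero, one_pow]
  have hs := circGal_sum (τ1 + τ2)
  have ht := circGal_sum (τ1 - τ2)
  set ζ := c ((τ1 + τ2 : ℝ) : UnitAddCircle) with hζd
  set η := c ((τ1 - τ2 : ℝ) : UnitAddCircle) with hηd
  set x := 2 * Real.cos (2 * Real.pi * (τ1 + τ2)) with hx
  set y := 2 * Real.cos (2 * Real.pi * (τ1 - τ2)) with hy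
  have hxy : x + y = 1 := by
    have e1 : 2 * Real.pi * (τ1 + τ2) = 2 * Real.pi * τ1 + 2 * Real.pi * τ2 := by ring
    have e2 : 2 * Real.pi * (τ1 - τ2) = 2 * Real.pi * τ1 - 2 * Real.pi * τ2 := by ring
    rw [hx, hy, e1, e2, Real.cos_add, Real.cos_sub, h.cos1, h.cos2]
    field_simp
    ring
  have hone : ζ + ζ⁻¹ + (η + η⁻¹) = 1 := by
    rw [hs, ht, ← Complex.ofReal_add, hxy, Complex.ofReal_one]
  have htwo := circGal_step (n * m) (hn.mul hm) ζ η hζ hη hone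
  have hζ0 : ζ ≠ 0 := c_ne_zero _
  have hη0 : η ≠ 0 := c_ne_zero _
  have hsq : x ^ 2 - 2 + (y ^ 2 - 2) = 1 := by
    have e1 : ζ ^ 2 + (ζ⁻¹) ^ 2 = (ζ + ζ⁻¹) ^ 2 - 2 := by
      field_simp
      ring
    have e2 : η ^ 2 + (η⁻¹) ^ 2 = (η + η⁻¹) ^ 2 - 2 := by
      field_simp
      ring
    rw [e1, e2, hs, ht] at htwo
    exact_mod_cast htwo
  have hfac : (x - 2) * (x + 1) = 0 := by
    have hy' : y = 1 - x := by linarith
    rw [hy'] at hsq
    nlinarith [hsq]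
  rcases mul_eq_zero.1 hfac with h2 | h2
  · -- `cos (θ1 + θ2) = 1`
    have hc : Real.cos (2 * Real.pi * (τ1 + τ2)) = 1 := by linarith
    have hlt1 : Real.cos (2 * Real.pi * (τ1 + τ2)) < Real.cos 0 := by
      apply Real.cos_lt_cos_of_nonneg_of_le_pi le_rfl
      · nlinarith [h.t1.2, h.t2.2]
      · have := h.t1.1
        have := h.t2.1
        positivity
    rw [Real.cos_zero] at hlt1
    linarith
  · have hc : Real.cos (2 * Real.pi * (τ1 - τ2)) = 1 := by linarith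
    have h0 : 2 * Real.pi * (τ1 - τ2) = 0 := by
      rw [Real.cos_eq_one_iff_of_lt_of_lt] at hc
      · exact hc
      · nlinarith [h.t1.1, h.t1.2, h.t2.1, h.t2.2]
      · nlinarith [h.t1.1, h.t1.2, h.t2.1, h.t2.2]
    have hτ : τ1 = τ2 := by
      have : τ1 - τ2 = 0 := by
        rcases mul_eq_zero.1 h0 with h3 | h3
        · exfalso
          linarith
        · exact h3
      linarith
    have h3 := h.cos1
    rw [hτ, h.cos2, div_eq_div_iff (by positivity) (by positivity)] at h3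
    nlinarith [h3]

end Pool.Agent.H93.EG

/-!
# Row Typ: the five types of triangles

`typ_ne`: from `Par`, `c_ne_zero`, and `p = q` is impossible (`‖p‖ = ‖q‖` only for type 0, and `c (1/6) ≠ 1`; or from `typ_dist`).
`typ_dist`: `‖p - q‖` from the law of cosines: `‖d1 - d2 c τ‖ ^ 2 = d1 ^ 2 + d2 ^ 2 - 2 d1 d2 cos (2 π τ)`, with `cos1`: `= d1 ^ 2`, with
`cos2`: `= d2 ^ 2`; type 0: `cos (π / 3) = 1 / 2`: `= d1 ^ 2`.
`par_exists`: `τ1 = arccos (d2 / (2 d1)) / (2 π)`, `τ2 = arccos (d1 / (2 d2)) / (2 π)`.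
-/


namespace Pool.Agent.H93.EG

theorem nsq_sub (a b τ : ℝ) :
    ‖(a : ℂ) - (b : ℂ) * c (τ : UnitAddCircle)‖ ^ 2 =
      a ^ 2 + b ^ 2 - 2 * a * b * Real.cos (2 * Real.pi * τ) := by
  rw [c_coe, show (2 * (Real.pi : ℂ) * τ * Complex.I) = ((2 * Real.pi * τ : ℝ) : ℂ) * Complex.I by
    push_cast; ring, Complex.exp_mul_I, ← Complex.ofReal_cos, ← Complex.ofReal_sin,
    ← Complex.normSq_eq_norm_sq, Complex.normSq_apply]
  simp only [Complex.sub_re, Complex.mul_re, Complex.add_re, Complex.ofReal_re, Complex.I_re,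
    Complex.I_im, Complex.ofReal_im, Complex.sub_im, Complex.mul_im, Complex.add_im]
  have := Real.sin_sq_add_cos_sq (2 * Real.pi * τ)
  nlinarith [this]

theorem norm_mul_c (b : ℝ) (hb : 0 < b) (t : UnitAddCircle) : ‖(b : ℂ) * c t‖ = b := by
  rw [norm_mul, norm_c, mul_one, Complex.norm_real, Real.norm_of_nonneg hb.le]

theorem norm_of (b : ℝ) (hb : 0 < b) : ‖(b : ℂ)‖ = b := by
  rw [Complex.norm_real, Real.norm_of_nonneg hb.le]

theorem eq_of_nsq (z : ℂ) (a : ℝ) (ha : 0 < a) (h : ‖z‖ ^ 2 = a ^ 2) : ‖z‖ = a := by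
  have := norm_nonneg z
  nlinarith [sq_nonneg (‖z‖ - a), mul_self_eq_mul_self_iff.mp (show ‖z‖ * ‖z‖ = a * a by nlinarith)]

theorem typ_dist (d1 d2 τ1 τ2 : ℝ) (h : Par d1 d2 τ1 τ2) (i : Fin 5) :
    (‖(typ d1 d2 τ1 τ2 i).1‖ = d1 ∨ ‖(typ d1 d2 τ1 τ2 i).1‖ = d2) ∧
    (‖(typ d1 d2 τ1 τ2 i).2‖ = d1 ∨ ‖(typ d1 d2 τ1 τ2 i).2‖ = d2) ∧
    (‖(typ d1 d2 τ1 τ2 i).1 - (typ d1 d2 τ1 τ2 i).2‖ = d1 ∨
      ‖(typ d1 d2 τ1 τ2 i).1 - (typ d1 d2 τ1 τ2 i).2‖ = d2) := by
  have p1 := h.d1_pos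
  have p2 : 0 < d2 := h.d1_pos.trans h.lt
  have c1 := h.cos1
  have c2 := h.cos2
  have c1' : Real.cos (2 * Real.pi * (-τ1)) = d2 / (2 * d1) := by
    rw [← c1, ← Real.cos_neg]; congr 1; ring
  have c2' : Real.cos (2 * Real.pi * (-τ2)) = d1 / (2 * d2) := by
    rw [← c2, ← Real.cos_neg]; congr 1; ring
  fin_cases i
  · refine ⟨Or.inl (norm_of d1 p1), Or.inl (norm_mul_c d1 p1 _), Or.inl ?_⟩
    refine eq_of_nsq _ _ p1 ?_
    simp only [typ]
    rw [nsq_sub, show 2 * Real.pi * (1 / 6) = Real.pi / 3 by ring, Real.cos_pi_div_three]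
    ring
  · refine ⟨Or.inl (norm_of d1 p1), Or.inr (norm_mul_c d2 p2 _), Or.inl ?_⟩
    refine eq_of_nsq _ _ p1 ?_
    simp only [typ]
    rw [nsq_sub, c1]
    field_simp
    ring
  · refine ⟨Or.inl (norm_of d1 p1), Or.inr (norm_mul_c d2 p2 _), Or.inl ?_⟩
    refine eq_of_nsq _ _ p1 ?_
    simp only [typ]
    rw [nsq_sub, c1']
    field_simp
    ring
  · refine ⟨Or.inl (norm_of d1 p1), Or.inr (norm_mul_c d2 p2 _), Or.inr ?_⟩
    refine eq_of_nsq _ _ p2 ?_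
    simp only [typ]
    rw [nsq_sub, c2]
    field_simp
    ring
  · refine ⟨Or.inl (norm_of d1 p1), Or.inr (norm_mul_c d2 p2 _), Or.inr ?_⟩
    refine eq_of_nsq _ _ p2 ?_
    simp only [typ]
    rw [nsq_sub, c2']
    field_simp
    ring

theorem typ_ne (d1 d2 τ1 τ2 : ℝ) (h : Par d1 d2 τ1 τ2) (i : Fin 5) :
    (typ d1 d2 τ1 τ2 i).1 ≠ 0 ∧ (typ d1 d2 τ1 τ2 i).2 ≠ 0 ∧
      (typ d1 d2 τ1 τ2 i).1 ≠ (typ d1 d2 τ1 τ2 i).2 := by
  obtain ⟨a, b, e⟩ := typ_dist d1 d2 τ1 τ2 h i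
  have p1 := h.d1_pos
  have p2 : 0 < d2 := h.d1_pos.trans h.lt
  refine ⟨?_, ?_, ?_⟩
  · rw [← norm_pos_iff]; rcases a with a | a <;> rw [a] <;> assumption
  · rw [← norm_pos_iff]; rcases b with b | b <;> rw [b] <;> assumption
  · rw [← sub_ne_zero, ← norm_pos_iff]; rcases e with e | e <;> rw [e] <;> assumption

theorem par_exists (d1 d2 : ℝ) (h1 : 0 < d1) (h2 : d1 < d2) (h3 : d2 < 2 * d1) :
    ∃ τ1 τ2 : ℝ, Par d1 d2 τ1 τ2 := by
  have hpi := Real.pi_pos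
  have p2 : 0 < d2 := h1.trans h2
  have a0 : 0 < d2 / (2 * d1) := by positivity
  have a1 : d2 / (2 * d1) < 1 := by rw [div_lt_one (by positivity)]; exact h3
  have b0 : 0 < d1 / (2 * d2) := by positivity
  have b1 : d1 / (2 * d2) < 1 := by rw [div_lt_one (by positivity)]; linarith
  refine ⟨Real.arccos (d2 / (2 * d1)) / (2 * Real.pi), Real.arccos (d1 / (2 * d2)) / (2 * Real.pi),
    ⟨h1, h2, h3, ⟨?_, ?_⟩, ⟨?_, ?_⟩, ?_, ?_⟩⟩
  · exact div_pos (Real.arccos_pos.mpr a1) (by positivity)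
  · rw [div_lt_iff₀ (by positivity)]
    have := Real.arccos_lt_pi_div_two.mpr a0
    linarith
  · exact div_pos (Real.arccos_pos.mpr b1) (by positivity)
  · rw [div_lt_iff₀ (by positivity)]
    have := Real.arccos_lt_pi_div_two.mpr b0
    linarith
  · rw [mul_div_cancel₀ _ (by positivity), Real.cos_arccos (by linarith) a1.le]
  · rw [mul_div_cancel₀ _ (by positivity), Real.cos_arccos (by linarith) b1.le]

end Pool.Agent.H93.EG

/-!
# Row Circ: Lemma (A), no anti-invariant system on the two circles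

`circle_no`. Proof. `g1 (t + τ1 + τ2) = g1 t` a.e.: by `h1`, `g2 (t + τ1) = - g1 t`; by `h2'` at `t + τ1 + τ2` (translations preserve null sets),
`g2 (t + τ1) = - g1 (t + τ1 + τ2)`. Similarly `g1 (t + τ1 - τ2) = g1 t` from `h1` and `h2`. `circ_erg` (twice) and `circ_gal`.
`circle_pair`. Proof. `g1 t := u (c t * d1)`, `g2 t := u (c t * d2)`; type 0: `c t * (d1 * c (1/6)) = c (t + 1/6) * d1`; type 1:
`c t * (d2 * c τ1) = c (t + τ1) * d2`, etc. (`c_add`).
-/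


namespace Pool.Agent.H93.EG

open MeasureTheory

theorem ae_shift {P : UnitAddCircle → Prop} (h : ∀ᵐ t, P t) (a : UnitAddCircle) :
    ∀ᵐ t, P (t + a) :=
  (measurePreserving_add_right (volume : Measure UnitAddCircle) a).quasiMeasurePreserving.ae h

theorem circle_no (d1 d2 τ1 τ2 : ℝ) (h : Par d1 d2 τ1 τ2) (g1 g2 : UnitAddCircle → ℝ)
    (hm1 : Measurable g1) (hm2 : Measurable g2) (hv : ∀ᵐ t, g1 t * g1 t = 1)
    (h6 : ∀ᵐ t, g1 (t + ((1 / 6 : ℝ) : UnitAddCircle)) = - g1 t)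
    (h1 : ∀ᵐ t, g2 (t + (τ1 : UnitAddCircle)) = - g1 t)
    (h1' : ∀ᵐ t, g2 (t + ((-τ1 : ℝ) : UnitAddCircle)) = - g1 t)
    (h2 : ∀ᵐ t, g2 (t + (τ2 : UnitAddCircle)) = - g1 t)
    (h2' : ∀ᵐ t, g2 (t + ((-τ2 : ℝ) : UnitAddCircle)) = - g1 t) : False := by
  have hA : ∀ᵐ t, g1 (t + ((τ1 + τ2 : ℝ) : UnitAddCircle)) = g1 t := by
    filter_upwards [h1, ae_shift h2' ((τ1 + τ2 : ℝ) : UnitAddCircle)] with t e1 e2
    have : t + ((τ1 + τ2 : ℝ) : UnitAddCircle) + ((-τ2 : ℝ) : UnitAddCircle) =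
        t + (τ1 : UnitAddCircle) := by
      rw [add_assoc, ← AddCircle.coe_add]
      congr 2
      ring
    rw [this, e1] at e2
    linarith
  have hB : ∀ᵐ t, g1 (t + ((τ1 - τ2 : ℝ) : UnitAddCircle)) = g1 t := by
    filter_upwards [h1, ae_shift h2 ((τ1 - τ2 : ℝ) : UnitAddCircle)] with t e1 e2
    have : t + ((τ1 - τ2 : ℝ) : UnitAddCircle) + (τ2 : UnitAddCircle) =
        t + (τ1 : UnitAddCircle) := by
      rw [add_assoc, ← AddCircle.coe_add]
      congr 2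
      ring
    rw [this, e1] at e2
    linarith
  obtain ⟨n, hn, hn0⟩ := circ_erg g1 hm1 hv h6 _ hA
  obtain ⟨m, hm, hm0⟩ := circ_erg g1 hm1 hv h6 _ hB
  exact circ_gal d1 d2 τ1 τ2 h n m hn hm hn0 hm0

theorem circle_pair (d1 d2 τ1 τ2 : ℝ) (h : Par d1 d2 τ1 τ2) (u : ℂ → ℝ) (hu : Measurable u)
    (hv : ∀ᵐ t : UnitAddCircle, u (c t * (d1 : ℂ)) * u (c t * (d1 : ℂ)) = 1)
    (hi : ∀ i : Fin 5, ∀ᵐ t : UnitAddCircle,
      u (c t * (typ d1 d2 τ1 τ2 i).2) = - u (c t * (typ d1 d2 τ1 τ2 i).1)) : False := by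
  have key : ∀ (t : UnitAddCircle) (d x : ℝ), c t * ((d : ℂ) * c (x : UnitAddCircle)) =
      c (t + (x : UnitAddCircle)) * (d : ℂ) := by
    intro t d x
    rw [c_add]
    ring
  refine circle_no d1 d2 τ1 τ2 h (fun t => u (c t * (d1 : ℂ))) (fun t => u (c t * (d2 : ℂ)))
    (hu.comp (measurable_c.mul_const _)) (hu.comp (measurable_c.mul_const _)) hv ?_ ?_ ?_ ?_ ?_
  · filter_upwards [hi 0] with t ht
    simpa only [typ, key] using ht
  · filter_upwards [hi 1] with t ht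
    simpa only [typ, key] using ht
  · filter_upwards [hi 2] with t ht
    simpa only [typ, key] using ht
  · filter_upwards [hi 3] with t ht
    simpa only [typ, key] using ht
  · filter_upwards [hi 4] with t ht
    simpa only [typ, key] using ht

end Pool.Agent.H93.EG

/-!
# Row Sgn: a measurable function with zero defect is a colouring

Proof. By Fubini (`Measure.ae_ae_of_ae_prod`) for a.e. `x`, for all five types, for a.e. `t`: `Dfn G p q x t = 0`. Let `x` be such a point with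
`|G x| < 1`. `three_zero` gives, with `y = G (x + c t p)`, `z = G (x + c t q)`: `y * y = 1`, `z = - y`. So `u z := G (x + z)` contradicts
`circle_pair` (`hv` from type 0, `p = d1`). Hence `|G x| = 1` for a.e. `x`. `F x := if 0 ≤ G x then 1 else -1`, `F = G` a.e. By `nullA` for `p`
and `q`: for a.e. `(x, t)`, `F (x + c t p) = G (x + c t p)`, the same for `q`, and `F x = G x` for a.e. `x` (so for a.e. `(x,t)`); if all three values of `F`
were equal then `Dfn G = 1 + 1 + 1 + 1 ≠ 0`.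
-/


namespace Pool.Agent.H93.EG

open MeasureTheory

theorem sgn_exists (d1 d2 τ1 τ2 : ℝ) (h : Par d1 d2 τ1 τ2) (G : ℂ → ℝ) (hG : Measurable G)
    (hb : ∀ x, |G x| ≤ 1)
    (h0 : ∀ i : Fin 5, ∀ᵐ xt : ℂ × UnitAddCircle,
      Dfn G (typ d1 d2 τ1 τ2 i).1 (typ d1 d2 τ1 τ2 i).2 xt.1 xt.2 = 0) :
    ∃ F : ℂ → ℝ, Star d1 d2 τ1 τ2 F := by
  classical
  have hx : ∀ᵐ x : ℂ, ∀ i : Fin 5, ∀ᵐ t : UnitAddCircle,
      Dfn G (typ d1 d2 τ1 τ2 i).1 (typ d1 d2 τ1 τ2 i).2 x t = 0 := by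
    rw [ae_all_iff]
    intro i
    exact Measure.ae_ae_of_ae_prod (h0 i)
  have hval : ∀ᵐ x : ℂ, |G x| = 1 := by
    filter_upwards [hx] with x hx
    by_contra hne
    have hlt : |G x| < 1 := lt_of_le_of_ne (hb x) hne
    refine circle_pair d1 d2 τ1 τ2 h (fun z => G (x + z)) (hG.comp (measurable_const.add measurable_id))
      ?_ ?_
    · filter_upwards [hx 0] with t ht
      exact (three_zero _ _ _ hlt (hb _) (hb _) ht).1
    · intro i
      filter_upwards [hx i] with t ht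
      exact (three_zero _ _ _ hlt (hb _) (hb _) ht).2
  let F : ℂ → ℝ := fun x => if 0 ≤ G x then 1 else -1
  have hFm : Measurable F :=
    Measurable.ite (measurableSet_le measurable_const hG) measurable_const measurable_const
  have hFG : ∀ᵐ x : ℂ, F x = G x := by
    filter_upwards [hval] with x hx
    show (if 0 ≤ G x then (1 : ℝ) else -1) = G x
    split_ifs with h1
    · rw [abs_of_nonneg h1] at hx; exact hx.symm
    · rw [abs_of_neg (not_le.mp h1)] at hx; linarith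
  refine ⟨F, hFm, ?_, ?_⟩
  · intro x
    show (if 0 ≤ G x then (1 : ℝ) else -1) = 1 ∨ (if 0 ≤ G x then (1 : ℝ) else -1) = -1
    split_ifs <;> simp
  · have hp : ∀ i : Fin 5, ∀ᵐ x : ℂ, ∀ᵐ t : UnitAddCircle,
        F (x + c t * (typ d1 d2 τ1 τ2 i).1) = G (x + c t * (typ d1 d2 τ1 τ2 i).1) := fun i =>
      Measure.ae_ae_of_ae_prod ((nullA (typ d1 d2 τ1 τ2 i).1).ae hFG)
    have hq : ∀ i : Fin 5, ∀ᵐ x : ℂ, ∀ᵐ t : UnitAddCircle,
        F (x + c t * (typ d1 d2 τ1 τ2 i).2) = G (x + c t * (typ d1 d2 τ1 τ2 i).2) := fun i =>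
      Measure.ae_ae_of_ae_prod ((nullA (typ d1 d2 τ1 τ2 i).2).ae hFG)
    filter_upwards [hx, hval, hFG, ae_all_iff.mpr hp, ae_all_iff.mpr hq] with x h1 h2 h3 h4 h5
    intro i
    filter_upwards [h1 i, h4 i, h5 i] with t e1 e4 e5
    rintro ⟨e6, e7⟩
    rw [e4, h3] at e6
    rw [e5, h3] at e7
    unfold Dfn at e1
    rw [e6, e7] at e1
    have := mul_self_nonneg (G x)
    linarith

end Pool.Agent.H93.EG
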