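import Mathlib

set_option autoImplicit false

/-!
# Basic definitions for the monochromatic triangle theorem
Paper proof: team-store note H93_EGMRSS.md
-/


namespace Pool.Agent.H93.EG

open MeasureTheory Filter Topology

/-! ## Positive definite functions and Hilbert space systems -/

/-- Positive definite real function on an additive group. -/
def PD {A : Type} [AddCommGroup A] (φ : A → ℝ) : Prop :=
  (∀ a, φ (-a) = φ a) ∧
    ∀ (s : Finset A) (x : A → ℝ), 0 ≤ ∑ a ∈ s, ∑ b ∈ s, x a * x b * φ (a - b)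

/-- A Hilbert space representation of a positive definite function: vectors `e a`, translations
`T a`. -/
structure Sys {A : Type} [AddCommGroup A] (φ : A → ℝ) {H : Type} [NormedAddCommGroup H]
    [InnerProductSpace ℝ H] (e : A → H) (T : A → H ≃ₗᵢ[ℝ] H) : Prop where
  inn : ∀ a b, inner ℝ (e a) (e b) = φ (a - b)
  dense : Dense (Submodule.span ℝ (Set.range e) : Set H)
  tr : ∀ a b, T a (e b) = e (a + b)
  add : ∀ a b x, T a (T b x) = T (a + b) x
  zero : ∀ x, T 0 x = x

/-- A decreasing sequence of symmetric neighbourhoods of zero. -/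
structure NB {A : Type} [AddCommGroup A] (N : ℕ → Set A) : Prop where
  zero : ∀ n, (0 : A) ∈ N n
  neg : ∀ n a, a ∈ N n → -a ∈ N n
  add : ∀ n a b, a ∈ N (n + 1) → b ∈ N (n + 1) → a + b ∈ N n

/-- Vectors with continuous orbit (with respect to the sets `N n`). -/
def Cvec {A : Type} {H : Type} [NormedAddCommGroup H] [InnerProductSpace ℝ H]
    (T : A → H ≃ₗᵢ[ℝ] H) (N : ℕ → Set A) : Set H :=
  {x | ∀ ε : ℝ, 0 < ε → ∃ n, ∀ a ∈ N n, ‖T a x - x‖ ≤ ε}

/-- Neighbourhoods of zero in the plane. -/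
def NC (n : ℕ) : Set ℂ := {w | ‖w‖ < (1 / 2 : ℝ) ^ n}

/-- Neighbourhoods of zero in the line. -/
def NR (n : ℕ) : Set ℝ := {h | |h| < (1 / 2 : ℝ) ^ n}

/-! ## Rotations and defects -/

/-- The unit complex number with angle `2 π t`. -/
noncomputable def c (t : UnitAddCircle) : ℂ := (AddCircle.toCircle t : ℂ)

theorem continuous_c : Continuous c :=
  continuous_subtype_val.comp AddCircle.continuous_toCircle

theorem measurable_c : Measurable c := continuous_c.measurable

theorem norm_c (t : UnitAddCircle) : ‖c t‖ = 1 := by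
  unfold c
  exact Circle.norm_coe _

theorem c_add (s t : UnitAddCircle) : c (s + t) = c s * c t := by
  unfold c
  rw [AddCircle.toCircle_add]
  rfl

theorem c_zero : c 0 = 1 := by
  unfold c
  rw [AddCircle.toCircle_zero]
  rfl

theorem c_ne_zero (t : UnitAddCircle) : c t ≠ 0 := by
  intro h
  have := norm_c t
  rw [h, norm_zero] at this
  exact zero_ne_one this

theorem c_coe (x : ℝ) : c (x : UnitAddCircle) = Complex.exp (2 * Real.pi * x * Complex.I) := by
  unfold c
  rw [AddCircle.toCircle_apply_mk, Circle.coe_exp]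
  congr 2
  push_cast
  ring

/-- The defect of the values of `G` at `x`, `x + c t * p`, `x + c t * q`; it is nonnegative for
`|G| ≤ 1` and, for values `1`, `-1`, it vanishes iff the three values are not all equal. -/
noncomputable def Dfn (G : ℂ → ℝ) (p q x : ℂ) (t : UnitAddCircle) : ℝ :=
  1 + G x * G (x + c t * p) + G (x + c t * p) * G (x + c t * q) + G (x + c t * q) * G x

/-- Two side lengths and the base angles (in turns) of the two isosceles triangles. -/
structure Par (d1 d2 τ1 τ2 : ℝ) : Prop where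
  d1_pos : 0 < d1
  lt : d1 < d2
  lt2 : d2 < 2 * d1
  t1 : 0 < τ1 ∧ τ1 < 1 / 4
  t2 : 0 < τ2 ∧ τ2 < 1 / 4
  cos1 : Real.cos (2 * Real.pi * τ1) = d2 / (2 * d1)
  cos2 : Real.cos (2 * Real.pi * τ2) = d1 / (2 * d2)

/-- The five types of triangles `0, p, q` with sides in `{d1, d2}`. -/
noncomputable def typ (d1 d2 τ1 τ2 : ℝ) : Fin 5 → ℂ × ℂ
  | 0 => ((d1 : ℂ), (d1 : ℂ) * c ((1 / 6 : ℝ) : UnitAddCircle))
  | 1 => ((d1 : ℂ), (d2 : ℂ) * c (τ1 : UnitAddCircle))
  | 2 => ((d1 : ℂ), (d2 : ℂ) * c ((-τ1 : ℝ) : UnitAddCircle))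
  | 3 => ((d1 : ℂ), (d2 : ℂ) * c (τ2 : UnitAddCircle))
  | 4 => ((d1 : ℂ), (d2 : ℂ) * c ((-τ2 : ℝ) : UnitAddCircle))

/-- At `x` no type is monochromatic (for almost every rotation). -/
def St (d1 d2 τ1 τ2 : ℝ) (F : ℂ → ℝ) (x : ℂ) : Prop :=
  ∀ i : Fin 5, ∀ᵐ t : UnitAddCircle,
    ¬ (F (x + c t * (typ d1 d2 τ1 τ2 i).1) = F x ∧ F (x + c t * (typ d1 d2 τ1 τ2 i).2) = F x)

/-- Measurable colouring without monochromatic triangles of the five types. -/
structure Star (d1 d2 τ1 τ2 : ℝ) (F : ℂ → ℝ) : Prop where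
  meas : Measurable F
  val : ∀ x, F x = 1 ∨ F x = -1
  st : ∀ᵐ x : ℂ, St d1 d2 τ1 τ2 F x

end Pool.Agent.H93.EG

/-!
# Row Cvec: elementary facts on vectors with continuous orbit and the neighbourhoods

Proofs. `Cvec_add`: take the maximum of the two indices (the sets `N n` decrease: `0 ∈ N (n+1)` and `NB.add`). `Cvec_smul`: `‖r • (T a x - x)‖ = |r| ‖T a x - x‖`.
`Cvec_closed`: if `x n → x`, `‖T a x - x‖ ≤ 2 ‖x - x n‖ + ‖T a (x n) - x n‖`. `Cvec_tr`: `T a (T w x) = T w (T a x)` (commutative group) and `T w` is an isometry.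
`NC_nb`, `NR_nb`: triangle inequality.
-/


namespace Pool.Agent.H93.EG

theorem Cvec_sub {A : Type} [AddCommGroup A] (N : ℕ → Set A) (hN : NB N) :
    ∀ n k : ℕ, N (n + k) ⊆ N n := by
  intro n k
  induction k with
  | zero => exact subset_rfl
  | succ k ih =>
    intro a ha
    apply ih
    have h := hN.add (n + k) a 0 ha (hN.zero _)
    rwa [add_zero] at h

theorem Cvec_anti {A : Type} [AddCommGroup A] (N : ℕ → Set A) (hN : NB N) {m n : ℕ}
    (h : n ≤ m) : N m ⊆ N n := by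
  obtain ⟨k, rfl⟩ := Nat.exists_eq_add_of_le h
  exact Cvec_sub N hN n k

/-- The vectors with continuous orbit form a closed subspace, invariant under all `T w`. -/
theorem Cvec_add {A : Type} [AddCommGroup A] {H : Type} [NormedAddCommGroup H]
    [InnerProductSpace ℝ H] (T : A → H ≃ₗᵢ[ℝ] H) (N : ℕ → Set A) (hN : NB N) {x y : H}
    (hx : x ∈ Cvec T N) (hy : y ∈ Cvec T N) : x + y ∈ Cvec T N := by
  intro ε hε
  obtain ⟨n, hn⟩ := hx (ε / 2) (by linarith)
  obtain ⟨m, hm⟩ := hy (ε / 2) (by linarith)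
  refine ⟨max n m, fun a ha => ?_⟩
  have h1 := hn a (Cvec_anti N hN (le_max_left n m) ha)
  have h2 := hm a (Cvec_anti N hN (le_max_right n m) ha)
  have h3 : T a (x + y) - (x + y) = (T a x - x) + (T a y - y) := by
    rw [map_add]
    abel
  rw [h3]
  have h4 := norm_add_le (T a x - x) (T a y - y)
  linarith

theorem Cvec_smul {A : Type} [AddCommGroup A] {H : Type} [NormedAddCommGroup H]
    [InnerProductSpace ℝ H] (T : A → H ≃ₗᵢ[ℝ] H) (N : ℕ → Set A) (r : ℝ) {x : H}
    (hx : x ∈ Cvec T N) : r • x ∈ Cvec T N := by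
  intro ε hε
  have hr : 0 < |r| + 1 := by positivity
  obtain ⟨n, hn⟩ := hx (ε / (|r| + 1)) (by positivity)
  refine ⟨n, fun a ha => ?_⟩
  have h1 := hn a ha
  have h3 : T a (r • x) - r • x = r • (T a x - x) := by
    rw [map_smul, smul_sub]
  rw [h3, norm_smul, Real.norm_eq_abs]
  rw [le_div_iff₀ hr] at h1
  nlinarith [norm_nonneg (T a x - x), abs_nonneg r]

theorem Cvec_closed {A : Type} [AddCommGroup A] {H : Type} [NormedAddCommGroup H]
    [InnerProductSpace ℝ H] (T : A → H ≃ₗᵢ[ℝ] H) (N : ℕ → Set A) : IsClosed (Cvec T N) := by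
  rw [← closure_subset_iff_isClosed]
  intro x hx ε hε
  rw [Metric.mem_closure_iff] at hx
  obtain ⟨y, hy, hxy⟩ := hx (ε / 3) (by linarith)
  obtain ⟨n, hn⟩ := hy (ε / 3) (by linarith)
  refine ⟨n, fun a ha => ?_⟩
  have h1 := hn a ha
  have h3 : T a x - x = T a (x - y) + (T a y - y) + (y - x) := by
    rw [map_sub]
    abel
  have h4 : ‖T a (x - y)‖ = ‖x - y‖ := (T a).norm_map _
  rw [dist_eq_norm] at hxy
  have h5 : ‖y - x‖ = ‖x - y‖ := norm_sub_rev _ _
  rw [h3]
  have h6 := norm_add_le (T a (x - y) + (T a y - y)) (y - x)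
  have h7 := norm_add_le (T a (x - y)) (T a y - y)
  linarith

theorem Cvec_tr {A : Type} [AddCommGroup A] {H : Type} [NormedAddCommGroup H]
    [InnerProductSpace ℝ H] (T : A → H ≃ₗᵢ[ℝ] H)
    (hadd : ∀ a b x, T a (T b x) = T (a + b) x) (N : ℕ → Set A) (w : A) {x : H}
    (hx : x ∈ Cvec T N) : T w x ∈ Cvec T N := by
  intro ε hε
  obtain ⟨n, hn⟩ := hx ε hε
  refine ⟨n, fun a ha => ?_⟩
  have h1 : T a (T w x) - T w x = T w (T a x - x) := by
    rw [map_sub, hadd, hadd, add_comm]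
  rw [h1, (T w).norm_map]
  exact hn a ha

theorem NC_nb : NB NC := by
  refine ⟨fun n => ?_, fun n a ha => ?_, fun n a b ha hb => ?_⟩
  · change ‖(0 : ℂ)‖ < (1 / 2 : ℝ) ^ n
    rw [norm_zero]
    positivity
  · change ‖-a‖ < (1 / 2 : ℝ) ^ n
    rw [norm_neg]
    exact ha
  · change ‖a + b‖ < (1 / 2 : ℝ) ^ n
    have h1 : ‖a‖ < (1 / 2 : ℝ) ^ (n + 1) := ha
    have h2 : ‖b‖ < (1 / 2 : ℝ) ^ (n + 1) := hb
    have h3 := norm_add_le a b
    rw [pow_succ] at h1 h2
    linarith

theorem NR_nb : NB NR := by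
  refine ⟨fun n => ?_, fun n a ha => ?_, fun n a b ha hb => ?_⟩
  · change |(0 : ℝ)| < (1 / 2 : ℝ) ^ n
    rw [abs_zero]
    positivity
  · change |-a| < (1 / 2 : ℝ) ^ n
    rw [abs_neg]
    exact ha
  · change |a + b| < (1 / 2 : ℝ) ^ n
    have h1 : |a| < (1 / 2 : ℝ) ^ (n + 1) := ha
    have h2 : |b| < (1 / 2 : ℝ) ^ (n + 1) := hb
    have h3 := abs_add_le a b
    rw [pow_succ] at h1 h2
    linarith

end Pool.Agent.H93.EG

/-!
# Row Conv: projection to the vectors with continuous orbit is a limit of convex combinations of translates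

Proof. `K n` := closure of the convex hull of `{T a x | a ∈ N n}` (nonempty, closed, convex, contained in the ball of radius
`‖x‖`, decreasing in `n` because `N (n+1) ⊆ N n` by `0 ∈ N (n+1)`). `ξ n` := element of least norm of `K n`
(`exists_norm_eq_iInf_of_complete_convex`, `norm_eq_iInf_iff_real_inner_le_zero`): for `z ∈ K n`:
`‖z - ξ n‖ ^ 2 ≤ ‖z‖ ^ 2 - ‖ξ n‖ ^ 2`. The norms `‖ξ n‖` increase and are bounded by `‖x‖`, so `ξ` is Cauchy, limit `y`, and
`y ∈ K n` for all `n`; this gives the last claim (closure: approximate by an element of the convex hull,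
`mem_convexHull_iff_exists_fintype`).
`y ∈ Cvec`: for `a ∈ N (n+1)`: `T a` maps `{T b x | b ∈ N (n+1)}` into `{T b x | b ∈ N n}`, hence `K (n+1)` into `K n`, so
`‖T a (ξ (n+1)) - ξ n‖ ^ 2 ≤ ‖ξ (n+1)‖ ^ 2 - ‖ξ n‖ ^ 2` and also `‖ξ (n+1) - ξ n‖ ^ 2 ≤` the same; let `n → ∞`.
Orthogonality: let `z ∈ Cvec`, `ε > 0`, `n` with `‖T a z - z‖ ≤ ε` for `a ∈ N n`. For `a ∈ N n`:
`|inner (T a x) z - inner x z| = |inner x (T (-a) z - z)| ≤ ‖x‖ ε` (`hzero`, `hadd`: `T (-a)` is the inverse of `T a`;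
`T a` preserves inner products), so for all `k ∈ K n`, `|inner k z - inner x z| ≤ ‖x‖ ε`; apply to `y`.
-/


namespace Pool.Agent.H93.EG

open Filter Topology

section aux
variable {A : Type} [AddCommGroup A] {H : Type} [NormedAddCommGroup H]
    [InnerProductSpace ℝ H] [CompleteSpace H]

/-- The translates of `x`. -/
def convS (T : A → H ≃ₗᵢ[ℝ] H) (N : ℕ → Set A) (x : H) (n : ℕ) : Set H :=
  {p | ∃ a ∈ N n, T a x = p}

/-- The closed convex hull of the translates. -/
def convK (T : A → H ≃ₗᵢ[ℝ] H) (N : ℕ → Set A) (x : H) (n : ℕ) : Set H :=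
  closure (convexHull ℝ (convS T N x n))

theorem conv_sub (T : A → H ≃ₗᵢ[ℝ] H) (N : ℕ → Set A) (x : H) (n : ℕ) :
    convS T N x n ⊆ convK T N x n :=
  (subset_convexHull ℝ _).trans subset_closure

theorem conv_self (T : A → H ≃ₗᵢ[ℝ] H) (hzero : ∀ x, T 0 x = x) (N : ℕ → Set A) (hN : NB N)
    (x : H) (n : ℕ) : x ∈ convK T N x n :=
  conv_sub T N x n ⟨0, hN.zero n, hzero x⟩

theorem conv_min (T : A → H ≃ₗᵢ[ℝ] H) (N : ℕ → Set A) (x : H) (n : ℕ) (C : Set H)
    (hC : Convex ℝ C) (hc : IsClosed C) (h : ∀ a ∈ N n, T a x ∈ C) : convK T N x n ⊆ C := by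
  refine closure_minimal (convexHull_min ?_ hC) hc
  rintro _ ⟨a, ha, rfl⟩
  exact h a ha

theorem conv_conv (T : A → H ≃ₗᵢ[ℝ] H) (N : ℕ → Set A) (x : H) (n : ℕ) :
    Convex ℝ (convK T N x n) :=
  (convex_convexHull ℝ _).closure

theorem conv_anti (T : A → H ≃ₗᵢ[ℝ] H) (N : ℕ → Set A) (hN : NB N) (x : H) :
    Antitone (convK T N x) := by
  refine antitone_nat_of_succ_le fun n => ?_
  refine conv_min T N x (n + 1) _ (conv_conv T N x n) isClosed_closure fun a ha => ?_
  refine conv_sub T N x n ⟨a, ?_, rfl⟩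
  have := hN.add n a 0 ha (hN.zero _)
  rwa [add_zero] at this

theorem conv_map (T : A → H ≃ₗᵢ[ℝ] H) (hadd : ∀ a b x, T a (T b x) = T (a + b) x)
    (N : ℕ → Set A) (hN : NB N) (x : H) (n : ℕ) (a : A) (ha : a ∈ N (n + 1)) (p : H)
    (hp : p ∈ convK T N x (n + 1)) : T a p ∈ convK T N x n := by
  have h : convK T N x (n + 1) ⊆ (T a) ⁻¹' (convK T N x n) := by
    refine conv_min T N x (n + 1) _ ?_ (isClosed_closure.preimage (T a).continuous) fun b hb => ?_
    · exact (conv_conv T N x n).linear_preimage (T a).toLinearEquiv.toLinearMap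
    · show T a (T b x) ∈ convK T N x n
      rw [hadd]
      exact conv_sub T N x n ⟨a + b, hN.add n a b ha hb, rfl⟩
  exact h hp

theorem conv_xi (T : A → H ≃ₗᵢ[ℝ] H) (hzero : ∀ x, T 0 x = x) (N : ℕ → Set A) (hN : NB N)
    (x : H) (n : ℕ) : ∃ v ∈ convK T N x n, ∀ z ∈ convK T N x n,
      ‖z - v‖ ^ 2 ≤ ‖z‖ ^ 2 - ‖v‖ ^ 2 := by
  obtain ⟨v, hv, hv2⟩ := exists_norm_eq_iInf_of_complete_convex
    ⟨x, conv_self T hzero N hN x n⟩ (isClosed_closure.isComplete : IsComplete (convK T N x n))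
    (conv_conv T N x n) (0 : H)
  refine ⟨v, hv, fun z hz => ?_⟩
  have h1 := (norm_eq_iInf_iff_real_inner_le_zero (conv_conv T N x n) hv).1 hv2 z hz
  rw [zero_sub, inner_neg_left] at h1
  have h2 : z = v + (z - v) := by abel
  have h3 : ‖z‖ ^ 2 = ‖v‖ ^ 2 + 2 * inner ℝ v (z - v) + ‖z - v‖ ^ 2 := by
    conv_lhs => rw [h2]
    exact norm_add_sq_real v (z - v)
  linarith

end aux

theorem conv {A : Type} [AddCommGroup A] {H : Type} [NormedAddCommGroup H]
    [InnerProductSpace ℝ H] [CompleteSpace H] (T : A → H ≃ₗᵢ[ℝ] H)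
    (hadd : ∀ a b x, T a (T b x) = T (a + b) x) (hzero : ∀ x, T 0 x = x)
    (N : ℕ → Set A) (hN : NB N) (x : H) :
    ∃ y ∈ Cvec T N, (∀ z ∈ Cvec T N, inner ℝ (x - y) z = 0) ∧
      ∀ (n : ℕ) (ε : ℝ), 0 < ε → ∃ (ι : Type) (_ : Fintype ι) (l : ι → ℝ) (a : ι → A),
        (∀ i, 0 ≤ l i) ∧ ∑ i, l i = 1 ∧ (∀ i, a i ∈ N n) ∧ ‖∑ i, l i • T (a i) x - y‖ ≤ ε := by
  choose ξ hξ hξ2 using fun n => conv_xi T hzero N hN x n
  have hanti := conv_anti T N hN x
  set r : ℕ → ℝ := fun n => ‖ξ n‖ ^ 2 with hr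
  have hmn : ∀ m n, n ≤ m → ‖ξ m - ξ n‖ ^ 2 ≤ r m - r n := fun m n h =>
    hξ2 n (ξ m) (hanti h (hξ m))
  have hmono : Monotone r := fun n m h => by
    have := hmn m n h
    have h0 : 0 ≤ ‖ξ m - ξ n‖ ^ 2 := sq_nonneg _
    linarith
  have hbd : ∀ n, r n ≤ ‖x‖ ^ 2 := fun n => by
    have := hξ2 n x (conv_self T hzero N hN x n)
    have h0 : 0 ≤ ‖x - ξ n‖ ^ 2 := sq_nonneg _
    simp only [hr]
    linarith
  have hbdd : BddAbove (Set.range r) := ⟨‖x‖ ^ 2, by rintro _ ⟨n, rfl⟩; exact hbd n⟩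
  set R : ℝ := ⨆ n, r n with hR
  have hrR : ∀ n, r n ≤ R := fun n => le_ciSup hbdd n
  have hlim : Tendsto r atTop (𝓝 R) := tendsto_atTop_ciSup hmono hbdd
  have hex : ∀ η : ℝ, 0 < η → ∃ n, R - r n < η := by
    intro η hη
    obtain ⟨n, hn⟩ := exists_lt_of_lt_ciSup (show R - η < ⨆ n, r n by rw [← hR]; linarith)
    exact ⟨n, by linarith⟩
  have hcau : CauchySeq ξ := by
    rw [Metric.cauchySeq_iff']
    intro ε hε
    obtain ⟨n, hn⟩ := hex (ε ^ 2) (by positivity)
    refine ⟨n, fun m hm => ?_⟩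
    rw [dist_eq_norm]
    have h1 := hmn m n hm
    have h2 := hrR m
    exact lt_of_pow_lt_pow_left₀ 2 hε.le (by linarith)
  obtain ⟨y, hy⟩ := cauchySeq_tendsto_of_complete hcau
  have hyK : ∀ n, y ∈ convK T N x n := fun n =>
    isClosed_closure.mem_of_tendsto hy
      (eventually_atTop.2 ⟨n, fun m hm => hanti hm (hξ m)⟩)
  have hyn : ∀ n, ‖y - ξ n‖ ^ 2 ≤ R - r n := fun n => by
    have h1 : Tendsto (fun m => ‖ξ m - ξ n‖ ^ 2) atTop (𝓝 (‖y - ξ n‖ ^ 2)) :=
      ((hy.sub_const (ξ n)).norm).pow 2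
    have h2 : Tendsto (fun m => r m - r n) atTop (𝓝 (R - r n)) := hlim.sub_const _
    exact le_of_tendsto_of_tendsto h1 h2 (eventually_atTop.2 ⟨n, fun m hm => hmn m n hm⟩)
  refine ⟨y, ?_, ?_, ?_⟩
  · intro ε hε
    obtain ⟨n, hn⟩ := hex ((ε / 3) ^ 2) (by positivity)
    refine ⟨n + 1, fun a ha => ?_⟩
    have h1 := hξ2 n _ (conv_map T hadd N hN x n a ha _ (hξ (n + 1)))
    rw [LinearIsometryEquiv.norm_map] at h1
    have h2 := hrR (n + 1)
    have h3 := hyn (n + 1)
    have h4 := hyn n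
    have h5 := hmono (Nat.le_succ n)
    have hr1 : r (n + 1) = ‖ξ (n + 1)‖ ^ 2 := rfl
    have hr0 : r n = ‖ξ n‖ ^ 2 := rfl
    have e1 : ‖T a (ξ (n + 1)) - ξ n‖ ≤ ε / 3 :=
      (pow_le_pow_iff_left₀ (norm_nonneg _) (by positivity) two_ne_zero).1 (by linarith)
    have e2 : ‖y - ξ (n + 1)‖ ≤ ε / 3 :=
      (pow_le_pow_iff_left₀ (norm_nonneg _) (by positivity) two_ne_zero).1 (by linarith)
    have e3 : ‖y - ξ n‖ ≤ ε / 3 :=
      (pow_le_pow_iff_left₀ (norm_nonneg _) (by positivity) two_ne_zero).1 (by linarith)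
    have e4 : T a y - y = T a (y - ξ (n + 1)) + (T a (ξ (n + 1)) - ξ n) - (y - ξ n) := by
      rw [map_sub]; abel
    rw [e4]
    calc ‖T a (y - ξ (n + 1)) + (T a (ξ (n + 1)) - ξ n) - (y - ξ n)‖
        ≤ ‖T a (y - ξ (n + 1)) + (T a (ξ (n + 1)) - ξ n)‖ + ‖y - ξ n‖ := norm_sub_le _ _
      _ ≤ ‖T a (y - ξ (n + 1))‖ + ‖T a (ξ (n + 1)) - ξ n‖ + ‖y - ξ n‖ := by
          gcongr; exact norm_add_le _ _
      _ ≤ ε := by
          rw [LinearIsometryEquiv.norm_map]
          linarith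
  · intro z hz
    by_contra hne
    have hd : 0 < |inner ℝ (x - y) z| := abs_pos.2 hne
    set d := |inner ℝ (x - y) z| with hdd
    have hx0 : 0 < ‖x‖ + 1 := by positivity
    obtain ⟨n, hn⟩ := hz (d / (2 * (‖x‖ + 1))) (by positivity)
    have hKn : convK T N x n ⊆
        (innerSL ℝ z) ⁻¹' (Metric.closedBall (inner ℝ z x) (d / 2)) := by
      refine conv_min T N x n _ ?_ (Metric.isClosed_closedBall.preimage
        (innerSL ℝ z).continuous) fun a ha => ?_
      · exact (convex_closedBall _ _).linear_preimage (innerSL ℝ z).toLinearMap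
      · show innerSL ℝ z (T a x) ∈ Metric.closedBall (inner ℝ z x) (d / 2)
        rw [Metric.mem_closedBall, Real.dist_eq, innerSL_apply_apply]
        have h1 : inner ℝ z (T a x) = inner ℝ (T (-a) z) x := by
          rw [← LinearIsometryEquiv.inner_map_map (T (-a)) z (T a x), hadd, neg_add_cancel, hzero]
        rw [h1, ← inner_sub_left]
        refine (abs_real_inner_le_norm _ _).trans ?_
        have h2 := hn (-a) (hN.neg n a ha)
        calc ‖T (-a) z - z‖ * ‖x‖ ≤ d / (2 * (‖x‖ + 1)) * ‖x‖ := by gcongr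
          _ ≤ d / 2 := by
            rw [div_mul_eq_mul_div, div_le_div_iff₀ (by positivity) (by positivity)]
            nlinarith [norm_nonneg x]
    have h2 := hKn (hyK n)
    rw [Set.mem_preimage, Metric.mem_closedBall, Real.dist_eq, innerSL_apply_apply,
      ← inner_sub_right, real_inner_comm, ← neg_sub x y, inner_neg_left, abs_neg] at h2
    linarith
  · intro n ε hε
    obtain ⟨p, hp, hp2⟩ := Metric.mem_closure_iff.1 (hyK n) ε hε
    obtain ⟨ι, hι, w, z, hw, hw1, hz, hwz⟩ := mem_convexHull_iff_exists_fintype.1 hp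
    choose a ha ha2 using hz
    refine ⟨ι, hι, w, a, hw, hw1, ha, ?_⟩
    have : ∑ i, w i • T (a i) x = p := by
      rw [← hwz]
      exact Finset.sum_congr rfl fun i _ => by rw [ha2]
    rw [this, ← dist_eq_norm, dist_comm]
    exact hp2.le

end Pool.Agent.H93.EG

/-!
# Row Gns: GNS construction for a positive definite function on an additive group

Proof: `RKHS.OfKernel` (Mathlib/Analysis/InnerProductSpace/Reproducing.lean) with `𝕜 = V = ℝ` and kernel
`K a b = φ (a - b) • id` gives a Hilbert space with vectors `e a := kerFun a 1`,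
`inner (e a) (e b) = φ (a - b)` (symmetry of φ), dense span (`kerFun_dense`). (Alternative: semi inner product on
`A →₀ ℝ` and `UniformSpace.Completion`.)
Operators: if `σ : A ≃ A` preserves the kernel (`φ (σ a - σ b) = φ (a - b)`), there is a linear isometry
equivalence `U` with `U (e a) = e (σ a)`: on the span define it by linear combinations (well defined because norms
agree), extend by density (`ContinuousLinearMap.extend` or `LinearMap.extendOfNorm`..., or use
`Isometry`/`DenseInducing`); the inverse is obtained from `σ.symm`. Two continuous linear maps which agree on all `e a`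
are equal (density). Use `σ = (a + ·)` for `T a` and `σ = v` for automorphisms; all identities are checked on `e b`.
-/


namespace Pool.Agent.H93.EG

theorem gns_norm {ι H : Type*} [NormedAddCommGroup H] [InnerProductSpace ℝ H] (e e' : ι → H)
    (h : ∀ a b, inner ℝ (e' a) (e' b) = inner ℝ (e a) (e b)) (x : ι →₀ ℝ) :
    ‖Finsupp.linearCombination ℝ e' x‖ = ‖Finsupp.linearCombination ℝ e x‖ := by
  have key : ∀ f : ι → H, ‖Finsupp.linearCombination ℝ f x‖ ^ 2 =
      ∑ a ∈ x.support, ∑ b ∈ x.support, x a * (x b * inner ℝ (f a) (f b)) := by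
    intro f
    rw [← real_inner_self_eq_norm_sq, Finsupp.linearCombination_apply, Finsupp.sum, sum_inner]
    apply Finset.sum_congr rfl
    intro a _
    rw [real_inner_smul_left, inner_sum, Finset.mul_sum]
    apply Finset.sum_congr rfl
    intro b _
    rw [real_inner_smul_right]
  have h2 : ‖Finsupp.linearCombination ℝ e' x‖ ^ 2 = ‖Finsupp.linearCombination ℝ e x‖ ^ 2 := by
    rw [key e', key e]
    apply Finset.sum_congr rfl
    intro a _
    apply Finset.sum_congr rfl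
    intro b _
    rw [h a b]
  exact (sq_eq_sq₀ (norm_nonneg _) (norm_nonneg _)).mp h2

theorem gns_isom {ι H : Type*} [NormedAddCommGroup H] [InnerProductSpace ℝ H] [CompleteSpace H]
    (e : ι → H) (hd : Dense (Submodule.span ℝ (Set.range e) : Set H)) (σ : ι ≃ ι)
    (hσ : ∀ a b, inner ℝ (e (σ a)) (e (σ b)) = inner ℝ (e a) (e b)) :
    ∃ U : H ≃ₗᵢ[ℝ] H, ∀ a, U (e a) = e (σ a) := by
  have hdr : DenseRange (Finsupp.linearCombination ℝ e) := by
    have h1 : Set.range (Finsupp.linearCombination ℝ e) =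
        (Submodule.span ℝ (Set.range e) : Set H) := by
      rw [← Finsupp.range_linearCombination]
      rfl
    rw [DenseRange, h1]
    exact hd
  have hlc : ∀ x : ι →₀ ℝ, Finsupp.linearCombination ℝ e (Finsupp.domLCongr (R := ℝ) σ x) =
      Finsupp.linearCombination ℝ (e ∘ σ) x := by
    intro x
    rw [Finsupp.domLCongr_apply, Finsupp.domCongr_apply, Finsupp.equivMapDomain_eq_mapDomain,
      Finsupp.linearCombination_mapDomain]
  have hnorm : ∀ x : ι →₀ ℝ,
      ‖Finsupp.linearCombination ℝ e (Finsupp.domLCongr (R := ℝ) σ x)‖ =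
      ‖Finsupp.linearCombination ℝ e x‖ := by
    intro x
    rw [hlc]
    exact gns_norm e (e ∘ σ) hσ x
  refine ⟨LinearEquiv.extendOfIsometry (Finsupp.domLCongr (R := ℝ) σ)
    (Finsupp.linearCombination ℝ e) (Finsupp.linearCombination ℝ e) hdr hdr hnorm, fun a => ?_⟩
  have h1 := LinearEquiv.extendOfIsometry_eq (Finsupp.domLCongr (R := ℝ) σ)
    (Finsupp.linearCombination ℝ e) (Finsupp.linearCombination ℝ e) hdr hdr hnorm
    (Finsupp.single a 1)
  rw [hlc] at h1
  simpa using h1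

theorem gns_space {A : Type} [AddCommGroup A] (φ : A → ℝ) (hφ : PD φ) :
    ∃ (H : Type) (_ : NormedAddCommGroup H) (_ : InnerProductSpace ℝ H) (_ : CompleteSpace H)
      (e : A → H), (∀ a b, inner ℝ (e a) (e b) = φ (a - b)) ∧
        Dense (Submodule.span ℝ (Set.range e) : Set H) := by
  classical
  let core : PreInnerProductSpace.Core ℝ (A →₀ ℝ) :=
    { inner := fun f g => f.sum fun a x => g.sum fun b y => x * y * φ (a - b)
      conj_inner_symm := by
        intro f g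
        rw [Finsupp.sum_comm]
        simp only [conj_trivial]
        apply Finsupp.sum_congr
        intro a _
        apply Finsupp.sum_congr
        intro b _
        rw [← hφ.1 (a - b), neg_sub]
        ring
      re_inner_nonneg := by
        intro f
        have h := hφ.2 f.support f
        simpa [Finsupp.sum] using h
      add_left := by
        intro f g h
        rw [Finsupp.sum_add_index']
        · intro a
          simp
        · intro a x y
          simp only [add_mul]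
          rw [← Finsupp.sum_add]
      smul_left := by
        intro f g r
        rw [Finsupp.sum_smul_index]
        · simp only [conj_trivial]
          rw [Finsupp.mul_sum]
          apply Finsupp.sum_congr
          intro a _
          rw [Finsupp.mul_sum]
          apply Finsupp.sum_congr
          intro b _
          ring
        · intro a
          simp }
  let i1 : SeminormedAddCommGroup (A →₀ ℝ) :=
    @InnerProductSpace.Core.toSeminormedAddCommGroup ℝ (A →₀ ℝ) _ _ _ core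
  let i2 : InnerProductSpace ℝ (A →₀ ℝ) := InnerProductSpace.ofCore core
  refine ⟨UniformSpace.Completion (A →₀ ℝ), inferInstance, inferInstance, inferInstance,
    fun a => ((Finsupp.single a (1 : ℝ) : A →₀ ℝ) : UniformSpace.Completion (A →₀ ℝ)), ?_, ?_⟩
  · intro a b
    rw [UniformSpace.Completion.inner_coe]
    have : inner ℝ (Finsupp.single a (1 : ℝ) : A →₀ ℝ) (Finsupp.single b 1) =
        (Finsupp.single a (1 : ℝ)).sum fun a x => (Finsupp.single b (1 : ℝ)).sum
          fun b y => x * y * φ (a - b) := rfl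
    rw [this, Finsupp.sum_single_index, Finsupp.sum_single_index]
    · ring
    · ring
    · simp
  · have hdr : DenseRange ((↑) : (A →₀ ℝ) → UniformSpace.Completion (A →₀ ℝ)) :=
      UniformSpace.Completion.denseRange_coe
    refine hdr.mono ?_
    rintro _ ⟨f, rfl⟩
    rw [SetLike.mem_coe]
    induction f using Finsupp.induction_linear with
    | zero =>
      rw [UniformSpace.Completion.coe_zero]
      exact Submodule.zero_mem _
    | add f g hf hg =>
      rw [UniformSpace.Completion.coe_add]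
      exact Submodule.add_mem _ hf hg
    | single a x =>
      have h1 : (Finsupp.single a x : A →₀ ℝ) = x • Finsupp.single a (1 : ℝ) := by
        rw [Finsupp.smul_single, smul_eq_mul, mul_one]
      rw [h1, UniformSpace.Completion.coe_smul]
      exact Submodule.smul_mem _ _ (Submodule.subset_span ⟨a, rfl⟩)

theorem gns_ext {A H : Type*} [NormedAddCommGroup H] [InnerProductSpace ℝ H] {e : A → H}
    (hd : Dense (Submodule.span ℝ (Set.range e) : Set H))
    (S R : H →L[ℝ] H) (hSR : ∀ a, S (e a) = R (e a)) : S = R := by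
  apply ContinuousLinearMap.ext_on hd
  rintro _ ⟨a, rfl⟩
  exact hSR a

theorem gns_group {A : Type} [AddCommGroup A] (φ : A → ℝ) (hφ : PD φ) :
    ∃ (H : Type) (_ : NormedAddCommGroup H) (_ : InnerProductSpace ℝ H) (_ : CompleteSpace H)
      (e : A → H) (T : A → H ≃ₗᵢ[ℝ] H), Sys φ e T := by
  obtain ⟨H, i1, i2, i3, e, hinn, hd⟩ := gns_space φ hφ
  have hT : ∀ a : A, ∃ U : H ≃ₗᵢ[ℝ] H, ∀ b, U (e b) = e (a + b) := by
    intro a
    refine gns_isom e hd (Equiv.addLeft a) ?_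
    intro b b'
    rw [hinn, hinn, Equiv.coe_addLeft, add_sub_add_left_eq_sub]
  choose T hT using hT
  refine ⟨H, i1, i2, i3, e, T, ⟨hinn, hd, hT, ?_, ?_⟩⟩
  · intro a b x
    have h1 := gns_ext hd
      ((T a).toContinuousLinearEquiv.toContinuousLinearMap.comp
        (T b).toContinuousLinearEquiv.toContinuousLinearMap)
      (T (a + b)).toContinuousLinearEquiv.toContinuousLinearMap (fun c => by
        show T a (T b (e c)) = T (a + b) (e c)
        rw [hT, hT, hT, add_assoc])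
    exact congrArg (fun L : H →L[ℝ] H => L x) h1
  · intro x
    have h1 := gns_ext hd (T 0).toContinuousLinearEquiv.toContinuousLinearMap
      (ContinuousLinearMap.id ℝ H) (fun c => by
        show T 0 (e c) = e c
        rw [hT, zero_add])
    exact congrArg (fun L : H →L[ℝ] H => L x) h1

theorem Sys.ext {A : Type} [AddCommGroup A] {φ : A → ℝ} {H : Type} [NormedAddCommGroup H]
    [InnerProductSpace ℝ H] {e : A → H} {T : A → H ≃ₗᵢ[ℝ] H} (h : Sys φ e T)
    (S R : H →L[ℝ] H) (hSR : ∀ a, S (e a) = R (e a)) : S = R :=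
  gns_ext h.dense S R hSR

theorem Sys.aut {A : Type} [AddCommGroup A] {φ : A → ℝ} {H : Type} [NormedAddCommGroup H]
    [InnerProductSpace ℝ H] [CompleteSpace H] {e : A → H} {T : A → H ≃ₗᵢ[ℝ] H} (h : Sys φ e T)
    (v : A ≃+ A) (hv : ∀ a, φ (v a) = φ a) :
    ∃ V : H ≃ₗᵢ[ℝ] H, (∀ a, V (e a) = e (v a)) ∧ ∀ a x, V (T a x) = T (v a) (V x) := by
  obtain ⟨V, hV⟩ := gns_isom e h.dense v.toEquiv (fun a b => by
    show inner ℝ (e (v a)) (e (v b)) = inner ℝ (e a) (e b)
    rw [h.inn, h.inn, ← map_sub, hv])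
  have hV' : ∀ a, V (e a) = e (v a) := hV
  refine ⟨V, hV', ?_⟩
  intro a x
  have h1 := gns_ext h.dense
    (V.toContinuousLinearEquiv.toContinuousLinearMap.comp
      (T a).toContinuousLinearEquiv.toContinuousLinearMap)
    ((T (v a)).toContinuousLinearEquiv.toContinuousLinearMap.comp
      V.toContinuousLinearEquiv.toContinuousLinearMap) (fun c => by
      show V (T a (e c)) = T (v a) (V (e c))
      rw [h.tr, hV', hV', h.tr, map_add])
  exact congrArg (fun L : H →L[ℝ] H => L x) h1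

end Pool.Agent.H93.EG

/-!
# Row Orth: a rotation invariant vector orthogonal to the plane-continuous vectors is orthogonal to the line-continuous ones

`T : ℂ → H ≃ₗᵢ H` translations, `V θ` rotations fixing `es`. For a unit vector `u` put `Tu u h := T (h * u)` (`h` real).
Proof. For every unit `u` let `y u ∈ Cvec (Tu u) NR` be the vector of `conv` for `x = es` (it is unique: the difference of two
such vectors is in `Cvec` and orthogonal to `Cvec`).
(1) `y u = V u (y 1)`: `V u` maps `Cvec (Tu 1) NR` onto `Cvec (Tu u) NR` and fixes `es`. So all `‖y u‖ ^ 2` equal `q`.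
(2) `inner es (y u) = q` (since `es - y u` is orthogonal to `y u`).
(3) If `u, u'` are not parallel then `inner (y u') (y u) = 0`: apply `conv` for `Tu u` to `x = y u'`: get `z ∈ Cvec (Tu u) NR`, limit
of convex combinations of the vectors `Tu u h (y u')`, which are in the closed invariant set `Cvec (Tu u') NR`; so `z` is in both
and hence in `Cvec T NC` (`w = h u + h' u'` with `|h|, |h'| ≤ C ‖w‖`, `‖T w z - z‖ ≤ ‖T (h u) z - z‖ + ‖T (h' u') z - z‖`).
`inner (y u') (y u) = inner z (y u)` (`y u' - z` is orthogonal to `Cvec (Tu u) NR`), `= inner z es` (`es - y u` is orthogonal to `z`),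
`= 0` (`hes`).
(4) for `n` pairwise non parallel units (e.g. `exp (π i j / n)`, or `exp (i / (j+1))`): `x := ∑ y (u j)`: `‖x‖ ^ 2 = n q`,
`inner es x = n q ≤ ‖es‖ ‖x‖`, so `n q ≤ ‖es‖ ^ 2` for all `n`; hence `q = 0`, `y 1 = 0`, and
`inner es z = inner (es - y 1) z = 0`.
-/


namespace Pool.Agent.H93.EG

/-- Translations along the direction `u`. -/
theorem Orth_inv {H : Type} [NormedAddCommGroup H] [InnerProductSpace ℝ H]
    (T : ℂ → H ≃ₗᵢ[ℝ] H) (hadd : ∀ a b x, T a (T b x) = T (a + b) x) (u w : ℂ) {x : H}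
    (hx : x ∈ Cvec (fun h : ℝ => T ((h : ℂ) * u)) NR) :
    T w x ∈ Cvec (fun h : ℝ => T ((h : ℂ) * u)) NR := by
  intro ε hε
  obtain ⟨n, hn⟩ := hx ε hε
  refine ⟨n, fun a ha => ?_⟩
  have h1 := hn a ha
  have h2 : T ((a : ℂ) * u) (T w x) - T w x = T w (T ((a : ℂ) * u) x - x) := by
    rw [map_sub, hadd, hadd, add_comm]
  show ‖T ((a : ℂ) * u) (T w x) - T w x‖ ≤ ε
  rw [h2, LinearIsometryEquiv.norm_map]
  exact h1

theorem Orth_zero {A : Type} {H : Type} [NormedAddCommGroup H] [InnerProductSpace ℝ H]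
    (T : A → H ≃ₗᵢ[ℝ] H) (N : ℕ → Set A) : (0 : H) ∈ Cvec T N := by
  intro ε hε
  exact ⟨0, fun a _ => by simpa using hε.le⟩

theorem Orth_sum {A : Type} [AddCommGroup A] {H : Type} [NormedAddCommGroup H]
    [InnerProductSpace ℝ H] (T : A → H ≃ₗᵢ[ℝ] H) (N : ℕ → Set A) (hN : NB N)
    {ι : Type} (s : Finset ι) (l : ι → ℝ) (f : ι → H) (hf : ∀ i, f i ∈ Cvec T N) :
    ∑ i ∈ s, l i • f i ∈ Cvec T N := by
  classical
  induction s using Finset.induction_on with
  | empty => simpa using Orth_zero T N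
  | insert i s his ih =>
    rw [Finset.sum_insert his]
    exact Cvec_add T N hN (Cvec_smul T N (l i) (hf i)) ih

/-- A vector continuous in two independent directions is continuous. -/
theorem Orth_plane {H : Type} [NormedAddCommGroup H] [InnerProductSpace ℝ H]
    (T : ℂ → H ≃ₗᵢ[ℝ] H) (hadd : ∀ a b x, T a (T b x) = T (a + b) x) (u u' : ℂ)
    (hu : ‖u‖ = 1) (hu' : ‖u'‖ = 1)
    (hD : u.re * u'.im - u.im * u'.re ≠ 0) {z : H}
    (hz : z ∈ Cvec (fun h : ℝ => T ((h : ℂ) * u)) NR)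
    (hz' : z ∈ Cvec (fun h : ℝ => T ((h : ℂ) * u')) NR) : z ∈ Cvec T NC := by
  set D := u.re * u'.im - u.im * u'.re with hDdef
  intro ε hε
  obtain ⟨n, hn⟩ := hz (ε / 2) (by positivity)
  obtain ⟨m, hm⟩ := hz' (ε / 2) (by positivity)
  have hDpos : 0 < |D| := abs_pos.mpr hD
  set r : ℝ := min ((1 / 2 : ℝ) ^ n) ((1 / 2 : ℝ) ^ m) * |D| with hr
  have hrpos : 0 < r := by
    rw [hr]
    have : 0 < min ((1 / 2 : ℝ) ^ n) ((1 / 2 : ℝ) ^ m) := lt_min (by positivity) (by positivity)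
    positivity
  obtain ⟨k, hk⟩ := exists_pow_lt_of_lt_one hrpos (by norm_num : (1 / 2 : ℝ) < 1)
  refine ⟨k, fun w hw => ?_⟩
  have hwr : ‖w‖ < r := lt_trans hw hk
  set h : ℝ := (u'.im * w.re - u'.re * w.im) / D with hh
  set h' : ℝ := (u.re * w.im - u.im * w.re) / D with hh'
  have hdec : w = (h : ℂ) * u + (h' : ℂ) * u' := by
    apply Complex.ext
    · simp only [Complex.add_re, Complex.mul_re, Complex.ofReal_re, Complex.ofReal_im, zero_mul,
        sub_zero, hh, hh']
      field_simp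
      rw [hDdef]
      ring
    · simp only [Complex.add_im, Complex.mul_im, Complex.ofReal_re, Complex.ofReal_im, zero_mul,
        add_zero, hh, hh']
      field_simp
      rw [hDdef]
      ring
  have key : ∀ v : ℂ, ‖v‖ = 1 → |v.im * w.re - v.re * w.im| ≤ ‖w‖ := by
    intro v hv
    have e1 : v.im * w.re - v.re * w.im = -((starRingEnd ℂ) v * w).im := by
      simp [Complex.mul_im]
      ring
    rw [e1, abs_neg]
    refine (Complex.abs_im_le_norm _).trans ?_
    rw [norm_mul, Complex.norm_conj, hv, one_mul]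
  have hh1 : |h| < (1 / 2 : ℝ) ^ n := by
    rw [hh, abs_div, div_lt_iff₀ hDpos]
    refine lt_of_le_of_lt (key u' hu') (lt_of_lt_of_le hwr ?_)
    rw [hr]
    exact mul_le_mul_of_nonneg_right (min_le_left _ _) hDpos.le
  have hh2 : |h'| < (1 / 2 : ℝ) ^ m := by
    rw [hh', abs_div, div_lt_iff₀ hDpos]
    have e2 : |u.re * w.im - u.im * w.re| = |u.im * w.re - u.re * w.im| := by
      rw [← abs_neg]
      congr 1
      ring
    rw [e2]
    refine lt_of_le_of_lt (key u hu) (lt_of_lt_of_le hwr ?_)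
    rw [hr]
    exact mul_le_mul_of_nonneg_right (min_le_right _ _) hDpos.le
  have h1 : ‖T ((h : ℂ) * u) z - z‖ ≤ ε / 2 := hn h hh1
  have h2 : ‖T ((h' : ℂ) * u') z - z‖ ≤ ε / 2 := hm h' hh2
  have h3 : T w z - z = T ((h : ℂ) * u) (T ((h' : ℂ) * u') z - z) + (T ((h : ℂ) * u) z - z) := by
    rw [map_sub, hadd, ← hdec]
    abel
  rw [h3]
  refine (norm_add_le _ _).trans ?_
  rw [LinearIsometryEquiv.norm_map]
  linarith

/-- Pairwise non parallel unit vectors. -/
noncomputable def Orth_u (j : ℕ) : ℂ := ((‖(⟨1, j⟩ : ℂ)‖⁻¹ : ℝ) : ℂ) * ⟨1, j⟩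

theorem Orth_ne (j : ℕ) : (⟨1, j⟩ : ℂ) ≠ 0 := by
  intro h
  have := congrArg Complex.re h
  simp at this

theorem Orth_u_norm (j : ℕ) : ‖Orth_u j‖ = 1 := by
  unfold Orth_u
  rw [norm_mul, Complex.norm_real, norm_inv, norm_norm]
  exact inv_mul_cancel₀ (norm_ne_zero_iff.mpr (Orth_ne j))

theorem Orth_u_par (j k : ℕ) (hjk : j ≠ k) :
    (Orth_u j).re * (Orth_u k).im - (Orth_u j).im * (Orth_u k).re ≠ 0 := by
  have hj : ‖(⟨1, j⟩ : ℂ)‖⁻¹ ≠ 0 := inv_ne_zero (norm_ne_zero_iff.mpr (Orth_ne j))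
  have hk : ‖(⟨1, k⟩ : ℂ)‖⁻¹ ≠ 0 := inv_ne_zero (norm_ne_zero_iff.mpr (Orth_ne k))
  have e : (Orth_u j).re * (Orth_u k).im - (Orth_u j).im * (Orth_u k).re
      = ‖(⟨1, j⟩ : ℂ)‖⁻¹ * ‖(⟨1, k⟩ : ℂ)‖⁻¹ * ((k : ℝ) - j) := by
    unfold Orth_u
    simp only [Complex.mul_re, Complex.mul_im, Complex.ofReal_re, Complex.ofReal_im, zero_mul,
      sub_zero, add_zero]
    ring
  rw [e]
  refine mul_ne_zero (mul_ne_zero hj hk) ?_
  intro h0
  apply hjk
  have h1 : (k : ℝ) = j := sub_eq_zero.mp h0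
  exact_mod_cast h1.symm

theorem line_orth {H : Type} [NormedAddCommGroup H] [InnerProductSpace ℝ H] [CompleteSpace H]
    (T : ℂ → H ≃ₗᵢ[ℝ] H) (hadd : ∀ a b x, T a (T b x) = T (a + b) x) (hzero : ∀ x, T 0 x = x)
    (es : H)
    (V : ∀ θ : ℂ, ‖θ‖ = 1 → H ≃ₗᵢ[ℝ] H)
    (hV : ∀ θ hθ a x, V θ hθ (T a x) = T (θ * a) (V θ hθ x))
    (hVe : ∀ θ hθ, V θ hθ es = es)
    (hes : ∀ z ∈ Cvec T NC, inner ℝ es z = 0) :
    ∀ z ∈ Cvec (fun h : ℝ => T (h : ℂ)) NR, inner ℝ es z = 0 := by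
  classical
  obtain ⟨y1, hy1, hy1o, -⟩ := conv (fun h : ℝ => T (h : ℂ))
    (fun a b x => by rw [hadd]; push_cast; rfl) (fun x => by simpa using hzero x)
    NR NR_nb es
  -- the rotated vectors
  have P1 : ∀ u (hu : ‖u‖ = 1), V u hu y1 ∈ Cvec (fun h : ℝ => T ((h : ℂ) * u)) NR := by
    intro u hu ε hε
    obtain ⟨n, hn⟩ := hy1 ε hε
    refine ⟨n, fun a ha => ?_⟩
    show ‖T ((a : ℂ) * u) (V u hu y1) - V u hu y1‖ ≤ ε
    rw [mul_comm, ← hV, ← map_sub, LinearIsometryEquiv.norm_map]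
    exact hn a ha
  have P2 : ∀ u (hu : ‖u‖ = 1), ∀ z ∈ Cvec (fun h : ℝ => T ((h : ℂ) * u)) NR,
      inner ℝ (es - V u hu y1) z = 0 := by
    intro u hu z hz
    have hz' : (V u hu).symm z ∈ Cvec (fun h : ℝ => T (h : ℂ)) NR := by
      intro ε hε
      obtain ⟨n, hn⟩ := hz ε hε
      refine ⟨n, fun a ha => ?_⟩
      have h1 := hn a ha
      show ‖T (a : ℂ) ((V u hu).symm z) - (V u hu).symm z‖ ≤ ε
      rw [← (V u hu).norm_map, map_sub, hV, LinearIsometryEquiv.apply_symm_apply, mul_comm]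
      exact h1
    have h2 := hy1o _ hz'
    have h3 : es - V u hu y1 = V u hu (es - y1) := by rw [map_sub, hVe]
    have h4 : z = V u hu ((V u hu).symm z) := by rw [LinearIsometryEquiv.apply_symm_apply]
    rw [h3, h4, LinearIsometryEquiv.inner_map_map]
    exact h2
  have P3 : ∀ u (hu : ‖u‖ = 1) u' (hu' : ‖u'‖ = 1), u.re * u'.im - u.im * u'.re ≠ 0 →
      inner ℝ (V u' hu' y1) (V u hu y1) = 0 := by
    intro u hu u' hu' hD
    obtain ⟨z, hz, hzo, hza⟩ := conv (fun h : ℝ => T ((h : ℂ) * u))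
      (fun a b x => by rw [hadd]; push_cast; congr 2; ring)
      (fun x => by simpa using hzero x) NR NR_nb (V u' hu' y1)
    have hz' : z ∈ Cvec (fun h : ℝ => T ((h : ℂ) * u')) NR := by
      rw [← (Cvec_closed (fun h : ℝ => T ((h : ℂ) * u')) NR).closure_eq]
      rw [Metric.mem_closure_iff]
      intro ε hε
      obtain ⟨ι, hι, l, a, -, -, -, hb⟩ := hza 0 (ε / 2) (by positivity)
      refine ⟨∑ i, l i • T ((a i : ℂ) * u) (V u' hu' y1), ?_, ?_⟩
      · exact Orth_sum _ NR NR_nb Finset.univ l _ (fun i => Orth_inv T hadd u' _ (P1 u' hu'))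
      · rw [dist_comm, dist_eq_norm]
        refine lt_of_le_of_lt hb ?_
        linarith
    have hzC : z ∈ Cvec T NC := Orth_plane T hadd u u' hu hu' hD hz hz'
    have e1 := hzo _ (P1 u hu)
    have e2 := P2 u hu z hz
    have e3 := hes z hzC
    rw [inner_sub_left] at e1 e2
    rw [real_inner_comm (V u hu y1) z] at e1
    linarith
  have Q1 : ∀ u (hu : ‖u‖ = 1), inner ℝ es (V u hu y1) = ‖y1‖ ^ 2 := by
    intro u hu
    have e := P2 u hu _ (P1 u hu)
    rw [inner_sub_left, real_inner_self_eq_norm_sq, LinearIsometryEquiv.norm_map] at e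
    linarith
  have hbound : ∀ n : ℕ, (n : ℝ) * ‖y1‖ ^ 2 ≤ ‖es‖ ^ 2 := by
    intro n
    set x : H := ∑ j ∈ Finset.range n, V (Orth_u j) (Orth_u_norm j) y1 with hx
    have i1 : inner ℝ es x = (n : ℝ) * ‖y1‖ ^ 2 := by
      rw [hx, inner_sum]
      rw [Finset.sum_congr rfl (fun j _ => Q1 (Orth_u j) (Orth_u_norm j))]
      simp
    have i2 : inner ℝ x x = (n : ℝ) * ‖y1‖ ^ 2 := by
      have i3 : ∀ j ∈ Finset.range n, inner ℝ (V (Orth_u j) (Orth_u_norm j) y1) x = ‖y1‖ ^ 2 := by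
        intro j hj
        rw [hx, inner_sum, Finset.sum_eq_single j]
        · rw [real_inner_self_eq_norm_sq, LinearIsometryEquiv.norm_map]
        · intro k _ hkj
          exact P3 _ _ _ _ (Orth_u_par k j hkj)
        · intro h
          exact absurd hj h
      calc inner ℝ x x = ∑ j ∈ Finset.range n, inner ℝ (V (Orth_u j) (Orth_u_norm j) y1) x := by
            conv_lhs => rw [hx]
            rw [sum_inner]
        _ = (n : ℝ) * ‖y1‖ ^ 2 := by
            rw [Finset.sum_congr rfl i3]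
            simp
    have i4 : 0 ≤ ‖es - x‖ ^ 2 := by positivity
    rw [norm_sub_sq_real, i1, ← real_inner_self_eq_norm_sq x, i2] at i4
    linarith
  have hq : ‖y1‖ ^ 2 = 0 := by
    by_contra hne
    have hpos : 0 < ‖y1‖ ^ 2 := lt_of_le_of_ne (by positivity) (Ne.symm hne)
    obtain ⟨n, hn⟩ := exists_nat_gt (‖es‖ ^ 2 / ‖y1‖ ^ 2)
    rw [div_lt_iff₀ hpos] at hn
    exact absurd (hbound n) (not_le.mpr hn)
  have hy0 : y1 = 0 := by
    have : ‖y1‖ = 0 := by simpa using hq
    exact norm_eq_zero.mp this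
  intro z hz
  have h5 := hy1o z hz
  rw [hy0, sub_zero] at h5
  exact h5

end Pool.Agent.H93.EG

/-!
# Row Sing: small convex combinations of real translates

Proof. Apply `conv` to `T' h := T (h : ℂ)`, `h` real, `N = NR` (`NR_nb`), `x = es`: `y ∈ Cvec T' NR` with `es - y` orthogonal to `Cvec T' NR`. By `line_orth`
`inner es y = 0`, and `inner (es - y) y = 0`, so `y = 0`. The last part of `conv` with `(1/2)^n < δ` gives the combinations (`a i ∈ NR n` means
`|a i| < (1/2)^n`).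
-/


namespace Pool.Agent.H93.EG

/-- Consequence: small convex combinations of real translates. -/
theorem line_sing {H : Type} [NormedAddCommGroup H] [InnerProductSpace ℝ H] [CompleteSpace H]
    (T : ℂ → H ≃ₗᵢ[ℝ] H) (hadd : ∀ a b x, T a (T b x) = T (a + b) x) (hzero : ∀ x, T 0 x = x)
    (es : H)
    (V : ∀ θ : ℂ, ‖θ‖ = 1 → H ≃ₗᵢ[ℝ] H)
    (hV : ∀ θ hθ a x, V θ hθ (T a x) = T (θ * a) (V θ hθ x))
    (hVe : ∀ θ hθ, V θ hθ es = es)
    (hes : ∀ z ∈ Cvec T NC, inner ℝ es z = 0) :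
    ∀ δ : ℝ, 0 < δ → ∀ ε : ℝ, 0 < ε → ∃ (ι : Type) (_ : Fintype ι) (l t : ι → ℝ),
      (∀ i, 0 ≤ l i) ∧ ∑ i, l i = 1 ∧ (∀ i, |t i| < δ) ∧ ‖∑ i, l i • T (t i : ℂ) es‖ ≤ ε := by
  intro δ hδ ε hε
  have hadd' : ∀ (a b : ℝ) (x : H), (fun h : ℝ => T (h : ℂ)) a ((fun h : ℝ => T (h : ℂ)) b x)
      = (fun h : ℝ => T (h : ℂ)) (a + b) x := by
    intro a b x
    show T (a : ℂ) (T (b : ℂ) x) = T ((a + b : ℝ) : ℂ) x
    rw [hadd, Complex.ofReal_add]
  have hzero' : ∀ x : H, (fun h : ℝ => T (h : ℂ)) 0 x = x := by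
    intro x
    show T ((0 : ℝ) : ℂ) x = x
    rw [Complex.ofReal_zero]
    exact hzero x
  obtain ⟨y, hy, hort, hcomb⟩ := conv (fun h : ℝ => T (h : ℂ)) hadd' hzero' NR NR_nb es
  have h1 : inner ℝ es y = 0 := line_orth T hadd hzero es V hV hVe hes y hy
  have h2 : inner ℝ (es - y) y = 0 := hort y hy
  have h3 : y = 0 := by
    rw [inner_sub_left, h1, zero_sub, neg_eq_zero] at h2
    exact inner_self_eq_zero.mp h2
  obtain ⟨n, hn⟩ := exists_pow_lt_of_lt_one hδ (by norm_num : (1 / 2 : ℝ) < 1)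
  obtain ⟨ι, hι, l, a, hl0, hl1, ha, hle⟩ := hcomb n ε hε
  refine ⟨ι, hι, l, a, hl0, hl1, fun i => lt_trans (ha i) hn, ?_⟩
  rw [h3, sub_zero] at hle
  exact hle

end Pool.Agent.H93.EG
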