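import Pool.Agent.H93.EGM.Circ

set_option autoImplicit false

/-!
# Row Loc0: localisation step (D), part 0 (theorems good_ae, exists_eps below)

`Good F x`: `St` holds at `x` and at almost all points of the circles around `x`.
`good_ae`. Proof: `Star.st` and `nullA` (`QuasiMeasurePreserving.ae`), `Measure.ae_ae_of_ae_prod`.
`exists_eps`. Proof: otherwise, for `ε = 1` and `ε = -1` and every type `i`, for a.e. `s` not both values are `ε`; values are `±1`, so
`F (y + c s q) = - F (y + c s p)` for a.e. `s`: contradiction to `circle_pair` with `u z = F (y + z)`.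
`loc_lim`. Proof. By `hconv` and `nullB d p`, `nullB d q` (`d, p, q ≠ 0`; for all ten vectors `p, q`), `Measure.ae_ae_of_ae_prod`: for a.e. `t`, for all `i`,
for a.e. `s`: eventually (in `n`) `F (x n + (c t * d + c s * p)) = F (x0 + (c t * d + c s * p))`, the same for `q`. And for a.e. `t`, for all `n`, `St F (x n + c t * d)`.
Fix such a `t`, let `y n = x n + c t * d`, `y0 = x0 + c t * d`, and `i` the type of `hε`. The set of `s` with `F (y0 + c s * p) = ε = F (y0 + c s * q)` is not null, so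
it contains `s` with: eventually `F (y n + c s * p) = F (y0 + c s * p) = ε`, `F (y n + c s * q) = ε`, and for all `n`
`¬ (F (y n + c s * p) = F (y n) ∧ F (y n + c s * q) = F (y n))`. So eventually `F (y n) ≠ ε`, i.e. `F (y n) = - ε` (values `±1`).
`loc_two`. Proof. For `d` one of the ten vectors: for a.e. `t`, with `ε` from `exists_eps` at `x0 + c t * d`, eventually `F (x n + c t * d) = - ε` and eventually
`F (x' n + c t * d) = - ε`. Let `u z := if (∀ᶠ n, F (x n + z) = 1) then 1 else -1`, measurable (`liminf` of measurable sets). So for a.e. `t`, for all ten vectors `d`: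
eventually `F (x n + c t * d) = u (c t * d)` and `F (x' n + c t * d) = u (c t * d)`. `St` at `x n`, `F (x n) = 1`: not both `u (c t * p) = 1`, `u (c t * q) = 1`; `St` at
`x' n`: not both `-1`. So `u (c t * q) = - u (c t * p)` for a.e. `t`, contradiction to `circle_pair`.
-/


namespace Pool.Agent.H93.EG

open MeasureTheory Filter Topology

/-- `St` at `x` and at almost all points of the circles around `x`. -/
def Good (d1 d2 τ1 τ2 : ℝ) (F : ℂ → ℝ) (x : ℂ) : Prop :=
  St d1 d2 τ1 τ2 F x ∧ ∀ i : Fin 5, ∀ᵐ t : UnitAddCircle,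
    St d1 d2 τ1 τ2 F (x + c t * (typ d1 d2 τ1 τ2 i).1) ∧
    St d1 d2 τ1 τ2 F (x + c t * (typ d1 d2 τ1 τ2 i).2)

theorem good_ae (d1 d2 τ1 τ2 : ℝ) (F : ℂ → ℝ) (hF : Star d1 d2 τ1 τ2 F) :
    ∀ᵐ x : ℂ, Good d1 d2 τ1 τ2 F x := by
  have hp : ∀ i : Fin 5, ∀ᵐ x : ℂ, ∀ᵐ t : UnitAddCircle,
      St d1 d2 τ1 τ2 F (x + c t * (typ d1 d2 τ1 τ2 i).1) := fun i =>
    Measure.ae_ae_of_ae_prod ((nullA (typ d1 d2 τ1 τ2 i).1).ae hF.st)
  have hq : ∀ i : Fin 5, ∀ᵐ x : ℂ, ∀ᵐ t : UnitAddCircle,
      St d1 d2 τ1 τ2 F (x + c t * (typ d1 d2 τ1 τ2 i).2) := fun i =>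
    Measure.ae_ae_of_ae_prod ((nullA (typ d1 d2 τ1 τ2 i).2).ae hF.st)
  filter_upwards [hF.st, ae_all_iff.mpr hp, ae_all_iff.mpr hq] with x h1 h2 h3
  refine ⟨h1, fun i => ?_⟩
  filter_upwards [h2 i, h3 i] with t a b
  exact ⟨a, b⟩

theorem exists_eps (d1 d2 τ1 τ2 : ℝ) (h : Par d1 d2 τ1 τ2) (F : ℂ → ℝ)
    (hF : Star d1 d2 τ1 τ2 F) (y : ℂ) :
    ∃ ε : ℝ, (ε = 1 ∨ ε = -1) ∧ ∃ i : Fin 5, ¬ ∀ᵐ s : UnitAddCircle,
      ¬ (F (y + c s * (typ d1 d2 τ1 τ2 i).1) = ε ∧ F (y + c s * (typ d1 d2 τ1 τ2 i).2) = ε) := by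
  by_contra hcon
  push Not at hcon
  refine circle_pair d1 d2 τ1 τ2 h (fun z => F (y + z))
    (hF.meas.comp (measurable_const.add measurable_id)) ?_ ?_
  · refine Filter.Eventually.of_forall (fun t => ?_)
    rcases hF.val (y + c t * (d1 : ℂ)) with e | e <;> rw [e] <;> norm_num
  · intro i
    filter_upwards [hcon 1 (Or.inl rfl) i, hcon (-1) (Or.inr rfl) i] with s h1 h2
    rcases hF.val (y + c s * (typ d1 d2 τ1 τ2 i).1) with e | e <;>
      rcases hF.val (y + c s * (typ d1 d2 τ1 τ2 i).2) with e' | e'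
    · exact absurd e' (h1 e)
    · rw [e, e']
    · rw [e, e']; norm_num
    · exact absurd e' (h2 e)

end Pool.Agent.H93.EG

/-!
# Row Loc1: localisation step (D), part 1 (theorem loc_lim below)

`Good F x`: `St` holds at `x` and at almost all points of the circles around `x`.
`good_ae`. Proof: `Star.st` and `nullA` (`QuasiMeasurePreserving.ae`), `Measure.ae_ae_of_ae_prod`.
`exists_eps`. Proof: otherwise, for `ε = 1` and `ε = -1` and every type `i`, for a.e. `s` not both values are `ε`; values are `±1`, so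
`F (y + c s q) = - F (y + c s p)` for a.e. `s`: contradiction to `circle_pair` with `u z = F (y + z)`.
`loc_lim`. Proof. By `hconv` and `nullB d p`, `nullB d q` (`d, p, q ≠ 0`; for all ten vectors `p, q`), `Measure.ae_ae_of_ae_prod`: for a.e. `t`, for all `i`,
for a.e. `s`: eventually (in `n`) `F (x n + (c t * d + c s * p)) = F (x0 + (c t * d + c s * p))`, the same for `q`. And for a.e. `t`, for all `n`, `St F (x n + c t * d)`.
Fix such a `t`, let `y n = x n + c t * d`, `y0 = x0 + c t * d`, and `i` the type of `hε`. The set of `s` with `F (y0 + c s * p) = ε = F (y0 + c s * q)` is not null, so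
it contains `s` with: eventually `F (y n + c s * p) = F (y0 + c s * p) = ε`, `F (y n + c s * q) = ε`, and for all `n`
`¬ (F (y n + c s * p) = F (y n) ∧ F (y n + c s * q) = F (y n))`. So eventually `F (y n) ≠ ε`, i.e. `F (y n) = - ε` (values `±1`).
`loc_two`. Proof. For `d` one of the ten vectors: for a.e. `t`, with `ε` from `exists_eps` at `x0 + c t * d`, eventually `F (x n + c t * d) = - ε` and eventually
`F (x' n + c t * d) = - ε`. Let `u z := if (∀ᶠ n, F (x n + z) = 1) then 1 else -1`, measurable (`liminf` of measurable sets). So for a.e. `t`, for all ten vectors `d`: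
eventually `F (x n + c t * d) = u (c t * d)` and `F (x' n + c t * d) = u (c t * d)`. `St` at `x n`, `F (x n) = 1`: not both `u (c t * p) = 1`, `u (c t * q) = 1`; `St` at
`x' n`: not both `-1`. So `u (c t * q) = - u (c t * p)` for a.e. `t`, contradiction to `circle_pair`.
-/


namespace Pool.Agent.H93.EG

open MeasureTheory Filter Topology

/-- Convergence at almost all points `c t * d + c s * p`. -/
theorem conv_two (F : ℂ → ℝ) (x : ℕ → ℂ) (x0 : ℂ)
    (hconv : ∀ᵐ z : ℂ, ∀ᶠ n in atTop, F (x n + z) = F (x0 + z)) (d p : ℂ) (hd : d ≠ 0)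
    (hp : p ≠ 0) :
    ∀ᵐ t : UnitAddCircle, ∀ᵐ s : UnitAddCircle,
      ∀ᶠ n in atTop, F (x n + (c t * d + c s * p)) = F (x0 + (c t * d + c s * p)) :=
  Measure.ae_ae_of_ae_prod ((nullB d p hd hp).ae hconv)

theorem loc_lim (d1 d2 τ1 τ2 : ℝ) (h : Par d1 d2 τ1 τ2) (F : ℂ → ℝ)
    (hF : Star d1 d2 τ1 τ2 F) (x : ℕ → ℂ) (x0 : ℂ)
    (hconv : ∀ᵐ z : ℂ, ∀ᶠ n in atTop, F (x n + z) = F (x0 + z)) (d : ℂ) (hd : d ≠ 0)
    (hst : ∀ n, ∀ᵐ t : UnitAddCircle, St d1 d2 τ1 τ2 F (x n + c t * d)) :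
    ∀ᵐ t : UnitAddCircle, ∀ ε : ℝ, (∃ i : Fin 5, ¬ ∀ᵐ s : UnitAddCircle,
      ¬ (F (x0 + c t * d + c s * (typ d1 d2 τ1 τ2 i).1) = ε ∧
        F (x0 + c t * d + c s * (typ d1 d2 τ1 τ2 i).2) = ε)) →
      ∀ᶠ n in atTop, F (x n + c t * d) = - ε := by
  have hne := typ_ne d1 d2 τ1 τ2 h
  have h1 := ae_all_iff.mpr (fun i => conv_two F x x0 hconv d _ hd (hne i).1)
  have h2 := ae_all_iff.mpr (fun i => conv_two F x x0 hconv d _ hd (hne i).2.1)
  filter_upwards [h1, h2, ae_all_iff.mpr hst] with t h1 h2 h3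
  rintro ε ⟨i, hi⟩
  by_contra hcon
  apply hi
  filter_upwards [h1 i, h2 i, ae_all_iff.mpr (fun n => h3 n i)] with s e1 e2 e3
  rintro ⟨e4, e5⟩
  apply hcon
  filter_upwards [e1, e2] with n e6 e7
  rw [← add_assoc, ← add_assoc, e4] at e6
  rw [← add_assoc, ← add_assoc, e5] at e7
  have hε : ε = 1 ∨ ε = -1 := by rw [← e4]; exact hF.val _
  have hne2 : F (x n + c t * d) ≠ ε := by
    intro e8
    exact e3 n ⟨e6.trans e8.symm, e7.trans e8.symm⟩
  rcases hF.val (x n + c t * d) with e9 | e9 <;> rcases hε with e10 | e10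
  · exact absurd (e9.trans e10.symm) hne2
  · rw [e9, e10]; norm_num
  · rw [e9, e10]
  · exact absurd (e9.trans e10.symm) hne2

end Pool.Agent.H93.EG

/-!
# Row Loc2: localisation step (D), part 2 (theorem loc_two below)

`Good F x`: `St` holds at `x` and at almost all points of the circles around `x`.
`good_ae`. Proof: `Star.st` and `nullA` (`QuasiMeasurePreserving.ae`), `Measure.ae_ae_of_ae_prod`.
`exists_eps`. Proof: otherwise, for `ε = 1` and `ε = -1` and every type `i`, for a.e. `s` not both values are `ε`; values are `±1`, so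
`F (y + c s q) = - F (y + c s p)` for a.e. `s`: contradiction to `circle_pair` with `u z = F (y + z)`.
`loc_lim`. Proof. By `hconv` and `nullB d p`, `nullB d q` (`d, p, q ≠ 0`; for all ten vectors `p, q`), `Measure.ae_ae_of_ae_prod`: for a.e. `t`, for all `i`,
for a.e. `s`: eventually (in `n`) `F (x n + (c t * d + c s * p)) = F (x0 + (c t * d + c s * p))`, the same for `q`. And for a.e. `t`, for all `n`, `St F (x n + c t * d)`.
Fix such a `t`, let `y n = x n + c t * d`, `y0 = x0 + c t * d`, and `i` the type of `hε`. The set of `s` with `F (y0 + c s * p) = ε = F (y0 + c s * q)` is not null, so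
it contains `s` with: eventually `F (y n + c s * p) = F (y0 + c s * p) = ε`, `F (y n + c s * q) = ε`, and for all `n`
`¬ (F (y n + c s * p) = F (y n) ∧ F (y n + c s * q) = F (y n))`. So eventually `F (y n) ≠ ε`, i.e. `F (y n) = - ε` (values `±1`).
`loc_two`. Proof. For `d` one of the ten vectors: for a.e. `t`, with `ε` from `exists_eps` at `x0 + c t * d`, eventually `F (x n + c t * d) = - ε` and eventually
`F (x' n + c t * d) = - ε`. Let `u z := if (∀ᶠ n, F (x n + z) = 1) then 1 else -1`, measurable (`liminf` of measurable sets). So for a.e. `t`, for all ten vectors `d`: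
eventually `F (x n + c t * d) = u (c t * d)` and `F (x' n + c t * d) = u (c t * d)`. `St` at `x n`, `F (x n) = 1`: not both `u (c t * p) = 1`, `u (c t * q) = 1`; `St` at
`x' n`: not both `-1`. So `u (c t * q) = - u (c t * p)` for a.e. `t`, contradiction to `circle_pair`.
-/


namespace Pool.Agent.H93.EG

open MeasureTheory Filter Topology

open Classical in
/-- The limit colouring. -/
noncomputable def limF (F : ℂ → ℝ) (x : ℕ → ℂ) (z : ℂ) : ℝ :=
  if (∀ᶠ n in atTop, F (x n + z) = 1) then 1 else -1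

theorem limF_meas (F : ℂ → ℝ) (hF : Measurable F) (x : ℕ → ℂ) : Measurable (limF F x) := by
  classical
  refine Measurable.ite ?_ measurable_const measurable_const
  have : {z | ∀ᶠ n in atTop, F (x n + z) = 1} = ⋃ N : ℕ, ⋂ n ∈ Set.Ici N, {z | F (x n + z) = 1} := by
    ext z
    simp only [Set.mem_setOf_eq, eventually_atTop, Set.mem_iUnion, Set.mem_iInter, Set.mem_Ici]
  rw [this]
  refine MeasurableSet.iUnion fun N => MeasurableSet.biInter (Set.to_countable _) fun n _ => ?_
  exact (hF.comp (measurable_const.add measurable_id)) (measurableSet_singleton 1)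

theorem limF_eq (F : ℂ → ℝ) (x : ℕ → ℂ) (z : ℂ) (ε : ℝ) (hε : ε = 1 ∨ ε = -1)
    (h : ∀ᶠ n in atTop, F (x n + z) = ε) : limF F x z = ε := by
  unfold limF
  rcases hε with rfl | rfl
  · rw [if_pos h]
  · rw [if_neg]
    intro h1
    obtain ⟨n, h2, h3⟩ := (h.and h1).exists
    rw [h2] at h3
    norm_num at h3

theorem loc_two (d1 d2 τ1 τ2 : ℝ) (h : Par d1 d2 τ1 τ2) (F : ℂ → ℝ)
    (hF : Star d1 d2 τ1 τ2 F) (x x' : ℕ → ℂ) (x0 : ℂ)
    (hconv : ∀ᵐ z : ℂ, ∀ᶠ n in atTop, F (x n + z) = F (x0 + z))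
    (hconv' : ∀ᵐ z : ℂ, ∀ᶠ n in atTop, F (x' n + z) = F (x0 + z))
    (hgood : ∀ n, Good d1 d2 τ1 τ2 F (x n)) (hgood' : ∀ n, Good d1 d2 τ1 τ2 F (x' n))
    (hx : ∀ n, F (x n) = 1) (hx' : ∀ n, F (x' n) = -1) : False := by
  have hne := typ_ne d1 d2 τ1 τ2 h
  have key : ∀ d : ℂ, d ≠ 0 → (∀ n, ∀ᵐ t : UnitAddCircle, St d1 d2 τ1 τ2 F (x n + c t * d)) →
      (∀ n, ∀ᵐ t : UnitAddCircle, St d1 d2 τ1 τ2 F (x' n + c t * d)) →
      ∀ᵐ t : UnitAddCircle, (limF F x (c t * d) = 1 ∨ limF F x (c t * d) = -1) ∧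
        (∀ᶠ n in atTop, F (x n + c t * d) = limF F x (c t * d)) ∧
        (∀ᶠ n in atTop, F (x' n + c t * d) = limF F x (c t * d)) := by
    intro d hd hs hs'
    filter_upwards [loc_lim d1 d2 τ1 τ2 h F hF x x0 hconv d hd hs,
      loc_lim d1 d2 τ1 τ2 h F hF x' x0 hconv' d hd hs'] with t h1 h2
    obtain ⟨ε, hε, hi⟩ := exists_eps d1 d2 τ1 τ2 h F hF (x0 + c t * d)
    have h3 := h1 ε hi
    have h4 := h2 ε hi
    have hε' : -ε = 1 ∨ -ε = -1 := by
      rcases hε with rfl | rfl
      · right; rfl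
      · left; norm_num
    have h5 := limF_eq F x (c t * d) (-ε) hε' h3
    rw [h5]
    exact ⟨hε', h3, h4⟩
  have hp := fun i => key _ (hne i).1 (fun n => ((hgood n).2 i).mono fun t ht => ht.1)
    (fun n => ((hgood' n).2 i).mono fun t ht => ht.1)
  have hq := fun i => key _ (hne i).2.1 (fun n => ((hgood n).2 i).mono fun t ht => ht.2)
    (fun n => ((hgood' n).2 i).mono fun t ht => ht.2)
  refine circle_pair d1 d2 τ1 τ2 h (limF F x) (limF_meas F hF.meas x) ?_ ?_
  · filter_upwards [hp 0] with t ht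
    rcases ht.1 with e | e
    · simp only [typ] at e; rw [e]; norm_num
    · simp only [typ] at e; rw [e]; norm_num
  · intro i
    filter_upwards [hp i, hq i, ae_all_iff.mpr (fun n => (hgood n).1 i),
      ae_all_iff.mpr (fun n => (hgood' n).1 i)] with t a b h1 h2
    obtain ⟨n, h3, h4⟩ := (a.2.1.and b.2.1).exists
    obtain ⟨m, h5, h6⟩ := (a.2.2.and b.2.2).exists
    have g1 := h1 n
    have g2 := h2 m
    rw [h3, h4, hx n] at g1
    rw [h5, h6, hx' m] at g2
    rcases a.1 with e | e <;> rcases b.1 with e' | e'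
    · exact absurd ⟨e, e'⟩ g1
    · rw [e, e']
    · rw [e, e']; norm_num
    · exact absurd ⟨e, e'⟩ g2

end Pool.Agent.H93.EG

/-!
# Row LocConst: local constancy (theorem loc_const below)

`loc_const`. Proof: otherwise for every `n`, with `r = 1/(n+1)`, both sets `{x ∈ ball x0 r | F x = 1}`, `{x ∈ ball x0 r | F x = -1}` are not null, so they contain
`Good` points `x n`, `x' n` (`good_ae`). `x n → x0`, `x' n → x0`. `trans_cont` gives a subsequence `φ` for `x`, then a further subsequence `ψ` for `x' ∘ φ`; along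
`φ ∘ ψ` both converge a.e.; `F` has values `±1`, so convergence means eventual equality. `loc_two`: contradiction.
`glob`. Proof: `A ε := {x0 | ∃ r > 0, ∀ᵐ x, x ∈ ball x0 r → F x = ε}` for `ε = 1, -1` are open, cover `ℂ` (`loc_const`), disjoint (a small ball around a common
point has positive measure and `1 ≠ -1`); `ℂ` is connected (`isPreconnected_univ`, `IsPreconnected.subset_or_subset...` or `isClopen_iff`), so one of them is
`ℂ`, so `F = ε` a.e. (`measure_null_of_locally_null`). Then by `nullA`, for a.e. `x`, for a.e. `t`: `F x = ε = F (x + c t * p) = F (x + c t * q)`, contradicting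
`Star.st` (the circle has positive measure).
-/


namespace Pool.Agent.H93.EG

open MeasureTheory Filter Topology

theorem conv_subseq (F : ℂ → ℝ) (hm : Measurable F) (hv : ∀ x, F x = 1 ∨ F x = -1) (x : ℕ → ℂ)
    (x0 : ℂ) (hx : Tendsto x atTop (𝓝 x0)) :
    ∃ φ : ℕ → ℕ, StrictMono φ ∧ ∀ᵐ z : ℂ, ∀ᶠ n in atTop, F (x (φ n) + z) = F (x0 + z) := by
  have hb : ∀ x, |F x| ≤ 1 := by
    intro x
    rcases hv x with e | e <;> rw [e] <;> norm_num
  obtain ⟨φ, hφ, h⟩ := trans_cont F hm hb x x0 hx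
  refine ⟨φ, hφ, ?_⟩
  filter_upwards [h] with z hz
  have h1 : ∀ᶠ n in atTop, |F (x (φ n) + z) - F (x0 + z)| < 1 := by
    have := (Metric.tendsto_nhds.mp hz) 1 one_pos
    simpa [Real.dist_eq] using this
  filter_upwards [h1] with n hn
  rcases hv (x (φ n) + z) with e | e <;> rcases hv (x0 + z) with e' | e' <;>
    rw [e, e'] at hn ⊢
  · exfalso; norm_num at hn
  · exfalso; norm_num at hn

theorem loc_const (d1 d2 τ1 τ2 : ℝ) (h : Par d1 d2 τ1 τ2) (F : ℂ → ℝ)
    (hF : Star d1 d2 τ1 τ2 F) (x0 : ℂ) :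
    ∃ r : ℝ, 0 < r ∧ ((∀ᵐ x : ℂ, x ∈ Metric.ball x0 r → F x = 1) ∨
      (∀ᵐ x : ℂ, x ∈ Metric.ball x0 r → F x = -1)) := by
  by_contra hcon
  push Not at hcon
  have hg := good_ae d1 d2 τ1 τ2 F hF
  have ex : ∀ n : ℕ, ∃ x ∈ Metric.ball x0 (1 / ((n : ℝ) + 1)), Good d1 d2 τ1 τ2 F x ∧ F x = 1 := by
    intro n
    have h1 := (hcon (1 / ((n : ℝ) + 1)) (by positivity)).2
    by_contra h2
    push Not at h2
    apply h1
    filter_upwards [hg] with x hx hxb
    exact hxb.2 ((hF.val x).resolve_left (h2 x hxb.1 hx))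
  have ex' : ∀ n : ℕ, ∃ x ∈ Metric.ball x0 (1 / ((n : ℝ) + 1)), Good d1 d2 τ1 τ2 F x ∧ F x = -1 := by
    intro n
    have h1 := (hcon (1 / ((n : ℝ) + 1)) (by positivity)).1
    by_contra h2
    push Not at h2
    apply h1
    filter_upwards [hg] with x hx hxb
    exact hxb.2 ((hF.val x).resolve_right (h2 x hxb.1 hx))
  choose x hxb hxg hx1 using ex
  choose x' hxb' hxg' hx1' using ex'
  have lim : ∀ y : ℕ → ℂ, (∀ n : ℕ, y n ∈ Metric.ball x0 (1 / ((n : ℝ) + 1))) →
      Tendsto y atTop (𝓝 x0) := by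
    intro y hy
    rw [tendsto_iff_dist_tendsto_zero]
    exact squeeze_zero (fun n => dist_nonneg) (fun n => (Metric.mem_ball.mp (hy n)).le)
      tendsto_one_div_add_atTop_nhds_zero_nat
  obtain ⟨φ, hφ, h1⟩ := conv_subseq F hF.meas hF.val x x0 (lim x hxb)
  obtain ⟨ψ, hψ, h2⟩ := conv_subseq F hF.meas hF.val (fun n => x' (φ n)) x0
    ((lim x' hxb').comp hφ.tendsto_atTop)
  refine loc_two d1 d2 τ1 τ2 h F hF (fun n => x (φ (ψ n))) (fun n => x' (φ (ψ n))) x0 ?_ h2
    (fun n => hxg _) (fun n => hxg' _) (fun n => hx1 _) (fun n => hx1' _)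
  filter_upwards [h1] with z hz
  exact hψ.tendsto_atTop.eventually hz

end Pool.Agent.H93.EG

/-!
# Row Glob: there is no measurable colouring without monochromatic triangles of the five types

`loc_const`. Proof: otherwise for every `n`, with `r = 1/(n+1)`, both sets `{x ∈ ball x0 r | F x = 1}`, `{x ∈ ball x0 r | F x = -1}` are not null, so they contain
`Good` points `x n`, `x' n` (`good_ae`). `x n → x0`, `x' n → x0`. `trans_cont` gives a subsequence `φ` for `x`, then a further subsequence `ψ` for `x' ∘ φ`; along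
`φ ∘ ψ` both converge a.e.; `F` has values `±1`, so convergence means eventual equality. `loc_two`: contradiction.
`glob`. Proof: `A ε := {x0 | ∃ r > 0, ∀ᵐ x, x ∈ ball x0 r → F x = ε}` for `ε = 1, -1` are open, cover `ℂ` (`loc_const`), disjoint (a small ball around a common
point has positive measure and `1 ≠ -1`); `ℂ` is connected (`isPreconnected_univ`, `IsPreconnected.subset_or_subset...` or `isClopen_iff`), so one of them is
`ℂ`, so `F = ε` a.e. (`measure_null_of_locally_null`). Then by `nullA`, for a.e. `x`, for a.e. `t`: `F x = ε = F (x + c t * p) = F (x + c t * q)`, contradicting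
`Star.st` (the circle has positive measure).
-/


namespace Pool.Agent.H93.EG

open MeasureTheory Filter Topology

/-- Points near which `F` is almost everywhere equal to `ε`. -/
def locSet (F : ℂ → ℝ) (ε : ℝ) : Set ℂ :=
  {x0 | ∃ r : ℝ, 0 < r ∧ ∀ᵐ x : ℂ, x ∈ Metric.ball x0 r → F x = ε}

theorem locSet_open (F : ℂ → ℝ) (ε : ℝ) : IsOpen (locSet F ε) := by
  rw [Metric.isOpen_iff]
  rintro x0 ⟨r, hr, h⟩
  refine ⟨r / 2, by positivity, fun y hy => ⟨r / 2, by positivity, ?_⟩⟩
  filter_upwards [h] with x hx hxy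
  refine hx ?_
  rw [Metric.mem_ball] at hy hxy ⊢
  linarith [dist_triangle x y x0]

theorem locSet_univ (F : ℂ → ℝ) (ε : ℝ) (h : locSet F ε = Set.univ) : ∀ᵐ x : ℂ, F x = ε := by
  rw [ae_iff]
  refine measure_null_of_locally_null _ (fun x0 _ => ?_)
  have : x0 ∈ locSet F ε := by rw [h]; trivial
  obtain ⟨r, hr, h⟩ := this
  refine ⟨{x | ¬ F x = ε} ∩ Metric.ball x0 r, ?_, ?_⟩
  · exact inter_mem_nhdsWithin _ (Metric.ball_mem_nhds x0 hr)
  · rw [ae_iff] at h
    refine measure_mono_null ?_ h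
    rintro x ⟨hx, hxb⟩ hh
    exact hx (hh hxb)

theorem glob (d1 d2 τ1 τ2 : ℝ) (h : Par d1 d2 τ1 τ2) (F : ℂ → ℝ)
    (hF : Star d1 d2 τ1 τ2 F) : False := by
  have hcon : ∀ ε : ℝ, (∀ᵐ x : ℂ, F x = ε) → False := by
    intro ε hε
    have hp : ∀ᵐ x : ℂ, ∀ᵐ t : UnitAddCircle, F (x + c t * (typ d1 d2 τ1 τ2 0).1) = ε :=
      Measure.ae_ae_of_ae_prod ((nullA (typ d1 d2 τ1 τ2 0).1).ae hε)
    have hq : ∀ᵐ x : ℂ, ∀ᵐ t : UnitAddCircle, F (x + c t * (typ d1 d2 τ1 τ2 0).2) = ε :=
      Measure.ae_ae_of_ae_prod ((nullA (typ d1 d2 τ1 τ2 0).2).ae hε)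
    have : ∀ᵐ _x : ℂ, False := by
      filter_upwards [hF.st, hε, hp, hq] with x h1 h2 h3 h4
      have : ∀ᵐ _t : UnitAddCircle, False := by
        filter_upwards [h1 0, h3, h4] with t e1 e3 e4
        exact e1 ⟨e3.trans h2.symm, e4.trans h2.symm⟩
      exact this.exists.choose_spec
    exact this.exists.choose_spec
  have hcov : locSet F 1 ∪ locSet F (-1) = Set.univ := by
    ext x0
    simp only [Set.mem_union, Set.mem_univ, iff_true]
    obtain ⟨r, hr, h1 | h1⟩ := loc_const d1 d2 τ1 τ2 h F hF x0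
    · exact Or.inl ⟨r, hr, h1⟩
    · exact Or.inr ⟨r, hr, h1⟩
  have hdis : Disjoint (locSet F 1) (locSet F (-1)) := by
    rw [Set.disjoint_left]
    rintro x0 ⟨r, hr, h1⟩ ⟨r', hr', h2⟩
    have h3 : ∀ᵐ x : ℂ, x ∉ Metric.ball x0 (min r r') := by
      filter_upwards [h1, h2] with x e1 e2 hx
      have a := e1 (Metric.ball_subset_ball (min_le_left _ _) hx)
      have b := e2 (Metric.ball_subset_ball (min_le_right _ _) hx)
      rw [a] at b
      norm_num at b
    have h4 : volume (Metric.ball x0 (min r r')) = 0 := by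
      rw [ae_iff] at h3
      refine measure_mono_null ?_ h3
      intro x hx hn
      exact hn hx
    exact (Metric.measure_ball_pos volume x0 (lt_min hr hr')).ne' h4
  have hclopen : IsClopen (locSet F 1) := by
    refine ⟨?_, locSet_open F 1⟩
    rw [← isOpen_compl_iff]
    have : (locSet F 1)ᶜ = locSet F (-1) := by
      rw [eq_comm]
      exact IsCompl.compl_eq (IsCompl.mk hdis (codisjoint_iff.mpr hcov)) |>.symm
    rw [this]
    exact locSet_open F (-1)
  rcases isClopen_iff.mp hclopen with h1 | h1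
  · rw [h1, Set.empty_union] at hcov
    exact hcon (-1) (locSet_univ F (-1) hcov)
  · exact hcon 1 (locSet_univ F 1 h1)

end Pool.Agent.H93.EG
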