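import Pool.Agent.H93.EGM.Null
import Pool.Agent.H58.ER.Mean

set_option autoImplicit false

/-!
# Row Stat: pair correlations of a colouring without monochromatic direct copies

`IsStat f E`: see `Pool/Agent/H58/ER/Mean.lean` (`exists_stat`). `sg true = 1`, `sg false = -1`.
Proof. `κ z w := E (fun F => sg (F z) * sg (F w))`. `stat_inv`: `inv` with `θ, u`: `κ z w = κ (θ z + u) (θ w + u)`. Every pair `(z, w)` is the image of
`(‖z - w‖, 0)` under such a motion (`z - w = ‖z - w‖ θ`), so `κ z w = k ‖z - w‖` with `k r := κ r 0` (for `r ≥ 0`; `k r := κ |r| 0`).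
`PD`: `∑ x_a x_b κ a b = E (fun F => (∑ x_a sg (F a)) ^ 2) ≥ 0` (`nonneg`, additivity over finite sums, all functions bounded).
`k 0 = 1` (`sg ^ 2 = 1`). `|k r| ≤ 1`.
Triangle: `z1 z2 z3` such that no direct motion of `f` is constant on them: `sg sg + sg sg + sg sg = -1` for all motions; so the function
`F ↦ 1 + s1 s2 + s2 s3 + s3 s1` and its negative are `≥ 0` on all motions, `E = 0`. Equilateral triple of side `d` (`0, d, d exp(iπ/3)`):
`1 + s1 s2 + s2 s3 + s3 s1 ≥ 0` always, `1 + 3 k d ≥ 0`. With `a, b, c` the three distances of the forbidden triple: `k a + k b + k c = -1`, all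
`≥ -1/3`, so all `= -1/3`.
-/


namespace Pool.Agent.H93.EG

open Pool.Agent.H58.ER

/-- Sign of a colour. -/
def sg (b : Bool) : ℝ := if b then 1 else -1

private theorem Stat_sg_bdd (z w : ℂ) : Bdd (fun F : ℂ → Bool => sg (F z) * sg (F w)) := by
  have h : ∀ a b : Bool, |sg a * sg b| ≤ 1 := by
    intro a b
    cases a <;> cases b <;> norm_num [sg]
  exact ⟨1, fun F => h _ _⟩

/-- The functional is additive over finite linear combinations. -/
theorem stat_sum (f : ℂ → Bool) (E : ((ℂ → Bool) → ℝ) → ℝ) (hE : IsStat f E) {ι : Type}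
    (s : Finset ι) (x : ι → ℝ) (Ψ : ι → (ℂ → Bool) → ℝ) (hΨ : ∀ i ∈ s, Bdd (Ψ i)) :
    E (fun F => ∑ i ∈ s, x i * Ψ i F) = ∑ i ∈ s, x i * E (Ψ i) := by
  classical
  have key : E (fun F => ∑ i ∈ s, x i * Ψ i F) = ∑ i ∈ s, x i * E (Ψ i) ∧
      Bdd (fun F => ∑ i ∈ s, x i * Ψ i F) := by
    induction s using Finset.induction_on with
    | empty =>
      simp only [Finset.sum_empty]
      refine ⟨?_, bdd_const 0⟩
      have := hE.smul 0 (fun _ => 1) (bdd_const 1)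
      simpa using this
    | insert i s hi ih =>
      obtain ⟨h1, h2⟩ := ih fun j hj => hΨ j (Finset.mem_insert_of_mem hj)
      have h3 := hΨ i (Finset.mem_insert_self _ _)
      simp only [Finset.sum_insert hi]
      refine ⟨?_, (h3.smul _).add h2⟩
      rw [hE.add _ _ (h3.smul _) h2, hE.smul _ _ h3, h1]
  exact key.1

private theorem Stat_tri (f : ℂ → Bool) (E : ((ℂ → Bool) → ℝ) → ℝ) (hE : IsStat f E) (k : ℝ → ℝ)
    (hk : ∀ z w : ℂ, E (fun F => sg (F z) * sg (F w)) = k ‖z - w‖) (z1 z2 z3 : ℂ) :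
    E (fun F => 1 + (sg (F z1) * sg (F z2) + (sg (F z2) * sg (F z3) + sg (F z3) * sg (F z1)))) =
      1 + (k ‖z1 - z2‖ + (k ‖z2 - z3‖ + k ‖z3 - z1‖)) := by
  rw [hE.add _ _ (bdd_const 1)
      ((Stat_sg_bdd z1 z2).add ((Stat_sg_bdd z2 z3).add (Stat_sg_bdd z3 z1))),
    hE.add _ _ (Stat_sg_bdd z1 z2) ((Stat_sg_bdd z2 z3).add (Stat_sg_bdd z3 z1)),
    hE.add _ _ (Stat_sg_bdd z2 z3) (Stat_sg_bdd z3 z1), hE.one, hk, hk, hk]

private theorem Stat_tri_bdd (z1 z2 z3 : ℂ) :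
    Bdd (fun F : ℂ → Bool => 1 + (sg (F z1) * sg (F z2) + (sg (F z2) * sg (F z3) +
      sg (F z3) * sg (F z1)))) :=
  (bdd_const 1).add ((Stat_sg_bdd z1 z2).add ((Stat_sg_bdd z2 z3).add (Stat_sg_bdd z3 z1)))

private theorem Stat_pos (a b c : Bool) : 0 ≤ 1 + (sg a * sg b + (sg b * sg c + sg c * sg a)) := by
  cases a <;> cases b <;> cases c <;> norm_num [sg]

private theorem Stat_neg (a b c : Bool) (h : ¬ (a = b ∧ b = c)) :
    1 + (sg a * sg b + (sg b * sg c + sg c * sg a)) = 0 := by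
  revert h
  cases a <;> cases b <;> cases c <;> norm_num [sg]

theorem stat_k (f : ℂ → Bool) (E : ((ℂ → Bool) → ℝ) → ℝ) (hE : IsStat f E) :
    ∃ k : ℝ → ℝ, (∀ z w : ℂ, E (fun F => sg (F z) * sg (F w)) = k ‖z - w‖) ∧
      PD (fun z : ℂ => k ‖z‖) ∧ k 0 = 1 ∧ (∀ d : ℝ, 0 < d → -1 / 3 ≤ k d) ∧
      ∀ z1 z2 z3 : ℂ, (∀ θ w : ℂ, ‖θ‖ = 1 →
          ¬ (f (θ * z1 + w) = f (θ * z2 + w) ∧ f (θ * z2 + w) = f (θ * z3 + w))) →
        z1 ≠ z2 → z2 ≠ z3 → z3 ≠ z1 →
        k ‖z1 - z2‖ = -1 / 3 ∧ k ‖z2 - z3‖ = -1 / 3 ∧ k ‖z3 - z1‖ = -1 / 3 := by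
  classical
  set k : ℝ → ℝ := fun r => E (fun F => sg (F (r : ℂ)) * sg (F 0)) with hkdef
  have hk : ∀ z w : ℂ, E (fun F => sg (F z) * sg (F w)) = k ‖z - w‖ := by
    intro z w
    obtain ⟨θ, hθ, hθz⟩ : ∃ θ : ℂ, ‖θ‖ = 1 ∧ θ * (‖z - w‖ : ℂ) + w = z := by
      by_cases h : z = w
      · exact ⟨1, by simp, by simp [h]⟩
      · have h1 : (‖z - w‖ : ℝ) ≠ 0 := norm_ne_zero_iff.2 (sub_ne_zero.2 h)
        have h2 : ((‖z - w‖ : ℝ) : ℂ) ≠ 0 := by exact_mod_cast h1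
        refine ⟨(z - w) / (‖z - w‖ : ℂ), ?_, ?_⟩
        · rw [norm_div, Complex.norm_real, norm_norm, div_self h1]
        · rw [div_mul_cancel₀ _ h2]
          ring
    have h3 := hE.inv θ w hθ (fun F => sg (F (‖z - w‖ : ℂ)) * sg (F 0)) (Stat_sg_bdd _ _)
    simp only [hθz, mul_zero, zero_add] at h3
    exact h3
  have hk0 : k 0 = 1 := by
    have h0 : ∀ a : Bool, sg a * sg a = 1 := by
      intro a
      cases a <;> norm_num [sg]
    have h1 : (fun F : ℂ → Bool => sg (F ((0 : ℝ) : ℂ)) * sg (F 0)) = fun _ => 1 := by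
      funext F
      rw [Complex.ofReal_zero]
      exact h0 _
    show E (fun F : ℂ → Bool => sg (F ((0 : ℝ) : ℂ)) * sg (F 0)) = 1
    rw [h1, hE.one]
  have hlow : ∀ z1 z2 z3 : ℂ, 0 ≤ 1 + (k ‖z1 - z2‖ + (k ‖z2 - z3‖ + k ‖z3 - z1‖)) := by
    intro z1 z2 z3
    rw [← Stat_tri f E hE k hk]
    exact hE.nonneg _ (Stat_tri_bdd _ _ _) fun θ w _ => Stat_pos _ _ _
  have hthird : ∀ d : ℝ, 0 < d → -1 / 3 ≤ k d := by
    intro d hd
    set ω : ℂ := Complex.exp ((Real.pi / 3 : ℝ) * Complex.I) with hω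
    have hω1 : ‖ω‖ = 1 := Complex.norm_exp_ofReal_mul_I _
    have hωre : ω.re = 1 / 2 := by
      rw [hω, Complex.exp_ofReal_mul_I_re, Real.cos_pi_div_three]
    have hωim : ω.im = Real.sqrt 3 / 2 := by
      rw [hω, Complex.exp_ofReal_mul_I_im, Real.sin_pi_div_three]
    have h1ω : ‖1 - ω‖ = 1 := by
      have : ‖1 - ω‖ ^ 2 = 1 := by
        rw [← Complex.normSq_eq_norm_sq, Complex.normSq_apply]
        simp only [Complex.sub_re, Complex.one_re, Complex.sub_im, Complex.one_im, hωre, hωim]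
        have := Real.mul_self_sqrt (by norm_num : (0 : ℝ) ≤ 3)
        nlinarith
      have h0 := norm_nonneg (1 - ω)
      nlinarith
    have h := hlow 0 (d : ℂ) (d * ω)
    have e1 : ‖(0 : ℂ) - d‖ = d := by
      rw [zero_sub, norm_neg, Complex.norm_real, Real.norm_eq_abs, abs_of_pos hd]
    have e2 : ‖(d : ℂ) - d * ω‖ = d := by
      rw [show (d : ℂ) - d * ω = d * (1 - ω) by ring, norm_mul, h1ω, Complex.norm_real,
        Real.norm_eq_abs, abs_of_pos hd, mul_one]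
    have e3 : ‖(d : ℂ) * ω - 0‖ = d := by
      rw [sub_zero, norm_mul, hω1, Complex.norm_real, Real.norm_eq_abs, abs_of_pos hd, mul_one]
    rw [e1, e2, e3] at h
    linarith
  refine ⟨k, hk, ⟨fun a => by simp only [norm_neg], fun s x => ?_⟩, hk0, hthird, ?_⟩
  · have h1 := stat_sum f E hE (s ×ˢ s) (fun p : ℂ × ℂ => x p.1 * x p.2)
      (fun p F => sg (F p.1) * sg (F p.2)) (fun p _ => Stat_sg_bdd p.1 p.2)
    have h2 : (fun F : ℂ → Bool => ∑ p ∈ s ×ˢ s, x p.1 * x p.2 * (sg (F p.1) * sg (F p.2))) =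
        fun F => (∑ a ∈ s, x a * sg (F a)) ^ 2 := by
      funext F
      rw [Finset.sum_product, pow_two, Finset.sum_mul_sum]
      refine Finset.sum_congr rfl fun a _ => Finset.sum_congr rfl fun b _ => ?_
      ring
    have h3 : 0 ≤ E (fun F => (∑ a ∈ s, x a * sg (F a)) ^ 2) := by
      refine hE.nonneg _ ?_ fun θ w _ => sq_nonneg _
      refine ⟨(∑ a ∈ s, |x a|) ^ 2, fun F => ?_⟩
      rw [abs_pow]
      gcongr
      refine (Finset.abs_sum_le_sum_abs _ _).trans (Finset.sum_le_sum fun a _ => ?_)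
      rw [abs_mul]
      have h0 : ∀ a : Bool, |sg a| = 1 := by
        intro a
        cases a <;> norm_num [sg]
      have : |sg (F a)| = 1 := h0 _
      rw [this, mul_one]
    rw [h2] at h1
    rw [h1, Finset.sum_product] at h3
    simpa only [hk] using h3
  · intro z1 z2 z3 hf h12 h23 h31
    have hle : 1 + (k ‖z1 - z2‖ + (k ‖z2 - z3‖ + k ‖z3 - z1‖)) ≤ 0 := by
      have h1 := hE.nonneg _ ((Stat_tri_bdd z1 z2 z3).smul (-1)) (fun θ w hθ => by
        have := Stat_neg (f (θ * z1 + w)) (f (θ * z2 + w)) (f (θ * z3 + w)) (hf θ w hθ)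
        rw [this, mul_zero])
      rw [hE.smul _ _ (Stat_tri_bdd z1 z2 z3), Stat_tri f E hE k hk] at h1
      linarith
    have a1 := hthird _ (norm_pos_iff.2 (sub_ne_zero.2 h12))
    have a2 := hthird _ (norm_pos_iff.2 (sub_ne_zero.2 h23))
    have a3 := hthird _ (norm_pos_iff.2 (sub_ne_zero.2 h31))
    refine ⟨?_, ?_, ?_⟩ <;> linarith

end Pool.Agent.H93.EG

/-!
# Row Samp: measurable functions with almost zero defect

Setting: `hk`: correlations are `k ‖z - w‖`; `kc` continuous; weights as in `dec`; the finitely many types `P i` have all three distances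
with `kc = -1/3`.
Proof. Fix `L, ε`. `m' := (volume (ball 0 L)).toReal`; `ε' := ε / (10 (m + 1) (m' + 1))`. `ρ > 0` (mesh) with `|kc s - kc (dist)| ≤ ε'` whenever
`|s - dist| ≤ 8 ρ`, for the `3 m` distances. Weights `l, h` from `hdec` for `δ = 1`, error `ε'`.
`π x := ρ (⌊x.re / ρ⌋ + i ⌊x.im / ρ⌋)`, `‖π x - x‖ ≤ 2 ρ`, measurable. For `F : ℂ → Bool` put `aF z := ∑ l i * sg (F (z + h i))`, `GF x := aF (π x)`:
measurable (composition of `x ↦ (⌊x.re / ρ⌋, ⌊x.im / ρ⌋) ∈ ℤ × ℤ` with a function on `ℤ × ℤ`), `|GF| ≤ 1`.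
For `(x, t)`, `x ∈ ball 0 L`, the triple `(π x, π (x + c t p), π (x + c t q))` takes finitely many values `j ∈ J` (bounded), on measurable sets `S_j`:
`∫ Dfn GF p q = ∑_j vol(S_j) (1 + aF(j0) aF(j1) + aF(j1) aF(j2) + aF(j2) aF(j0))`. `E` of this (a finite linear combination of products
`sg (F z) sg (F w)` and constants; `stat_sum`) is `∑_j vol(S_j) (1 + ∑∑ l l k(..) + ...)`, and for `S_j` nonempty the distances of `j0, j1, j2` differ from
`‖p‖, ‖p - q‖, ‖q‖` by at most `4 ρ`, so every bracket is `≤ 1 + 3 (-1/3) + 6 ε' = 6 ε'`. Sum over `i` of the integrals: `E ≤ 6 ε' m m' < ε`.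
If all motions `g` of `f` had total defect `≥ ε` then `E (total defect) ≥ ε` (`nonneg` applied to `Ψ - ε`), contradiction. So there are `θ, w` such
that `F = fun z => f (θ z + w)` has total defect `< ε`; every single integral is `≥ 0` (`Dfn ≥ 0` for `|G| ≤ 1`), so every one is `< ε`. `G := GF`.
-/


namespace Pool.Agent.H93.EG

open Pool.Agent.H58.ER MeasureTheory

theorem abs_sg (b : Bool) : |sg b| = 1 := by
  unfold sg
  cases b <;> simp

/-- Averaged colouring. -/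
noncomputable def aF {ι : Type} [Fintype ι] (l : ι → ℝ) (h : ι → ℂ) (F : ℂ → Bool) (z : ℂ) : ℝ :=
  ∑ i, l i * sg (F (z + h i))

theorem aF_le {ι : Type} [Fintype ι] (l : ι → ℝ) (h : ι → ℂ) (hl : ∀ i, 0 ≤ l i)
    (hl1 : ∑ i, l i = 1) (F : ℂ → Bool) (z : ℂ) : |aF l h F z| ≤ 1 := by
  unfold aF
  refine (Finset.abs_sum_le_sum_abs _ _).trans ?_
  rw [← hl1]
  refine Finset.sum_le_sum fun i _ => ?_
  rw [abs_mul, abs_sg, mul_one, abs_of_nonneg (hl i)]

theorem bdd_prod {ι : Type} [Fintype ι] (l : ι → ℝ) (h : ι → ℂ) (hl : ∀ i, 0 ≤ l i)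
    (hl1 : ∑ i, l i = 1) (z w : ℂ) : Bdd (fun F => aF l h F z * aF l h F w) := by
  refine ⟨1, fun F => ?_⟩
  rw [abs_mul]
  have h1 := aF_le l h hl hl1 F z
  have h2 := aF_le l h hl hl1 F w
  have h3 := abs_nonneg (aF l h F z)
  have h4 := abs_nonneg (aF l h F w)
  nlinarith

theorem aF_mul {ι : Type} [Fintype ι] (l : ι → ℝ) (h : ι → ℂ) (f : ℂ → Bool)
    (E : ((ℂ → Bool) → ℝ) → ℝ) (hE : IsStat f E) (k : ℝ → ℝ)
    (hk : ∀ z w : ℂ, E (fun F => sg (F z) * sg (F w)) = k ‖z - w‖) (z w : ℂ) :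
    E (fun F => aF l h F z * aF l h F w) = ∑ i, ∑ j, l i * l j * k ‖z + h i - (w + h j)‖ := by
  have h1 : (fun F => aF l h F z * aF l h F w) = fun F => ∑ p ∈ (Finset.univ : Finset (ι × ι)),
      (l p.1 * l p.2) * (sg (F (z + h p.1)) * sg (F (w + h p.2))) := by
    funext F
    unfold aF
    rw [Finset.sum_mul_sum, Fintype.sum_prod_type]
    refine Finset.sum_congr rfl fun i _ => Finset.sum_congr rfl fun j _ => ?_
    ring
  rw [h1, stat_sum f E hE Finset.univ (fun p : ι × ι => l p.1 * l p.2)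
    (fun p F => sg (F (z + h p.1)) * sg (F (w + h p.2))), Fintype.sum_prod_type]
  · refine Finset.sum_congr rfl fun i _ => Finset.sum_congr rfl fun j _ => ?_
    rw [hk]
  · intro p _
    refine ⟨1, fun F => ?_⟩
    rw [abs_mul, abs_sg, abs_sg, one_mul]

/-- Defect of three averaged values. -/
noncomputable def tri {ι : Type} [Fintype ι] (l : ι → ℝ) (h : ι → ℂ) (x y z : ℂ)
    (F : ℂ → Bool) : ℝ :=
  1 + aF l h F x * aF l h F y + aF l h F y * aF l h F z + aF l h F z * aF l h F x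

theorem tri_bdd {ι : Type} [Fintype ι] (l : ι → ℝ) (h : ι → ℂ) (hl : ∀ i, 0 ≤ l i)
    (hl1 : ∑ i, l i = 1) (x y z : ℂ) : Bdd (tri l h x y z) :=
  (((bdd_const 1).add (bdd_prod l h hl hl1 x y)).add (bdd_prod l h hl hl1 y z)).add
    (bdd_prod l h hl hl1 z x)

theorem tri_mean {ι : Type} [Fintype ι] (l : ι → ℝ) (h : ι → ℂ) (hl : ∀ i, 0 ≤ l i)
    (hl1 : ∑ i, l i = 1) (f : ℂ → Bool)
    (E : ((ℂ → Bool) → ℝ) → ℝ) (hE : IsStat f E) (k kc : ℝ → ℝ)
    (hk : ∀ z w : ℂ, E (fun F => sg (F z) * sg (F w)) = k ‖z - w‖) (ε' : ℝ)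
    (hd : ∀ z w : ℂ, |∑ i, ∑ j, l i * l j * k ‖z + h i - (w + h j)‖ - kc ‖z - w‖| ≤ ε')
    (x y z : ℂ) (hx : kc ‖x - y‖ ≤ -1 / 3 + ε') (hy : kc ‖y - z‖ ≤ -1 / 3 + ε')
    (hz : kc ‖z - x‖ ≤ -1 / 3 + ε') :
    E (tri l h x y z) ≤ 6 * ε' := by
  have h1 : E (tri l h x y z) = 1 + E (fun F => aF l h F x * aF l h F y) +
      E (fun F => aF l h F y * aF l h F z) + E (fun F => aF l h F z * aF l h F x) := by
    unfold tri
    rw [hE.add _ _ (((bdd_const 1).add (bdd_prod l h hl hl1 x y)).add (bdd_prod l h hl hl1 y z))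
      (bdd_prod l h hl hl1 z x), hE.add _ _ ((bdd_const 1).add (bdd_prod l h hl hl1 x y))
      (bdd_prod l h hl hl1 y z), hE.add _ _ (bdd_const 1) (bdd_prod l h hl hl1 x y), hE.one]
  rw [h1, aF_mul l h f E hE k hk, aF_mul l h f E hE k hk, aF_mul l h f E hE k hk]
  have a := (abs_le.mp (hd x y)).2
  have b := (abs_le.mp (hd y z)).2
  have c := (abs_le.mp (hd z x)).2
  linarith

theorem int_type {ι : Type} [Fintype ι] (l : ι → ℝ) (h : ι → ℂ) (ρ : ℝ) (hρ : 0 < ρ) (L : ℝ)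
    (p q : ℂ) :
    ∃ (J : Finset ((ℤ × ℤ) × (ℤ × ℤ) × (ℤ × ℤ))) (v : (ℤ × ℤ) × (ℤ × ℤ) × (ℤ × ℤ) → ℝ),
      (∀ j, 0 ≤ v j) ∧
      (∑ j ∈ J, v j =
        (volume ((Metric.ball (0 : ℂ) L) ×ˢ (Set.univ : Set UnitAddCircle))).toReal) ∧
      (∀ j, v j ≠ 0 → ∃ (x : ℂ) (t : UnitAddCircle), cell ρ x = j.1 ∧
        cell ρ (x + c t * p) = j.2.1 ∧ cell ρ (x + c t * q) = j.2.2) ∧
      ∀ F : ℂ → Bool, ∫ xt in (Metric.ball (0 : ℂ) L) ×ˢ (Set.univ : Set UnitAddCircle),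
        Dfn (fun x => aF l h F (corner ρ (cell ρ x))) p q xt.1 xt.2 =
          ∑ j ∈ J, v j * tri l h (corner ρ j.1) (corner ρ j.2.1) (corner ρ j.2.2) F := by
  set S : Set (ℂ × UnitAddCircle) := (Metric.ball (0 : ℂ) L) ×ˢ (Set.univ : Set UnitAddCircle)
    with hS
  have hSm : MeasurableSet S := measurableSet_ball.prod MeasurableSet.univ
  have hSf : volume S ≠ ⊤ := by
    rw [hS, Measure.volume_eq_prod, Measure.prod_prod]
    exact ENNReal.mul_ne_top measure_ball_lt_top.ne (measure_ne_top _ _)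
  obtain ⟨J0, hJ0⟩ := cell_fin ρ hρ (L + ‖p‖ + ‖q‖)
  let g : ℂ × UnitAddCircle → (ℤ × ℤ) × (ℤ × ℤ) × (ℤ × ℤ) := fun xt =>
    (cell ρ xt.1, cell ρ (xt.1 + c xt.2 * p), cell ρ (xt.1 + c xt.2 * q))
  have hg : Measurable g := by
    refine ((cell_meas ρ).comp measurable_fst).prodMk (Measurable.prodMk ?_ ?_)
    · exact (cell_meas ρ).comp (measurable_fst.add ((measurable_c.comp measurable_snd).mul_const p))
    · exact (cell_meas ρ).comp (measurable_fst.add ((measurable_c.comp measurable_snd).mul_const q))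
  have hJ : ∀ a ∈ S, g a ∈ J0 ×ˢ J0 ×ˢ J0 := by
    rintro ⟨x, t⟩ ⟨hx, -⟩
    have hx' : ‖x‖ < L := by simpa using hx
    have hp0 := norm_nonneg p
    have hq0 := norm_nonneg q
    simp only [g, Finset.mem_product]
    refine ⟨hJ0 _ (by linarith), hJ0 _ ?_, hJ0 _ ?_⟩
    · have := norm_add_le x (c t * p)
      rw [norm_mul, norm_c, one_mul] at this
      linarith
    · have := norm_add_le x (c t * q)
      rw [norm_mul, norm_c, one_mul] at this
      linarith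
  refine ⟨J0 ×ˢ J0 ×ˢ J0, fun j => (volume (S ∩ g ⁻¹' {j})).toReal, fun j => ENNReal.toReal_nonneg,
    ?_, ?_, ?_⟩
  · have := integral_fin_range volume S hSm hSf g hg _ hJ (fun _ => 1)
    simp only [mul_one] at this
    rw [← this]
    simp [Measure.real]
  · intro j hj
    have hne : (S ∩ g ⁻¹' {j}).Nonempty := by
      rw [Set.nonempty_iff_ne_empty]
      intro h0
      apply hj
      show (volume (S ∩ g ⁻¹' {j})).toReal = 0
      rw [h0]
      simp
    obtain ⟨⟨x, t⟩, -, h2⟩ := hne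
    have h3 : g (x, t) = j := h2
    refine ⟨x, t, ?_, ?_, ?_⟩
    · rw [← h3]
    · rw [← h3]
    · rw [← h3]
  · intro F
    exact integral_fin_range volume S hSm hSf g hg _ hJ
      (fun j => tri l h (corner ρ j.1) (corner ρ j.2.1) (corner ρ j.2.2) F)

theorem bdd_sum {ι : Type} (s : Finset ι) (x : ι → ℝ) (Ψ : ι → (ℂ → Bool) → ℝ)
    (h : ∀ i ∈ s, Bdd (Ψ i)) : Bdd (fun F => ∑ i ∈ s, x i * Ψ i F) := by
  classical
  induction s using Finset.induction_on with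
  | empty => simpa using bdd_const (X := ℂ → Bool) 0
  | insert a s ha ih =>
    simp only [Finset.sum_insert ha]
    exact ((h a (Finset.mem_insert_self a s)).smul (x a)).add
      (ih fun i hi => h i (Finset.mem_insert_of_mem hi))

theorem near_dist (ρ : ℝ) (hρ : 0 < ρ) (x y : ℂ) :
    |‖corner ρ (cell ρ x) - corner ρ (cell ρ y)‖ - ‖x - y‖| ≤ 4 * ρ := by
  have h1 := corner_near ρ hρ x
  have h2 := corner_near ρ hρ y
  refine (abs_norm_sub_norm_le _ _).trans ?_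
  have : corner ρ (cell ρ x) - corner ρ (cell ρ y) - (x - y) =
      (corner ρ (cell ρ x) - x) - (corner ρ (cell ρ y) - y) := by ring
  rw [this]
  refine (norm_sub_le _ _).trans ?_
  linarith

theorem samp (f : ℂ → Bool) (E : ((ℂ → Bool) → ℝ) → ℝ) (hE : IsStat f E) (k kc : ℝ → ℝ)
    (hk : ∀ z w : ℂ, E (fun F => sg (F z) * sg (F w)) = k ‖z - w‖) (hc : Continuous kc)
    (hdec : ∀ δ : ℝ, 0 < δ → ∀ ε : ℝ, 0 < ε → ∃ (ι : Type) (_ : Fintype ι) (l : ι → ℝ) (h : ι → ℂ),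
        (∀ i, 0 ≤ l i) ∧ ∑ i, l i = 1 ∧ (∀ i, ‖h i‖ < δ) ∧
        ∀ z w : ℂ, |∑ i, ∑ j, l i * l j * k ‖z + h i - (w + h j)‖ - kc ‖z - w‖| ≤ ε)
    (m : ℕ) (P : Fin m → ℂ × ℂ)
    (hP : ∀ i, kc ‖(P i).1‖ = -1 / 3 ∧ kc ‖(P i).2‖ = -1 / 3 ∧ kc ‖(P i).1 - (P i).2‖ = -1 / 3)
    (L : ℝ) (hL : 0 < L) (ε : ℝ) (hε : 0 < ε) :
    ∃ G : ℂ → ℝ, Measurable G ∧ (∀ x, |G x| ≤ 1) ∧
      ∀ i, ∫ xt in (Metric.ball (0 : ℂ) L) ×ˢ (Set.univ : Set UnitAddCircle),
        Dfn G (P i).1 (P i).2 xt.1 xt.2 < ε := by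
  classical
  set m' : ℝ := (volume ((Metric.ball (0 : ℂ) L) ×ˢ (Set.univ : Set UnitAddCircle))).toReal with hm'
  have hm0 : 0 ≤ m' := ENNReal.toReal_nonneg
  have hmm : (0 : ℝ) ≤ m := Nat.cast_nonneg m
  set ε' : ℝ := ε / (10 * (m + 1) * (m' + 1)) with hε'
  have hε'0 : 0 < ε' := by positivity
  have hsmall : m * (m' * (6 * ε')) < ε := by
    have h1 : ε' * (10 * (m + 1) * (m' + 1)) = ε := by
      rw [hε']
      field_simp
    have h2 : 0 ≤ ε' * (m * m') := by positivity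
    nlinarith [mul_nonneg hε'0.le hmm, mul_nonneg hε'0.le hm0]
  -- mesh
  have hmesh : ∀ d : ℝ, kc d = -1 / 3 → ∀ᶠ ρ in nhdsWithin (0 : ℝ) (Set.Ioi 0),
      ∀ s : ℝ, |s - d| ≤ 4 * ρ → kc s ≤ -1 / 3 + ε' := by
    intro d hd
    obtain ⟨δ, hδ, h⟩ := Metric.continuous_iff.mp hc d ε' hε'0
    have : ∀ᶠ ρ in nhdsWithin (0 : ℝ) (Set.Ioi 0), ρ < δ / 4 :=
      nhdsWithin_le_nhds (gt_mem_nhds (by positivity))
    filter_upwards [this] with ρ hρ s hs
    have h1 := h s (by rw [Real.dist_eq]; linarith)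
    rw [Real.dist_eq, hd] at h1
    linarith [(abs_lt.mp h1).2]
  have hev : ∀ᶠ ρ in nhdsWithin (0 : ℝ) (Set.Ioi 0), ∀ i : Fin m,
      (∀ s : ℝ, |s - ‖(P i).1‖| ≤ 4 * ρ → kc s ≤ -1 / 3 + ε') ∧
      (∀ s : ℝ, |s - ‖(P i).2‖| ≤ 4 * ρ → kc s ≤ -1 / 3 + ε') ∧
      (∀ s : ℝ, |s - ‖(P i).1 - (P i).2‖| ≤ 4 * ρ → kc s ≤ -1 / 3 + ε') := by
    rw [Filter.eventually_all]
    intro i
    exact (hmesh _ (hP i).1).and ((hmesh _ (hP i).2.1).and (hmesh _ (hP i).2.2))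
  obtain ⟨ρ, hρP, hρ0⟩ := (hev.and self_mem_nhdsWithin).exists
  have hρ : 0 < ρ := hρ0
  obtain ⟨ι, _, l, h, hl, hl1, -, hd⟩ := hdec 1 one_pos ε' hε'0
  -- integrals
  have hint := fun i => int_type l h ρ hρ L (P i).1 (P i).2
  choose J v hv0 hv1 hvne hvi using hint
  set I : Fin m → (ℂ → Bool) → ℝ := fun i F => ∑ j ∈ J i, v i j *
    tri l h (corner ρ j.1) (corner ρ j.2.1) (corner ρ j.2.2) F with hI
  have hIb : ∀ i, Bdd (I i) := fun i => bdd_sum (J i) (v i) _ fun j _ => tri_bdd l h hl hl1 _ _ _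
  have hIE : ∀ i, E (I i) ≤ m' * (6 * ε') := by
    intro i
    rw [hI]
    simp only
    rw [stat_sum f E hE (J i) (v i) (fun j => tri l h (corner ρ j.1) (corner ρ j.2.1)
      (corner ρ j.2.2)) (fun j _ => tri_bdd l h hl hl1 _ _ _), hm', ← hv1 i, Finset.sum_mul]
    refine Finset.sum_le_sum fun j _ => ?_
    by_cases h0 : v i j = 0
    · rw [h0, zero_mul, zero_mul]
    · refine mul_le_mul_of_nonneg_left ?_ (hv0 i j)
      obtain ⟨x, t, e1, e2, e3⟩ := hvne i j h0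
      rw [← e1, ← e2, ← e3]
      refine tri_mean l h hl hl1 f E hE k kc hk ε' hd _ _ _ ?_ ?_ ?_
      · refine (hρP i).1 _ ?_
        have := near_dist ρ hρ x (x + c t * (P i).1)
        rwa [show x - (x + c t * (P i).1) = -(c t * (P i).1) by ring, norm_neg, norm_mul, norm_c,
          one_mul] at this
      · refine (hρP i).2.2 _ ?_
        have := near_dist ρ hρ (x + c t * (P i).1) (x + c t * (P i).2)
        rwa [show x + c t * (P i).1 - (x + c t * (P i).2) = c t * ((P i).1 - (P i).2) by ring,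
          norm_mul, norm_c, one_mul] at this
      · refine (hρP i).2.1 _ ?_
        have := near_dist ρ hρ (x + c t * (P i).2) x
        rwa [show x + c t * (P i).2 - x = c t * (P i).2 by ring, norm_mul, norm_c,
          one_mul] at this
  -- total
  set D : (ℂ → Bool) → ℝ := fun F => ∑ i ∈ (Finset.univ : Finset (Fin m)), 1 * I i F with hD
  have hDb : Bdd D := bdd_sum Finset.univ (fun _ => 1) I fun i _ => hIb i
  have hDE : E D < ε := by
    rw [hD, stat_sum f E hE Finset.univ (fun _ => 1) I fun i _ => hIb i]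
    simp only [one_mul]
    refine lt_of_le_of_lt (Finset.sum_le_sum fun i _ => hIE i) ?_
    rw [Finset.sum_const, Finset.card_univ, Fintype.card_fin, nsmul_eq_mul]
    exact hsmall
  have hex : ∃ θ w : ℂ, ‖θ‖ = 1 ∧ D (fun z => f (θ * z + w)) < ε := by
    by_contra hcon
    push Not at hcon
    have h1 : 0 ≤ E (fun F => D F + (-ε) * (fun _ => 1) F) := by
      refine hE.nonneg _ (hDb.add ((bdd_const 1).smul (-ε))) fun θ w hθ => ?_
      have := hcon θ w hθ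
      simp only [mul_one]
      linarith
    rw [hE.add _ _ hDb ((bdd_const 1).smul (-ε)), hE.smul _ _ (bdd_const 1), hE.one] at h1
    linarith
  obtain ⟨θ, w, hθ, hDlt⟩ := hex
  set F : ℂ → Bool := fun z => f (θ * z + w) with hF
  have hGb : ∀ x, |aF l h F (corner ρ (cell ρ x))| ≤ 1 := fun x => aF_le l h hl hl1 F _
  refine ⟨fun x => aF l h F (corner ρ (cell ρ x)), ?_, hGb, ?_⟩
  · have : Measurable (fun j : ℤ × ℤ => aF l h F (corner ρ j)) := measurable_of_countable _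
    exact this.comp (cell_meas ρ)
  · intro i
    have hnn : ∀ i', 0 ≤ I i' F := by
      intro i'
      have := hvi i' F
      rw [hI]
      simp only
      rw [← this]
      exact integral_nonneg fun xt => Dfn_nonneg _ hGb _ _ _ _
    have h1 : I i F ≤ D F := by
      rw [hD]
      simp only [one_mul]
      exact Finset.single_le_sum (f := fun i => I i F) (fun i' _ => hnn i') (Finset.mem_univ i)
    rw [hvi i F]
    exact lt_of_le_of_lt h1 hDlt

end Pool.Agent.H93.EG
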