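import Pool.Agent.H93.EGM.Dec
import Pool.Agent.H93.EGM.Samp
import Pool.Agent.H93.EGM.Weak
import Pool.Agent.H93.EGM.Loc
import Pool.Agent.H58.ER.Main

set_option autoImplicit false

/-!
# Row MainC: triangles with two sides of ratio strictly between 1 and 2

Proof. Suppose `f` has no such motion. `exists_stat f` (`Pool/Agent/H58/ER/Mean.lean`) gives `E`; `stat_k` gives `k`, and
`k (dist z1 z2) = k (dist z1 z3) = -1/3`. `dec` gives `kc` (`hdec` for `samp`). `d1 = dist z1 z2`, `d2 = dist z1 z3`, `par_exists`: `τ1, τ2`.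
`samp` with `m = 5`, `P = typ d1 d2 τ1 τ2` (`hP` from `typ_dist` and `kc r = k r` for `r > 0`). `lim_exists` (`typ_ne`), `sgn_exists`, `glob`.
-/


namespace Pool.Agent.H93.EG

open Pool.Agent.H58.ER

theorem main_c (z1 z2 z3 : ℂ) (h12 : z1 ≠ z2) (h23 : z2 ≠ z3) (h31 : z3 ≠ z1)
    (hlt : ‖z1 - z2‖ < ‖z3 - z1‖) (hlt2 : ‖z3 - z1‖ < 2 * ‖z1 - z2‖) (f : ℂ → Bool) :
    ∃ θ w : ℂ, ‖θ‖ = 1 ∧ f (θ * z1 + w) = f (θ * z2 + w) ∧
      f (θ * z2 + w) = f (θ * z3 + w) := by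
  by_contra hcon
  obtain ⟨E, hE⟩ := exists_stat f
  obtain ⟨k, hk, hPD, -, -, htri⟩ := stat_k f E hE
  obtain ⟨k1, -, k3⟩ := htri z1 z2 z3 (fun θ w hθ hh => hcon ⟨θ, w, hθ, hh.1, hh.2⟩) h12 h23 h31
  obtain ⟨kc, hc, hkc, hdec⟩ := dec k hPD
  set d1 := ‖z1 - z2‖ with hd1
  set d2 := ‖z3 - z1‖ with hd2
  have hpos : 0 < d1 := norm_pos_iff.mpr (sub_ne_zero.mpr h12)
  obtain ⟨τ1, τ2, hpar⟩ := par_exists d1 d2 hpos hlt hlt2
  have key : ∀ d : ℝ, (d = d1 ∨ d = d2) → kc d = -1 / 3 := by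
    rintro d (rfl | rfl)
    · rw [hkc _ hpos, k1]
    · rw [hkc _ (hpos.trans hlt), k3]
  have hP : ∀ i : Fin 5, kc ‖(typ d1 d2 τ1 τ2 i).1‖ = -1 / 3 ∧
      kc ‖(typ d1 d2 τ1 τ2 i).2‖ = -1 / 3 ∧
      kc ‖(typ d1 d2 τ1 τ2 i).1 - (typ d1 d2 τ1 τ2 i).2‖ = -1 / 3 := by
    intro i
    obtain ⟨a, b, c'⟩ := typ_dist d1 d2 τ1 τ2 hpar i
    exact ⟨key _ a, key _ b, key _ c'⟩
  obtain ⟨G, hG, hb, h0⟩ := lim_exists 5 (typ d1 d2 τ1 τ2) (typ_ne d1 d2 τ1 τ2 hpar)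
    (fun L hL ε hε => samp f E hE k kc hk hc hdec 5 (typ d1 d2 τ1 τ2) hP L hL ε hε)
  obtain ⟨F, hF⟩ := sgn_exists d1 d2 τ1 τ2 hpar G hG hb h0
  exact glob d1 d2 τ1 τ2 hpar F hF

end Pool.Agent.H93.EG

/-!
# Row MainP: the plane theorem

`main_d` : every non-equilateral triple (collinear or with equal points allowed) `z1 z2 z3` of complex numbers has a monochromatic direct copy.
Proof. Let `a = ‖z1 - z2‖`, `b = ‖z2 - z3‖`, `c = ‖z3 - z1‖`. The statement is symmetric in the three points. If two different ones among `a, b, c` satisfy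
`x < y < 2 x` then (all positive, points distinct: if two points coincide then the other two distances are equal and the third is 0, so this does not
occur) `main_c` after a permutation. Otherwise sort: `a ≤ b ≤ c` (WLOG), not all equal. If the triple is not covered: `b ≥ 2 a` or `b = a`; `c ≥ 2 b` or `c = b`; `c ≤ a + b`.
`b = a`, `c = b` excluded (equilateral); `b = a`, `c ≥ 2 b = a + b`, so `c = a + b`: collinear. `b ≥ 2 a`: (`a = 0` included). In all cases use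
`Pool.Agent.H58.ER.main_complex f u v` (it needs `‖u‖ ^ 2 / 4 ≤ rad u v ∨ …`, see `Pool/Agent/H58/ER/Main.lean`): conclusion
`∃ θ w, ‖θ‖ = 1 ∧ f w = f (θ * u + w) ∧ f w = f (θ * v + w)`. The regions are computed in `Pool/Agent/Results/MP_819c64_co/MostTriangles.lean`
(`reg_obtuse`: `inner u v ≤ 0`; `reg_small`: `inner u v = k ‖u‖ ‖v‖` with `0.764 ≤ k ≤ 1`) — copy these two lemmas here (do NOT import that file, it will be
removed). Case `b ≥ 2 a`: the angle between the sides `b` and `c` has `cos = (b² + c² - a²) / (2 b c)`; with `a ≤ b / 2 ≤ c / 2`: `cos ≥ √3 / 2 ≥ 0.764`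
(`b² + c² - a² ≥ b² + c² - b²/4 = 3/4 b² + c² ≥ √3 b c`). Case `c = a + b`: `cos = ((b² + (a+b)² - a²) / (2 b (a + b)) = 1` (if `b > 0`; if
`b = 0` then `a = 0` and all equal). So in both cases `reg_small` with `u`, `v` the two longer sides from their common vertex.
-/


namespace Pool.Agent.H93.EG

open Pool.Agent.H58.ER

private theorem mp_cross_sq (u v : ℂ) : |u.re * v.im - u.im * v.re| ^ 2 =
    ‖u‖ ^ 2 * ‖v‖ ^ 2 - (inner ℝ u v) ^ 2 := by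
  rw [sq_abs, nsq, nsq, Complex.inner]
  simp
  ring

private theorem mp_norm_sub_sq (u v : ℂ) :
    ‖u - v‖ ^ 2 = ‖u‖ ^ 2 + ‖v‖ ^ 2 - 2 * inner ℝ u v := by
  rw [norm_sub_sq_real]; ring

/-- Condition for a small angle between `u` and `v`. -/
private theorem mp_small (u v : ℂ) (hk : 0.764 * (‖u‖ * ‖v‖) ≤ inner ℝ u v) :
    ‖u‖ ^ 2 / 4 ≤ rad u v ∨ ‖v‖ ^ 2 / 4 ≤ rad u v ∨ ‖u - v‖ ^ 2 / 4 ≤ rad u v := by
  right; right
  have h1 := mp_cross_sq u v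
  have h2 := mp_norm_sub_sq u v
  have hI : inner ℝ u v ≤ ‖u‖ * ‖v‖ := real_inner_le_norm u v
  have hu := norm_nonneg u
  have hv := norm_nonneg v
  have hx := abs_nonneg (u.re * v.im - u.im * v.re)
  have hs := Real.sqrt_nonneg 3
  have hpq : 0 ≤ ‖u‖ * ‖v‖ := by positivity
  set P := ‖u‖ * ‖v‖ with hP
  set I : ℝ := inner ℝ u v with hIdef
  have hle : Real.sqrt 3 * |u.re * v.im - u.im * v.re| ≤ (3 * P - I) / 2 := by
    refine abs_le_of_sq_le_sq' ?_ (by linarith) |>.2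
    rw [mul_pow, h1, Real.sq_sqrt (by norm_num : (0 : ℝ) ≤ 3), ← mul_pow, ← hP]
    nlinarith [mul_nonneg (sub_nonneg.mpr hk) hpq, mul_nonneg (sub_nonneg.mpr hk) (sub_nonneg.mpr hk)]
  unfold rad
  rw [h2]
  nlinarith [sq_nonneg (‖u‖ - ‖v‖)]

/-- The property of `main_d`. -/
private def MPP (f : ℂ → Bool) (z1 z2 z3 : ℂ) : Prop :=
  ∃ θ w : ℂ, ‖θ‖ = 1 ∧ f (θ * z1 + w) = f (θ * z2 + w) ∧
      f (θ * z2 + w) = f (θ * z3 + w)

private theorem mpp_swap12 {f : ℂ → Bool} {z1 z2 z3 : ℂ} (h : MPP f z1 z2 z3) : MPP f z2 z1 z3 := by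
  obtain ⟨θ, w, hθ, h1, h2⟩ := h
  exact ⟨θ, w, hθ, h1.symm, h1.trans h2⟩

private theorem mpp_rot {f : ℂ → Bool} {z1 z2 z3 : ℂ} (h : MPP f z1 z2 z3) : MPP f z2 z3 z1 := by
  obtain ⟨θ, w, hθ, h1, h2⟩ := h
  exact ⟨θ, w, hθ, h2, (h1.trans h2).symm⟩

private theorem mp_angle (f : ℂ → Bool) (z1 z2 z3 : ℂ)
    (h : 0.764 * (‖z2 - z3‖ * ‖z3 - z1‖) ≤
      (‖z2 - z3‖ ^ 2 + ‖z3 - z1‖ ^ 2 - ‖z1 - z2‖ ^ 2) / 2) : MPP f z1 z2 z3 := by
  have h2 := mp_norm_sub_sq (z2 - z3) (z1 - z3)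
  have e1 : z2 - z3 - (z1 - z3) = -(z1 - z2) := by ring
  rw [e1, norm_neg, norm_sub_rev z1 z3] at h2
  obtain ⟨θ, w, hθ, h3, h4⟩ := main_complex f (z2 - z3) (z1 - z3) (mp_small _ _ (by
    rw [norm_sub_rev z1 z3]
    linarith))
  refine ⟨θ, w - θ * z3, hθ, ?_, ?_⟩
  · have e2 : θ * z1 + (w - θ * z3) = θ * (z1 - z3) + w := by ring
    have e3 : θ * z2 + (w - θ * z3) = θ * (z2 - z3) + w := by ring
    rw [e2, e3, ← h3, ← h4]
  · have e3 : θ * z2 + (w - θ * z3) = θ * (z2 - z3) + w := by ring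
    have e4 : θ * z3 + (w - θ * z3) = w := by ring
    rw [e3, e4, ← h3]

private theorem mp_ratio (f : ℂ → Bool) (z1 z2 z3 : ℂ) (hlt : ‖z1 - z2‖ < ‖z3 - z1‖)
    (hlt2 : ‖z3 - z1‖ < 2 * ‖z1 - z2‖) : MPP f z1 z2 z3 := by
  have h12 : z1 ≠ z2 := by
    rintro rfl
    simp only [sub_self, norm_zero, mul_zero] at hlt hlt2
    linarith
  have h31 : z3 ≠ z1 := by
    rintro rfl
    simp only [sub_self, norm_zero] at hlt
    linarith [norm_nonneg (z3 - z2)]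
  have h23 : z2 ≠ z3 := by
    rintro rfl
    rw [norm_sub_rev] at hlt
    exact lt_irrefl _ hlt
  exact main_c z1 z2 z3 h12 h23 h31 hlt hlt2 f

private theorem mp_sorted (f : ℂ → Bool) (z1 z2 z3 : ℂ)
    (hne : ¬ (‖z1 - z2‖ = ‖z2 - z3‖ ∧ ‖z2 - z3‖ = ‖z3 - z1‖))
    (hab : ‖z1 - z2‖ ≤ ‖z2 - z3‖) (hbc : ‖z2 - z3‖ ≤ ‖z3 - z1‖) : MPP f z1 z2 z3 := by
  have ha := norm_nonneg (z1 - z2)
  have hb := norm_nonneg (z2 - z3)
  have htri : ‖z3 - z1‖ ≤ ‖z1 - z2‖ + ‖z2 - z3‖ := by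
    have e1 : z3 - z1 = -((z1 - z2) + (z2 - z3)) := by ring
    rw [e1, norm_neg]
    exact norm_add_le _ _
  rcases lt_or_ge ‖z2 - z3‖ (2 * ‖z1 - z2‖) with h1 | h1
  · rcases hab.lt_or_eq with h2 | h2
    · -- vertex z2
      refine mpp_swap12 (mp_ratio f z2 z1 z3 ?_ ?_)
      · rw [norm_sub_rev z2 z1, norm_sub_rev z3 z2]; exact h2
      · rw [norm_sub_rev z2 z1, norm_sub_rev z3 z2]; exact h1
    · have h3 : ‖z2 - z3‖ < ‖z3 - z1‖ := lt_of_le_of_ne hbc fun h => hne ⟨h2, h⟩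
      rcases lt_or_ge ‖z3 - z1‖ (2 * ‖z2 - z3‖) with h4 | h4
      · -- vertex z3
        have h5 : MPP f z3 z2 z1 := by
          refine mp_ratio f z3 z2 z1 ?_ ?_
          · rw [norm_sub_rev z3 z2, norm_sub_rev z1 z3]; exact h3
          · rw [norm_sub_rev z3 z2, norm_sub_rev z1 z3]; exact h4
        exact mpp_swap12 (mpp_rot h5)
      · refine mp_angle f z1 z2 z3 ?_
        have h5 : ‖z3 - z1‖ = 2 * ‖z2 - z3‖ := le_antisymm (by linarith) h4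
        rw [h5, h2]
        nlinarith [sq_nonneg ‖z2 - z3‖]
  · refine mp_angle f z1 z2 z3 ?_
    nlinarith [sq_nonneg (‖z2 - z3‖ - ‖z3 - z1‖), mul_nonneg hb (sub_nonneg.mpr hbc),
      mul_nonneg ha (sub_nonneg.mpr h1), mul_nonneg hb (sub_nonneg.mpr h1),
      sq_nonneg (3 * ‖z2 - z3‖ - 3.464 * ‖z3 - z1‖ * 1)]

theorem main_d (z1 z2 z3 : ℂ) (hne : ¬ (‖z1 - z2‖ = ‖z2 - z3‖ ∧ ‖z2 - z3‖ = ‖z3 - z1‖))
    (f : ℂ → Bool) :
    ∃ θ w : ℂ, ‖θ‖ = 1 ∧ f (θ * z1 + w) = f (θ * z2 + w) ∧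
      f (θ * z2 + w) = f (θ * z3 + w) := by
  have key : ∀ w1 w2 w3 : ℂ, ¬ (‖w1 - w2‖ = ‖w2 - w3‖ ∧ ‖w2 - w3‖ = ‖w3 - w1‖) →
      ‖w1 - w2‖ ≤ ‖w2 - w3‖ → ‖w2 - w3‖ ≤ ‖w3 - w1‖ → MPP f w1 w2 w3 := fun w1 w2 w3 h1 h2 h3 =>
    mp_sorted f w1 w2 w3 h1 h2 h3
  have r12 := norm_sub_rev z1 z2
  have r23 := norm_sub_rev z2 z3
  have r31 := norm_sub_rev z3 z1
  show MPP f z1 z2 z3
  rcases le_total ‖z1 - z2‖ ‖z2 - z3‖ with hab | hab <;>
  rcases le_total ‖z2 - z3‖ ‖z3 - z1‖ with hbc | hbc <;>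
  rcases le_total ‖z3 - z1‖ ‖z1 - z2‖ with hca | hca
  · exact key z1 z2 z3 hne hab hbc
  · exact key z1 z2 z3 hne hab hbc
  · -- c ≤ a ≤ b : (z3, z1, z2)
    exact mpp_rot (key z3 z1 z2 (fun h => hne ⟨h.2, (h.1.trans h.2).symm⟩) hca hab)
  · -- a ≤ c ≤ b : (z2, z1, z3)
    refine mpp_swap12 (key z2 z1 z3 (fun h => hne ?_) ?_ ?_)
    · rw [← r12, ← r31, ← r23] at h
      exact ⟨h.1.trans h.2, h.2.symm⟩
    · rw [← r12, ← r31]; exact hca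
    · rw [← r31, ← r23]; exact hbc
  · -- b ≤ c ≤ a : (z2, z3, z1)
    exact mpp_rot (mpp_rot (key z2 z3 z1 (fun h => hne ⟨(h.1.trans h.2).symm, h.1⟩) hbc hca))
  · -- b ≤ a ≤ c
    have h : MPP f z3 z2 z1 := by
      refine key z3 z2 z1 (fun h => hne ?_) ?_ ?_
      · rw [← r23, ← r12, ← r31] at h
        exact ⟨h.1.symm, h.1.trans h.2⟩
      · rw [← r23, ← r12]; exact hab
      · rw [← r12, ← r31]
        exact hca
    exact mpp_swap12 (mpp_rot h)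
  · -- c ≤ b ≤ a : (z1, z3, z2)
    have h : MPP f z1 z3 z2 := by
      refine key z1 z3 z2 (fun h => hne ?_) ?_ ?_
      · rw [← r31, ← r23, ← r12] at h
        exact ⟨h.2.symm, h.1.symm⟩
      · rw [← r31, ← r23]; exact hbc
      · rw [← r23, ← r12]; exact hab
    exact mpp_swap12 (mpp_rot (mpp_rot h))
  · have h : MPP f z1 z3 z2 := by
      refine key z1 z3 z2 (fun h => hne ?_) ?_ ?_
      · rw [← r31, ← r23, ← r12] at h
        exact ⟨h.2.symm, h.1.symm⟩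
      · rw [← r31, ← r23]; exact hbc
      · rw [← r23, ← r12]; exact hab
    exact mpp_swap12 (mpp_rot (mpp_rot h))

end Pool.Agent.H93.EG
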