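import Pool.Agent.H93.EGM.Hilb

set_option autoImplicit false

/-!
# Row NullA: null sets and circles, first part

`nullA`: for fixed `t` the map `x ↦ x + c t * p` is a translation (`measure_preimage_add_right`); use `Measure.measure_prod_null` with the roles of the factors
exchanged (`Measure.prod_swap`), or `MeasurePreserving.skew_product` (for `(t, x) ↦ (t, x + c t p)`) composed with `snd`.
`null_cos`: on each of the countably many intervals `(k π, (k+1) π)`: after translation by `k π` (`cos (x + k π) = ± cos x`) it is enough to treat `(0, π)`: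
`{θ ∈ (0,π) | cos θ ∈ Z} ⊆ arccos '' (Z ∩ Ioo (-1) 1)`, and the image of a null set under a function differentiable on it is null
(`MeasureTheory.addHaar_image_eq_zero_of_differentiableOn_of_addHaar_eq_zero`; `arccos` is differentiable on `(-1,1)`). The end points are countably many.
`null_radii`: enlarge `N` to a measurable null set; polar coordinates (`Complex.lintegral_comp_polarCoord_symm` or
`Complex.integral_comp_polarCoord_symm`): `0 = ∫⁻ 1_N = ∫⁻_{r > 0} ∫⁻_{θ ∈ (-π, π)} r 1_N (r e^{iθ})`, so for a.e. `r > 0` for a.e. `θ`, `r e^{iθ} ∉ N`; transfer from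
`θ ∈ (-π, π)` to `t ∈ UnitAddCircle` by `θ = 2 π x` (`c_coe`; `AddCircle.measurePreserving_mk`, `UnitAddCircle` has volume 1; scaling by `2 π`).
-/


namespace Pool.Agent.H93.EG

open MeasureTheory

theorem nullA (p : ℂ) : Measure.QuasiMeasurePreserving
    (fun xt : ℂ × UnitAddCircle => xt.1 + c xt.2 * p) volume volume := by
  have hm : Measurable (fun xt : ℂ × UnitAddCircle => xt.1 + c xt.2 * p) :=
    measurable_fst.add ((measurable_c.comp measurable_snd).mul_const p)
  refine ⟨hm, Measure.AbsolutelyContinuous.mk fun s hs h0 => ?_⟩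
  rw [Measure.map_apply hm hs]
  show ((volume : Measure ℂ).prod (volume : Measure UnitAddCircle)) _ = 0
  rw [Measure.prod_apply_symm (hm hs)]
  refine (lintegral_congr fun t => ?_).trans lintegral_zero
  show volume ((fun x : ℂ => x + c t * p) ⁻¹' s) = 0
  rw [measure_preimage_add_right, h0]

/-- the part in one open interval -/
private theorem null_cos_aux (Z : Set ℝ) (hZ : volume Z = 0) :
    volume {θ : ℝ | θ ∈ Set.Ioo 0 Real.pi ∧ Real.cos θ ∈ Z} = 0 := by
  refine measure_mono_null (t := Real.arccos '' (Z ∩ Set.Ioo (-1) 1)) ?_ ?_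
  · rintro θ ⟨h1, h2⟩
    refine ⟨Real.cos θ, ⟨h2, ?_, ?_⟩, Real.arccos_cos h1.1.le h1.2.le⟩
    · rw [← Real.cos_pi]
      exact Real.cos_lt_cos_of_nonneg_of_le_pi h1.1.le le_rfl h1.2
    · rw [← Real.cos_zero]
      exact Real.cos_lt_cos_of_nonneg_of_le_pi le_rfl h1.2.le h1.1
  · refine addHaar_image_eq_zero_of_differentiableOn_of_addHaar_eq_zero volume ?_
      (measure_mono_null Set.inter_subset_left hZ)
    intro x hx
    exact (Real.differentiableAt_arccos.2 ⟨hx.2.1.ne', hx.2.2.ne⟩).differentiableWithinAt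

/-- Null sets of `ℝ` pull back under `cos` to null sets. -/
theorem null_cos (Z : Set ℝ) (hZ : volume Z = 0) : volume (Real.cos ⁻¹' Z) = 0 := by
  have hZ' : volume ((fun x : ℝ => -x) ⁻¹' Z) = 0 := by
    have := Measure.measure_preimage_neg (volume : Measure ℝ) Z
    exact this.trans hZ
  have key : ∀ k : ℤ, volume {θ : ℝ | θ ∈ Set.Ioo (k * Real.pi) ((k + 1) * Real.pi) ∧
      Real.cos θ ∈ Z} = 0 := by
    intro k
    rw [← measure_preimage_add_right volume (k * Real.pi)]
    rcases Int.even_or_odd k with hk | hk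
    · refine measure_mono_null ?_ (null_cos_aux Z hZ)
      rintro θ ⟨h1, h2⟩
      have h3 : Real.cos (θ + k * Real.pi) = Real.cos θ := by
        rw [Real.cos_add_int_mul_pi, hk.neg_one_zpow, one_mul]
      have h2' : Real.cos (θ + k * Real.pi) ∈ Z := h2
      rw [h3] at h2'
      refine ⟨⟨?_, ?_⟩, h2'⟩
      · linarith [h1.1]
      · linarith [h1.2]
    · refine measure_mono_null ?_ (null_cos_aux _ hZ')
      rintro θ ⟨h1, h2⟩
      have h3 : Real.cos (θ + k * Real.pi) = -Real.cos θ := by
        rw [Real.cos_add_int_mul_pi, hk.neg_one_zpow, neg_one_mul]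
      have h2' : Real.cos (θ + k * Real.pi) ∈ Z := h2
      rw [h3] at h2'
      refine ⟨⟨?_, ?_⟩, h2'⟩
      · linarith [h1.1]
      · linarith [h1.2]
  have hcount : volume (Set.range fun k : ℤ => (k : ℝ) * Real.pi) = 0 :=
    (Set.countable_range _).measure_zero volume
  refine measure_mono_null (t := (⋃ k : ℤ, {θ : ℝ | θ ∈ Set.Ioo (k * Real.pi) ((k + 1) * Real.pi) ∧
      Real.cos θ ∈ Z}) ∪ Set.range fun k : ℤ => (k : ℝ) * Real.pi) ?_
      (measure_union_null (measure_iUnion_null key) hcount)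
  intro θ hθ
  have hpi := Real.pi_pos
  by_cases h : θ = (⌊θ / Real.pi⌋ : ℝ) * Real.pi
  · exact Or.inr ⟨⌊θ / Real.pi⌋, h.symm⟩
  · left
    refine Set.mem_iUnion.2 ⟨⌊θ / Real.pi⌋, ⟨?_, ?_⟩, hθ⟩
    · have h1 := Int.floor_le (θ / Real.pi)
      rw [le_div_iff₀ hpi] at h1
      exact lt_of_le_of_ne h1 (Ne.symm h)
    · have h1 := Int.lt_floor_add_one (θ / Real.pi)
      rwa [div_lt_iff₀ hpi] at h1

/-- Almost every circle around zero misses a null set almost everywhere. -/
theorem null_radii (N : Set ℂ) (hN : volume N = 0) :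
    ∀ᵐ r : ℝ, 0 < r → ∀ᵐ t : UnitAddCircle, c t * (r : ℂ) ∉ N := by
  set N' := toMeasurable volume N with hN'
  have hN'm : MeasurableSet N' := measurableSet_toMeasurable _ _
  have hN'0 : volume N' = 0 := (measure_toMeasurable N).trans hN
  have hsub : N ⊆ N' := subset_toMeasurable _ _
  have h1 := Complex.lintegral_comp_polarCoord_symm (N'.indicator (1 : ℂ → ENNReal))
  rw [lintegral_indicator_one hN'm, hN'0] at h1
  have hmeas : Measurable fun p : ℝ × ℝ => ENNReal.ofReal p.1 •
      N'.indicator (1 : ℂ → ENNReal) (Complex.polarCoord.symm p) := by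
    have h2 : Measurable fun p : ℝ × ℝ => Complex.polarCoord.symm p := by
      have : (fun p : ℝ × ℝ => Complex.polarCoord.symm p) =
          fun p : ℝ × ℝ => (p.1 : ℂ) * (Real.cos p.2 + Real.sin p.2 * Complex.I) := by
        funext p
        exact Complex.polarCoord_symm_apply p
      rw [this]
      fun_prop
    exact (ENNReal.measurable_ofReal.comp measurable_fst).smul
      ((measurable_one.indicator hN'm).comp h2)
  rw [lintegral_eq_zero_iff hmeas] at h1
  have h3 : (volume : Measure (ℝ × ℝ)).restrict polarCoord.target =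
      ((volume : Measure ℝ).restrict (Set.Ioi 0)).prod
        ((volume : Measure ℝ).restrict (Set.Ioo (-Real.pi) Real.pi)) := by
    rw [Measure.prod_restrict]
    rfl
  rw [h3] at h1
  have h4 := Measure.ae_ae_of_ae_prod h1
  rw [ae_restrict_iff' measurableSet_Ioi] at h4
  filter_upwards [h4] with r hr hr0
  have h5 := hr hr0
  rw [ae_restrict_iff' measurableSet_Ioo] at h5
  -- pass to the circle
  have h6 : ∀ᵐ x : ℝ ∂(volume.restrict (Set.Ioc (-(1 / 2) : ℝ) (-(1 / 2) + 1))),
      c (x : UnitAddCircle) * (r : ℂ) ∉ N' := by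
    rw [ae_restrict_iff' measurableSet_Ioc]
    have h7 : ∀ᵐ x : ℝ, (2 * Real.pi * x ∈ Set.Ioo (-Real.pi) Real.pi →
        (fun y : ℝ × ℝ => ENNReal.ofReal y.1 •
          N'.indicator (1 : ℂ → ENNReal) (Complex.polarCoord.symm y)) (r, 2 * Real.pi * x) =
          (0 : ℝ × ℝ → ENNReal) (r, 2 * Real.pi * x)) := by
      have h8 : Measure.QuasiMeasurePreserving (fun x : ℝ => 2 * Real.pi * x) volume volume := by
        refine ⟨measurable_const_mul _, Measure.AbsolutelyContinuous.mk fun s hs h0 => ?_⟩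
        rw [Measure.map_apply (measurable_const_mul _) hs,
          Real.volume_preimage_mul_left (by positivity), h0, mul_zero]
      exact h8.ae h5
    have h9 : ∀ᵐ x : ℝ, x ≠ (1 / 2 : ℝ) := by
      rw [ae_iff]
      simp
    filter_upwards [h7, h9] with x hx hx2 hxm hmem
    have hpi := Real.pi_pos
    have hlt : x < 1 / 2 := lt_of_le_of_ne (by linarith [hxm.2]) hx2
    have h10 := hx ⟨by nlinarith [hxm.1], by nlinarith⟩
    have h11 : Complex.polarCoord.symm (r, 2 * Real.pi * x) = c (x : UnitAddCircle) * (r : ℂ) := by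
      rw [Complex.polarCoord_symm_apply, c_coe, mul_comm]
      congr 1
      show (Real.cos (2 * Real.pi * x) : ℂ) + (Real.sin (2 * Real.pi * x) : ℂ) * Complex.I = _
      rw [Complex.ofReal_cos, Complex.ofReal_sin, ← Complex.exp_mul_I]
      congr 1
      push_cast
      ring
    simp only [h11, Pi.zero_apply, smul_eq_mul, Set.indicator_of_mem hmem, Pi.one_apply,
      mul_one, ENNReal.ofReal_eq_zero] at h10
    have : (0 : ℝ) < r := hr0
    linarith
  have h12 := AddCircle.measurePreserving_mk (1 : ℝ) (-(1 / 2))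
  have h13 : ∀ᵐ t : UnitAddCircle, c t * (r : ℂ) ∉ N' := by
    rw [← h12.map_eq]
    refine (ae_map_iff h12.measurable.aemeasurable ?_).2 h6
    exact ((measurable_c.mul_const _) hN'm).compl
  filter_upwards [h13] with t ht h
  exact ht (hsub h)

end Pool.Agent.H93.EG

/-!
# Row NullB: null sets and circles

(1) `nullA`: `(x, t) ↦ x + c t * p` is quasi measure preserving: for fixed `t` it is a translation (`measure_preimage_add_right`),
`Measure.measure_prod_null` / `MeasurePreserving.skew_product`-style.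
(2) `nullB`: `(s, t) ↦ c s * p + c t * q` (`p, q ≠ 0`) is quasi measure preserving. Proof: let `N` be a measurable null set. Write `s = u + t`
(measure preserving change of variables `(u, t) ↦ (u + t, t)`): the point is `c t * z u`, `z u := c u * p + q`. Fix `u` with `z u ≠ 0`. The set
`{t | c t * z ∈ N}` has measure `n ‖z‖` where `n r := volume {t | c t * r ∈ N}` (`z = ‖z‖ c t0`, translation invariance in `t`).
Polar coordinates (`Complex.polarCoord`, `Complex.lintegral_comp_polarCoord_symm`): `0 = volume N = ∫_{r>0} r ∫_θ 1_N(r e^{iθ})`, so `n r = 0` for a.e. `r > 0`: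
let `Z` be the null set of bad radii `r`. Then `u ↦ ‖z u‖` pulls back `Z` to a null set: with `u = x` real in `[0,1)` and `p / q = ρ e^{iα}`,
`‖z u‖^2 = |p|^2 + |q|^2 + 2 |p| |q| cos (2 π x + α)`; it is enough that `cos` pulls back null sets to null sets: on each of the countably many
intervals `(k π, (k+1) π)` `cos` is injective with inverse differentiable (`arccos`, or: the image of a null set under a differentiable map is
null: `MeasureTheory.addHaar_image_eq_zero_of_differentiableOn_of_addHaar_eq_zero`; `{θ ∈ (0,π) | cos θ ∈ Z'} ⊆ arccos '' (Z' ∩ (-1,1))`, and `arccos` is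
differentiable on `(-1,1)`). Also `r ↦ r^2` pulls back / pushes forward null sets of `(0,∞)`.

(The Lean proof below uses the inverse function theorem and the area formula instead.)
-/


namespace Pool.Agent.H93.EG

open MeasureTheory

/-- The preimage of a null set under a map whose derivative is almost everywhere invertible is
null. -/
private theorem nullB_pre {E : Type*} [NormedAddCommGroup E] [NormedSpace ℝ E]
    [FiniteDimensional ℝ E] [MeasurableSpace E] [BorelSpace E] (μ : Measure E) [μ.IsAddHaarMeasure]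
    (f : E → E) (f' : E → E →L[ℝ] E) (hf : ∀ x, HasStrictFDerivAt f (f' x) x)
    (hZ : μ {x | (f' x).det = 0} = 0) (N : Set E) (hNm : MeasurableSet N) (hN : μ N = 0) :
    μ (f ⁻¹' N) = 0 := by
  have hfc : Continuous f := continuous_iff_continuousAt.2 fun x => (hf x).continuousAt
  have h1 : f ⁻¹' N ⊆ {x | (f' x).det = 0} ∪ (f ⁻¹' N ∩ {x | (f' x).det ≠ 0}) := by
    intro x hx
    by_cases h : (f' x).det = 0
    · exact Or.inl h
    · exact Or.inr ⟨hx, h⟩
  refine measure_mono_null h1 (measure_union_null hZ ?_)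
  apply measure_null_of_locally_null
  rintro x ⟨hx, hd⟩
  have hs : HasStrictFDerivAt f
      (((f' x).toContinuousLinearEquivOfDetNeZero hd : E ≃L[ℝ] E) : E →L[ℝ] E) x := by
    rw [ContinuousLinearMap.coe_toContinuousLinearEquivOfDetNeZero]
    exact hf x
  let φ := hs.toOpenPartialHomeomorph f
  have hxs : x ∈ φ.source := hs.mem_toOpenPartialHomeomorph_source
  refine ⟨φ.source ∩ f ⁻¹' N, ?_, ?_⟩
  · refine Filter.mem_of_superset (Filter.inter_mem
      (mem_nhdsWithin_of_mem_nhds (φ.open_source.mem_nhds hxs)) self_mem_nhdsWithin) ?_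
    rintro y ⟨hy1, hy2, -⟩
    exact ⟨hy1, hy2⟩
  · have hinj : Set.InjOn f (φ.source ∩ f ⁻¹' N) := fun a ha b hb hab =>
      φ.injOn ha.1 hb.1 hab
    have hm : MeasurableSet (φ.source ∩ f ⁻¹' N) :=
      φ.open_source.measurableSet.inter (hfc.measurable hNm)
    have key := lintegral_abs_det_fderiv_eq_addHaar_image μ hm
      (fun y _ => (hf y).hasFDerivAt.hasFDerivWithinAt) hinj
    have h0 : μ (f '' (φ.source ∩ f ⁻¹' N)) = 0 := by
      refine measure_mono_null ?_ hN
      rintro _ ⟨y, hy, rfl⟩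
      exact hy.2
    rw [h0] at key
    have hae := aemeasurable_ofReal_abs_det_fderivWithin μ hm
      (fun y _ => (hf y).hasFDerivAt.hasFDerivWithinAt)
    have h2 := (lintegral_eq_zero_iff' hae).1 key
    have h3 : ∀ᵐ y ∂(μ.restrict (φ.source ∩ f ⁻¹' N)), (f' y).det ≠ 0 := by
      apply ae_restrict_of_ae
      rw [ae_iff]
      simpa using hZ
    have h4 : ∀ᵐ y ∂(μ.restrict (φ.source ∩ f ⁻¹' N)), False := by
      filter_upwards [h2, h3] with y hy1 hy2
      simp only [Pi.zero_apply, ENNReal.ofReal_eq_zero, abs_nonpos_iff] at hy1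
      exact hy2 hy1
    rw [ae_iff] at h4
    simpa using h4

/-- the map in real coordinates -/
private noncomputable def nullB_f (p q : ℂ) (z : ℂ) : ℂ :=
  Complex.exp (2 * Real.pi * z.re * Complex.I) * p + Complex.exp (2 * Real.pi * z.im * Complex.I) * q

/-- its derivative -/
private noncomputable def nullB_d (p q : ℂ) (z : ℂ) : ℂ →L[ℝ] ℂ :=
  Complex.reCLM.smulRight (Complex.exp (2 * Real.pi * z.re * Complex.I) * (2 * Real.pi * Complex.I) * p) +
    Complex.imCLM.smulRight (Complex.exp (2 * Real.pi * z.im * Complex.I) * (2 * Real.pi * Complex.I) * q)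

private theorem nullB_der1 (p : ℂ) (x : ℝ) :
    HasStrictDerivAt (fun t : ℝ => Complex.exp (2 * Real.pi * t * Complex.I) * p)
      (Complex.exp (2 * Real.pi * x * Complex.I) * (2 * Real.pi * Complex.I) * p) x := by
  have h0 : HasStrictDerivAt (fun t : ℝ => (t : ℂ)) 1 x := by
    have h : HasStrictDerivAt (fun t : ℝ => Complex.ofRealCLM t) (Complex.ofRealCLM 1) x :=
      Complex.ofRealCLM.hasStrictDerivAt (x := x)
    simp only [Complex.ofRealCLM_apply, Complex.ofReal_one] at h
    exact h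
  have h1 : HasStrictDerivAt (fun t : ℝ => 2 * Real.pi * (t : ℂ) * Complex.I)
      (2 * Real.pi * Complex.I) x := by
    have := (h0.const_mul (2 * Real.pi : ℂ)).mul_const Complex.I
    simpa using this
  exact h1.cexp.mul_const p

private theorem nullB_der (p q z : ℂ) : HasStrictFDerivAt (nullB_f p q) (nullB_d p q z) z := by
  have h1 := (nullB_der1 p z.re).hasStrictFDerivAt.comp z (Complex.reCLM.hasStrictFDerivAt (x := z))
  have h2 := (nullB_der1 q z.im).hasStrictFDerivAt.comp z (Complex.imCLM.hasStrictFDerivAt (x := z))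
  have h3 := h1.add h2
  refine h3.congr_fderiv ?_
  ext h
  all_goals simp [nullB_d]

private theorem nullB_det (p q z : ℂ) : (nullB_d p q z).det =
    ((Complex.exp (2 * Real.pi * z.re * Complex.I) * (2 * Real.pi * Complex.I) * p).re *
      (Complex.exp (2 * Real.pi * z.im * Complex.I) * (2 * Real.pi * Complex.I) * q).im -
    (Complex.exp (2 * Real.pi * z.im * Complex.I) * (2 * Real.pi * Complex.I) * q).re *
      (Complex.exp (2 * Real.pi * z.re * Complex.I) * (2 * Real.pi * Complex.I) * p).im) := by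
  unfold nullB_d
  rw [ContinuousLinearMap.det, ← LinearMap.det_toMatrix Complex.basisOneI, Matrix.det_fin_two]
  simp only [LinearMap.toMatrix_apply]
  simp

/-- for `w ≠ 0`, `w e^{2 π i y}` is real for countably many `y` only -/
private theorem nullB_cnt (w : ℂ) (hw : w ≠ 0) :
    {y : ℝ | (w * Complex.exp (2 * Real.pi * y * Complex.I)).im = 0}.Countable := by
  rcases Set.eq_empty_or_nonempty {y : ℝ | (w * Complex.exp (2 * Real.pi * y * Complex.I)).im = 0}
    with h | ⟨y0, hy0⟩
  · rw [h]; exact Set.countable_empty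
  · refine (Set.countable_range (fun k : ℤ => y0 + k / 2)).mono ?_
    intro y hy
    have e0 : (starRingEnd ℂ) (w * Complex.exp (2 * Real.pi * y0 * Complex.I)) =
        w * Complex.exp (2 * Real.pi * y0 * Complex.I) := Complex.conj_eq_iff_im.2 hy0
    have e1 : (starRingEnd ℂ) (w * Complex.exp (2 * Real.pi * y * Complex.I)) =
        w * Complex.exp (2 * Real.pi * y * Complex.I) := Complex.conj_eq_iff_im.2 hy
    have hc : ∀ t : ℝ, (starRingEnd ℂ) (Complex.exp (2 * Real.pi * t * Complex.I)) =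
        Complex.exp (-(2 * Real.pi * t * Complex.I)) := by
      intro t
      rw [← Complex.exp_conj]
      congr 1
      rw [map_mul, map_mul, map_mul, Complex.conj_ofReal, Complex.conj_ofReal, Complex.conj_I,
        map_ofNat]
      ring
    rw [map_mul, hc] at e0 e1
    have hcw : (starRingEnd ℂ) w ≠ 0 := by simpa using hw
    have e2 : Complex.exp (2 * (2 * Real.pi * y * Complex.I)) =
        Complex.exp (2 * (2 * Real.pi * y0 * Complex.I)) := by
      have a0 : Complex.exp (2 * (2 * Real.pi * y0 * Complex.I)) = (starRingEnd ℂ) w / w := by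
        rw [eq_div_iff hw, two_mul, Complex.exp_add]
        have := congrArg (fun u => u * Complex.exp (2 * Real.pi * y0 * Complex.I)) e0
        rw [mul_assoc, ← Complex.exp_add, neg_add_cancel, Complex.exp_zero, mul_one] at this
        rw [this]; ring
      have a1 : Complex.exp (2 * (2 * Real.pi * y * Complex.I)) = (starRingEnd ℂ) w / w := by
        rw [eq_div_iff hw, two_mul, Complex.exp_add]
        have := congrArg (fun u => u * Complex.exp (2 * Real.pi * y * Complex.I)) e1
        rw [mul_assoc, ← Complex.exp_add, neg_add_cancel, Complex.exp_zero, mul_one] at this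
        rw [this]; ring
      rw [a0, a1]
    rw [Complex.exp_eq_exp_iff_exists_int] at e2
    obtain ⟨k, hk⟩ := e2
    refine ⟨k, ?_⟩
    have h2 : (2 * Real.pi * Complex.I) * ((2 * y : ℝ) - (2 * y0 : ℝ) - (k : ℝ) : ℂ) = 0 := by
      push_cast
      linear_combination hk
    have h3 : (2 * Real.pi * Complex.I : ℂ) ≠ 0 := by
      simp [Real.pi_ne_zero, Complex.I_ne_zero]
    have h4 := (mul_eq_zero.1 h2).resolve_left h3
    have h5 : (2 * y : ℝ) - (2 * y0 : ℝ) - (k : ℝ) = 0 := by exact_mod_cast h4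
    simp only
    linarith

private theorem nullB_zero (p q : ℂ) (hp : p ≠ 0) (hq : q ≠ 0) :
    volume {z : ℂ | (nullB_d p q z).det = 0} = 0 := by
  have hm : MeasurableSet {z : ℂ | (nullB_d p q z).det = 0} := by
    simp only [nullB_det]
    apply measurableSet_eq_fun
    · apply Continuous.measurable
      fun_prop
    · exact measurable_const
  rw [← (Complex.volume_preserving_equiv_real_prod.symm).measure_preimage hm.nullMeasurableSet]
  have hm2 : MeasurableSet (Complex.measurableEquivRealProd.symm ⁻¹'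
      {z : ℂ | (nullB_d p q z).det = 0}) := Complex.measurableEquivRealProd.symm.measurable hm
  change (volume.prod volume : Measure (ℝ × ℝ)) _ = 0
  rw [Measure.measure_prod_null hm2]
  apply Filter.Eventually.of_forall
  intro x
  refine Set.Countable.measure_zero ?_ _
  have hA : (starRingEnd ℂ) (Complex.exp (2 * Real.pi * x * Complex.I) *
      (2 * Real.pi * Complex.I) * p) * ((2 * Real.pi * Complex.I) * q) ≠ 0 := by
    simp [Real.pi_ne_zero, Complex.I_ne_zero, hp, hq, Complex.exp_ne_zero]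
  refine (nullB_cnt _ hA).mono ?_
  intro y hy
  simp only [Set.mem_preimage, Set.mem_ofPred_eq, nullB_det] at hy ⊢
  have hre : (Complex.measurableEquivRealProd.symm (x, y)).re = x := rfl
  have him : (Complex.measurableEquivRealProd.symm (x, y)).im = y := rfl
  rw [hre, him] at hy
  have e : (starRingEnd ℂ) (Complex.exp (2 * Real.pi * x * Complex.I) *
      (2 * Real.pi * Complex.I) * p) * ((2 * Real.pi * Complex.I) * q) *
      Complex.exp (2 * Real.pi * y * Complex.I) =
      (starRingEnd ℂ) (Complex.exp (2 * Real.pi * x * Complex.I) *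
      (2 * Real.pi * Complex.I) * p) *
      (Complex.exp (2 * Real.pi * y * Complex.I) * (2 * Real.pi * Complex.I) * q) := by ring
  rw [e, Complex.mul_im, Complex.conj_re, Complex.conj_im]
  linarith

theorem nullB (p q : ℂ) (hp : p ≠ 0) (hq : q ≠ 0) : Measure.QuasiMeasurePreserving
    (fun st : UnitAddCircle × UnitAddCircle => c st.1 * p + c st.2 * q) volume volume := by
  have hcont : Continuous (fun st : UnitAddCircle × UnitAddCircle => c st.1 * p + c st.2 * q) :=
    ((continuous_c.comp continuous_fst).mul continuous_const).add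
      ((continuous_c.comp continuous_snd).mul continuous_const)
  refine ⟨hcont.measurable, Measure.AbsolutelyContinuous.mk ?_⟩
  intro N hNm hN
  rw [Measure.map_apply hcont.measurable hNm]
  have hmk := AddCircle.measurePreserving_mk 1 0
  have hprod := hmk.prod hmk
  have hpre : MeasurableSet ((fun st : UnitAddCircle × UnitAddCircle =>
      c st.1 * p + c st.2 * q) ⁻¹' N) := hcont.measurable hNm
  change (volume.prod volume : Measure (UnitAddCircle × UnitAddCircle)) _ = 0
  rw [← hprod.measure_preimage hpre.nullMeasurableSet, Measure.prod_restrict]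
  refine measure_mono_null (Set.Subset.refl _) (le_antisymm ((Measure.restrict_apply_le _ _).trans ?_) bot_le)
  have key := nullB_pre volume (nullB_f p q) (nullB_d p q) (nullB_der p q)
    (nullB_zero p q hp hq) N hNm hN
  rw [← (Complex.volume_preserving_equiv_real_prod.symm).measure_preimage_equiv] at key
  rw [← key]
  apply le_of_eq
  congr 1
  ext ⟨x, y⟩
  simp only [Set.mem_preimage, Prod.map_apply]
  have hre : (Complex.measurableEquivRealProd.symm (x, y)).re = x := rfl
  have him : (Complex.measurableEquivRealProd.symm (x, y)).im = y := rfl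
  unfold nullB_f
  rw [hre, him]
  have e1 := c_coe x
  have e2 := c_coe y
  rw [← e1, ← e2]

end Pool.Agent.H93.EG

/-!
# Row TransCont: (C1) translates of a bounded measurable function converge almost everywhere along a subsequence

Proof. Local `L¹` continuity of translations: for `R > 0` let `g := indicator (ball 0 (R + ‖x0‖ + 2)) G ∈ L¹`. The translation action on `Lp` is
continuous (Mathlib/MeasureTheory/Function/LpSpace/DomAct/Continuous.lean, `DomAddAct`/`DomMulAct` instance `ContinuousVAdd`/`ContinuousSMul` on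
`Lp E p μ`; or approximate `g` by compactly supported continuous functions, `MemLp.exists_hasCompactSupport_eLpNorm_sub_le`), so
`∫_{‖z‖ < R} |G (x n + z) - G (x0 + z)| → 0` as `n → ∞`. Choose `φ k` strictly increasing with
`∫⁻_{‖z‖ < k} |G (x (φ k) + z) - G (x0 + z)| ≤ 2^{-k}`; for every fixed `m`, `∑_k ∫⁻_{‖z‖ < m} |…|` is finite (terms `k ≥ m` are `≤ 2^{-k}`, the other
ones are finite), so the series `∑_k |G (x (φ k) + z) - G (x0 + z)|` is finite for a.e. `z` with `‖z‖ < m` (`lintegral_tsum`,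
`ae_lt_top`), hence its terms tend to zero (`ENNReal.tendsto_atTop_zero_of_tsum_ne_top`). Union over `m`.
(Alternative: `TendstoInMeasure` for a finite measure equivalent to Lebesgue and `TendstoInMeasure.exists_seq_tendsto_ae`.)
-/


namespace Pool.Agent.H93.EG

open MeasureTheory Filter Topology

theorem trans_lim (g : ℂ → ℝ) (hg : MemLp g 1 volume) (x : ℕ → ℂ) (x0 : ℂ)
    (hx : Tendsto x atTop (𝓝 x0)) :
    Tendsto (fun n => ∫⁻ z : ℂ, ‖g (x n + z) - g (x0 + z)‖ₑ) atTop (𝓝 0) := by
  have : Fact ((1 : ENNReal) ≠ ⊤) := ⟨ENNReal.one_ne_top⟩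
  have h1 : Tendsto (fun n => DomAddAct.mk (x n) +ᵥ hg.toLp g) atTop
      (𝓝 (DomAddAct.mk x0 +ᵥ hg.toLp g)) := by
    have hc : Continuous (fun a : ℂ => DomAddAct.mk a +ᵥ hg.toLp g) := by
      fun_prop
    exact (hc.tendsto x0).comp hx
  simp only [DomAddAct.mk_vadd_toLp] at h1
  rw [Lp.tendsto_Lp_iff_tendsto_eLpNorm''] at h1
  refine h1.congr (fun n => ?_)
  rw [eLpNorm_one_eq_lintegral_enorm]
  rfl

theorem trans_cont (G : ℂ → ℝ) (hG : Measurable G) (hb : ∀ x, |G x| ≤ 1) (x : ℕ → ℂ) (x0 : ℂ)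
    (hx : Tendsto x atTop (𝓝 x0)) :
    ∃ φ : ℕ → ℕ, StrictMono φ ∧
      ∀ᵐ z : ℂ, Tendsto (fun n => G (x (φ n) + z)) atTop (𝓝 (G (x0 + z))) := by
  obtain ⟨K0, hK0⟩ := (Metric.isBounded_range_of_tendsto x hx).exists_norm_le
  set K : ℝ := max K0 ‖x0‖ with hK
  have hKx : ∀ n, ‖x n‖ ≤ K := fun n => (hK0 _ ⟨n, rfl⟩).trans (le_max_left _ _)
  have hKx0 : ‖x0‖ ≤ K := le_max_right _ _
  let g : ℕ → ℂ → ℝ := fun k => (Metric.ball (0 : ℂ) (k + K + 1)).indicator G
  have hg : ∀ k, MemLp (g k) 1 volume := by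
    intro k
    rw [memLp_indicator_iff_restrict measurableSet_ball]
    have : IsFiniteMeasure ((volume : Measure ℂ).restrict (Metric.ball 0 (k + K + 1))) :=
      ⟨by rw [Measure.restrict_apply_univ]; exact measure_ball_lt_top⟩
    refine MemLp.of_bound hG.aestronglyMeasurable 1 (Eventually.of_forall fun z => ?_)
    rw [Real.norm_eq_abs]
    exact hb z
  have hgm : ∀ k, Measurable (g k) := fun k => hG.indicator measurableSet_ball
  have ev : ∀ k : ℕ, ∀ᶠ n in atTop,
      ∫⁻ z : ℂ, ‖g k (x n + z) - g k (x0 + z)‖ₑ ≤ (2⁻¹ : ENNReal) ^ k := by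
    intro k
    have := trans_lim (g k) (hg k) x x0 hx
    have hpos : (0 : ENNReal) < (2⁻¹ : ENNReal) ^ k := ENNReal.pow_pos (by simp) k
    exact (this.eventually_lt_const hpos).mono fun n hn => le_of_lt hn
  obtain ⟨φ, hφ, h⟩ := extraction_forall_of_eventually ev
  refine ⟨φ, hφ, ?_⟩
  have hmeas : ∀ k, Measurable (fun z => ‖g k (x (φ k) + z) - g k (x0 + z)‖ₑ) := fun k =>
    (((hgm k).comp (measurable_const.add measurable_id)).sub
      ((hgm k).comp (measurable_const.add measurable_id))).enorm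
  have hsum : ∫⁻ z : ℂ, ∑' k, ‖g k (x (φ k) + z) - g k (x0 + z)‖ₑ ≠ ⊤ := by
    rw [lintegral_tsum fun k => (hmeas k).aemeasurable]
    refine ne_top_of_le_ne_top ?_ (ENNReal.tsum_le_tsum h)
    rw [ENNReal.tsum_geometric]
    simp
  have hae := ae_lt_top (Measurable.tsum hmeas) hsum
  filter_upwards [hae] with z hz
  have h0 := ENNReal.tendsto_atTop_zero_of_tsum_ne_top hz.ne
  rw [tendsto_iff_norm_sub_tendsto_zero]
  have h1 : Tendsto (fun k => ‖g k (x (φ k) + z) - g k (x0 + z)‖) atTop (𝓝 0) := by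
    have := (ENNReal.tendsto_toReal ENNReal.zero_ne_top).comp h0
    simpa [Function.comp_def] using this
  refine h1.congr' ?_
  obtain ⟨N, hN⟩ := exists_nat_ge ‖z‖
  filter_upwards [eventually_ge_atTop N] with k hk
  have hk' : (N : ℝ) ≤ k := by exact_mod_cast hk
  have e : ∀ y : ℂ, ‖y‖ ≤ K → g k (y + z) = G (y + z) := by
    intro y hy
    refine Set.indicator_of_mem ?_ G
    rw [Metric.mem_ball, dist_zero_right]
    have := norm_add_le y z
    linarith
  rw [e _ (hKx _), e _ hKx0]

end Pool.Agent.H93.EG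

/-!
# Row FinRange: integral of a function of a measurable map with finite range, and elementary facts on the defect

Proofs. `integral_fin_range`: `Φ (g a) = ∑_{j ∈ J} indicator (g ⁻¹' {j}) (fun _ => Φ j) a` for `a ∈ S`; `integral_finset_sum`,
`integral_indicator`, `setIntegral_const`. `Dfn_nonneg`: multi-affine, or `1 + xy + yz + zx = ((1+x)(1+y)(1+z) + (1-x)(1-y)(1-z)) / 2`.
`round_meas`, `round_near`: floor is measurable.
-/


namespace Pool.Agent.H93.EG

open MeasureTheory

theorem integral_fin_range {α β : Type} [MeasurableSpace α] [MeasurableSpace β] [Countable β]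
    [DiscreteMeasurableSpace β] (μ : Measure α) (S : Set α) (hS : MeasurableSet S) (hμ : μ S ≠ ⊤)
    (g : α → β) (hg : Measurable g) (J : Finset β) (hJ : ∀ a ∈ S, g a ∈ J) (Φ : β → ℝ) :
    ∫ a in S, Φ (g a) ∂μ = ∑ j ∈ J, (μ (S ∩ g ⁻¹' {j})).toReal * Φ j := by
  classical
  have hmj : ∀ j : β, MeasurableSet (g ⁻¹' {j}) := fun j => hg (MeasurableSet.of_discrete)
  have h1 : ∫ a in S, Φ (g a) ∂μ =
      ∫ a in S, ∑ j ∈ J, (g ⁻¹' {j}).indicator (fun _ => Φ j) a ∂μ := by
    refine setIntegral_congr_fun hS (fun a ha => ?_)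
    show Φ (g a) = ∑ j ∈ J, (g ⁻¹' {j}).indicator (fun _ => Φ j) a
    rw [Finset.sum_eq_single_of_mem (g a) (hJ a ha)]
    · rw [Set.indicator_of_mem]
      rfl
    · intro j _ hj
      rw [Set.indicator_of_notMem]
      intro h
      exact hj (Eq.symm h)
  rw [h1, integral_finsetSum]
  · refine Finset.sum_congr rfl (fun j _ => ?_)
    rw [setIntegral_indicator (hmj j), setIntegral_const, smul_eq_mul]
    rfl
  · intro j _
    refine Integrable.indicator ?_ (hmj j)
    exact integrableOn_const hμ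

theorem three_id (x y z : ℝ) : 1 + x * y + y * z + z * x =
    ((1 + x) * (1 + y) * (1 + z) + (1 - x) * (1 - y) * (1 - z)) / 2 := by
  ring

theorem three_nonneg (x y z : ℝ) (hx : |x| ≤ 1) (hy : |y| ≤ 1) (hz : |z| ≤ 1) :
    0 ≤ 1 + x * y + y * z + z * x := by
  rw [three_id]
  obtain ⟨hx1, hx2⟩ := abs_le.1 hx
  obtain ⟨hy1, hy2⟩ := abs_le.1 hy
  obtain ⟨hz1, hz2⟩ := abs_le.1 hz
  have h1 : 0 ≤ (1 + x) * (1 + y) * (1 + z) :=
    mul_nonneg (mul_nonneg (by linarith) (by linarith)) (by linarith)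
  have h2 : 0 ≤ (1 - x) * (1 - y) * (1 - z) :=
    mul_nonneg (mul_nonneg (by linarith) (by linarith)) (by linarith)
  linarith

theorem Dfn_nonneg (G : ℂ → ℝ) (hG : ∀ x, |G x| ≤ 1) (p q x : ℂ) (t : UnitAddCircle) :
    0 ≤ Dfn G p q x t :=
  three_nonneg _ _ _ (hG _) (hG _) (hG _)

theorem FinRange_mul_le (x y : ℝ) (hx : |x| ≤ 1) (hy : |y| ≤ 1) : x * y ≤ 1 := by
  have h1 : x * y ≤ |x * y| := le_abs_self _
  rw [abs_mul] at h1
  have h2 : |x| * |y| ≤ 1 * 1 := mul_le_mul hx hy (abs_nonneg _) zero_le_one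
  linarith

theorem Dfn_le (G : ℂ → ℝ) (hG : ∀ x, |G x| ≤ 1) (p q x : ℂ) (t : UnitAddCircle) :
    Dfn G p q x t ≤ 4 := by
  unfold Dfn
  have h1 := FinRange_mul_le _ _ (hG x) (hG (x + c t * p))
  have h2 := FinRange_mul_le _ _ (hG (x + c t * p)) (hG (x + c t * q))
  have h3 := FinRange_mul_le _ _ (hG (x + c t * q)) (hG x)
  linarith

theorem Dfn_meas (G : ℂ → ℝ) (hG : Measurable G) (p q : ℂ) :
    Measurable (fun xt : ℂ × UnitAddCircle => Dfn G p q xt.1 xt.2) := by
  unfold Dfn
  have hc : Measurable (fun xt : ℂ × UnitAddCircle => c xt.2) := measurable_c.comp measurable_snd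
  have h1 : Measurable (fun xt : ℂ × UnitAddCircle => G xt.1) := hG.comp measurable_fst
  have h2 : ∀ p : ℂ, Measurable (fun xt : ℂ × UnitAddCircle => G (xt.1 + c xt.2 * p)) :=
    fun p => hG.comp (measurable_fst.add (hc.mul_const p))
  exact (((measurable_const.add (h1.mul (h2 p))).add ((h2 p).mul (h2 q))).add ((h2 q).mul h1))

/-- If the defect vanishes and `|x| < 1` then the other two values are `1` and `-1`. -/
theorem three_zero (x y z : ℝ) (hx : |x| < 1) (hy : |y| ≤ 1) (hz : |z| ≤ 1)
    (h : 1 + x * y + y * z + z * x = 0) : y * y = 1 ∧ z = -y := by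
  rw [three_id] at h
  obtain ⟨hx1, hx2⟩ := abs_lt.1 hx
  obtain ⟨hy1, hy2⟩ := abs_le.1 hy
  obtain ⟨hz1, hz2⟩ := abs_le.1 hz
  have h1 : 0 ≤ (1 + x) * (1 + y) * (1 + z) :=
    mul_nonneg (mul_nonneg (by linarith) (by linarith)) (by linarith)
  have h2 : 0 ≤ (1 - x) * (1 - y) * (1 - z) :=
    mul_nonneg (mul_nonneg (by linarith) (by linarith)) (by linarith)
  have h3 : (1 + x) * (1 + y) * (1 + z) = 0 := by linarith
  have h4 : (1 - x) * (1 - y) * (1 - z) = 0 := by linarith
  have hp : (1 + x) ≠ 0 := by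
    intro h0
    linarith
  have hm : (1 - x) ≠ 0 := by
    intro h0
    linarith
  have h5 : (1 + y) = 0 ∨ (1 + z) = 0 := by
    rcases mul_eq_zero.1 h3 with h5 | h5
    · rcases mul_eq_zero.1 h5 with h6 | h6
      · exact absurd h6 hp
      · exact Or.inl h6
    · exact Or.inr h5
  have h6 : (1 - y) = 0 ∨ (1 - z) = 0 := by
    rcases mul_eq_zero.1 h4 with h6 | h6
    · rcases mul_eq_zero.1 h6 with h7 | h7
      · exact absurd h7 hm
      · exact Or.inl h7
    · exact Or.inr h6
  rcases h5 with h5 | h5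
  · have hy3 : y = -1 := by linarith
    rcases h6 with h6 | h6
    · exfalso
      linarith
    · have hz3 : z = 1 := by linarith
      rw [hy3, hz3]
      norm_num
  · have hz3 : z = -1 := by linarith
    rcases h6 with h6 | h6
    · have hy3 : y = 1 := by linarith
      rw [hy3, hz3]
      norm_num
    · exfalso
      linarith

/-- Cell of a point in the grid of mesh `ρ`. -/
noncomputable def cell (ρ : ℝ) (x : ℂ) : ℤ × ℤ := (⌊x.re / ρ⌋, ⌊x.im / ρ⌋)

/-- Lower left corner of a cell. -/
noncomputable def corner (ρ : ℝ) (j : ℤ × ℤ) : ℂ := (ρ : ℂ) * ((j.1 : ℂ) + (j.2 : ℂ) * Complex.I)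

theorem cell_meas (ρ : ℝ) : Measurable (cell ρ) := by
  unfold cell
  exact ((Complex.measurable_re.div_const ρ).floor).prodMk
    ((Complex.measurable_im.div_const ρ).floor)

theorem FinRange_floor (ρ : ℝ) (hρ : 0 < ρ) (a : ℝ) : |ρ * (⌊a / ρ⌋ : ℝ) - a| ≤ ρ := by
  have h1 := Int.floor_le (a / ρ)
  have h2 := Int.lt_floor_add_one (a / ρ)
  have h3 : ρ * (a / ρ) = a := mul_div_cancel₀ a hρ.ne'
  have h4 : ρ * (⌊a / ρ⌋ : ℝ) ≤ ρ * (a / ρ) := mul_le_mul_of_nonneg_left h1 hρ.le
  have h5 : ρ * (a / ρ) ≤ ρ * ((⌊a / ρ⌋ : ℝ) + 1) := mul_le_mul_of_nonneg_left h2.le hρ.le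
  rw [abs_le]
  constructor <;> linarith

theorem corner_near (ρ : ℝ) (hρ : 0 < ρ) (x : ℂ) : ‖corner ρ (cell ρ x) - x‖ ≤ 2 * ρ := by
  refine (Complex.norm_le_abs_re_add_abs_im _).trans ?_
  have h1 := FinRange_floor ρ hρ x.re
  have h2 := FinRange_floor ρ hρ x.im
  have h3 : (corner ρ (cell ρ x) - x).re = ρ * (⌊x.re / ρ⌋ : ℝ) - x.re := by
    unfold corner cell
    simp
  have h4 : (corner ρ (cell ρ x) - x).im = ρ * (⌊x.im / ρ⌋ : ℝ) - x.im := by
    unfold corner cell
    simp
  rw [h3, h4]
  linarith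

/-- Bounded sets meet finitely many cells. -/
theorem cell_fin (ρ : ℝ) (hρ : 0 < ρ) (R : ℝ) :
    ∃ J : Finset (ℤ × ℤ), ∀ x : ℂ, ‖x‖ ≤ R → cell ρ x ∈ J := by
  have key : ∀ a : ℝ, |a| ≤ R → ⌊a / ρ⌋ ∈ Finset.Icc (-⌈R / ρ⌉) ⌈R / ρ⌉ := by
    intro a ha
    obtain ⟨h1, h2⟩ := abs_le.1 ha
    have h3 : a / ρ ≤ R / ρ := div_le_div_of_nonneg_right h2 hρ.le
    have h4 : -(R / ρ) ≤ a / ρ := by
      rw [← neg_div]
      exact div_le_div_of_nonneg_right h1 hρ.le
    have h5 := Int.le_ceil (R / ρ)
    have h6 := Int.floor_le (a / ρ)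
    rw [Finset.mem_Icc]
    constructor
    · rw [Int.le_floor]
      push_cast
      linarith
    · have h7 : ((⌊a / ρ⌋ : ℤ) : ℝ) ≤ ((⌈R / ρ⌉ : ℤ) : ℝ) := by linarith
      exact_mod_cast h7
  refine ⟨(Finset.Icc (-⌈R / ρ⌉) ⌈R / ρ⌉) ×ˢ (Finset.Icc (-⌈R / ρ⌉) ⌈R / ρ⌉), fun x hx => ?_⟩
  rw [Finset.mem_product]
  exact ⟨key x.re ((Complex.abs_re_le_norm x).trans hx), key x.im ((Complex.abs_im_le_norm x).trans hx)⟩

end Pool.Agent.H93.EG
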