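import Pool.Agent.H93.EGM.Main

/-!
# Two equilateral triangles of different sizes cannot both be avoided by a 2-colouring of the plane

If no direct copy of an equilateral triangle with side `s1` and none of one with side `s2` is
monochromatic, then the correlations at the distances `s1` and `s2` are `-1/3`, so no copy of the
triangle with sides `s1, s2, s2` (or of the five types for `s1`, `s2`) is monochromatic for the
stationary functional.
-/

set_option autoImplicit false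

namespace Pool.Agent.H93.EG

open Pool.Agent.H58.ER

/-- No stationary functional of a colouring has correlations `-1/3` at two distances of ratio
between 1 and 2. -/
theorem no_two (f : ℂ → Bool) (E : ((ℂ → Bool) → ℝ) → ℝ) (hE : IsStat f E) (k : ℝ → ℝ)
    (hk : ∀ z w : ℂ, E (fun F => sg (F z) * sg (F w)) = k ‖z - w‖)
    (hPD : PD (fun z : ℂ => k ‖z‖)) (d1 d2 : ℝ) (hpos : 0 < d1) (hlt : d1 < d2)
    (hlt2 : d2 < 2 * d1) (k1 : k d1 = -1 / 3) (k3 : k d2 = -1 / 3) : False := by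
  obtain ⟨kc, hc, hkc, hdec⟩ := dec k hPD
  obtain ⟨τ1, τ2, hpar⟩ := par_exists d1 d2 hpos hlt hlt2
  have key : ∀ d : ℝ, (d = d1 ∨ d = d2) → kc d = -1 / 3 := by
    rintro d (rfl | rfl)
    · rw [hkc _ hpos, k1]
    · rw [hkc _ (hpos.trans hlt), k3]
  have hP : ∀ i : Fin 5, kc ‖(typ d1 d2 τ1 τ2 i).1‖ = -1 / 3 ∧
      kc ‖(typ d1 d2 τ1 τ2 i).2‖ = -1 / 3 ∧
      kc ‖(typ d1 d2 τ1 τ2 i).1 - (typ d1 d2 τ1 τ2 i).2‖ = -1 / 3 := by
    intro i
    obtain ⟨a, b, c'⟩ := typ_dist d1 d2 τ1 τ2 hpar i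
    exact ⟨key _ a, key _ b, key _ c'⟩
  obtain ⟨G, hG, hb, h0⟩ := lim_exists 5 (typ d1 d2 τ1 τ2) (typ_ne d1 d2 τ1 τ2 hpar)
    (fun L hL ε hε => samp f E hE k kc hk hc hdec 5 (typ d1 d2 τ1 τ2) hP L hL ε hε)
  obtain ⟨F, hF⟩ := sgn_exists d1 d2 τ1 τ2 hpar G hG hb h0
  exact glob d1 d2 τ1 τ2 hpar F hF

/-- The probability of different colours in terms of the correlation. -/
theorem dd_k (f : ℂ → Bool) (E : ((ℂ → Bool) → ℝ) → ℝ) (hE : IsStat f E) (k : ℝ → ℝ)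
    (hk : ∀ z w : ℂ, E (fun F => sg (F z) * sg (F w)) = k ‖z - w‖) (z : ℂ) :
    dd E ‖z‖ = (1 - k ‖z‖) / 2 := by
  have h1 := pr_ne hE z 0
  rw [sub_zero] at h1
  rw [← h1]
  unfold pr
  have h2 : (fun F : ℂ → Bool => ind (F z ≠ F 0)) =
      fun F => (1 / 2 : ℝ) * (fun _ => (1 : ℝ)) F + (-1 / 2 : ℝ) * (sg (F z) * sg (F 0)) := by
    funext F
    simp only
    by_cases h : F z = F 0
    · rw [ind_false (by simpa using h), h]
      cases F 0 <;> norm_num [sg]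
    · rw [ind_true h]
      cases hz : F z <;> cases h0 : F 0
      · exact absurd (hz.trans h0.symm) h
      · norm_num [sg]
      · norm_num [sg]
      · exact absurd (hz.trans h0.symm) h
  have b2 : Bdd (fun F : ℂ → Bool => sg (F z) * sg (F 0)) := by
    refine ⟨1, fun F => ?_⟩
    rw [abs_mul, abs_sg, abs_sg, one_mul]
  rw [h2, hE.add _ _ ((bdd_const 1).smul (1 / 2)) (b2.smul (-1 / 2)), hE.smul _ _ (bdd_const 1),
    hE.smul _ _ b2, hE.one, hk, sub_zero]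
  ring

private theorem two_cross_sq (u v : ℂ) : |u.re * v.im - u.im * v.re| ^ 2 =
    ‖u‖ ^ 2 * ‖v‖ ^ 2 - (inner ℝ u v) ^ 2 := by
  rw [sq_abs, nsq, nsq, Complex.inner]
  simp
  ring

/-- Condition for a small angle between `u` and `v`. -/
private theorem two_small (u v : ℂ) (hk : 0.764 * (‖u‖ * ‖v‖) ≤ inner ℝ u v) :
    ‖u - v‖ ^ 2 / 4 ≤ rad u v := by
  have h1 := two_cross_sq u v
  have h2 : ‖u - v‖ ^ 2 = ‖u‖ ^ 2 + ‖v‖ ^ 2 - 2 * inner ℝ u v := by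
    rw [norm_sub_sq_real]; ring
  have hI : inner ℝ u v ≤ ‖u‖ * ‖v‖ := real_inner_le_norm u v
  have hu := norm_nonneg u
  have hv := norm_nonneg v
  have hx := abs_nonneg (u.re * v.im - u.im * v.re)
  have hs := Real.sqrt_nonneg 3
  have hpq : 0 ≤ ‖u‖ * ‖v‖ := by positivity
  set P := ‖u‖ * ‖v‖ with hP
  set I : ℝ := inner ℝ u v with hIdef
  have hle : Real.sqrt 3 * |u.re * v.im - u.im * v.re| ≤ (3 * P - I) / 2 := by
    refine abs_le_of_sq_le_sq' ?_ (by linarith) |>.2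
    rw [mul_pow, h1, Real.sq_sqrt (by norm_num : (0 : ℝ) ≤ 3), ← mul_pow, ← hP]
    nlinarith [mul_nonneg (sub_nonneg.mpr hk) hpq, mul_nonneg (sub_nonneg.mpr hk) (sub_nonneg.mpr hk)]
  unfold rad
  rw [h2]
  nlinarith [sq_nonneg (‖u‖ - ‖v‖)]

/-- Two different equilateral triangles cannot both be avoided. -/
theorem two_eq (f : ℂ → Bool) (z1 z2 z3 w1 w2 w3 : ℂ) (s1 s2 : ℝ) (h0 : 0 < s1) (h12 : s1 < s2)
    (hz1 : ‖z1 - z2‖ = s1) (hz2 : ‖z2 - z3‖ = s1) (hz3 : ‖z3 - z1‖ = s1)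
    (hw1 : ‖w1 - w2‖ = s2) (hw2 : ‖w2 - w3‖ = s2) (hw3 : ‖w3 - w1‖ = s2)
    (hz : ∀ θ w : ℂ, ‖θ‖ = 1 → ¬ (f (θ * z1 + w) = f (θ * z2 + w) ∧
      f (θ * z2 + w) = f (θ * z3 + w)))
    (hw : ∀ θ w : ℂ, ‖θ‖ = 1 → ¬ (f (θ * w1 + w) = f (θ * w2 + w) ∧
      f (θ * w2 + w) = f (θ * w3 + w))) : False := by
  obtain ⟨E, hE⟩ := exists_stat f
  obtain ⟨k, hk, hPD, -, -, htri⟩ := stat_k f E hE
  have h02 : 0 < s2 := h0.trans h12
  have ne : ∀ (x y : ℂ) (s : ℝ), 0 < s → ‖x - y‖ = s → x ≠ y := by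
    intro x y s hs hxy h
    rw [h, sub_self, norm_zero] at hxy
    linarith
  have k1 : k s1 = -1 / 3 := by
    have := (htri z1 z2 z3 hz (ne _ _ _ h0 hz1) (ne _ _ _ h0 hz2) (ne _ _ _ h0 hz3)).1
    rwa [hz1] at this
  have k2 : k s2 = -1 / 3 := by
    have := (htri w1 w2 w3 hw (ne _ _ _ h02 hw1) (ne _ _ _ h02 hw2) (ne _ _ _ h02 hw3)).1
    rwa [hw1] at this
  rcases lt_or_ge s2 (2 * s1) with h | h
  · exact no_two f E hE k hk hPD s1 s2 h0 h12 h k1 k2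
  · -- the triangle with sides `s1, s2, s2`
    set x : ℝ := 1 - s1 ^ 2 / (2 * s2 ^ 2) with hx
    have hs2 : (0 : ℝ) < s2 ^ 2 := by positivity
    have hq : s1 ^ 2 / (2 * s2 ^ 2) ≤ 1 / 8 := by
      rw [div_le_iff₀ (by positivity)]
      nlinarith
    have hq0 : 0 ≤ s1 ^ 2 / (2 * s2 ^ 2) := by positivity
    have hx1 : 7 / 8 ≤ x := by rw [hx]; linarith
    have hx2 : x ≤ 1 := by rw [hx]; linarith
    have hy : Real.sqrt (1 - x ^ 2) ^ 2 = 1 - x ^ 2 := Real.sq_sqrt (by nlinarith)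
    set u : ℂ := (s2 : ℂ) with hu
    set v : ℂ := ⟨s2 * x, s2 * Real.sqrt (1 - x ^ 2)⟩ with hv
    have nu : ‖u‖ = s2 := by rw [hu, Complex.norm_real, Real.norm_of_nonneg h02.le]
    have sq_eq : ∀ a b : ℝ, 0 ≤ a → 0 ≤ b → a ^ 2 = b ^ 2 → a = b := by
      intro a b ha hb hab
      rw [← Real.sqrt_sq ha, ← Real.sqrt_sq hb, hab]
    have nv : ‖v‖ = s2 := by
      refine sq_eq _ _ (norm_nonneg _) h02.le ?_
      rw [nsq]
      simp only [hv]
      rw [mul_pow, mul_pow, hy]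
      ring
    have nuv : ‖u - v‖ = s1 := by
      refine sq_eq _ _ (norm_nonneg _) h0.le ?_
      rw [nsq]
      simp only [hu, hv, Complex.sub_re, Complex.sub_im, Complex.ofReal_re, Complex.ofReal_im,
        zero_sub, neg_sq]
      rw [mul_pow, hy]
      have : s2 ^ 2 * (2 * (s1 ^ 2 / (2 * s2 ^ 2))) = s1 ^ 2 := by field_simp
      have hxx : (s2 - s2 * x) ^ 2 + s2 ^ 2 * (1 - x ^ 2) = s2 ^ 2 * (2 * (1 - x)) := by ring
      rw [hxx, hx, sub_sub_cancel, this]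
    have hin : inner ℝ u v = s2 ^ 2 * x := by
      rw [Complex.inner, hu, hv]
      simp
      ring
    have hreg : ‖u - v‖ ^ 2 / 4 ≤ rad u v := by
      refine two_small u v ?_
      rw [hin, nu, nv]
      nlinarith
    have e1 : dd E ‖u‖ = 2 / 3 := by rw [dd_k f E hE k hk, nu, k2]; norm_num
    have e2 : dd E ‖v‖ = 2 / 3 := by rw [dd_k f E hE k hk, nv, k2]; norm_num
    have e3 : dd E ‖u - v‖ = 2 / 3 := by rw [dd_k f E hE k hk, nuv, k1]; norm_num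
    exact no_stat hE e1 e2 e3 (norm_nonneg (u - v)) e3 hreg

end Pool.Agent.H93.EG
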