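import Pool.Agent.H93.EGM.Hilb

set_option autoImplicit false

/-!
# Row VdcLin: linear case of the van der Corput lemma

Proof. Induct over the finite set `A`: for `A = ∅` use the uniform distribution on `K` distinct points of `(-δ, δ)` (`ι = Fin K`, sum over equal pairs
`= K * (1/K)^2 = 1/K`). Product step (`ι × κ`, weights `l i * l' k`, points `t i + t' k`), both factors with `δ/2`: for `a ∈ A`,
`∑_{i,k} l i l' k T (a (t i + t' k)) s = ∑_k l' k T (a t' k) (∑_i l i T (a t i) s)` has norm `≤ ‖∑_i l i T (a t i) s‖` and similarly with the roles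
exchanged. For one new `a ≠ 0`: rescale the points of `hS` (for `(δ/2) |a|` instead of `δ`) by `1 / a`. The mass of equal pairs of the product is
`∑_{k,k'} l' k l' k' ∑_{i,i' : t i - t i' = t' k' - t' k} l i l i'`; to bound it by `1/K` keep the invariant in the stronger form
`∀ x : ℝ, ∑ i, (if t i = x then l i else 0) ≤ 1 / K` (maximal mass of a point), which is preserved by products
(`∑_{i,k : t i + t' k = x} l i l' k = ∑_k l' k ∑_{i : t i = x - t' k} l i ≤ 1/K`) and implies the bound on the sum over equal pairs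
(`∑_i l i ∑_{j : t j = t i} l j ≤ 1/K`).
-/


namespace Pool.Agent.H93.EG

/-- invariant of the induction. -/
def VdcLinP {H : Type} [NormedAddCommGroup H] [InnerProductSpace ℝ H]
    (T : ℝ → H ≃ₗᵢ[ℝ] H) (s : H) (A : Finset ℝ) (K : ℕ) (δ ε : ℝ) : Prop :=
  ∃ (ι : Type) (_ : Fintype ι) (l t : ι → ℝ),
      (∀ i, 0 ≤ l i) ∧ ∑ i, l i = 1 ∧ (∀ i, |t i| < δ) ∧
      (∀ a ∈ A, ‖∑ i, l i • T (a * t i) s‖ ≤ ε) ∧
      ∀ x : ℝ, ∑ i, (if t i = x then l i else 0) ≤ 1 / (K : ℝ)

theorem VdcLin_base {H : Type} [NormedAddCommGroup H] [InnerProductSpace ℝ H]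
    (T : ℝ → H ≃ₗᵢ[ℝ] H) (s : H) (K : ℕ) (hK : 0 < K) (δ ε : ℝ) (hδ : 0 < δ) :
    VdcLinP T s ∅ K δ ε := by
  have hKr : (0 : ℝ) < K := by exact_mod_cast hK
  refine ⟨Fin K, inferInstance, fun _ => 1 / (K : ℝ), fun i => δ * ((i : ℕ) : ℝ) / K, ?_, ?_, ?_,
    ?_, ?_⟩
  · intro i; positivity
  · rw [Finset.sum_const, Finset.card_univ, Fintype.card_fin, nsmul_eq_mul]
    field_simp
  · intro i
    have hi : ((i : ℕ) : ℝ) < K := by exact_mod_cast i.2
    rw [abs_of_nonneg (by positivity), div_lt_iff₀ hKr]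
    exact mul_lt_mul_of_pos_left hi hδ
  · intro a ha; simp at ha
  · intro x
    by_cases h : ∃ i : Fin K, δ * ((i : ℕ) : ℝ) / K = x
    · obtain ⟨i0, hi0⟩ := h
      have : ∀ i : Fin K, (if δ * ((i : ℕ) : ℝ) / K = x then 1 / (K : ℝ) else 0) =
          if i = i0 then 1 / (K : ℝ) else 0 := by
        intro i
        by_cases hi : i = i0
        · rw [if_pos hi, hi, if_pos hi0]
        · rw [if_neg hi, if_neg]
          intro h
          apply hi
          rw [← hi0] at h
          have h2 : δ * ((i : ℕ) : ℝ) = δ * ((i0 : ℕ) : ℝ) := by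
            rw [div_eq_div_iff hKr.ne' hKr.ne'] at h
            exact mul_right_cancel₀ hKr.ne' h
          have h3 : ((i : ℕ) : ℝ) = ((i0 : ℕ) : ℝ) := mul_left_cancel₀ hδ.ne' h2
          exact Fin.ext (by exact_mod_cast h3)
      simp only [this]
      simp
    · push Not at h
      have : ∀ i : Fin K, (if δ * ((i : ℕ) : ℝ) / K = x then 1 / (K : ℝ) else 0) = 0 :=
        fun i => if_neg (h i)
      simp only [this, Finset.sum_const_zero]
      positivity

theorem VdcLin_norm {H : Type} [NormedAddCommGroup H] [InnerProductSpace ℝ H]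
    (T : ℝ → H ≃ₗᵢ[ℝ] H) (hadd : ∀ a b x, T a (T b x) = T (a + b) x) (s : H)
    {ι κ : Type} [Fintype ι] [Fintype κ] (l : ι → ℝ) (l' : κ → ℝ) (u : ι → ℝ) (v : κ → ℝ)
    (hl' : ∀ k, 0 ≤ l' k) (h1 : ∑ k, l' k = 1) (ε : ℝ) (he : ‖∑ i, l i • T (u i) s‖ ≤ ε) :
    ‖∑ k, ∑ i, (l i * l' k) • T (u i + v k) s‖ ≤ ε := by
  have e : ∀ k, ∑ i, (l i * l' k) • T (u i + v k) s = l' k • T (v k) (∑ i, l i • T (u i) s) := by
    intro k
    rw [map_sum, Finset.smul_sum]
    refine Finset.sum_congr rfl fun i _ => ?_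
    rw [map_smul, hadd, smul_smul, mul_comm (l i), add_comm (u i)]
  simp only [e]
  calc ‖∑ k, l' k • T (v k) (∑ i, l i • T (u i) s)‖ ≤
      ∑ k, ‖l' k • T (v k) (∑ i, l i • T (u i) s)‖ := norm_sum_le _ _
    _ ≤ ∑ k, l' k * ε := by
        refine Finset.sum_le_sum fun k _ => ?_
        rw [norm_smul, LinearIsometryEquiv.norm_map, Real.norm_eq_abs, abs_of_nonneg (hl' k)]
        exact mul_le_mul_of_nonneg_left he (hl' k)
    _ = ε := by rw [← Finset.sum_mul, h1, one_mul]

theorem VdcLin_step {H : Type} [NormedAddCommGroup H] [InnerProductSpace ℝ H]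
    (T : ℝ → H ≃ₗᵢ[ℝ] H) (hadd : ∀ a b x, T a (T b x) = T (a + b) x) (s : H)
    (hS : ∀ δ : ℝ, 0 < δ → ∀ ε : ℝ, 0 < ε → ∃ (ι : Type) (_ : Fintype ι) (l t : ι → ℝ),
      (∀ i, 0 ≤ l i) ∧ ∑ i, l i = 1 ∧ (∀ i, |t i| < δ) ∧ ‖∑ i, l i • T (t i) s‖ ≤ ε)
    (A : Finset ℝ) (a : ℝ) (ha : a ≠ 0) (K : ℕ) (ε : ℝ) (hε : 0 < ε)
    (ih : ∀ δ : ℝ, 0 < δ → VdcLinP T s A K δ ε) (δ : ℝ) (hδ : 0 < δ) :
    VdcLinP T s (insert a A) K δ ε := by
  classical
  obtain ⟨ι, hι, l, t, hl0, hl1, hlt, hlA, hlm⟩ := ih (δ / 2) (by positivity)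
  obtain ⟨κ, hκ, l', t', hk0, hk1, hkt, hkA⟩ := hS (δ / 2 * |a|) (by positivity) ε hε
  have hswap : ∀ b : ℝ, ∑ p : ι × κ, (l p.1 * l' p.2) • T (b * (t p.1 + t' p.2 / a)) s =
      ∑ k, ∑ i, (l i * l' k) • T (b * t i + b * (t' k / a)) s := by
    intro b
    rw [Fintype.sum_prod_type, Finset.sum_comm]
    refine Finset.sum_congr rfl fun k _ => Finset.sum_congr rfl fun i _ => ?_
    rw [mul_add]
  refine ⟨ι × κ, inferInstance, fun p => l p.1 * l' p.2, fun p => t p.1 + t' p.2 / a, ?_, ?_, ?_,
    ?_, ?_⟩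
  · intro p; exact mul_nonneg (hl0 _) (hk0 _)
  · rw [Fintype.sum_prod_type]
    simp only [← Finset.mul_sum, hk1, mul_one, hl1]
  · intro p
    have h1 := hlt p.1
    have h2 := hkt p.2
    have h3 : |t' p.2 / a| < δ / 2 := by
      rw [abs_div, div_lt_iff₀ (abs_pos.mpr ha)]; exact h2
    calc |t p.1 + t' p.2 / a| ≤ |t p.1| + |t' p.2 / a| := abs_add_le _ _
      _ < δ := by linarith
  · intro b hb
    rw [hswap]
    rcases Finset.mem_insert.mp hb with hb | hb
    · subst hb
      rw [Finset.sum_comm]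
      have e : ∀ i k, (l i * l' k) • T (b * t i + b * (t' k / b)) s =
          (l' k * l i) • T (t' k + b * t i) s := by
        intro i k
        have : b * (t' k / b) = t' k := by field_simp
        rw [this, mul_comm (l i), add_comm]
      simp only [e]
      exact VdcLin_norm T hadd s l' l t' (fun i => b * t i) hl0 hl1 ε hkA
    · exact VdcLin_norm T hadd s l l' (fun i => b * t i) (fun k => b * (t' k / a)) hk0 hk1 ε
        (hlA b hb)
  · intro x
    rw [Fintype.sum_prod_type, Finset.sum_comm]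
    calc ∑ k, ∑ i, (if t i + t' k / a = x then l i * l' k else 0)
        = ∑ k, l' k * ∑ i, (if t i = x - t' k / a then l i else 0) := by
          refine Finset.sum_congr rfl fun k _ => ?_
          rw [Finset.mul_sum]
          refine Finset.sum_congr rfl fun i _ => ?_
          by_cases h : t i + t' k / a = x
          · rw [if_pos h, if_pos (by linarith), mul_comm]
          · rw [if_neg h, if_neg (fun h' => h (by linarith)), mul_zero]
      _ ≤ ∑ k, l' k * (1 / (K : ℝ)) :=
          Finset.sum_le_sum fun k _ => mul_le_mul_of_nonneg_left (hlm _) (hk0 k)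
      _ = 1 / (K : ℝ) := by rw [← Finset.sum_mul, hk1, one_mul]

theorem vdc_lin {H : Type} [NormedAddCommGroup H] [InnerProductSpace ℝ H]
    (T : ℝ → H ≃ₗᵢ[ℝ] H) (hadd : ∀ a b x, T a (T b x) = T (a + b) x) (hzero : ∀ x, T 0 x = x)
    (s : H)
    (hS : ∀ δ : ℝ, 0 < δ → ∀ ε : ℝ, 0 < ε → ∃ (ι : Type) (_ : Fintype ι) (l t : ι → ℝ),
      (∀ i, 0 ≤ l i) ∧ ∑ i, l i = 1 ∧ (∀ i, |t i| < δ) ∧ ‖∑ i, l i • T (t i) s‖ ≤ ε)
    (A : Finset ℝ) (hA : ∀ a ∈ A, a ≠ 0) (K : ℕ) (hK : 0 < K) (δ : ℝ) (hδ : 0 < δ) (ε : ℝ)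
    (hε : 0 < ε) :
    ∃ (ι : Type) (_ : Fintype ι) (l t : ι → ℝ),
      (∀ i, 0 ≤ l i) ∧ ∑ i, l i = 1 ∧ (∀ i, |t i| < δ) ∧
      (∀ a ∈ A, ‖∑ i, l i • T (a * t i) s‖ ≤ ε) ∧
      ∑ i, ∑ j, (if t i = t j then l i * l j else 0) ≤ 1 / (K : ℝ) := by
  classical
  have key : ∀ A : Finset ℝ, (∀ a ∈ A, a ≠ 0) → ∀ δ : ℝ, 0 < δ → VdcLinP T s A K δ ε := by
    intro A
    induction A using Finset.induction_on with
    | empty => intro _ δ hδ; exact VdcLin_base T s K hK δ ε hδ
    | insert a A _ ih =>
      intro hA δ hδ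
      exact VdcLin_step T hadd s hS A a (hA a (Finset.mem_insert_self a A)) K ε hε
        (ih fun b hb => hA b (Finset.mem_insert_of_mem hb)) δ hδ
  obtain ⟨ι, hι, l, t, h0, h1, ht, hAe, hm⟩ := key A hA δ hδ
  refine ⟨ι, hι, l, t, h0, h1, ht, hAe, ?_⟩
  calc ∑ i, ∑ j, (if t i = t j then l i * l j else 0)
      = ∑ i, l i * ∑ j, (if t j = t i then l j else 0) := by
        refine Finset.sum_congr rfl fun i _ => ?_
        rw [Finset.mul_sum]
        refine Finset.sum_congr rfl fun j _ => ?_
        by_cases h : t i = t j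
        · rw [if_pos h, if_pos h.symm]
        · rw [if_neg h, if_neg (fun h' => h h'.symm), mul_zero]
    _ ≤ ∑ i, l i * (1 / (K : ℝ)) :=
        Finset.sum_le_sum fun i _ => mul_le_mul_of_nonneg_left (hm _) (h0 i)
    _ = 1 / (K : ℝ) := by rw [← Finset.sum_mul, h1, one_mul]

end Pool.Agent.H93.EG

/-!
# Row Vdc: polynomial van der Corput for a singular positive definite function on the line

`H`, `T : ℝ → H ≃ₗᵢ H` a translation action, `s : H` a vector with arbitrarily small convex combinations of small translates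
(`hS`). Then for finitely many non-constant real polynomials `w` there is a finitely supported probability `(l, t)` on `(-δ, δ)`
such that all averages `∑ l i * inner (T (w (t i)) s) s` are small.

Proof by induction on `D` (all degrees between 1 and `D`).
Base case / linear part (`vdc_lin`): finitely many nonzero reals `A j`: there is a probability `(l, t)` on `(-δ, δ)` with
`‖∑ l i • T (A j * t i) s‖ ≤ ε` for all `j` and `l i`-mass of every point small if wanted: induct over the finite set, taking product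
probabilities (`ι × κ`, `t + t'`): `∑_{i,k} l i l' k T (A (t i + t' k)) s = ∑_k l' k T (A t' k) (∑_i l i T (A t i) s)` has norm
`≤ ‖∑_i l i T (A t i) s‖`. For one `A`: rescale the points of `hS` (for `δ |A|` instead of `δ`) by `1 / A`.
For a linear polynomial `w = A X + B`: `∑ l i inner (T (w (t i)) s) s = inner (∑ l i T (A t i) s) (T (-B) s)`.
Step `D - 1 → D`, `D ≥ 2`: outer probability `Q = (q, h)` on `(-δ/2, δ/2)` := product of the linear part for the linear members and of the
uniform distribution on `K` distinct points, so that `∑_{(j,k) : h j = h k} q j * q k ≤ 1 / K` (the sum over the pairs with equal points). Inner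
probability `P' = (p, t)` on `(-δ/2, δ/2)` from the induction hypothesis for all `w(X + h j) - w(X + h k)`, `w` of degree `≥ 2`,
`h j ≠ h k` (these have degree `natDegree w - 1`, between `1` and `D - 1`), with error `ε'`. Product probability, points `t i + h j`:
`‖∑_{i,j} p i q j T (w (t i + h j)) s‖ ^ 2 ≤ ∑_i p i ‖∑_j q j T (w (t i + h j)) s‖ ^ 2
 = ∑_{j,k} q j q k ∑_i p i inner (T (w (t i + h j) - w (t i + h k)) s) s ≤ ‖s‖ ^ 2 / K + ε'` (the first inequality: convexity of the
square of the norm), and `|∑ p q inner (T (w ..) s) s| ≤ ‖..‖ ‖s‖`.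
-/


namespace Pool.Agent.H93.EG

open Polynomial in
private theorem Vdc_deg (w : Polynomial ℝ) (hw : 2 ≤ w.natDegree) (a b : ℝ) (hab : a ≠ b) :
    1 ≤ (taylor a w - taylor b w).natDegree ∧
      (taylor a w - taylor b w).natDegree ≤ w.natDegree - 1 := by
  have hw0 : w ≠ 0 := by
    rintro rfl
    simp at hw
  have hta : ∀ a : ℝ, (taylor a w).natDegree = w.natDegree := fun a => natDegree_taylor w a
  constructor
  · have hc : ∀ a : ℝ, (taylor a w).coeff (w.natDegree - 1) =
        w.coeff (w.natDegree - 1) + (w.natDegree : ℝ) * w.coeff w.natDegree * a := by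
      intro a
      rw [taylor_coeff]
      have h1 : (hasseDeriv (w.natDegree - 1) w).natDegree ≤ 1 := by
        refine (natDegree_hasseDeriv_le w _).trans ?_
        omega
      rw [eval_eq_sum_range' (lt_of_le_of_lt h1 (by norm_num : 1 < 2)), Finset.sum_range_succ,
        Finset.sum_range_one, hasseDeriv_coeff, hasseDeriv_coeff]
      have h2 : 1 + (w.natDegree - 1) = w.natDegree := by omega
      rw [h2, zero_add, Nat.choose_self]
      have h3 : (w.natDegree).choose (w.natDegree - 1) = w.natDegree := by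
        rw [← Nat.choose_symm (by omega : w.natDegree - 1 ≤ w.natDegree)]
        have : w.natDegree - (w.natDegree - 1) = 1 := by omega
        rw [this, Nat.choose_one_right]
      rw [h3]
      simp
    have hne : (taylor a w - taylor b w).coeff (w.natDegree - 1) ≠ 0 := by
      rw [coeff_sub, hc, hc]
      have h4 : w.coeff w.natDegree ≠ 0 := by
        rw [coeff_natDegree]
        exact leadingCoeff_ne_zero.2 hw0
      have h5 : (w.natDegree : ℝ) ≠ 0 := by
        have : w.natDegree ≠ 0 := by omega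
        exact_mod_cast this
      have h6 : w.coeff (w.natDegree - 1) + (w.natDegree : ℝ) * w.coeff w.natDegree * a -
          (w.coeff (w.natDegree - 1) + (w.natDegree : ℝ) * w.coeff w.natDegree * b) =
          (w.natDegree : ℝ) * w.coeff w.natDegree * (a - b) := by ring
      rw [h6]
      exact mul_ne_zero (mul_ne_zero h5 h4) (sub_ne_zero.2 hab)
    have := le_natDegree_of_ne_zero hne
    omega
  · rw [natDegree_le_iff_coeff_eq_zero]
    intro N hN
    have hN' : w.natDegree ≤ N := by omega
    rcases hN'.lt_or_eq with h | h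
    · rw [coeff_sub, coeff_eq_zero_of_natDegree_lt (by rw [hta]; exact h),
        coeff_eq_zero_of_natDegree_lt (by rw [hta]; exact h), sub_zero]
    · subst h
      have : ∀ a : ℝ, (taylor a w).coeff w.natDegree = w.coeff w.natDegree := by
        intro a
        rw [taylor_coeff, hasseDeriv_natDegree_eq_C, eval_C, coeff_natDegree]
      rw [coeff_sub, this, this, sub_self]

theorem vdc {H : Type} [NormedAddCommGroup H] [InnerProductSpace ℝ H]
    (T : ℝ → H ≃ₗᵢ[ℝ] H) (hadd : ∀ a b x, T a (T b x) = T (a + b) x) (hzero : ∀ x, T 0 x = x)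
    (s : H)
    (hS : ∀ δ : ℝ, 0 < δ → ∀ ε : ℝ, 0 < ε → ∃ (ι : Type) (_ : Fintype ι) (l t : ι → ℝ),
      (∀ i, 0 ≤ l i) ∧ ∑ i, l i = 1 ∧ (∀ i, |t i| < δ) ∧ ‖∑ i, l i • T (t i) s‖ ≤ ε)
    (D : ℕ) (W : Finset (Polynomial ℝ)) (hW : ∀ w ∈ W, 1 ≤ w.natDegree ∧ w.natDegree ≤ D)
    (δ : ℝ) (hδ : 0 < δ) (ε : ℝ) (hε : 0 < ε) :
    ∃ (ι : Type) (_ : Fintype ι) (l t : ι → ℝ),
      (∀ i, 0 ≤ l i) ∧ ∑ i, l i = 1 ∧ (∀ i, |t i| < δ) ∧
      ∀ w ∈ W, |∑ i, l i * inner ℝ (T (w.eval (t i)) s) s| ≤ ε := by
  classical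
  -- inner products of translates
  have hinn : ∀ a b : ℝ, inner ℝ (T a s) (T b s) = inner ℝ (T (a - b) s) s := by
    intro a b
    have h1 : T b (T (a - b) s) = T a s := by
      rw [hadd]
      congr 2
      ring
    rw [← h1, LinearIsometryEquiv.inner_map_map]
  induction D generalizing W δ ε with
  | zero =>
    refine ⟨Unit, inferInstance, fun _ => 1, fun _ => 0, fun _ => zero_le_one, by simp,
      fun _ => by simpa using hδ, fun w hw => ?_⟩
    have := hW w hw
    omega
  | succ D ih =>
    set A : Finset ℝ := (W.filter (fun w => w.natDegree = 1)).image (fun w => w.coeff 1) with hA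
    have hA0 : ∀ a ∈ A, a ≠ 0 := by
      intro a ha
      rw [hA, Finset.mem_image] at ha
      obtain ⟨w, hw, rfl⟩ := ha
      rw [Finset.mem_filter] at hw
      have : w.coeff w.natDegree ≠ 0 := by
        rw [Polynomial.coeff_natDegree, Polynomial.leadingCoeff_ne_zero]
        rintro rfl
        simp at hw
      rwa [hw.2] at this
    -- parameters
    obtain ⟨K0, hK0⟩ := exists_nat_gt (2 * ‖s‖ ^ 4 / ε ^ 2)
    set K : ℕ := K0 + 1 with hK
    have hKpos : (0 : ℝ) < K := by rw [hK]; positivity
    have hKb : ‖s‖ ^ 4 / K ≤ ε ^ 2 / 2 := by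
      rw [div_le_iff₀ hKpos]
      have h1 : 2 * ‖s‖ ^ 4 / ε ^ 2 < K := hK0.trans (by rw [hK]; push_cast; linarith)
      rw [div_lt_iff₀ (by positivity)] at h1
      nlinarith
    set ε' : ℝ := ε ^ 2 / (2 * (‖s‖ ^ 2 + 1)) with hε'
    have hε'pos : 0 < ε' := by positivity
    have hε'b : ε' * ‖s‖ ^ 2 ≤ ε ^ 2 / 2 := by
      rw [hε', div_mul_eq_mul_div, div_le_iff₀ (by positivity)]
      nlinarith [sq_nonneg ‖s‖, sq_nonneg ε]
    obtain ⟨J, _, q, h, hq0, hq1, hhδ, hlin, hdiag⟩ := vdc_lin T hadd hzero s hS A hA0 K (by omega)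
      (δ / 2) (by positivity) (ε / (‖s‖ + 1)) (by positivity)
    -- differences
    set W' : Finset (Polynomial ℝ) :=
      (((W.filter (fun w => 2 ≤ w.natDegree)) ×ˢ (Finset.univ : Finset (J × J))).filter
        (fun z => h z.2.1 ≠ h z.2.2)).image
        (fun z => Polynomial.taylor (h z.2.1) z.1 - Polynomial.taylor (h z.2.2) z.1) with hW'
    have hW'deg : ∀ w ∈ W', 1 ≤ w.natDegree ∧ w.natDegree ≤ D := by
      intro u hu
      rw [hW', Finset.mem_image] at hu
      obtain ⟨⟨w, j, k⟩, hz, rfl⟩ := hu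
      rw [Finset.mem_filter, Finset.mem_product, Finset.mem_filter] at hz
      have h1 := Vdc_deg w hz.1.1.2 (h j) (h k) hz.2
      have h2 := (hW w hz.1.1.1).2
      exact ⟨h1.1, h1.2.trans (by omega)⟩
    obtain ⟨I, _, p, t, hp0, hp1, htδ, hin⟩ := ih W' hW'deg (δ / 2) (by positivity) ε' hε'pos
    refine ⟨I × J, inferInstance, fun z => p z.1 * q z.2, fun z => t z.1 + h z.2,
      fun z => mul_nonneg (hp0 _) (hq0 _), ?_, fun z => ?_, fun w hw => ?_⟩
    · rw [Fintype.sum_prod_type]
      simp only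
      rw [← Finset.sum_mul_sum, hp1, hq1, one_mul]
    · have h1 := htδ z.1
      have h2 := hhδ z.2
      exact (abs_add_le _ _).trans_lt (by linarith)
    · rw [Fintype.sum_prod_type]
      simp only
      -- inner vector
      set V : I → H := fun i => ∑ j, q j • T (w.eval (t i + h j)) s with hV
      have hsumV : ∑ i, ∑ j, p i * q j * inner ℝ (T (w.eval (t i + h j)) s) s =
          ∑ i, p i * inner ℝ (V i) s := by
        refine Finset.sum_congr rfl fun i _ => ?_
        rw [hV]
        simp only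
        rw [sum_inner, Finset.mul_sum]
        refine Finset.sum_congr rfl fun j _ => ?_
        rw [real_inner_smul_left]
        ring
      rw [hsumV]
      have habs : |∑ i, p i * inner ℝ (V i) s| ≤ ∑ i, p i * (‖V i‖ * ‖s‖) := by
        refine (Finset.abs_sum_le_sum_abs _ _).trans (Finset.sum_le_sum fun i _ => ?_)
        rw [abs_mul, abs_of_nonneg (hp0 i)]
        exact mul_le_mul_of_nonneg_left (abs_real_inner_le_norm _ _) (hp0 i)
      refine habs.trans ?_
      by_cases hdeg : w.natDegree = 1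
      · -- linear member
        have hmem : w.coeff 1 ∈ A := by
          rw [hA]
          exact Finset.mem_image_of_mem _ (Finset.mem_filter.2 ⟨hw, hdeg⟩)
        have hVi : ∀ i, ‖V i‖ ≤ ε / (‖s‖ + 1) := by
          intro i
          have hev : ∀ x : ℝ, w.eval x = w.coeff 0 + w.coeff 1 * x := by
            intro x
            rw [Polynomial.eval_eq_sum_range, hdeg, Finset.sum_range_succ, Finset.sum_range_one]
            simp
          have h1 : V i = T (w.coeff 0 + w.coeff 1 * t i) (∑ j, q j • T (w.coeff 1 * h j) s) := by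
            rw [hV]
            simp only
            rw [map_sum]
            refine Finset.sum_congr rfl fun j _ => ?_
            rw [map_smul, hadd, hev]
            congr 3
            ring
          rw [h1, LinearIsometryEquiv.norm_map]
          exact hlin _ hmem
        have h2 : ∀ i ∈ (Finset.univ : Finset I), p i * (‖V i‖ * ‖s‖) ≤ p i * ε := by
          intro i _
          refine mul_le_mul_of_nonneg_left ?_ (hp0 i)
          calc ‖V i‖ * ‖s‖ ≤ ε / (‖s‖ + 1) * ‖s‖ := by
                gcongr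
                exact hVi i
            _ ≤ ε := by
                rw [div_mul_eq_mul_div, div_le_iff₀ (by positivity)]
                nlinarith [norm_nonneg s]
        refine (Finset.sum_le_sum h2).trans ?_
        rw [← Finset.sum_mul, hp1, one_mul]
      · -- higher degree
        have hdeg2 : 2 ≤ w.natDegree := by
          have := (hW w hw).1
          omega
        have hsq : ∑ i, p i * ‖V i‖ ^ 2 ≤ ‖s‖ ^ 2 / K + ε' := by
          have hVsq : ∀ i, ‖V i‖ ^ 2 = ∑ j, ∑ k, q j * q k *
              inner ℝ (T (w.eval (t i + h j) - w.eval (t i + h k)) s) s := by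
            intro i
            rw [← real_inner_self_eq_norm_sq, hV]
            simp only
            rw [sum_inner]
            refine Finset.sum_congr rfl fun j _ => ?_
            rw [inner_sum]
            refine Finset.sum_congr rfl fun k _ => ?_
            rw [real_inner_smul_left, real_inner_smul_right, hinn]
            ring
          have hswap : ∑ i, p i * ‖V i‖ ^ 2 = ∑ j, ∑ k, q j * q k * ∑ i, p i *
              inner ℝ (T (w.eval (t i + h j) - w.eval (t i + h k)) s) s := by
            simp only [hVsq, Finset.mul_sum]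
            rw [Finset.sum_comm]
            refine Finset.sum_congr rfl fun j _ => ?_
            rw [Finset.sum_comm]
            refine Finset.sum_congr rfl fun k _ => ?_
            refine Finset.sum_congr rfl fun i _ => ?_
            ring
          rw [hswap]
          have hterm : ∀ j k, q j * q k * ∑ i, p i *
              inner ℝ (T (w.eval (t i + h j) - w.eval (t i + h k)) s) s ≤
              (if h j = h k then q j * q k else 0) * ‖s‖ ^ 2 + q j * q k * ε' := by
            intro j k
            have hqq : 0 ≤ q j * q k := mul_nonneg (hq0 j) (hq0 k)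
            by_cases hjk : h j = h k
            · rw [if_pos hjk]
              have : ∑ i, p i * inner ℝ (T (w.eval (t i + h j) - w.eval (t i + h k)) s) s =
                  ‖s‖ ^ 2 := by
                simp only [hjk, sub_self, hzero, real_inner_self_eq_norm_sq]
                rw [← Finset.sum_mul, hp1, one_mul]
              rw [this]
              have := mul_nonneg hqq hε'pos.le
              linarith
            · rw [if_neg hjk, zero_mul, zero_add]
              refine mul_le_mul_of_nonneg_left ?_ hqq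
              have hm : Polynomial.taylor (h j) w - Polynomial.taylor (h k) w ∈ W' := by
                rw [hW', Finset.mem_image]
                refine ⟨(w, j, k), ?_, rfl⟩
                rw [Finset.mem_filter, Finset.mem_product, Finset.mem_filter]
                exact ⟨⟨⟨hw, hdeg2⟩, Finset.mem_univ _⟩, hjk⟩
              have h3 := (abs_le.1 (hin _ hm)).2
              refine le_trans (le_of_eq ?_) h3
              refine Finset.sum_congr rfl fun i _ => ?_
              rw [Polynomial.eval_sub, Polynomial.taylor_eval, Polynomial.taylor_eval]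
          refine (Finset.sum_le_sum fun j _ => Finset.sum_le_sum fun k _ => hterm j k).trans ?_
          simp only [Finset.sum_add_distrib]
          have h4 : ∑ j, ∑ k, (if h j = h k then q j * q k else 0) * ‖s‖ ^ 2 ≤ ‖s‖ ^ 2 / K := by
            simp only [← Finset.sum_mul]
            calc (∑ j, ∑ k, if h j = h k then q j * q k else 0) * ‖s‖ ^ 2
                ≤ 1 / (K : ℝ) * ‖s‖ ^ 2 := by gcongr
              _ = ‖s‖ ^ 2 / K := by ring
          have h5 : ∑ j, ∑ k, q j * q k * ε' = ε' := by
            simp only [← Finset.sum_mul, ← Finset.mul_sum, hq1, mul_one, one_mul]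
          linarith
        have hcs : (∑ i, p i * ‖V i‖) ^ 2 ≤ ∑ i, p i * ‖V i‖ ^ 2 := by
          have h6 := Finset.sum_mul_sq_le_sq_mul_sq Finset.univ (fun i => Real.sqrt (p i))
            (fun i => Real.sqrt (p i) * ‖V i‖)
          have h7 : ∀ i, Real.sqrt (p i) * (Real.sqrt (p i) * ‖V i‖) = p i * ‖V i‖ := by
            intro i
            rw [← mul_assoc, Real.mul_self_sqrt (hp0 i)]
          have h8 : ∀ i, Real.sqrt (p i) ^ 2 = p i := fun i => Real.sq_sqrt (hp0 i)
          simp only [h7, h8, mul_pow, hp1, one_mul] at h6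
          exact h6
        have hfin : ((∑ i, p i * ‖V i‖) * ‖s‖) ^ 2 ≤ ε ^ 2 := by
          calc ((∑ i, p i * ‖V i‖) * ‖s‖) ^ 2 = (∑ i, p i * ‖V i‖) ^ 2 * ‖s‖ ^ 2 := by ring
            _ ≤ (‖s‖ ^ 2 / K + ε') * ‖s‖ ^ 2 := by
                gcongr
                exact hcs.trans hsq
            _ = ‖s‖ ^ 4 / K + ε' * ‖s‖ ^ 2 := by ring
            _ ≤ ε ^ 2 := by linarith
        have h9 : ∑ i, p i * (‖V i‖ * ‖s‖) = (∑ i, p i * ‖V i‖) * ‖s‖ := by
          rw [Finset.sum_mul]
          refine Finset.sum_congr rfl fun i _ => ?_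
          ring
        rw [h9]
        exact le_of_sq_le_sq hfin hε.le

end Pool.Agent.H93.EG
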